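import Pool.Agent.H3.Alt.BData

set_option autoImplicit false

namespace Pool.Agent.H3.Alt.B

open Pool.Agent.H3.Alt

theorem hD : ∀ i < 48, ckD 48 T zd xd 3 4 i = true :=
  allB_spec _ 48 (by decide +kernel)

theorem hL : ∀ i < 48, ckL zd xd D i = true :=
  allB_spec _ 48 (by decide +kernel)

theorem hI : ∀ i < 48, ckI 48 T zd xd 3 4 D i = true :=
  allB_spec _ 48 (by decide +kernel)

theorem superAlt : SuperAlt (cc 48 T) (fun i => xd i) := superAlt_of_check hD hL hI

end Pool.Agent.H3.Alt.B
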