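import Pool.Agent.H3.Alt.Chk

/-!
# Structure constants of the superalgebra `B`
-/

set_option autoImplicit false

namespace Pool.Agent.H3.Alt.B

open Pool.Agent.H3.Alt

/-- part of the table -/
def t0 : Tr := (Tr.nd (Tr.nd (Tr.nd (Tr.nd (Tr.nd Tr.nil (nat_lit 0) [(nat_lit 2, Int.ofNat (nat_lit 1))] Tr.nil) (nat_lit 1) [(nat_lit 4, Int.ofNat (nat_lit 1))] (Tr.nd Tr.nil (nat_lit 2) [(nat_lit 6, Int.ofNat (nat_lit 1))] Tr.nil)) (nat_lit 3) [(nat_lit 9, Int.ofNat (nat_lit 1))] (Tr.nd (Tr.nd Tr.nil (nat_lit 4) [(nat_lit 10, Int.ofNat (nat_lit 1))] Tr.nil) (nat_lit 5) [(nat_lit 14, Int.ofNat (nat_lit 1))] Tr.nil)) (nat_lit 6) [(nat_lit 16, Int.ofNat (nat_lit 2))] (Tr.nd (Tr.nd (Tr.nd Tr.nil (nat_lit 7) [(nat_lit 16, Int.negSucc (nat_lit 6))] Tr.nil) (nat_lit 8) [(nat_lit 17, Int.ofNat (nat_lit 1)), (nat_lit 19, Int.ofNat (nat_lit 1)),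 (nat_lit 21, Int.negSucc (nat_lit 0))] Tr.nil) (nat_lit 9) [(nat_lit 18, Int.ofNat (nat_lit 1)), (nat_lit 20, Int.ofNat (nat_lit 1)), (nat_lit 21, Int.negSucc (nat_lit 0))] (Tr.nd (Tr.nd Tr.nil (nat_lit 10) [(nat_lit 17, Int.ofNat (nat_lit 1)), (nat_lit 18, Int.negSucc (nat_lit 0)), (nat_lit 19, Int.ofNat (nat_lit 1))] Tr.nil) (nat_lit 11) [(nat_lit 19, Int.ofNat (nat_lit 1)), (nat_lit 21, Int.negSucc (nat_lit 0))] Tr.nil))) (nat_lit 12) [(nat_lit 25, Int.ofNat (nat_lit 1))] (Tr.nd (Tr.nd (Tr.nd (Tr.nd Tr.nil (nat_lit 13) [(nat_lit 27, Int.ofNat (nat_lit 1)), (nat_lit 28, Int.ofNat (nat_lit 1))] Tr.nil) (nat_lit 14) [(nat_lit 26, Int.ofNat (nat_lit 1)), (nat_lit 29, Int.ofNat (nat_lit 1))] Tr.nil) (nat_lit 15) [(nat_lit 33, Int.ofNat (nat_lit 1))] (Tr.nd (Tr.nd Tr.nil (nat_lit 17) [(nat_lit 34, Int.negSucc (nat_lit 0))] Tr.nil)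 (nat_lit 18) [(nat_lit 34, Int.negSucc (nat_lit 0))] Tr.nil)) (nat_lit 19) [(nat_lit 34, Int.negSucc (nat_lit 3))] (Tr.nd (Tr.nd (Tr.nd Tr.nil (nat_lit 20) [(nat_lit 34, Int.ofNat (nat_lit 1))] Tr.nil) (nat_lit 21) [(nat_lit 34, Int.negSucc (nat_lit 2))] Tr.nil) (nat_lit 22) [(nat_lit 37, Int.ofNat (nat_lit 3)), (nat_lit 39, Int.negSucc (nat_lit 2))] (Tr.nd (Tr.nd Tr.nil (nat_lit 23) [(nat_lit 36, Int.ofNat (nat_lit 1)), (nat_lit 38, Int.ofNat (nat_lit 1)), (nat_lit 39, Int.ofNat (nat_lit 3))] Tr.nil) (nat_lit 24) [(nat_lit 36, Int.ofNat (nat_lit 1)), (nat_lit 38, Int.ofNat (nat_lit 3)), (nat_lit 39, Int.negSucc (nat_lit 1))] Tr.nil))))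

/-- part of the table -/
def t1 : Tr := (Tr.nd (Tr.nd (Tr.nd (Tr.nd (Tr.nd Tr.nil (nat_lit 26) [(nat_lit 35, Int.ofNat (nat_lit 1)), (nat_lit 36, Int.negSucc (nat_lit 1)), (nat_lit 38, Int.negSucc (nat_lit 0)), (nat_lit 39, Int.negSucc (nat_lit 1))] Tr.nil) (nat_lit 27) [(nat_lit 35, Int.ofNat (nat_lit 1)), (nat_lit 37, Int.ofNat (nat_lit 3)), (nat_lit 38, Int.negSucc (nat_lit 3))] Tr.nil) (nat_lit 28) [(nat_lit 35, Int.negSucc (nat_lit 0)), (nat_lit 38, Int.ofNat (nat_lit 4))] (Tr.nd (Tr.nd Tr.nil (nat_lit 29) [(nat_lit 35, Int.negSucc (nat_lit 0)), (nat_lit 36, Int.ofNat (nat_lit 4)), (nat_lit 37, Int.ofNat (nat_lit 4)), (nat_lit 38, Int.ofNat (nat_lit 5)), (nat_lit 39, Int.ofNat (nat_lit 1))] Tr.nil) (nat_lit 30) [(nat_lit 42, Int.negSucc (nat_lit 1)), (nat_lit 43, Int.ofNat (nat_lit 2))] Tr.nil)) (nat_lit 31) [(nat_lit 40,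 Int.ofNat (nat_lit 1)), (nat_lit 43, Int.negSucc (nat_lit 2))] (Tr.nd (Tr.nd (Tr.nd Tr.nil (nat_lit 32) [(nat_lit 40, Int.ofNat (nat_lit 1)), (nat_lit 42, Int.ofNat (nat_lit 2)), (nat_lit 43, Int.negSucc (nat_lit 3))] Tr.nil) (nat_lit 33) [(nat_lit 42, Int.ofNat (nat_lit 2)), (nat_lit 43, Int.ofNat (nat_lit 1))] Tr.nil) (nat_lit 36) [(nat_lit 44, Int.negSucc (nat_lit 0))] (Tr.nd (Tr.nd Tr.nil (nat_lit 37) [(nat_lit 44, Int.ofNat (nat_lit 1))] Tr.nil) (nat_lit 38) [(nat_lit 44, Int.ofNat (nat_lit 1))] Tr.nil))) (nat_lit 40) [(nat_lit 45, Int.ofNat (nat_lit 2))] (Tr.nd (Tr.nd (Tr.nd (Tr.nd Tr.nil (nat_lit 41) [(nat_lit 45, Int.ofNat (nat_lit 1)), (nat_lit 46, Int.negSucc (nat_lit 0))] Tr.nil) (nat_lit 42) [(nat_lit 45, Int.ofNat (nat_lit 1))] Tr.nil) (nat_lit 46) [(nat_lit 47, Int.ofNat (nat_lit 1))] (Tr.nd (Tr.nd Tr.nil (nat_lit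 48) [(nat_lit 3, Int.ofNat (nat_lit 1))] Tr.nil) (nat_lit 49) [(nat_lit 5, Int.ofNat (nat_lit 1))] Tr.nil)) (nat_lit 50) [(nat_lit 8, Int.ofNat (nat_lit 1))] (Tr.nd (Tr.nd (Tr.nd Tr.nil (nat_lit 51) [(nat_lit 12, Int.ofNat (nat_lit 1))] Tr.nil) (nat_lit 52) [(nat_lit 13, Int.ofNat (nat_lit 1))] Tr.nil) (nat_lit 53) [(nat_lit 15, Int.ofNat (nat_lit 1))] (Tr.nd (Tr.nd Tr.nil (nat_lit 54) [(nat_lit 20, Int.ofNat (nat_lit 1))] Tr.nil) (nat_lit 55) [(nat_lit 20, Int.ofNat (nat_lit 1))] Tr.nil))))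

/-- part of the table -/
def t2 : Tr := Tr.nd t0 (nat_lit 25) [(nat_lit 36, Int.negSucc (nat_lit 1)), (nat_lit 37, Int.negSucc (nat_lit 0)), (nat_lit 38, Int.negSucc (nat_lit 3)), (nat_lit 39, Int.negSucc (nat_lit 1))] t1

/-- part of the table -/
def t3 : Tr := (Tr.nd (Tr.nd (Tr.nd (Tr.nd (Tr.nd Tr.nil (nat_lit 57) [(nat_lit 23, Int.ofNat (nat_lit 1))] Tr.nil) (nat_lit 58) [(nat_lit 24, Int.ofNat (nat_lit 1)), (nat_lit 28, Int.negSucc (nat_lit 0)), (nat_lit 29, Int.ofNat (nat_lit 1))] (Tr.nd Tr.nil (nat_lit 59) [(nat_lit 24, Int.ofNat (nat_lit 1))] Tr.nil)) (nat_lit 60) [(nat_lit 30, Int.ofNat (nat_lit 1))] (Tr.nd (Tr.nd Tr.nil (nat_lit 61) [(nat_lit 31, Int.ofNat (nat_lit 1))] Tr.nil) (nat_lit 62) [(nat_lit 32, Int.ofNat (nat_lit 1))] Tr.nil)) (nat_lit 65) [(nat_lit 36, Int.negSucc (nat_lit 0)), (nat_lit 37, Int.ofNat (nat_lit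 3))] (Tr.nd (Tr.nd (Tr.nd Tr.nil (nat_lit 66) [(nat_lit 36, Int.ofNat (nat_lit 3))] Tr.nil) (nat_lit 67) [(nat_lit 36, Int.ofNat (nat_lit 1))] Tr.nil) (nat_lit 70) [(nat_lit 43, Int.ofNat (nat_lit 3))] (Tr.nd (Tr.nd Tr.nil (nat_lit 71) [(nat_lit 40, Int.ofNat (nat_lit 1)), (nat_lit 42, Int.negSucc (nat_lit 2)), (nat_lit 43, Int.ofNat (nat_lit 1))] Tr.nil) (nat_lit 72) [(nat_lit 41, Int.ofNat (nat_lit 3)), (nat_lit 43, Int.negSucc (nat_lit 2))] Tr.nil))) (nat_lit 73) [(nat_lit 40, Int.ofNat (nat_lit 1)), (nat_lit 42, Int.negSucc (nat_lit 3)), (nat_lit 43, Int.ofNat (nat_lit 1))] (Tr.nd (Tr.nd (Tr.nd (Tr.nd Tr.nil (nat_lit 74) [(nat_lit 41, Int.ofNat (nat_lit 2)), (nat_lit 42, Int.ofNat (nat_lit 1)), (nat_lit 43, Int.negSucc (nat_lit 2))] Tr.nil) (nat_lit 75) [(nat_lit 41, Int.negSucc (nat_lit 0)), (nat_lit 42, Int.ofNat (nat_lit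 1)), (nat_lit 43, Int.ofNat (nat_lit 1))] Tr.nil) (nat_lit 76) [(nat_lit 41, Int.ofNat (nat_lit 1)), (nat_lit 43, Int.negSucc (nat_lit 0))] (Tr.nd (Tr.nd Tr.nil (nat_lit 77) [(nat_lit 41, Int.negSucc (nat_lit 1)), (nat_lit 42, Int.ofNat (nat_lit 1)), (nat_lit 43, Int.ofNat (nat_lit 2))] Tr.nil) (nat_lit 83) [(nat_lit 46, Int.ofNat (nat_lit 1))] Tr.nil)) (nat_lit 85) [(nat_lit 45, Int.ofNat (nat_lit 1))] (Tr.nd (Tr.nd (Tr.nd Tr.nil (nat_lit 96) [(nat_lit 7, Int.ofNat (nat_lit 1))] Tr.nil) (nat_lit 97) [(nat_lit 11, Int.ofNat (nat_lit 1))] Tr.nil) (nat_lit 98) [(nat_lit 16, Int.ofNat (nat_lit 2))] (Tr.nd (Tr.nd Tr.nil (nat_lit 99) [(nat_lit 17, Int.negSucc (nat_lit 0)), (nat_lit 18, Int.negSucc (nat_lit 0)), (nat_lit 20, Int.ofNat (nat_lit 1)), (nat_lit 21, Int.ofNat (nat_lit 1))] Tr.nil) (nat_lit 100) [(nat_lit 19, Int.ofNat (nat_lit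 1))] Tr.nil))))

/-- part of the table -/
def t4 : Tr := (Tr.nd (Tr.nd (Tr.nd (Tr.nd (Tr.nd Tr.nil (nat_lit 104) [(nat_lit 34, Int.ofNat (nat_lit 1))] Tr.nil) (nat_lit 105) [(nat_lit 34, Int.ofNat (nat_lit 3))] Tr.nil) (nat_lit 106) [(nat_lit 34, Int.negSucc (nat_lit 0))] (Tr.nd (Tr.nd Tr.nil (nat_lit 107) [(nat_lit 34, Int.ofNat (nat_lit 2))] Tr.nil) (nat_lit 108) [(nat_lit 36, Int.negSucc (nat_lit 1)), (nat_lit 37, Int.negSucc (nat_lit 2)), (nat_lit 38, Int.ofNat (nat_lit 2)), (nat_lit 39, Int.ofNat (nat_lit 3))] Tr.nil)) (nat_lit 109) [(nat_lit 35, Int.negSucc (nat_lit 1)), (nat_lit 36, Int.negSucc (nat_lit 0)), (nat_lit 38, Int.negSucc (nat_lit 0)), (nat_lit 39, Int.ofNat (nat_lit 2))] (Tr.nd (Tr.nd (Tr.nd Tr.nil (nat_lit 110) [(nat_lit 35, Int.ofNat (nat_lit 1)), (nat_lit 36, Int.negSucc (nat_lit 1)), (nat_lit 38, Int.ofNat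 (nat_lit 2)), (nat_lit 39, Int.ofNat (nat_lit 1))] Tr.nil) (nat_lit 111) [(nat_lit 40, Int.negSucc (nat_lit 0)), (nat_lit 41, Int.ofNat (nat_lit 1)), (nat_lit 43, Int.negSucc (nat_lit 1))] Tr.nil) (nat_lit 119) [(nat_lit 44, Int.ofNat (nat_lit 3))] (Tr.nd (Tr.nd Tr.nil (nat_lit 120) [(nat_lit 44, Int.negSucc (nat_lit 0))] Tr.nil) (nat_lit 121) [(nat_lit 44, Int.negSucc (nat_lit 1))] Tr.nil))) (nat_lit 122) [(nat_lit 44, Int.negSucc (nat_lit 1))] (Tr.nd (Tr.nd (Tr.nd (Tr.nd Tr.nil (nat_lit 123) [(nat_lit 44, Int.negSucc (nat_lit 5))] Tr.nil) (nat_lit 124) [(nat_lit 44, Int.ofNat (nat_lit 3))] Tr.nil) (nat_lit 125) [(nat_lit 44, Int.ofNat (nat_lit 3))] (Tr.nd (Tr.nd Tr.nil (nat_lit 126) [(nat_lit 45, Int.ofNat (nat_lit 3)), (nat_lit 46, Int.ofNat (nat_lit 1))] Tr.nil) (nat_lit 127) [(nat_lit 45, Int.negSucc (nat_lit 0)), (nat_lit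 46, Int.negSucc (nat_lit 0))] Tr.nil)) (nat_lit 128) [(nat_lit 45, Int.negSucc (nat_lit 0))] (Tr.nd (Tr.nd (Tr.nd Tr.nil (nat_lit 129) [(nat_lit 45, Int.ofNat (nat_lit 2)), (nat_lit 46, Int.negSucc (nat_lit 3))] Tr.nil) (nat_lit 136) [(nat_lit 47, Int.negSucc (nat_lit 0))] Tr.nil) (nat_lit 137) [(nat_lit 47, Int.negSucc (nat_lit 0))] (Tr.nd (Tr.nd Tr.nil (nat_lit 139) [(nat_lit 47, Int.negSucc (nat_lit 0))] Tr.nil) (nat_lit 144) [(nat_lit 8, Int.ofNat (nat_lit 1)), (nat_lit 10, Int.negSucc (nat_lit 0)), (nat_lit 11, Int.ofNat (nat_lit 1))] Tr.nil))))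

/-- part of the table -/
def t5 : Tr := Tr.nd t3 (nat_lit 101) [(nat_lit 26, Int.ofNat (nat_lit 1))] t4

/-- part of the table -/
def t6 : Tr := Tr.nd t2 (nat_lit 56) [(nat_lit 22, Int.ofNat (nat_lit 1))] t5

/-- part of the table -/
def t7 : Tr := (Tr.nd (Tr.nd (Tr.nd (Tr.nd (Tr.nd Tr.nil (nat_lit 146) [(nat_lit 20, Int.ofNat (nat_lit 1)), (nat_lit 21, Int.negSucc (nat_lit 0))] Tr.nil) (nat_lit 147) [(nat_lit 23, Int.ofNat (nat_lit 1)), (nat_lit 28, Int.negSucc (nat_lit 0))] (Tr.nd Tr.nil (nat_lit 148) [(nat_lit 24, Int.ofNat (nat_lit 1))] Tr.nil)) (nat_lit 149) [(nat_lit 32, Int.ofNat (nat_lit 1))] (Tr.nd (Tr.nd Tr.nil (nat_lit 152) [(nat_lit 37, Int.ofNat (nat_lit 3)), (nat_lit 38, Int.negSucc (nat_lit 2)), (nat_lit 39, Int.negSucc (nat_lit 2))] Tr.nil) (nat_lit 153) [(nat_lit 35, Int.ofNat (nat_lit 2)), (nat_lit 36, Int.ofNat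 (nat_lit 3)), (nat_lit 37, Int.negSucc (nat_lit 2)), (nat_lit 38, Int.ofNat (nat_lit 1)), (nat_lit 39, Int.negSucc (nat_lit 1))] Tr.nil)) (nat_lit 154) [(nat_lit 35, Int.negSucc (nat_lit 2)), (nat_lit 36, Int.ofNat (nat_lit 1)), (nat_lit 37, Int.ofNat (nat_lit 3)), (nat_lit 39, Int.negSucc (nat_lit 0))] (Tr.nd (Tr.nd (Tr.nd Tr.nil (nat_lit 155) [(nat_lit 36, Int.ofNat (nat_lit 1))] Tr.nil) (nat_lit 156) [(nat_lit 41, Int.negSucc (nat_lit 0)), (nat_lit 42, Int.negSucc (nat_lit 4))] Tr.nil) (nat_lit 157) [(nat_lit 41, Int.negSucc (nat_lit 0)), (nat_lit 42, Int.ofNat (nat_lit 1)), (nat_lit 43, Int.ofNat (nat_lit 1))] (Tr.nd (Tr.nd Tr.nil (nat_lit 158) [(nat_lit 41, Int.ofNat (nat_lit 3)), (nat_lit 42, Int.ofNat (nat_lit 1)), (nat_lit 43, Int.negSucc (nat_lit 3))] Tr.nil) (nat_lit 161) [(nat_lit 44, Int.ofNat (nat_lit 3))] Tr.nil)))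 (nat_lit 166) [(nat_lit 46, Int.ofNat (nat_lit 3))] (Tr.nd (Tr.nd (Tr.nd (Tr.nd Tr.nil (nat_lit 167) [(nat_lit 45, Int.ofNat (nat_lit 1)), (nat_lit 46, Int.negSucc (nat_lit 0))] Tr.nil) (nat_lit 169) [(nat_lit 45, Int.negSucc (nat_lit 2)), (nat_lit 46, Int.ofNat (nat_lit 1))] Tr.nil) (nat_lit 170) [(nat_lit 46, Int.ofNat (nat_lit 1))] (Tr.nd (Tr.nd Tr.nil (nat_lit 171) [(nat_lit 46, Int.ofNat (nat_lit 3))] Tr.nil) (nat_lit 172) [(nat_lit 46, Int.negSucc (nat_lit 3))] Tr.nil)) (nat_lit 173) [(nat_lit 45, Int.ofNat (nat_lit 4))] (Tr.nd (Tr.nd (Tr.nd Tr.nil (nat_lit 181) [(nat_lit 47, Int.negSucc (nat_lit 0))] Tr.nil) (nat_lit 192) [(nat_lit 9, Int.ofNat (nat_lit 1)), (nat_lit 10, Int.ofNat (nat_lit 1)), (nat_lit 11, Int.negSucc (nat_lit 0))] Tr.nil) (nat_lit 193) [(nat_lit 14, Int.ofNat (nat_lit 1))] (Tr.nd (Tr.nd Tr.nil (nat_lit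 194) [(nat_lit 17, Int.ofNat (nat_lit 1)), (nat_lit 19, Int.ofNat (nat_lit 1))] Tr.nil) (nat_lit 195) [(nat_lit 25, Int.ofNat (nat_lit 1)), (nat_lit 28, Int.ofNat (nat_lit 1))] Tr.nil))))

/-- part of the table -/
def t8 : Tr := (Tr.nd (Tr.nd (Tr.nd (Tr.nd (Tr.nd Tr.nil (nat_lit 197) [(nat_lit 33, Int.ofNat (nat_lit 1))] Tr.nil) (nat_lit 198) [(nat_lit 34, Int.ofNat (nat_lit 1))] Tr.nil) (nat_lit 199) [(nat_lit 34, Int.ofNat (nat_lit 1))] (Tr.nd (Tr.nd Tr.nil (nat_lit 200) [(nat_lit 37, Int.ofNat (nat_lit 3)), (nat_lit 38, Int.ofNat (nat_lit 3))] Tr.nil) (nat_lit 201) [(nat_lit 35, Int.negSucc (nat_lit 1)), (nat_lit 36, Int.ofNat (nat_lit 1)), (nat_lit 37, Int.ofNat (nat_lit 3)), (nat_lit 39, Int.ofNat (nat_lit 5))] Tr.nil)) (nat_lit 202) [(nat_lit 35, Int.ofNat (nat_lit 3)), (nat_lit 36, Int.ofNat (nat_lit 1)), (nat_lit 37, Int.ofNat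 (nat_lit 4)), (nat_lit 38, Int.ofNat (nat_lit 4))] (Tr.nd (Tr.nd (Tr.nd Tr.nil (nat_lit 203) [(nat_lit 36, Int.ofNat (nat_lit 1)), (nat_lit 38, Int.ofNat (nat_lit 3)), (nat_lit 39, Int.negSucc (nat_lit 1))] Tr.nil) (nat_lit 204) [(nat_lit 40, Int.ofNat (nat_lit 1)), (nat_lit 41, Int.ofNat (nat_lit 1)), (nat_lit 42, Int.negSucc (nat_lit 0)), (nat_lit 43, Int.ofNat (nat_lit 3))] Tr.nil) (nat_lit 205) [(nat_lit 40, Int.ofNat (nat_lit 1)), (nat_lit 41, Int.ofNat (nat_lit 1)), (nat_lit 43, Int.negSucc (nat_lit 3))] (Tr.nd (Tr.nd Tr.nil (nat_lit 206) [(nat_lit 40, Int.ofNat (nat_lit 1)), (nat_lit 41, Int.negSucc (nat_lit 2)), (nat_lit 42, Int.ofNat (nat_lit 3)), (nat_lit 43, Int.negSucc (nat_lit 0))] Tr.nil) (nat_lit 209) [(nat_lit 44, Int.ofNat (nat_lit 1))] Tr.nil))) (nat_lit 210) [(nat_lit 44, Int.negSucc (nat_lit 2))] (Tr.nd (Tr.nd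 (Tr.nd (Tr.nd Tr.nil (nat_lit 211) [(nat_lit 44, Int.negSucc (nat_lit 0))] Tr.nil) (nat_lit 214) [(nat_lit 45, Int.ofNat (nat_lit 3)), (nat_lit 46, Int.negSucc (nat_lit 2))] Tr.nil) (nat_lit 215) [(nat_lit 45, Int.negSucc (nat_lit 1)), (nat_lit 46, Int.ofNat (nat_lit 1))] (Tr.nd (Tr.nd Tr.nil (nat_lit 216) [(nat_lit 45, Int.ofNat (nat_lit 3)), (nat_lit 46, Int.negSucc (nat_lit 2))] Tr.nil) (nat_lit 217) [(nat_lit 46, Int.negSucc (nat_lit 0))] Tr.nil)) (nat_lit 218) [(nat_lit 45, Int.ofNat (nat_lit 3)), (nat_lit 46, Int.negSucc (nat_lit 1))] (Tr.nd (Tr.nd (Tr.nd Tr.nil (nat_lit 219) [(nat_lit 45, Int.ofNat (nat_lit 3)), (nat_lit 46, Int.negSucc (nat_lit 0))] Tr.nil) (nat_lit 220) [(nat_lit 45, Int.ofNat (nat_lit 1)), (nat_lit 46, Int.ofNat (nat_lit 2))] Tr.nil) (nat_lit 221) [(nat_lit 45, Int.negSucc (nat_lit 0)), (nat_lit 46, Int.ofNat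 (nat_lit 1))] (Tr.nd (Tr.nd Tr.nil (nat_lit 227) [(nat_lit 47, Int.ofNat (nat_lit 1))] Tr.nil) (nat_lit 229) [(nat_lit 47, Int.ofNat (nat_lit 1))] Tr.nil))))

/-- part of the table -/
def t9 : Tr := Tr.nd t7 (nat_lit 196) [(nat_lit 27, Int.ofNat (nat_lit 1)), (nat_lit 29, Int.ofNat (nat_lit 1))] t8

/-- part of the table -/
def t10 : Tr := (Tr.nd (Tr.nd (Tr.nd (Tr.nd (Tr.nd Tr.nil (nat_lit 241) [(nat_lit 15, Int.ofNat (nat_lit 1))] Tr.nil) (nat_lit 242) [(nat_lit 22, Int.ofNat (nat_lit 1))] Tr.nil) (nat_lit 243) [(nat_lit 30, Int.ofNat (nat_lit 1))] (Tr.nd (Tr.nd Tr.nil (nat_lit 244) [(nat_lit 31, Int.ofNat (nat_lit 1))] Tr.nil) (nat_lit 248) [(nat_lit 43, Int.ofNat (nat_lit 3))] Tr.nil)) (nat_lit 249) [(nat_lit 40, Int.ofNat (nat_lit 1)), (nat_lit 42, Int.negSucc (nat_lit 2)), (nat_lit 43, Int.ofNat (nat_lit 1))] (Tr.nd (Tr.nd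 (Tr.nd Tr.nil (nat_lit 250) [(nat_lit 42, Int.ofNat (nat_lit 1))] Tr.nil) (nat_lit 251) [(nat_lit 41, Int.ofNat (nat_lit 3)), (nat_lit 43, Int.negSucc (nat_lit 2))] Tr.nil) (nat_lit 257) [(nat_lit 45, Int.ofNat (nat_lit 3))] (Tr.nd (Tr.nd Tr.nil (nat_lit 288) [(nat_lit 16, Int.negSucc (nat_lit 6))] Tr.nil) (nat_lit 289) [(nat_lit 19, Int.ofNat (nat_lit 1)), (nat_lit 21, Int.negSucc (nat_lit 1))] Tr.nil))) (nat_lit 291) [(nat_lit 34, Int.negSucc (nat_lit 2))] (Tr.nd (Tr.nd (Tr.nd (Tr.nd Tr.nil (nat_lit 292) [(nat_lit 34, Int.negSucc (nat_lit 6))] Tr.nil) (nat_lit 293) [(nat_lit 35, Int.ofNat (nat_lit 1)), (nat_lit 36, Int.negSucc (nat_lit 1)), (nat_lit 38, Int.negSucc (nat_lit 3)), (nat_lit 39, Int.negSucc (nat_lit 4))] Tr.nil) (nat_lit 300) [(nat_lit 44, Int.ofNat (nat_lit 4))] (Tr.nd (Tr.nd Tr.nil (nat_lit 301) [(nat_lit 44, Int.ofNat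 (nat_lit 3))] Tr.nil) (nat_lit 302) [(nat_lit 44, Int.ofNat (nat_lit 7))] Tr.nil)) (nat_lit 303) [(nat_lit 45, Int.negSucc (nat_lit 3)), (nat_lit 46, Int.ofNat (nat_lit 2))] (Tr.nd (Tr.nd (Tr.nd Tr.nil (nat_lit 318) [(nat_lit 47, Int.ofNat (nat_lit 4))] Tr.nil) (nat_lit 319) [(nat_lit 47, Int.negSucc (nat_lit 3))] Tr.nil) (nat_lit 320) [(nat_lit 47, Int.negSucc (nat_lit 2))] (Tr.nd (Tr.nd Tr.nil (nat_lit 321) [(nat_lit 47, Int.negSucc (nat_lit 6))] Tr.nil) (nat_lit 336) [(nat_lit 16, Int.ofNat (nat_lit 2))] Tr.nil))))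

/-- part of the table -/
def t11 : Tr := (Tr.nd (Tr.nd (Tr.nd (Tr.nd (Tr.nd Tr.nil (nat_lit 339) [(nat_lit 34, Int.ofNat (nat_lit 6))] Tr.nil) (nat_lit 340) [(nat_lit 34, Int.ofNat (nat_lit 2))] Tr.nil) (nat_lit 341) [(nat_lit 35, Int.ofNat (nat_lit 1)), (nat_lit 36, Int.negSucc (nat_lit 1)), (nat_lit 38, Int.ofNat (nat_lit 5)), (nat_lit 39, Int.ofNat (nat_lit 4))] (Tr.nd (Tr.nd Tr.nil (nat_lit 348) [(nat_lit 44, Int.negSucc (nat_lit 4))] Tr.nil) (nat_lit 349) [(nat_lit 44, Int.negSucc (nat_lit 5))] Tr.nil)) (nat_lit 350) [(nat_lit 44, Int.negSucc (nat_lit 1))] (Tr.nd (Tr.nd (Tr.nd Tr.nil (nat_lit 351) [(nat_lit 45, Int.ofNat (nat_lit 5)), (nat_lit 46, Int.negSucc (nat_lit 6))] Tr.nil) (nat_lit 366) [(nat_lit 47, Int.negSucc (nat_lit 4))] Tr.nil) (nat_lit 367) [(nat_lit 47, Int.ofNat (nat_lit 5))] (Tr.nd (Tr.nd Tr.nil (nat_lit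 368) [(nat_lit 47, Int.ofNat (nat_lit 6))] Tr.nil) (nat_lit 369) [(nat_lit 47, Int.ofNat (nat_lit 2))] Tr.nil))) (nat_lit 384) [(nat_lit 20, Int.ofNat (nat_lit 1)), (nat_lit 21, Int.ofNat (nat_lit 1))] (Tr.nd (Tr.nd (Tr.nd (Tr.nd Tr.nil (nat_lit 385) [(nat_lit 24, Int.ofNat (nat_lit 1))] Tr.nil) (nat_lit 387) [(nat_lit 36, Int.negSucc (nat_lit 1)), (nat_lit 37, Int.negSucc (nat_lit 2)), (nat_lit 38, Int.ofNat (nat_lit 3)), (nat_lit 39, Int.ofNat (nat_lit 3))] Tr.nil) (nat_lit 388) [(nat_lit 36, Int.ofNat (nat_lit 1))] (Tr.nd (Tr.nd Tr.nil (nat_lit 389) [(nat_lit 41, Int.ofNat (nat_lit 2)), (nat_lit 42, Int.ofNat (nat_lit 1)), (nat_lit 43, Int.negSucc (nat_lit 2))] Tr.nil) (nat_lit 393) [(nat_lit 44, Int.ofNat (nat_lit 3))] Tr.nil)) (nat_lit 396) [(nat_lit 46, Int.negSucc (nat_lit 2))] (Tr.nd (Tr.nd (Tr.nd Tr.nil (nat_lit 397) [(nat_lit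 46, Int.negSucc (nat_lit 1))] Tr.nil) (nat_lit 398) [(nat_lit 46, Int.ofNat (nat_lit 1))] Tr.nil) (nat_lit 407) [(nat_lit 47, Int.negSucc (nat_lit 2))] (Tr.nd (Tr.nd Tr.nil (nat_lit 409) [(nat_lit 47, Int.negSucc (nat_lit 2))] Tr.nil) (nat_lit 432) [(nat_lit 17, Int.negSucc (nat_lit 0)), (nat_lit 18, Int.negSucc (nat_lit 0)), (nat_lit 19, Int.ofNat (nat_lit 1))] Tr.nil))))

/-- part of the table -/
def t12 : Tr := Tr.nd t10 (nat_lit 337) [(nat_lit 19, Int.ofNat (nat_lit 1)), (nat_lit 21, Int.ofNat (nat_lit 1))] t11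

/-- part of the table -/
def t13 : Tr := Tr.nd t9 (nat_lit 240) [(nat_lit 12, Int.ofNat (nat_lit 1))] t12

/-- part of the table -/
def t14 : Tr := Tr.nd t6 (nat_lit 145) [(nat_lit 13, Int.ofNat (nat_lit 1))] t13

/-- part of the table -/
def t15 : Tr := (Tr.nd (Tr.nd (Tr.nd (Tr.nd (Tr.nd Tr.nil (nat_lit 434) [(nat_lit 34, Int.ofNat (nat_lit 7))] Tr.nil) (nat_lit 435) [(nat_lit 35, Int.negSucc (nat_lit 0)), (nat_lit 36, Int.ofNat (nat_lit 1)), (nat_lit 37, Int.ofNat (nat_lit 1)), (nat_lit 38, Int.negSucc (nat_lit 0)), (nat_lit 39, Int.ofNat (nat_lit 7))] (Tr.nd Tr.nil (nat_lit 436) [(nat_lit 35, Int.ofNat (nat_lit 1)), (nat_lit 36, Int.negSucc (nat_lit 3)), (nat_lit 37, Int.negSucc (nat_lit 2)), (nat_lit 38, Int.ofNat (nat_lit 2)), (nat_lit 39, Int.ofNat (nat_lit 1))] Tr.nil)) (nat_lit 437) [(nat_lit 41, Int.negSucc (nat_lit 1)),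 (nat_lit 42, Int.ofNat (nat_lit 1)), (nat_lit 43, Int.negSucc (nat_lit 3))] (Tr.nd (Tr.nd Tr.nil (nat_lit 440) [(nat_lit 44, Int.negSucc (nat_lit 5))] Tr.nil) (nat_lit 441) [(nat_lit 44, Int.negSucc (nat_lit 4))] Tr.nil)) (nat_lit 442) [(nat_lit 44, Int.negSucc (nat_lit 4))] (Tr.nd (Tr.nd (Tr.nd Tr.nil (nat_lit 443) [(nat_lit 44, Int.negSucc (nat_lit 3))] Tr.nil) (nat_lit 444) [(nat_lit 45, Int.negSucc (nat_lit 1)), (nat_lit 46, Int.ofNat (nat_lit 4))] Tr.nil) (nat_lit 445) [(nat_lit 46, Int.ofNat (nat_lit 1))] (Tr.nd (Tr.nd Tr.nil (nat_lit 446) [(nat_lit 45, Int.negSucc (nat_lit 0)), (nat_lit 46, Int.negSucc (nat_lit 3))] Tr.nil) (nat_lit 454) [(nat_lit 47, Int.ofNat (nat_lit 3))] Tr.nil))) (nat_lit 456) [(nat_lit 47, Int.ofNat (nat_lit 3))] (Tr.nd (Tr.nd (Tr.nd (Tr.nd Tr.nil (nat_lit 457) [(nat_lit 47, Int.ofNat (nat_lit 1))]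 Tr.nil) (nat_lit 458) [(nat_lit 47, Int.ofNat (nat_lit 4))] Tr.nil) (nat_lit 459) [(nat_lit 47, Int.ofNat (nat_lit 5))] (Tr.nd (Tr.nd Tr.nil (nat_lit 460) [(nat_lit 47, Int.negSucc (nat_lit 2))] Tr.nil) (nat_lit 461) [(nat_lit 47, Int.ofNat (nat_lit 2))] Tr.nil)) (nat_lit 480) [(nat_lit 18, Int.ofNat (nat_lit 1)), (nat_lit 20, Int.ofNat (nat_lit 1))] (Tr.nd (Tr.nd (Tr.nd Tr.nil (nat_lit 481) [(nat_lit 26, Int.ofNat (nat_lit 1)), (nat_lit 28, Int.ofNat (nat_lit 1))] Tr.nil) (nat_lit 482) [(nat_lit 34, Int.negSucc (nat_lit 1))] Tr.nil) (nat_lit 483) [(nat_lit 36, Int.negSucc (nat_lit 6)), (nat_lit 37, Int.negSucc (nat_lit 3)), (nat_lit 38, Int.negSucc (nat_lit 0)), (nat_lit 39, Int.ofNat (nat_lit 1))] (Tr.nd (Tr.nd Tr.nil (nat_lit 484) [(nat_lit 36, Int.ofNat (nat_lit 4))] Tr.nil) (nat_lit 485) [(nat_lit 41, Int.ofNat (nat_lit 2)),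 (nat_lit 42, Int.ofNat (nat_lit 1)), (nat_lit 43, Int.negSucc (nat_lit 0))] Tr.nil))))

/-- part of the table -/
def t16 : Tr := (Tr.nd (Tr.nd (Tr.nd (Tr.nd (Tr.nd Tr.nil (nat_lit 489) [(nat_lit 44, Int.ofNat (nat_lit 3))] Tr.nil) (nat_lit 490) [(nat_lit 44, Int.ofNat (nat_lit 3))] Tr.nil) (nat_lit 491) [(nat_lit 44, Int.ofNat (nat_lit 2))] (Tr.nd (Tr.nd Tr.nil (nat_lit 492) [(nat_lit 45, Int.negSucc (nat_lit 0)), (nat_lit 46, Int.negSucc (nat_lit 2))] Tr.nil) (nat_lit 493) [(nat_lit 45, Int.negSucc (nat_lit 0)), (nat_lit 46, Int.negSucc (nat_lit 1))] Tr.nil)) (nat_lit 494) [(nat_lit 46, Int.ofNat (nat_lit 1))] (Tr.nd (Tr.nd (Tr.nd Tr.nil (nat_lit 503) [(nat_lit 47, Int.negSucc (nat_lit 2))] Tr.nil) (nat_lit 504) [(nat_lit 47, Int.negSucc (nat_lit 2))] Tr.nil) (nat_lit 505) [(nat_lit 47, Int.negSucc (nat_lit 2))] (Tr.nd (Tr.nd Tr.nil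 (nat_lit 506) [(nat_lit 47, Int.negSucc (nat_lit 1))] Tr.nil) (nat_lit 507) [(nat_lit 47, Int.ofNat (nat_lit 1))] Tr.nil))) (nat_lit 508) [(nat_lit 47, Int.negSucc (nat_lit 0))] (Tr.nd (Tr.nd (Tr.nd (Tr.nd Tr.nil (nat_lit 509) [(nat_lit 47, Int.ofNat (nat_lit 2))] Tr.nil) (nat_lit 528) [(nat_lit 17, Int.negSucc (nat_lit 0)), (nat_lit 18, Int.negSucc (nat_lit 0)), (nat_lit 20, Int.ofNat (nat_lit 1))] Tr.nil) (nat_lit 529) [(nat_lit 26, Int.ofNat (nat_lit 1))] (Tr.nd (Tr.nd Tr.nil (nat_lit 530) [(nat_lit 34, Int.ofNat (nat_lit 1))] Tr.nil) (nat_lit 531) [(nat_lit 36, Int.negSucc (nat_lit 1)), (nat_lit 37, Int.negSucc (nat_lit 2)), (nat_lit 38, Int.negSucc (nat_lit 0))] Tr.nil)) (nat_lit 532) [(nat_lit 35, Int.negSucc (nat_lit 1)), (nat_lit 36, Int.negSucc (nat_lit 0)), (nat_lit 38, Int.negSucc (nat_lit 0)), (nat_lit 39, Int.ofNat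 (nat_lit 2))] (Tr.nd (Tr.nd (Tr.nd Tr.nil (nat_lit 533) [(nat_lit 40, Int.negSucc (nat_lit 0)), (nat_lit 41, Int.ofNat (nat_lit 1)), (nat_lit 43, Int.negSucc (nat_lit 1))] Tr.nil) (nat_lit 538) [(nat_lit 44, Int.negSucc (nat_lit 0))] Tr.nil) (nat_lit 539) [(nat_lit 44, Int.negSucc (nat_lit 0))] (Tr.nd (Tr.nd Tr.nil (nat_lit 540) [(nat_lit 46, Int.ofNat (nat_lit 4))] Tr.nil) (nat_lit 541) [(nat_lit 45, Int.negSucc (nat_lit 0)), (nat_lit 46, Int.negSucc (nat_lit 0))] Tr.nil))))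

/-- part of the table -/
def t17 : Tr := Tr.nd t15 (nat_lit 488) [(nat_lit 44, Int.ofNat (nat_lit 3))] t16

/-- part of the table -/
def t18 : Tr := (Tr.nd (Tr.nd (Tr.nd (Tr.nd (Tr.nd Tr.nil (nat_lit 550) [(nat_lit 47, Int.negSucc (nat_lit 2))] Tr.nil) (nat_lit 551) [(nat_lit 47, Int.ofNat (nat_lit 1))] (Tr.nd Tr.nil (nat_lit 553) [(nat_lit 47, Int.ofNat (nat_lit 1))] Tr.nil)) (nat_lit 554) [(nat_lit 47, Int.ofNat (nat_lit 1))] (Tr.nd (Tr.nd Tr.nil (nat_lit 576) [(nat_lit 22, Int.ofNat (nat_lit 1)), (nat_lit 29, Int.negSucc (nat_lit 0))] Tr.nil) (nat_lit 577) [(nat_lit 31, Int.ofNat (nat_lit 1))] Tr.nil)) (nat_lit 578) [(nat_lit 38, Int.negSucc (nat_lit 2)), (nat_lit 39, Int.negSucc (nat_lit 2))] (Tr.nd (Tr.nd (Tr.nd Tr.nil (nat_lit 579) [(nat_lit 41, Int.negSucc (nat_lit 1)), (nat_lit 42, Int.negSucc (nat_lit 3)), (nat_lit 43,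 Int.ofNat (nat_lit 1))] Tr.nil) (nat_lit 580) [(nat_lit 41, Int.ofNat (nat_lit 2)), (nat_lit 43, Int.negSucc (nat_lit 1))] Tr.nil) (nat_lit 584) [(nat_lit 46, Int.ofNat (nat_lit 3))] (Tr.nd (Tr.nd Tr.nil (nat_lit 585) [(nat_lit 45, Int.negSucc (nat_lit 1)), (nat_lit 46, Int.ofNat (nat_lit 1))] Tr.nil) (nat_lit 586) [(nat_lit 45, Int.ofNat (nat_lit 3)), (nat_lit 46, Int.ofNat (nat_lit 1))] Tr.nil))) (nat_lit 593) [(nat_lit 47, Int.negSucc (nat_lit 2))] (Tr.nd (Tr.nd (Tr.nd (Tr.nd Tr.nil (nat_lit 624) [(nat_lit 23, Int.ofNat (nat_lit 1))] Tr.nil) (nat_lit 625) [(nat_lit 32, Int.ofNat (nat_lit 1))] Tr.nil) (nat_lit 626) [(nat_lit 37, Int.ofNat (nat_lit 3))] (Tr.nd (Tr.nd Tr.nil (nat_lit 627) [(nat_lit 40, Int.ofNat (nat_lit 1)), (nat_lit 42, Int.negSucc (nat_lit 3)), (nat_lit 43, Int.ofNat (nat_lit 1))] Tr.nil) (nat_lit 628) [(nat_lit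 42, Int.ofNat (nat_lit 1))] Tr.nil)) (nat_lit 632) [(nat_lit 45, Int.ofNat (nat_lit 3))] (Tr.nd (Tr.nd (Tr.nd Tr.nil (nat_lit 634) [(nat_lit 45, Int.ofNat (nat_lit 4))] Tr.nil) (nat_lit 672) [(nat_lit 25, Int.ofNat (nat_lit 1)), (nat_lit 29, Int.ofNat (nat_lit 1))] Tr.nil) (nat_lit 673) [(nat_lit 33, Int.ofNat (nat_lit 1))] (Tr.nd (Tr.nd Tr.nil (nat_lit 674) [(nat_lit 37, Int.ofNat (nat_lit 3)), (nat_lit 38, Int.ofNat (nat_lit 3))] Tr.nil) (nat_lit 675) [(nat_lit 40, Int.ofNat (nat_lit 1)), (nat_lit 41, Int.ofNat (nat_lit 2)), (nat_lit 42, Int.negSucc (nat_lit 0)), (nat_lit 43, Int.ofNat (nat_lit 2))] Tr.nil))))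

/-- part of the table -/
def t19 : Tr := (Tr.nd (Tr.nd (Tr.nd (Tr.nd (Tr.nd Tr.nil (nat_lit 680) [(nat_lit 45, Int.ofNat (nat_lit 3)), (nat_lit 46, Int.negSucc (nat_lit 2))] Tr.nil) (nat_lit 681) [(nat_lit 45, Int.ofNat (nat_lit 1)), (nat_lit 46, Int.negSucc (nat_lit 0))] Tr.nil) (nat_lit 682) [(nat_lit 45, Int.ofNat (nat_lit 1)), (nat_lit 46, Int.negSucc (nat_lit 0))] (Tr.nd (Tr.nd Tr.nil (nat_lit 683) [(nat_lit 45, Int.ofNat (nat_lit 3)), (nat_lit 46, Int.negSucc (nat_lit 2))] Tr.nil) (nat_lit 689) [(nat_lit 47, Int.ofNat (nat_lit 3))] Tr.nil)) (nat_lit 720) [(nat_lit 30, Int.ofNat (nat_lit 1))] (Tr.nd (Tr.nd (Tr.nd Tr.nil (nat_lit 722) [(nat_lit 43, Int.ofNat (nat_lit 3))] Tr.nil) (nat_lit 769) [(nat_lit 34, Int.ofNat (nat_lit 1))] Tr.nil) (nat_lit 773) [(nat_lit 44, Int.negSucc (nat_lit 0))] (Tr.nd (Tr.nd Tr.nil (nat_lit 783)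 [(nat_lit 47, Int.ofNat (nat_lit 1))] Tr.nil) (nat_lit 816) [(nat_lit 34, Int.negSucc (nat_lit 4))] Tr.nil))) (nat_lit 817) [(nat_lit 35, Int.negSucc (nat_lit 0)), (nat_lit 36, Int.ofNat (nat_lit 3)), (nat_lit 38, Int.ofNat (nat_lit 1)), (nat_lit 39, Int.negSucc (nat_lit 2))] (Tr.nd (Tr.nd (Tr.nd (Tr.nd Tr.nil (nat_lit 819) [(nat_lit 44, Int.ofNat (nat_lit 7))] Tr.nil) (nat_lit 820) [(nat_lit 44, Int.ofNat (nat_lit 2))] Tr.nil) (nat_lit 821) [(nat_lit 45, Int.ofNat (nat_lit 1)), (nat_lit 46, Int.ofNat (nat_lit 2))] (Tr.nd (Tr.nd Tr.nil (nat_lit 828) [(nat_lit 47, Int.negSucc (nat_lit 3))] Tr.nil) (nat_lit 829) [(nat_lit 47, Int.negSucc (nat_lit 3))] Tr.nil)) (nat_lit 830) [(nat_lit 47, Int.negSucc (nat_lit 1))] (Tr.nd (Tr.nd (Tr.nd Tr.nil (nat_lit 864) [(nat_lit 34, Int.ofNat (nat_lit 1))] Tr.nil) (nat_lit 865) [(nat_lit 35, Int.ofNat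 (nat_lit 3)), (nat_lit 36, Int.negSucc (nat_lit 0)), (nat_lit 39, Int.ofNat (nat_lit 1))] Tr.nil) (nat_lit 867) [(nat_lit 44, Int.negSucc (nat_lit 3))] (Tr.nd (Tr.nd Tr.nil (nat_lit 868) [(nat_lit 44, Int.negSucc (nat_lit 0))] Tr.nil) (nat_lit 869) [(nat_lit 46, Int.negSucc (nat_lit 0))] Tr.nil))))

/-- part of the table -/
def t20 : Tr := Tr.nd t18 (nat_lit 676) [(nat_lit 40, Int.ofNat (nat_lit 1)), (nat_lit 41, Int.negSucc (nat_lit 1)), (nat_lit 42, Int.ofNat (nat_lit 1)), (nat_lit 43, Int.negSucc (nat_lit 0))] t19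

/-- part of the table -/
def t21 : Tr := Tr.nd t17 (nat_lit 542) [(nat_lit 45, Int.negSucc (nat_lit 0))] t20

/-- part of the table -/
def t22 : Tr := (Tr.nd (Tr.nd (Tr.nd (Tr.nd (Tr.nd Tr.nil (nat_lit 878) [(nat_lit 47, Int.ofNat (nat_lit 1))] Tr.nil) (nat_lit 912) [(nat_lit 34, Int.ofNat (nat_lit 3))] (Tr.nd Tr.nil (nat_lit 913) [(nat_lit 35, Int.ofNat (nat_lit 1)), (nat_lit 36, Int.negSucc (nat_lit 1)), (nat_lit 38, Int.ofNat (nat_lit 2)), (nat_lit 39, Int.ofNat (nat_lit 1))] Tr.nil)) (nat_lit 915) [(nat_lit 44, Int.negSucc (nat_lit 1))] (Tr.nd (Tr.nd Tr.nil (nat_lit 916) [(nat_lit 44, Int.negSucc (nat_lit 2))] Tr.nil) (nat_lit 917) [(nat_lit 45, Int.ofNat (nat_lit 2)), (nat_lit 46, Int.negSucc (nat_lit 3))] Tr.nil)) (nat_lit 924) [(nat_lit 47, Int.negSucc (nat_lit 1))] (Tr.nd (Tr.nd (Tr.nd Tr.nil (nat_lit 925) [(nat_lit 47,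 Int.ofNat (nat_lit 2))] Tr.nil) (nat_lit 926) [(nat_lit 47, Int.ofNat (nat_lit 3))] Tr.nil) (nat_lit 961) [(nat_lit 36, Int.ofNat (nat_lit 1))] (Tr.nd (Tr.nd Tr.nil (nat_lit 965) [(nat_lit 46, Int.ofNat (nat_lit 1))] Tr.nil) (nat_lit 1008) [(nat_lit 34, Int.ofNat (nat_lit 3))] Tr.nil))) (nat_lit 1009) [(nat_lit 38, Int.ofNat (nat_lit 3)), (nat_lit 39, Int.ofNat (nat_lit 3))] (Tr.nd (Tr.nd (Tr.nd (Tr.nd Tr.nil (nat_lit 1011) [(nat_lit 44, Int.negSucc (nat_lit 2))] Tr.nil) (nat_lit 1012) [(nat_lit 44, Int.negSucc (nat_lit 2))] Tr.nil) (nat_lit 1013) [(nat_lit 45, Int.ofNat (nat_lit 3)), (nat_lit 46, Int.negSucc (nat_lit 2))] (Tr.nd (Tr.nd Tr.nil (nat_lit 1020) [(nat_lit 47, Int.negSucc (nat_lit 2))] Tr.nil) (nat_lit 1021) [(nat_lit 47, Int.ofNat (nat_lit 3))] Tr.nil)) (nat_lit 1022) [(nat_lit 47, Int.ofNat (nat_lit 3))] (Tr.nd (Tr.nd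 (Tr.nd Tr.nil (nat_lit 1056) [(nat_lit 38, Int.ofNat (nat_lit 3)), (nat_lit 39, Int.ofNat (nat_lit 3))] Tr.nil) (nat_lit 1057) [(nat_lit 41, Int.ofNat (nat_lit 3)), (nat_lit 43, Int.negSucc (nat_lit 2))] Tr.nil) (nat_lit 1059) [(nat_lit 46, Int.negSucc (nat_lit 2))] (Tr.nd (Tr.nd Tr.nil (nat_lit 1065) [(nat_lit 47, Int.negSucc (nat_lit 2))] Tr.nil) (nat_lit 1104) [(nat_lit 35, Int.negSucc (nat_lit 1)), (nat_lit 36, Int.negSucc (nat_lit 0)), (nat_lit 38, Int.negSucc (nat_lit 0)), (nat_lit 39, Int.ofNat (nat_lit 2))] Tr.nil))))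

/-- part of the table -/
def t23 : Tr := (Tr.nd (Tr.nd (Tr.nd (Tr.nd (Tr.nd Tr.nil (nat_lit 1106) [(nat_lit 44, Int.negSucc (nat_lit 2))] Tr.nil) (nat_lit 1108) [(nat_lit 46, Int.negSucc (nat_lit 0))] Tr.nil) (nat_lit 1112) [(nat_lit 47, Int.ofNat (nat_lit 3))] (Tr.nd (Tr.nd Tr.nil (nat_lit 1114) [(nat_lit 47, Int.ofNat (nat_lit 4))] Tr.nil) (nat_lit 1152) [(nat_lit 36, Int.negSucc (nat_lit 1)), (nat_lit 37, Int.negSucc (nat_lit 2))] Tr.nil)) (nat_lit 1153) [(nat_lit 41, Int.ofNat (nat_lit 2)), (nat_lit 42, Int.ofNat (nat_lit 1)), (nat_lit 43, Int.negSucc (nat_lit 2))] (Tr.nd (Tr.nd (Tr.nd Tr.nil (nat_lit 1155) [(nat_lit 45, Int.negSucc (nat_lit 2))] Tr.nil) (nat_lit 1156) [(nat_lit 46, Int.negSucc (nat_lit 1))] Tr.nil) (nat_lit 1200) [(nat_lit 35, Int.ofNat (nat_lit 1)), (nat_lit 36, Int.negSucc (nat_lit 3)), (nat_lit 37, Int.negSucc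 (nat_lit 2)), (nat_lit 38, Int.ofNat (nat_lit 1)), (nat_lit 39, Int.ofNat (nat_lit 1))] (Tr.nd (Tr.nd Tr.nil (nat_lit 1201) [(nat_lit 41, Int.negSucc (nat_lit 0)), (nat_lit 42, Int.negSucc (nat_lit 0)), (nat_lit 43, Int.negSucc (nat_lit 3))] Tr.nil) (nat_lit 1202) [(nat_lit 44, Int.negSucc (nat_lit 5))] Tr.nil))) (nat_lit 1203) [(nat_lit 45, Int.negSucc (nat_lit 1)), (nat_lit 46, Int.ofNat (nat_lit 5))] (Tr.nd (Tr.nd (Tr.nd (Tr.nd Tr.nil (nat_lit 1204) [(nat_lit 45, Int.negSucc (nat_lit 0)), (nat_lit 46, Int.negSucc (nat_lit 3))] Tr.nil) (nat_lit 1208) [(nat_lit 47, Int.ofNat (nat_lit 3))] Tr.nil) (nat_lit 1209) [(nat_lit 47, Int.ofNat (nat_lit 2))] (Tr.nd (Tr.nd Tr.nil (nat_lit 1210) [(nat_lit 47, Int.ofNat (nat_lit 4))] Tr.nil) (nat_lit 1211) [(nat_lit 47, Int.ofNat (nat_lit 3))] Tr.nil)) (nat_lit 1248) [(nat_lit 36, Int.negSucc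 (nat_lit 1)), (nat_lit 37, Int.negSucc (nat_lit 2)), (nat_lit 38, Int.negSucc (nat_lit 0))] (Tr.nd (Tr.nd (Tr.nd Tr.nil (nat_lit 1249) [(nat_lit 40, Int.negSucc (nat_lit 0)), (nat_lit 41, Int.ofNat (nat_lit 1)), (nat_lit 43, Int.negSucc (nat_lit 1))] Tr.nil) (nat_lit 1251) [(nat_lit 46, Int.ofNat (nat_lit 4))] Tr.nil) (nat_lit 1252) [(nat_lit 45, Int.negSucc (nat_lit 0)), (nat_lit 46, Int.negSucc (nat_lit 0))] (Tr.nd (Tr.nd Tr.nil (nat_lit 1256) [(nat_lit 47, Int.negSucc (nat_lit 2))] Tr.nil) (nat_lit 1257) [(nat_lit 47, Int.ofNat (nat_lit 1))] Tr.nil))))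

/-- part of the table -/
def t24 : Tr := Tr.nd t22 (nat_lit 1105) [(nat_lit 41, Int.negSucc (nat_lit 0)), (nat_lit 42, Int.ofNat (nat_lit 1)), (nat_lit 43, Int.ofNat (nat_lit 1))] t23

/-- part of the table -/
def t25 : Tr := (Tr.nd (Tr.nd (Tr.nd (Tr.nd (Tr.nd Tr.nil (nat_lit 1297) [(nat_lit 41, Int.negSucc (nat_lit 1)), (nat_lit 42, Int.ofNat (nat_lit 1)), (nat_lit 43, Int.negSucc (nat_lit 3))] Tr.nil) (nat_lit 1298) [(nat_lit 44, Int.negSucc (nat_lit 2))] Tr.nil) (nat_lit 1299) [(nat_lit 45, Int.negSucc (nat_lit 0)), (nat_lit 46, Int.ofNat (nat_lit 3))] (Tr.nd (Tr.nd Tr.nil (nat_lit 1300) [(nat_lit 45, Int.negSucc (nat_lit 2)), (nat_lit 46, Int.ofNat (nat_lit 3))] Tr.nil) (nat_lit 1306) [(nat_lit 47, Int.ofNat (nat_lit 4))] Tr.nil)) (nat_lit 1307) [(nat_lit 47, Int.ofNat (nat_lit 3))] (Tr.nd (Tr.nd (Tr.nd Tr.nil (nat_lit 1344)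 [(nat_lit 35, Int.negSucc (nat_lit 2)), (nat_lit 36, Int.negSucc (nat_lit 0)), (nat_lit 37, Int.negSucc (nat_lit 0))] Tr.nil) (nat_lit 1345) [(nat_lit 40, Int.ofNat (nat_lit 1)), (nat_lit 41, Int.ofNat (nat_lit 1)), (nat_lit 42, Int.ofNat (nat_lit 1)), (nat_lit 43, Int.ofNat (nat_lit 1))] Tr.nil) (nat_lit 1346) [(nat_lit 44, Int.ofNat (nat_lit 3))] (Tr.nd (Tr.nd Tr.nil (nat_lit 1347) [(nat_lit 45, Int.negSucc (nat_lit 0)), (nat_lit 46, Int.negSucc (nat_lit 2))] Tr.nil) (nat_lit 1348) [(nat_lit 46, Int.negSucc (nat_lit 3))] Tr.nil))) (nat_lit 1352) [(nat_lit 47, Int.ofNat (nat_lit 3))] (Tr.nd (Tr.nd (Tr.nd (Tr.nd Tr.nil (nat_lit 1355) [(nat_lit 47, Int.negSucc (nat_lit 2))] Tr.nil) (nat_lit 1392) [(nat_lit 37, Int.ofNat (nat_lit 2)), (nat_lit 39, Int.ofNat (nat_lit 1))] Tr.nil) (nat_lit 1393) [(nat_lit 40, Int.ofNat (nat_lit 1)),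 (nat_lit 41, Int.ofNat (nat_lit 2)), (nat_lit 42, Int.ofNat (nat_lit 1))] (Tr.nd (Tr.nd Tr.nil (nat_lit 1394) [(nat_lit 44, Int.ofNat (nat_lit 3))] Tr.nil) (nat_lit 1395) [(nat_lit 45, Int.negSucc (nat_lit 1)), (nat_lit 46, Int.negSucc (nat_lit 6))] Tr.nil)) (nat_lit 1396) [(nat_lit 46, Int.ofNat (nat_lit 1))] (Tr.nd (Tr.nd (Tr.nd Tr.nil (nat_lit 1400) [(nat_lit 47, Int.ofNat (nat_lit 3))] Tr.nil) (nat_lit 1401) [(nat_lit 47, Int.negSucc (nat_lit 3))] Tr.nil) (nat_lit 1403) [(nat_lit 47, Int.negSucc (nat_lit 2))] (Tr.nd (Tr.nd Tr.nil (nat_lit 1440) [(nat_lit 40, Int.negSucc (nat_lit 0)), (nat_lit 41, Int.ofNat (nat_lit 1)), (nat_lit 42, Int.negSucc (nat_lit 1))] Tr.nil) (nat_lit 1442) [(nat_lit 45, Int.negSucc (nat_lit 2)), (nat_lit 46, Int.ofNat (nat_lit 3))] Tr.nil))))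

/-- part of the table -/
def t26 : Tr := (Tr.nd (Tr.nd (Tr.nd (Tr.nd (Tr.nd Tr.nil (nat_lit 1490) [(nat_lit 45, Int.ofNat (nat_lit 3))] Tr.nil) (nat_lit 1536) [(nat_lit 40, Int.ofNat (nat_lit 1)), (nat_lit 41, Int.ofNat (nat_lit 1)), (nat_lit 42, Int.negSucc (nat_lit 3))] Tr.nil) (nat_lit 1538) [(nat_lit 45, Int.ofNat (nat_lit 3))] (Tr.nd (Tr.nd Tr.nil (nat_lit 1584) [(nat_lit 40, Int.ofNat (nat_lit 1)), (nat_lit 41, Int.negSucc (nat_lit 0)), (nat_lit 43, Int.ofNat (nat_lit 5))] Tr.nil) (nat_lit 1586) [(nat_lit 45, Int.ofNat (nat_lit 3)), (nat_lit 46, Int.negSucc (nat_lit 2))] Tr.nil)) (nat_lit 1633) [(nat_lit 44, Int.negSucc (nat_lit 0))] (Tr.nd (Tr.nd (Tr.nd Tr.nil (nat_lit 1637) [(nat_lit 47, Int.ofNat (nat_lit 1))] Tr.nil) (nat_lit 1680) [(nat_lit 44, Int.negSucc (nat_lit 0))] Tr.nil) (nat_lit 1684) [(nat_lit 47, Int.ofNat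 (nat_lit 1))] (Tr.nd (Tr.nd Tr.nil (nat_lit 1729) [(nat_lit 46, Int.ofNat (nat_lit 1))] Tr.nil) (nat_lit 1776) [(nat_lit 44, Int.ofNat (nat_lit 1))] Tr.nil))) (nat_lit 1779) [(nat_lit 47, Int.negSucc (nat_lit 0))] (Tr.nd (Tr.nd (Tr.nd (Tr.nd Tr.nil (nat_lit 1825) [(nat_lit 45, Int.ofNat (nat_lit 1)), (nat_lit 46, Int.negSucc (nat_lit 0))] Tr.nil) (nat_lit 1827) [(nat_lit 47, Int.negSucc (nat_lit 0))] Tr.nil) (nat_lit 1872) [(nat_lit 44, Int.negSucc (nat_lit 0))] (Tr.nd (Tr.nd Tr.nil (nat_lit 1876) [(nat_lit 47, Int.ofNat (nat_lit 1))] Tr.nil) (nat_lit 1920) [(nat_lit 45, Int.negSucc (nat_lit 1)), (nat_lit 46, Int.negSucc (nat_lit 2))] Tr.nil)) (nat_lit 1922) [(nat_lit 47, Int.ofNat (nat_lit 3))] (Tr.nd (Tr.nd (Tr.nd Tr.nil (nat_lit 1968) [(nat_lit 46, Int.negSucc (nat_lit 0))] Tr.nil) (nat_lit 2016) [(nat_lit 46, Int.negSucc (nat_lit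 0))] Tr.nil) (nat_lit 2064) [(nat_lit 45, Int.ofNat (nat_lit 1)), (nat_lit 46, Int.negSucc (nat_lit 0))] (Tr.nd (Tr.nd Tr.nil (nat_lit 2113) [(nat_lit 47, Int.negSucc (nat_lit 0))] Tr.nil) (nat_lit 2160) [(nat_lit 47, Int.negSucc (nat_lit 0))] Tr.nil))))

/-- part of the table -/
def t27 : Tr := Tr.nd t25 (nat_lit 1488) [(nat_lit 40, Int.ofNat (nat_lit 1)), (nat_lit 41, Int.negSucc (nat_lit 0)), (nat_lit 42, Int.negSucc (nat_lit 2)), (nat_lit 43, Int.ofNat (nat_lit 2))] t26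

/-- part of the table -/
def t28 : Tr := Tr.nd t24 (nat_lit 1296) [(nat_lit 35, Int.ofNat (nat_lit 1)), (nat_lit 36, Int.ofNat (nat_lit 1)), (nat_lit 37, Int.negSucc (nat_lit 1)), (nat_lit 39, Int.ofNat (nat_lit 5))] t27

/-- part of the table -/
def t29 : Tr := Tr.nd t21 (nat_lit 877) [(nat_lit 47, Int.ofNat (nat_lit 4))] t28

/-- part of the table -/
def t30 : Tr := Tr.nd t14 (nat_lit 433) [(nat_lit 27, Int.ofNat (nat_lit 1))] t29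

/-- the table -/
def T : Tr := t30

/-- the `z`-degree -/
def zd (i : ℕ) : ℕ := Nat.mod (Nat.shiftRight (nat_lit 9552017520176900525633970482667221084606984) (Nat.mul (nat_lit 3) i)) (nat_lit 8)

/-- the `x`-degree -/
def xd (i : ℕ) : ℕ := Nat.mod (Nat.shiftRight (nat_lit 12349722297254846400114848976311509668598401) (Nat.mul (nat_lit 3) i)) (nat_lit 8)

/-- basis elements of given degree -/
def TD : Tr := (Tr.nd (Tr.nd (Tr.nd (Tr.nd (Tr.nd Tr.nil (nat_lit 1) [(nat_lit 0, Int.ofNat (nat_lit 0))] Tr.nil) (nat_lit 2) [(nat_lit 2, Int.ofNat (nat_lit 0))] Tr.nil) (nat_lit 3) [(nat_lit 6, Int.ofNat (nat_lit 0)), (nat_lit 7, Int.ofNat (nat_lit 0))] (Tr.nd Tr.nil (nat_lit 4) [(nat_lit 16, Int.ofNat (nat_lit 0))] Tr.nil)) (nat_lit 8) [(nat_lit 1, Int.ofNat (nat_lit 0))] (Tr.nd (Tr.nd (Tr.nd Tr.nil (nat_lit 9) [(nat_lit 3, Int.ofNat (nat_lit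 0)), (nat_lit 4, Int.ofNat (nat_lit 0))] Tr.nil) (nat_lit 10) [(nat_lit 8, Int.ofNat (nat_lit 0)), (nat_lit 9, Int.ofNat (nat_lit 0)), (nat_lit 10, Int.ofNat (nat_lit 0)), (nat_lit 11, Int.ofNat (nat_lit 0))] Tr.nil) (nat_lit 11) [(nat_lit 17, Int.ofNat (nat_lit 0)), (nat_lit 18, Int.ofNat (nat_lit 0)), (nat_lit 19, Int.ofNat (nat_lit 0)), (nat_lit 20, Int.ofNat (nat_lit 0)), (nat_lit 21, Int.ofNat (nat_lit 0))] (Tr.nd Tr.nil (nat_lit 12) [(nat_lit 34, Int.ofNat (nat_lit 0))] Tr.nil))) (nat_lit 16) [(nat_lit 5, Int.ofNat (nat_lit 0))] (Tr.nd (Tr.nd (Tr.nd (Tr.nd Tr.nil (nat_lit 17) [(nat_lit 12, Int.ofNat (nat_lit 0)), (nat_lit 13, Int.ofNat (nat_lit 0)), (nat_lit 14, Int.ofNat (nat_lit 0))] Tr.nil) (nat_lit 18) [(nat_lit 22, Int.ofNat (nat_lit 0)), (nat_lit 23, Int.ofNat (nat_lit 0)), (nat_lit 24, Int.ofNat (nat_lit 0)), (nat_lit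 25, Int.ofNat (nat_lit 0)), (nat_lit 26, Int.ofNat (nat_lit 0)), (nat_lit 27, Int.ofNat (nat_lit 0)), (nat_lit 28, Int.ofNat (nat_lit 0)), (nat_lit 29, Int.ofNat (nat_lit 0))] Tr.nil) (nat_lit 19) [(nat_lit 35, Int.ofNat (nat_lit 0)), (nat_lit 36, Int.ofNat (nat_lit 0)), (nat_lit 37, Int.ofNat (nat_lit 0)), (nat_lit 38, Int.ofNat (nat_lit 0)), (nat_lit 39, Int.ofNat (nat_lit 0))] (Tr.nd Tr.nil (nat_lit 20) [(nat_lit 44, Int.ofNat (nat_lit 0))] Tr.nil)) (nat_lit 24) [(nat_lit 15, Int.ofNat (nat_lit 0))] (Tr.nd (Tr.nd (Tr.nd Tr.nil (nat_lit 25) [(nat_lit 30, Int.ofNat (nat_lit 0)), (nat_lit 31, Int.ofNat (nat_lit 0)), (nat_lit 32, Int.ofNat (nat_lit 0)), (nat_lit 33, Int.ofNat (nat_lit 0))] Tr.nil) (nat_lit 26) [(nat_lit 40, Int.ofNat (nat_lit 0)), (nat_lit 41, Int.ofNat (nat_lit 0)), (nat_lit 42, Int.ofNat (nat_lit 0)), (nat_lit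 43, Int.ofNat (nat_lit 0))] Tr.nil) (nat_lit 27) [(nat_lit 45, Int.ofNat (nat_lit 0)), (nat_lit 46, Int.ofNat (nat_lit 0))] (Tr.nd Tr.nil (nat_lit 28) [(nat_lit 47, Int.ofNat (nat_lit 0))] Tr.nil))))

/-- basis elements of given degree -/
def D (q : ℕ) : List ℕ := (TD.get q).map Prod.fst

end Pool.Agent.H3.Alt.B
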