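import Pool.Agent.H3.Alt.Model
import Pool.Agent.H3.Alt.BChk

/-!
# A model in which `β` has a coefficient one
-/

set_option autoImplicit false

namespace Pool.Agent.H3.Alt

universe u

theorem beta_model (Φ : Type u) [CommRing Φ] : ∃ (M : Type u) (_ : NonUnitalNonAssocRing M)
    (_ : Module Φ M) (_ : IsScalarTower Φ M M) (_ : SMulCommClass Φ M M)
    (_ : H8Alt.IsAlternative M) (z a b c d : M) (φ : M →ₗ[Φ] Φ),
    φ (H8Alt.bt z a b c d) = 1 := by
  obtain ⟨M, i1, i2, i3, i4, i5, ρ, φ, h⟩ := model Φ B.hD B.superAlt 4 1 0 47 (by decide)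
    (by decide) (by decide) (by decide +kernel) (by decide +kernel) btE 1 (by decide +kernel)
  refine ⟨M, i1, i2, i3, i4, i5, ρ 0, ρ 1, ρ 2, ρ 3, ρ 4, φ, ?_⟩
  rw [btE_ev] at h
  rw [h, Int.cast_one]

end Pool.Agent.H3.Alt
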