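import Pool.Agent.H8.Alt.Super.Schemas
import Pool.Agent.H8.Alt.Moufang
import Pool.Agent.H8.Alt.Quintic
import Mathlib.Algebra.Module.Basic
import Mathlib.Algebra.Ring.Basic

/-!
# Validity of the schemas of the super engine
-/

set_option autoImplicit false

namespace Pool.Agent.H3.Alt

open H8Alt H8Alt.Super

theorem cm_eq {A : Type*} [NonUnitalNonAssocRing A] (a b : A) : cm a b = a * b - b * a := rfl

section V1

variable (A : Type*) [NonUnitalNonAssocRing A] [IsAlternative A]

theorem sJac_valid : OValid A sJac := by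
  intro x
  simp only [evalS, sJac, RT.eval, Tr.eval]
  linear_combination (norm := module) jac (x 0) (x 1) (x 2)

theorem sR4_valid : OValid A sR4 := by
  intro x
  simp only [evalS, sR4, RT.eval, Tr.eval]
  linear_combination (norm := module) r4 (x 0) (x 1) (x 2) (x 3)

theorem sFal_valid : OValid A sFal := by
  intro x
  simp only [evalS, sFal, RT.eval, Tr.eval]
  have h1 := kf_eq (x 0) (x 1) (x 2) (x 3)
  have h2 := kf_eq (x 0) (x 2) (x 1) (x 3)
  have h3 := kf_swap23 (x 0) (x 1) (x 2) (x 3)
  linear_combination (norm := module) h3 - h1 - h2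

theorem sB1_valid : OValid A sB1 := by
  intro x
  simp only [evalS, sB1, RT.eval, Tr.eval]
  have h := b1_id (x 4) (x 0) (x 1) (x 2) (x 3)
  rw [cm_add1] at h
  linear_combination (norm := module) h

theorem sPhi_valid : OValid A sPhi := by
  intro x
  simp only [evalS, sPhi, RT.eval, Tr.eval]
  linear_combination (norm := module) phi_id (x 0) (x 1) (x 2) (x 3) (x 4)

theorem sK7_valid : OValid A sK7 := by
  intro x
  simp only [evalS, sK7, RT.eval, Tr.eval]
  have hL := xiL_swap13 (x 0) (x 2) (x 1) (x 3) (x 4)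
  have hR := xiR_swap13 (x 0) (x 2) (x 1) (x 3) (x 4)
  simp only [xiL, xiR] at hL hR
  rw [cm_eq (cm (x 0) (x 2)), cm_eq (cm (x 0) (x 3)), cm_eq (cm (x 1) (x 2)),
    cm_eq (cm (x 1) (x 3))]
  linear_combination (norm := module) - hL - hR

theorem sKj_valid : OValid A sKj := by
  intro x
  simp only [evalS, sKj, RT.eval, Tr.eval]
  have hL := xiL_swap13 (x 0) (x 2) (x 1) (x 3) (x 4)
  have hR := xiR_swap13 (x 0) (x 2) (x 1) (x 3) (x 4)
  simp only [xiL, xiR] at hL hR
  linear_combination (norm := module) - hL + hR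

end V1

/-! ### Derivations -/

/-- all roots are Jordan products -/
def AllJ (s : List (ℤ × RT)) : Prop := ∀ t ∈ s, ∃ u v, t.2 = .j u v

section V2

variable {A : Type*} [NonUnitalNonAssocRing A] [IsAlternative A]

theorem cm_jor (y u v : A) : cm y (u * v + v * u) =
    (cm y u * v + v * cm y u) + (u * cm y v + cm y v * u) := by
  have h1 := cm_mul_left u v y
  have h2 := cm_mul_left v u y
  have h3 := as_swap12 u v y
  rw [cm_add2, cm_swap (u * v) y, cm_swap (v * u) y, h1, h2, h3, cm_swap y u, cm_swap y v]
  simp only [mul_neg, neg_mul]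
  module

theorem as_jor (u v y w : A) : as (u * v + v * u) y w =
    (u * as v y w + as v y w * u) + (as u y w * v + v * as u y w) := by
  have h1 := as_mul_left u v y w
  have h2 := as_mul_left v u y w
  have h3 := kf_swap12 u v y w
  rw [as_add1, h1, h2, h3]
  module

omit [IsAlternative A] in
theorem zsmul_mul_l (k : ℤ) (a b : A) : (k • a) * b = k • (a * b) :=
  map_zsmul (AddMonoidHom.mulRight b) k a

omit [IsAlternative A] in
theorem zsmul_mul_r (k : ℤ) (a b : A) : a * (k • b) = k • (a * b) :=
  map_zsmul (AddMonoidHom.mulLeft a) k b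

omit [IsAlternative A] in
theorem cm_zsmul2 (k : ℤ) (a b : A) : cm a (k • b) = k • cm a b := by
  simp only [cm, zsmul_mul_l, zsmul_mul_r, smul_sub]

omit [IsAlternative A] in
theorem as_zsmul1 (k : ℤ) (a b c : A) : as (k • a) b c = k • as a b c := by
  simp only [as_def, zsmul_mul_l, smul_sub]

theorem evalS_adOp (x : ℕ → A) (y : ℕ) (s : List (ℤ × RT)) (hs : AllJ s) :
    evalS x (adOp y s) = cm (x y) (evalS x s) := by
  induction s with
  | nil => simp [adOp, evalS]
  | cons t s ih =>
    obtain ⟨u, v, huv⟩ := hs t List.mem_cons_self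
    obtain ⟨k, r⟩ := t
    simp only at huv
    subst huv
    simp only [adOp, evalS, RT.eval, Tr.eval]
    rw [ih fun t ht => hs t (List.mem_cons_of_mem _ ht), cm_add2, cm_zsmul2, cm_jor]
    module

theorem evalS_deOp (x : ℕ → A) (y w : ℕ) (s : List (ℤ × RT)) (hs : AllJ s) :
    evalS x (deOp y w s) = as (evalS x s) (x y) (x w) := by
  induction s with
  | nil => simp [deOp, evalS]
  | cons t s ih =>
    obtain ⟨u, v, huv⟩ := hs t List.mem_cons_self
    obtain ⟨k, r⟩ := t
    simp only at huv
    subst huv
    simp only [deOp, evalS, RT.eval, Tr.eval]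
    rw [ih fun t ht => hs t (List.mem_cons_of_mem _ ht), as_add1, as_zsmul1, as_jor]
    module

theorem adOp_allJ (y : ℕ) (s : List (ℤ × RT)) : AllJ (adOp y s) := by
  induction s with
  | nil => intro t ht; simp [adOp] at ht
  | cons t s ih =>
    obtain ⟨k, r⟩ := t
    cases r with
    | c u v => exact ih
    | a u v w => exact ih
    | j u v =>
      intro t ht
      simp only [adOp, List.mem_cons] at ht
      rcases ht with h | h | h
      · exact ⟨_, _, by rw [h]⟩
      · exact ⟨_, _, by rw [h]⟩
      · exact ih t h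

theorem deOp_allJ (y w : ℕ) (s : List (ℤ × RT)) : AllJ (deOp y w s) := by
  induction s with
  | nil => intro t ht; simp [deOp] at ht
  | cons t s ih =>
    obtain ⟨k, r⟩ := t
    cases r with
    | c u v => exact ih
    | a u v w => exact ih
    | j u v =>
      intro t ht
      simp only [deOp, List.mem_cons] at ht
      rcases ht with h | h | h
      · exact ⟨_, _, by rw [h]⟩
      · exact ⟨_, _, by rw [h]⟩
      · exact ih t h

theorem sKj_allJ : AllJ sKj := by
  intro t ht
  simp only [sKj, List.mem_cons, List.not_mem_nil, or_false] at ht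
  rcases ht with h | h | h | h <;> exact ⟨_, _, by rw [h]⟩

variable (A) in
theorem adOp_valid (y : ℕ) (s : List (ℤ × RT)) (hs : AllJ s) (h : OValid A s) :
    OValid A (adOp y s) := by
  intro x
  rw [evalS_adOp x y s hs, h x, cm_zero2]

variable (A) in
theorem deOp_valid (y w : ℕ) (s : List (ℤ × RT)) (hs : AllJ s) (h : OValid A s) :
    OValid A (deOp y w s) := by
  intro x
  rw [evalS_deOp x y w s hs, h x, as_zero1]

/-- nested contexts: `(y, none)` is `[y,-]`, `(y, some w)` is `(-,y,w)` -/
def ctx : List (ℕ × Option ℕ) → List (ℤ × RT) → List (ℤ × RT)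
  | [], s => s
  | (y, none) :: c, s => adOp y (ctx c s)
  | (y, some w) :: c, s => deOp y w (ctx c s)

theorem ctx_allJ (c : List (ℕ × Option ℕ)) (s : List (ℤ × RT)) (hs : AllJ s) : AllJ (ctx c s) := by
  induction c with
  | nil => exact hs
  | cons t c ih =>
    obtain ⟨y, w⟩ := t
    cases w with
    | none => exact adOp_allJ y _
    | some w => exact deOp_allJ y w _

variable (A) in
theorem ctx_valid (c : List (ℕ × Option ℕ)) (s : List (ℤ × RT)) (hs : AllJ s) (h : OValid A s) :
    OValid A (ctx c s) := by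
  induction c with
  | nil => exact h
  | cons t c ih =>
    obtain ⟨y, w⟩ := t
    cases w with
    | none => exact adOp_valid A y _ (ctx_allJ c s hs) ih
    | some w => exact deOp_valid A y w _ (ctx_allJ c s hs) ih

variable (A) in
theorem sKj_ctx_valid (c : List (ℕ × Option ℕ)) : OValid A (ctx c sKj) :=
  ctx_valid A c sKj sKj_allJ (sKj_valid A)

end V2

/-! ### Multilinearity -/

theorem sJac_multi : Multi [0, 1, 2] sJac := by unfold Multi; decide
theorem sR4_multi : Multi [0, 1, 2, 3] sR4 := by unfold Multi; decide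
theorem sFal_multi : Multi [0, 1, 2, 3] sFal := by unfold Multi; decide
theorem sB1_multi : Multi [0, 1, 2, 3, 4] sB1 := by unfold Multi; decide
theorem sPhi_multi : Multi [0, 1, 2, 3, 4] sPhi := by unfold Multi; decide
theorem sK7_multi : Multi [0, 1, 2, 3, 4] sK7 := by unfold Multi; decide
theorem sKj_multi : Multi [0, 1, 2, 3, 4] sKj := by unfold Multi; decide
theorem sKj_ad_multi : Multi [0, 1, 2, 3, 4, 5] (adOp 5 sKj) := by unfold Multi; decide
theorem sKj_de_multi : Multi [0, 1, 2, 3, 4, 5, 6] (deOp 5 6 sKj) := by unfold Multi; decide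

end Pool.Agent.H3.Alt
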