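import Pool.Agent.H3.Alt.Gen

/-!
# Checking superalgebra identities by kernel computation
-/

set_option autoImplicit false
set_option linter.unusedSectionVars false
set_option linter.unusedVariables false

namespace Pool.Agent.H3.Alt

open Finset

universe u

/-! ### Sparse vectors -/

/-- coefficient of a sparse vector -/
def cf : List (ℕ × ℤ) → ℕ → ℤ
  | [], _ => 0
  | p :: L, k => bif Nat.beq p.1 k then p.2 + cf L k else cf L k

lemma cf_cons (p : ℕ × ℤ) (L : List (ℕ × ℤ)) (k : ℕ) :
    cf (p :: L) k = (if p.1 = k then p.2 else 0) + cf L k := by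
  show (bif Nat.beq p.1 k then p.2 + cf L k else cf L k) = _
  by_cases h : p.1 = k
  · rw [if_pos h]
    have : Nat.beq p.1 k = true := Nat.beq_eq.mpr h
    rw [this]; rfl
  · rw [if_neg h]
    have : Nat.beq p.1 k = false := by
      rcases hb : Nat.beq p.1 k with _ | _
      · rfl
      · exact absurd (Nat.beq_eq.mp hb) h
    rw [this, zero_add]; rfl

lemma cf_append (L M : List (ℕ × ℤ)) (k : ℕ) : cf (L ++ M) k = cf L k + cf M k := by
  induction L with
  | nil => simp [cf]
  | cons p L ih => rw [List.cons_append, cf_cons, cf_cons, ih, add_assoc]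

/-- weighted sum over a sparse vector -/
def sC (g : ℕ → ℤ) : List (ℕ × ℤ) → ℤ
  | [] => 0
  | p :: L => p.2 * g p.1 + sC g L

lemma sum_cf (n : ℕ) (L : List (ℕ × ℤ)) (hL : ∀ p ∈ L, p.1 < n) (g : ℕ → ℤ) :
    ∑ r : Fin n, cf L r * g r = sC g L := by
  induction L with
  | nil => simp [cf, sC]
  | cons p L ih =>
    rw [sC, ← ih (fun q hq => hL q (List.mem_cons_of_mem _ hq))]
    simp only [cf_cons, add_mul, Finset.sum_add_distrib]
    congr 1
    have hp : p.1 < n := hL p List.mem_cons_self
    rw [Finset.sum_eq_single (⟨p.1, hp⟩ : Fin n)]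
    · simp
    · intro r _ hr
      rw [if_neg, zero_mul]
      intro h
      exact hr (Fin.ext h.symm)
    · intro h
      exact absurd (Finset.mem_univ _) h

lemma cf_notMem (L : List (ℕ × ℤ)) (k : ℕ) (h : ∀ p ∈ L, p.1 ≠ k) : cf L k = 0 := by
  induction L with
  | nil => rfl
  | cons p L ih =>
    rw [cf_cons, if_neg (h p List.mem_cons_self), zero_add]
    exact ih fun q hq => h q (List.mem_cons_of_mem _ hq)

/-! ### Tables -/

/-- search trees -/
inductive Tr : Type
  | nil : Tr
  | nd (l : Tr) (k : ℕ) (v : List (ℕ × ℤ)) (r : Tr) : Tr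

/-- look up -/
def Tr.get : Tr → ℕ → List (ℕ × ℤ)
  | .nil, _ => []
  | .nd l k v r, q => bif Nat.blt q k then l.get q else bif Nat.blt k q then r.get q else v

/-- bounded quantifier -/
def allB (f : ℕ → Bool) : ℕ → Bool
  | 0 => true
  | k + 1 => f k && allB f k

lemma allB_spec (f : ℕ → Bool) (n : ℕ) (h : allB f n = true) : ∀ k < n, f k = true := by
  induction n with
  | zero => intro k hk; omega
  | succ n ih =>
    intro k hk
    have h' : (f n && allB f n) = true := h
    rw [Bool.and_eq_true] at h'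
    rcases Nat.lt_succ_iff_lt_or_eq.1 hk with h1 | h1
    · exact ih h'.2 k h1
    · rw [h1]; exact h'.1

section

variable (n : ℕ) (T : Tr) (zd xd : ℕ → ℕ) (Z X : ℕ)

/-- product of two basis elements -/
def pr (i j : ℕ) : List (ℕ × ℤ) := T.get (i * n + j)

/-- coefficient of the associator of three basis elements -/
def asC (i j k l : ℕ) : ℤ :=
  sC (fun q => cf (pr n T q k) l) (pr n T i j) - sC (fun q => cf (pr n T i q) l) (pr n T j k)

/-- the sign -/
def sgn (a b : ℕ) : ℤ := bif Nat.beq (a * b % 2) 0 then 1 else -1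

lemma sgn_eq (a b : ℕ) : sgn a b = (-1) ^ (a * b) := by
  unfold sgn
  rcases Nat.mod_two_eq_zero_or_one (a * b) with h | h
  · rw [h, (Nat.even_iff.2 h).neg_one_pow]; rfl
  · rw [h, (Nat.odd_iff.2 h).neg_one_pow]; rfl

/-- degree tests -/
def dg2 (i j : ℕ) : Bool := Nat.ble (zd i + zd j) Z && Nat.ble (xd i + xd j) X

/-- degree tests -/
def dg3 (i j k : ℕ) : Bool := Nat.ble (zd i + zd j + zd k) Z && Nat.ble (xd i + xd j + xd k) X

/-- the two identities for one triple, one coefficient -/
def ck4 (i j k l : ℕ) : Bool :=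
  decide (asC n T j i k l + sgn (xd i) (xd j) * asC n T i j k l = 0) &&
    decide (asC n T i k j l + sgn (xd j) (xd k) * asC n T i j k l = 0)

/-- the two identities for one triple -/
def ck3 (D : ℕ → List ℕ) (i j k : ℕ) : Bool :=
  (D (Nat.add (Nat.mul 8 (zd i + zd j + zd k)) (xd i + xd j + xd k))).all fun l => ck4 n T xd i j k l

/-- all triples starting with `i` -/
def ckI (D : ℕ → List ℕ) (i : ℕ) : Bool :=
  allB (fun j => bif dg2 zd xd Z X i j then
    allB (fun k => bif dg3 zd xd Z X i j k then ck3 n T zd xd D i j k else true) n else true) n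

/-- the lists of basis elements of a given degree are complete -/
def ckL (D : ℕ → List ℕ) (l : ℕ) : Bool := (D (Nat.add (Nat.mul 8 (zd l)) (xd l))).contains l

/-- degrees of the entries in row `i` -/
def ckD (i : ℕ) : Bool :=
  (Nat.ble (zd i) Z && Nat.ble (xd i) X) &&
  allB (fun j => (pr n T i j).all fun p =>
    (Nat.blt p.1 n && Nat.beq (zd p.1) (zd i + zd j)) && Nat.beq (xd p.1) (xd i + xd j)) n

/-- structure constants -/
def cc (i j k : Fin n) : ℤ := cf (pr n T i j) k

variable {n T zd xd Z X}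

lemma ckD_spec (h : ∀ i < n, ckD n T zd xd Z X i = true) (i j : ℕ) (hi : i < n) (hj : j < n)
    (p : ℕ × ℤ) (hp : p ∈ pr n T i j) :
    p.1 < n ∧ zd p.1 = zd i + zd j ∧ xd p.1 = xd i + xd j := by
  have h1 := h i hi
  unfold ckD at h1
  rw [Bool.and_eq_true] at h1
  have h2 := allB_spec _ _ h1.2 j hj
  have h3 := (List.all_eq_true.1 h2) p hp
  rw [Bool.and_eq_true, Bool.and_eq_true] at h3
  exact ⟨Nat.blt_eq.mp h3.1.1, Nat.beq_eq.mp h3.1.2, Nat.beq_eq.mp h3.2⟩

lemma ckD_bd (h : ∀ i < n, ckD n T zd xd Z X i = true) (i : ℕ) (hi : i < n) :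
    zd i ≤ Z ∧ xd i ≤ X := by
  have h1 := h i hi
  unfold ckD at h1
  rw [Bool.and_eq_true, Bool.and_eq_true] at h1
  exact ⟨Nat.ble_eq.mp h1.1.1, Nat.ble_eq.mp h1.1.2⟩

lemma as3_cc (h : ∀ i < n, ckD n T zd xd Z X i = true) (i j k l : Fin n) :
    as3 (cc n T) i j k l = asC n T i j k l := by
  unfold as3 asC
  rw [Finset.sum_sub_distrib]
  have h1 : ∑ r : Fin n, cc n T i j r * cc n T r k l =
      ∑ r : Fin n, cf (pr n T i j) r * (fun q => cf (pr n T q k) l) r := rfl
  have h2 : ∑ r : Fin n, cc n T j k r * cc n T i r l =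
      ∑ r : Fin n, cf (pr n T j k) r * (fun q => cf (pr n T i q) l) r := rfl
  rw [h1, h2, sum_cf n _ (fun p hp => (ckD_spec h i j i.2 j.2 p hp).1)
      (fun q => cf (pr n T q k) l),
    sum_cf n _ (fun p hp => (ckD_spec h j k j.2 k.2 p hp).1) (fun q => cf (pr n T i q) l)]

lemma cc_ne (h : ∀ i < n, ckD n T zd xd Z X i = true) (i j k : Fin n) (hc : cc n T i j k ≠ 0) :
    zd k = zd i + zd j ∧ xd k = xd i + xd j := by
  by_contra hcon
  apply hc
  refine cf_notMem _ _ fun p hp he => hcon ?_
  have := ckD_spec h i j i.2 j.2 p hp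
  rw [he] at this
  exact this.2

lemma as3_zero (h : ∀ i < n, ckD n T zd xd Z X i = true) (i j k l : Fin n)
    (hd : dg3 zd xd Z X i j k = false) : as3 (cc n T) i j k l = 0 := by
  have hd' : ¬ (zd i + zd j + zd k ≤ Z ∧ xd i + xd j + xd k ≤ X) := by
    rintro ⟨h1, h2⟩
    have : dg3 zd xd Z X i j k = true := by
      unfold dg3
      rw [Bool.and_eq_true]
      exact ⟨Nat.ble_eq.mpr h1, Nat.ble_eq.mpr h2⟩
    rw [this] at hd
    exact absurd hd (by decide)
  unfold as3
  refine Finset.sum_eq_zero fun r _ => ?_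
  have hl := ckD_bd h l l.2
  have h1 : cc n T i j r * cc n T r k l = 0 := by
    by_contra hne
    have ha := cc_ne h i j r (left_ne_zero_of_mul hne)
    have hb := cc_ne h r k l (right_ne_zero_of_mul hne)
    exact hd' ⟨by omega, by omega⟩
  have h2 : cc n T j k r * cc n T i r l = 0 := by
    by_contra hne
    have ha := cc_ne h j k r (left_ne_zero_of_mul hne)
    have hb := cc_ne h i r l (right_ne_zero_of_mul hne)
    exact hd' ⟨by omega, by omega⟩
  rw [h1, h2, sub_zero]

lemma as3_zero' (h : ∀ i < n, ckD n T zd xd Z X i = true) (i j k l : Fin n)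
    (hd : ¬ (zd l = zd i + zd j + zd k ∧ xd l = xd i + xd j + xd k)) :
    as3 (cc n T) i j k l = 0 := by
  unfold as3
  refine Finset.sum_eq_zero fun r _ => ?_
  have h1 : cc n T i j r * cc n T r k l = 0 := by
    by_contra hne
    have ha := cc_ne h i j r (left_ne_zero_of_mul hne)
    have hb := cc_ne h r k l (right_ne_zero_of_mul hne)
    exact hd ⟨by omega, by omega⟩
  have h2 : cc n T j k r * cc n T i r l = 0 := by
    by_contra hne
    have ha := cc_ne h j k r (left_ne_zero_of_mul hne)
    have hb := cc_ne h i r l (right_ne_zero_of_mul hne)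
    exact hd ⟨by omega, by omega⟩
  rw [h1, h2, sub_zero]

lemma dg3_perm1 (i j k : ℕ) : dg3 zd xd Z X j i k = dg3 zd xd Z X i j k := by
  unfold dg3
  rw [add_comm (zd j), add_comm (xd j)]

lemma dg3_perm2 (i j k : ℕ) : dg3 zd xd Z X i k j = dg3 zd xd Z X i j k := by
  unfold dg3
  rw [add_right_comm (zd i), add_right_comm (xd i)]

lemma dg2_of_dg3 (i j k : ℕ) (h : dg3 zd xd Z X i j k = true) : dg2 zd xd Z X i j = true := by
  unfold dg3 at h
  rw [Bool.and_eq_true] at h
  have h1 := Nat.ble_eq.mp h.1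
  have h2 := Nat.ble_eq.mp h.2
  unfold dg2
  rw [Bool.and_eq_true]
  exact ⟨Nat.ble_eq.mpr (by omega), Nat.ble_eq.mpr (by omega)⟩

lemma ck4_of {D : ℕ → List ℕ} (hL : ∀ i < n, ckL zd xd D i = true)
    (h : ∀ i < n, ckI n T zd xd Z X D i = true) (i j k l : ℕ)
    (hi : i < n) (hj : j < n) (hk : k < n) (hl : l < n) (hd : dg3 zd xd Z X i j k = true)
    (hzl : zd l = zd i + zd j + zd k) (hxl : xd l = xd i + xd j + xd k) :
    ck4 n T xd i j k l = true := by
  have h1 := allB_spec _ _ (h i hi) j hj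
  rw [dg2_of_dg3 i j k hd] at h1
  have h2 := allB_spec _ _ h1 k hk
  rw [hd] at h2
  have h3 : ck3 n T zd xd D i j k = true := h2
  have h4 := hL l hl
  unfold ckL at h4
  rw [hzl, hxl] at h4
  exact (List.all_eq_true.1 h3) l (List.contains_iff_mem.1 h4)

theorem superAlt_of_check {D : ℕ → List ℕ} (hD : ∀ i < n, ckD n T zd xd Z X i = true)
    (hL : ∀ i < n, ckL zd xd D i = true)
    (hI : ∀ i < n, ckI n T zd xd Z X D i = true) : SuperAlt (cc n T) (fun i => xd i) := by
  have hleft : ∀ i j k l, as3 (cc n T) j i k l = - (-1) ^ (xd i * xd j) * as3 (cc n T) i j k l := by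
    intro i j k l
    rcases hd : dg3 zd xd Z X i j k with _ | _
    · rw [as3_zero hD i j k l hd, as3_zero hD j i k l (by rw [dg3_perm1]; exact hd), mul_zero]
    · by_cases hl : zd l = zd i + zd j + zd k ∧ xd l = xd i + xd j + xd k
      · have h1 := ck4_of hL hI i j k l i.2 j.2 k.2 l.2 hd hl.1 hl.2
        unfold ck4 at h1
        rw [Bool.and_eq_true, decide_eq_true_eq, decide_eq_true_eq] at h1
        have h2 := h1.1
        rw [← as3_cc hD, ← as3_cc hD, sgn_eq] at h2
        linear_combination h2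
      · rw [as3_zero' hD i j k l hl, as3_zero' hD j i k l (fun h => hl ⟨by omega, by omega⟩),
          mul_zero]
  have hright : ∀ i j k l, as3 (cc n T) i k j l = - (-1) ^ (xd j * xd k) * as3 (cc n T) i j k l := by
    intro i j k l
    rcases hd : dg3 zd xd Z X i j k with _ | _
    · rw [as3_zero hD i j k l hd, as3_zero hD i k j l (by rw [dg3_perm2]; exact hd), mul_zero]
    · by_cases hl : zd l = zd i + zd j + zd k ∧ xd l = xd i + xd j + xd k
      · have h1 := ck4_of hL hI i j k l i.2 j.2 k.2 l.2 hd hl.1 hl.2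
        unfold ck4 at h1
        rw [Bool.and_eq_true, decide_eq_true_eq, decide_eq_true_eq] at h1
        have h2 := h1.2
        rw [← as3_cc hD, ← as3_cc hD, sgn_eq] at h2
        linear_combination h2
      · rw [as3_zero' hD i j k l hl, as3_zero' hD i k j l (fun h => hl ⟨by omega, by omega⟩),
          mul_zero]
  refine ⟨fun i j k hc => (cc_ne hD i j k hc).2, hleft, hright, ?_, ?_⟩
  · intro i k l hx
    have h1 := hleft i i k l
    rw [hx] at h1
    simp only [mul_zero, pow_zero] at h1
    linarith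
  · intro i k l hx
    have h1 := hright k i i l
    rw [hx] at h1
    simp only [mul_zero, pow_zero] at h1
    linarith

end

end Pool.Agent.H3.Alt
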