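import Pool.Agent.H3.Alt.Chk
import Pool.Agent.H8.Alt.Nu

/-!
# Evaluating nonassociative expressions in the Grassmann envelope
-/

set_option autoImplicit false
set_option linter.unusedSectionVars false
set_option linter.unusedVariables false

namespace Pool.Agent.H3.Alt

open Finset

universe u

/-! ### Normal forms of sparse vectors -/

/-- insert a term -/
def ins (p : ℕ × ℤ) : List (ℕ × ℤ) → List (ℕ × ℤ)
  | [] => [p]
  | q :: L => bif Nat.beq p.1 q.1 then (q.1, p.2 + q.2) :: L else q :: ins p L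

lemma cf_ins (p : ℕ × ℤ) (L : List (ℕ × ℤ)) (k : ℕ) : cf (ins p L) k = cf (p :: L) k := by
  induction L with
  | nil => rfl
  | cons q L ih =>
    rw [ins]
    rcases hb : Nat.beq p.1 q.1 with _ | _
    · show cf (q :: ins p L) k = _
      rw [cf_cons, ih, cf_cons, cf_cons, cf_cons]
      ring
    · show cf ((q.1, p.2 + q.2) :: L) k = _
      have : p.1 = q.1 := Nat.beq_eq.mp hb
      rw [cf_cons, cf_cons, cf_cons, this]
      split_ifs <;> ring

/-- normal form -/
def nrm : List (ℕ × ℤ) → List (ℕ × ℤ)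
  | [] => []
  | p :: L => ins p (nrm L)

lemma cf_nrm (L : List (ℕ × ℤ)) (k : ℕ) : cf (nrm L) k = cf L k := by
  induction L with
  | nil => rfl
  | cons p L ih => rw [nrm, cf_ins, cf_cons, cf_cons, ih]

/-- indices below `n` -/
def Vd (n : ℕ) (L : List (ℕ × ℤ)) : Prop := ∀ p ∈ L, p.1 < n

lemma Vd.ins {n : ℕ} {p : ℕ × ℤ} {L : List (ℕ × ℤ)} (hp : p.1 < n) (hL : Vd n L) :
    Vd n (ins p L) := by
  induction L with
  | nil =>
    intro q hq
    rw [Alt.ins, List.mem_singleton] at hq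
    rw [hq]; exact hp
  | cons q L ih =>
    intro r hr
    have h1 : q.1 < n := hL q List.mem_cons_self
    have h2 : Vd n L := fun s hs => hL s (List.mem_cons_of_mem _ hs)
    rw [Alt.ins] at hr
    rcases hb : Nat.beq p.1 q.1 with _ | _
    · rw [hb] at hr
      rcases List.mem_cons.1 hr with h | h
      · rw [h]; exact h1
      · exact ih h2 r h
    · rw [hb] at hr
      rcases List.mem_cons.1 hr with h | h
      · rw [h]; exact h1
      · exact h2 r h

lemma Vd.nrm {n : ℕ} {L : List (ℕ × ℤ)} (hL : Vd n L) : Vd n (nrm L) := by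
  induction L with
  | nil => intro p hp; exact absurd hp (by simp [Alt.nrm])
  | cons p L ih =>
    exact Vd.ins (hL p List.mem_cons_self) (ih fun s hs => hL s (List.mem_cons_of_mem _ hs))

/-- scaling -/
def scL (a : ℤ) (L : List (ℕ × ℤ)) : List (ℕ × ℤ) := L.map fun q => (q.1, a * q.2)

lemma cf_scL (a : ℤ) (L : List (ℕ × ℤ)) (k : ℕ) : cf (scL a L) k = a * cf L k := by
  induction L with
  | nil => simp [cf, scL]
  | cons p L ih =>
    unfold scL at ih ⊢
    rw [List.map_cons, cf_cons, cf_cons, ih]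
    split_ifs <;> ring

lemma Vd.scL {n : ℕ} {L : List (ℕ × ℤ)} (hL : Vd n L) (a : ℤ) : Vd n (scL a L) := by
  intro p hp
  obtain ⟨q, hq, rfl⟩ := List.mem_map.1 hp
  exact hL q hq

lemma Vd.append {n : ℕ} {L M : List (ℕ × ℤ)} (hL : Vd n L) (hM : Vd n M) : Vd n (L ++ M) := by
  intro p hp
  rcases List.mem_append.1 hp with h | h
  · exact hL p h
  · exact hM p h

section

variable (n : ℕ) (T : Tr)

/-- product with a basis element on the left -/
def mul1 (i : ℕ) (M : List (ℕ × ℤ)) : List (ℕ × ℤ) :=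
  M.flatMap fun q => scL q.2 (pr n T i q.1)

/-- product of sparse vectors -/
def mulL (L M : List (ℕ × ℤ)) : List (ℕ × ℤ) :=
  L.flatMap fun p => scL p.2 (mul1 n T p.1 M)

variable {n T}

lemma cf_flat (G : ℕ → List (ℕ × ℤ)) (L : List (ℕ × ℤ)) (k : ℕ) :
    cf (L.flatMap fun p => scL p.2 (G p.1)) k = sC (fun q => cf (G q) k) L := by
  induction L with
  | nil => simp [cf, sC]
  | cons p L ih => rw [List.flatMap_cons, cf_append, ih, cf_scL, sC]

lemma cf_mulL {L M : List (ℕ × ℤ)} (hL : Vd n L) (hM : Vd n M) (k : ℕ) :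
    cf (mulL n T L M) k = ∑ i : Fin n, ∑ j : Fin n, cf L i * (cf M j * cf (pr n T i j) k) := by
  unfold mulL
  rw [cf_flat (fun i => mul1 n T i M), ← sum_cf n L hL]
  refine Finset.sum_congr rfl fun i _ => ?_
  rw [← Finset.mul_sum]
  congr 1
  show cf (mul1 n T i M) k = _
  unfold mul1
  rw [cf_flat (fun j => pr n T i j), ← sum_cf n M hM]

lemma Vd.mulL {L M : List (ℕ × ℤ)} (hpr : ∀ i j, i < n → j < n → Vd n (pr n T i j)) (hL : Vd n L)
    (hM : Vd n M) : Vd n (mulL n T L M) := by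
  intro p hp
  obtain ⟨q, hq, hp⟩ := List.mem_flatMap.1 hp
  refine Vd.scL ?_ _ p hp
  intro s hs
  obtain ⟨r, hr, hs⟩ := List.mem_flatMap.1 hs
  exact Vd.scL (hpr _ _ (hL q hq) (hM r hr)) _ s hs

end

/-! ### Homogeneous elements -/

section ten

variable (Φ : Type u) [CommRing Φ] {n m : ℕ} {T : Tr}

/-- the element `L ⊗ ξ_S` -/
def ten (T : Tr) (L : List (ℕ × ℤ)) (S : Finset (Fin m)) :
    SA Φ (Fin n × Finset (Fin m)) (CE (cc n T) m) :=
  fun u => if u.2 = S then ((cf L u.1 : ℤ) : Φ) else 0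

lemma ten_congr {L M : List (ℕ × ℤ)} (h : ∀ k, cf L k = cf M k) (S : Finset (Fin m)) :
    (ten Φ T L S : SA Φ (Fin n × Finset (Fin m)) (CE (cc n T) m)) = ten Φ T M S := by
  funext u
  unfold ten
  rw [h]

lemma ten_mul {L M : List (ℕ × ℤ)} (hL : Vd n L) (hM : Vd n M) (S U : Finset (Fin m)) :
    (ten Φ T L S * ten Φ T M U : SA Φ (Fin n × Finset (Fin m)) (CE (cc n T) m)) =
      ten Φ T (scL (sg S U) (mulL n T L M)) (S ∪ U) := by
  funext w
  rw [SA.mul_apply, Fintype.sum_prod_type]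
  simp only [Fintype.sum_prod_type]
  have h1 : ∀ i : Fin n, ∑ S' : Finset (Fin m), ∑ j : Fin n, ∑ U' : Finset (Fin m),
      ((CE (cc n T) m (i, S') (j, U') w : ℤ) : Φ) *
        ((ten Φ T L S : SA Φ (Fin n × Finset (Fin m)) (CE (cc n T) m)) (i, S') *
        (ten Φ T M U : SA Φ (Fin n × Finset (Fin m)) (CE (cc n T) m)) (j, U')) =
      ∑ j : Fin n, ((CE (cc n T) m (i, S) (j, U) w : ℤ) : Φ) * ((cf L i : Φ) * (cf M j : Φ)) := by
    intro i
    rw [Finset.sum_eq_single S]
    · refine Finset.sum_congr rfl fun j _ => ?_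
      rw [Finset.sum_eq_single U]
      · unfold ten
        simp
      · intro U' _ hU'
        unfold ten
        simp only
        rw [if_neg hU', mul_zero, mul_zero]
      · intro h
        exact absurd (Finset.mem_univ _) h
    · intro S' _ hS'
      refine Finset.sum_eq_zero fun j _ => Finset.sum_eq_zero fun U' _ => ?_
      unfold ten
      simp only
      rw [if_neg hS', zero_mul, mul_zero]
    · intro h
      exact absurd (Finset.mem_univ _) h
  rw [Finset.sum_congr rfl (fun i _ => h1 i)]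
  unfold ten
  rw [cf_scL, cf_mulL hL hM]
  unfold CE
  simp only
  by_cases hw : w.2 = S ∪ U
  · rw [if_pos hw]
    push_cast
    rw [Finset.mul_sum]
    refine Finset.sum_congr rfl fun i _ => ?_
    rw [Finset.mul_sum]
    refine Finset.sum_congr rfl fun j _ => ?_
    rw [if_pos hw]
    unfold cc
    push_cast
    ring
  · rw [if_neg hw]
    refine Finset.sum_eq_zero fun i _ => Finset.sum_eq_zero fun j _ => ?_
    rw [if_neg hw, Int.cast_zero, zero_mul]

lemma ten_add (L M : List (ℕ × ℤ)) (S : Finset (Fin m)) :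
    (ten Φ T L S + ten Φ T M S : SA Φ (Fin n × Finset (Fin m)) (CE (cc n T) m)) =
      ten Φ T (L ++ M) S := by
  funext w
  rw [SA.add_apply]
  unfold ten
  rw [cf_append]
  split_ifs
  · push_cast; ring
  · ring

lemma ten_sub (L M : List (ℕ × ℤ)) (S : Finset (Fin m)) :
    (ten Φ T L S - ten Φ T M S : SA Φ (Fin n × Finset (Fin m)) (CE (cc n T) m)) =
      ten Φ T (L ++ scL (-1) M) S := by
  funext w
  rw [SA.sub_apply]
  unfold ten
  rw [cf_append, cf_scL]
  split_ifs
  · push_cast; ring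
  · ring

end ten

/-! ### Expressions -/

/-- nonassociative expressions -/
inductive Ex : Type
  | v (i : ℕ) : Ex
  | mul (a b : Ex) : Ex
  | add (a b : Ex) : Ex
  | sub (a b : Ex) : Ex

/-- value of an expression -/
def Ex.ev {A : Type*} [NonUnitalNonAssocRing A] (ρ : ℕ → A) : Ex → A
  | .v i => ρ i
  | .mul a b => a.ev ρ * b.ev ρ
  | .add a b => a.ev ρ + b.ev ρ
  | .sub a b => a.ev ρ - b.ev ρ

/-- associator, commutator, Jordan product -/
def Ex.as (a b c : Ex) : Ex := .sub (.mul (.mul a b) c) (.mul a (.mul b c))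
/-- commutator -/
def Ex.cm (a b : Ex) : Ex := .sub (.mul a b) (.mul b a)
/-- Jordan product -/
def Ex.jd (a b : Ex) : Ex := .add (.mul a b) (.mul b a)

/-- computation in the Grassmann envelope -/
def Ex.comp (n : ℕ) (T : Tr) {m : ℕ} (ρ : ℕ → List (ℕ × ℤ) × Finset (Fin m)) :
    Ex → Option (List (ℕ × ℤ) × Finset (Fin m))
  | .v i => some (ρ i)
  | .mul a b =>
    match a.comp n T ρ, b.comp n T ρ with
    | some x, some y => some (nrm (scL (sg x.2 y.2) (mulL n T x.1 y.1)), x.2 ∪ y.2)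
    | _, _ => none
  | .add a b =>
    match a.comp n T ρ, b.comp n T ρ with
    | some x, some y => if x.2 = y.2 then some (nrm (x.1 ++ y.1), x.2) else none
    | _, _ => none
  | .sub a b =>
    match a.comp n T ρ, b.comp n T ρ with
    | some x, some y => if x.2 = y.2 then some (nrm (x.1 ++ scL (-1) y.1), x.2) else none
    | _, _ => none

lemma Ex.comp_spec (Φ : Type u) [CommRing Φ] {n : ℕ} {T : Tr} {m : ℕ}
    (hpr : ∀ i j, i < n → j < n → Vd n (pr n T i j))
    (ρ : ℕ → List (ℕ × ℤ) × Finset (Fin m)) (hρ : ∀ i, Vd n (ρ i).1) (e : Ex)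
    (r : List (ℕ × ℤ) × Finset (Fin m)) (h : e.comp n T ρ = some r) :
    Vd n r.1 ∧ e.ev (fun i => (ten Φ T (ρ i).1 (ρ i).2 :
      SA Φ (Fin n × Finset (Fin m)) (CE (cc n T) m))) = ten Φ T r.1 r.2 := by
  induction e generalizing r with
  | v i =>
    have : ρ i = r := Option.some.inj h
    rw [← this]
    exact ⟨hρ i, rfl⟩
  | mul a b iha ihb =>
    unfold Ex.comp at h
    rcases ha : a.comp n T ρ with _ | x
    · rw [ha] at h; exact absurd h (by simp)
    · rcases hb : b.comp n T ρ with _ | y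
      · rw [ha, hb] at h; exact absurd h (by simp)
      · rw [ha, hb] at h
        have h' := Option.some.inj h
        obtain ⟨hx1, hx2⟩ := iha x ha
        obtain ⟨hy1, hy2⟩ := ihb y hb
        rw [← h']
        refine ⟨Vd.nrm (Vd.scL (Vd.mulL hpr hx1 hy1) _), ?_⟩
        show a.ev _ * b.ev _ = _
        rw [hx2, hy2, ten_mul Φ hx1 hy1]
        exact ten_congr Φ (fun k => (cf_nrm _ k).symm) _
  | add a b iha ihb =>
    unfold Ex.comp at h
    rcases ha : a.comp n T ρ with _ | x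
    · rw [ha] at h; exact absurd h (by simp)
    · rcases hb : b.comp n T ρ with _ | y
      · rw [ha, hb] at h; exact absurd h (by simp)
      · rw [ha, hb] at h
        simp only at h
        split_ifs at h with he
        have h' := Option.some.inj h
        obtain ⟨hx1, hx2⟩ := iha x ha
        obtain ⟨hy1, hy2⟩ := ihb y hb
        rw [← h']
        refine ⟨Vd.nrm (Vd.append hx1 hy1), ?_⟩
        show a.ev _ + b.ev _ = _
        rw [hx2, hy2, he, ten_add]
        exact ten_congr Φ (fun k => (cf_nrm _ k).symm) _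
  | sub a b iha ihb =>
    unfold Ex.comp at h
    rcases ha : a.comp n T ρ with _ | x
    · rw [ha] at h; exact absurd h (by simp)
    · rcases hb : b.comp n T ρ with _ | y
      · rw [ha, hb] at h; exact absurd h (by simp)
      · rw [ha, hb] at h
        simp only at h
        split_ifs at h with he
        have h' := Option.some.inj h
        obtain ⟨hx1, hx2⟩ := iha x ha
        obtain ⟨hy1, hy2⟩ := ihb y hb
        rw [← h']
        refine ⟨Vd.nrm (Vd.append hx1 (Vd.scL hy1 _)), ?_⟩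
        show a.ev _ - b.ev _ = _
        rw [hx2, hy2, he, ten_sub]
        exact ten_congr Φ (fun k => (cf_nrm _ k).symm) _

/-- homomorphisms respect values -/
lemma Ex.ev_map {A B : Type*} [NonUnitalNonAssocRing A] [NonUnitalNonAssocRing B] (f : A → B)
    (hm : ∀ x y, f (x * y) = f x * f y) (ha : ∀ x y, f (x + y) = f x + f y)
    (hs : ∀ x y, f (x - y) = f x - f y) (ρ : ℕ → A) (e : Ex) :
    f (e.ev ρ) = e.ev (fun i => f (ρ i)) := by
  induction e with
  | v i => rfl
  | mul a b iha ihb => rw [Ex.ev, Ex.ev, hm, iha, ihb]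
  | add a b iha ihb => rw [Ex.ev, Ex.ev, ha, iha, ihb]
  | sub a b iha ihb => rw [Ex.ev, Ex.ev, hs, iha, ihb]

/-- the expression `β` -/
def btE : Ex :=
  .sub (.mul (.mul (.v 0) (Ex.as (.v 1) (.v 2) (.v 0))) (Ex.as (.v 3) (.v 4) (.v 0)))
    (.mul (.mul (Ex.as (.v 1) (.v 2) (.v 0)) (Ex.as (.v 3) (.v 4) (.v 0))) (.v 0))

/-- the expression `ν` -/
def nuE : Ex :=
  let z := Ex.v 0
  let a := Ex.v 1
  let b := Ex.v 2
  let c := Ex.v 3
  let d := Ex.v 4
  .add (.sub (.add (.sub (.add (Ex.jd (Ex.cm a b) (Ex.cm z (Ex.cm z (Ex.as c d z))))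
    (Ex.jd (Ex.cm c d) (Ex.cm z (Ex.cm z (Ex.as a b z)))))
    (Ex.jd (Ex.cm b (Ex.as c d z)) (Ex.cm z (Ex.cm z a))))
    (Ex.jd (Ex.cm a (Ex.as c d z)) (Ex.cm z (Ex.cm z b))))
    (Ex.jd (Ex.cm d (Ex.as a b z)) (Ex.cm z (Ex.cm z c))))
    (Ex.jd (Ex.cm c (Ex.as a b z)) (Ex.cm z (Ex.cm z d)))

lemma btE_ev {A : Type*} [NonUnitalNonAssocRing A] (ρ : ℕ → A) :
    btE.ev ρ = H8Alt.bt (ρ 0) (ρ 1) (ρ 2) (ρ 3) (ρ 4) := rfl

lemma nuE_ev {A : Type*} [NonUnitalNonAssocRing A] (ρ : ℕ → A) :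
    nuE.ev ρ = H8Alt.nu (ρ 0) (ρ 1) (ρ 2) (ρ 3) (ρ 4) := rfl

lemma cmnuE_ev {A : Type*} [NonUnitalNonAssocRing A] (ρ : ℕ → A) :
    (Ex.cm nuE (.v 5)).ev ρ = H8Alt.cm (H8Alt.nu (ρ 0) (ρ 1) (ρ 2) (ρ 3) (ρ 4)) (ρ 5) := rfl

end Pool.Agent.H3.Alt
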