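import Pool.Agent.H3.Alt.NModel
import Pool.Agent.H3.Alt.BModel
import Pool.Agent.H8.Alt.ZCalc
import Pool.Agent.H8.Alt.Dorofeev
import Pool.Agent.H8.Alt.Free
import Mathlib.RingTheory.Congruence.Basic

/-!
# Final assembly
-/

set_option autoImplicit false
set_option linter.unusedSectionVars false
set_option linter.unusedVariables false

namespace Pool.Agent.H3.Alt

open H8Alt

universe u v

/-! ### The conclusion from the vanishing of the commutators of `β` -/

section concl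

variable {Φ : Type u} [CommRing Φ] {A : Type v} [NonUnitalNonAssocRing A] [IsAlternative A]
  [Module Φ A] [IsScalarTower Φ A A] [SMulCommClass Φ A A]

theorem as_smul1 (r : Φ) (a b c : A) : as (r • a) b c = r • as a b c := by
  simp only [as_def, smul_mul_assoc, smul_sub]

theorem as_smul3 (r : Φ) (a b c : A) : as a b (r • c) = r • as a b c := by
  simp only [as_def, mul_smul_comm, smul_sub]

theorem cm_smul1 (r : Φ) (a b : A) : cm (r • a) b = r • cm a b := by
  simp only [cm, smul_mul_assoc, mul_smul_comm, smul_sub]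

theorem bt_as (z : A) (σ : Φ) (h : ∀ a b c d e : A, σ • cm (bt z a b c d) e = 0)
    (a b c d x y : A) : (3 * σ) • as (bt z a b c d) x y = 0 := by
  have h1 := cm_mul_left x y (bt z a b c d)
  have h2 : ∀ e, σ • cm e (bt z a b c d) = 0 := by
    intro e
    rw [cm_swap (bt z a b c d) e, smul_neg, h, neg_zero]
  have h3 := congrArg (fun t => σ • t) h1
  simp only [smul_add] at h3
  rw [h2, ← mul_smul_comm, h2, mul_zero, ← smul_mul_assoc, h2, zero_mul, zero_add, zero_add,
    as_cyc (bt z a b c d) x y] at h3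
  rw [mul_comm, mul_smul, ← h3.symm]
  have : (3 : Φ) • as (bt z a b c d) x y = (3 : ℤ) • as (bt z a b c d) x y := by
    rw [← Int.cast_smul_eq_zsmul Φ]
    norm_num
  rw [this]

theorem bt_concl (z : A) (σ : Φ) (h : ∀ a b c d e : A, σ • cm (bt z a b c d) e = 0)
    (a b c d : A) : (9 * σ) • bt z a b c d ∈ assocIdeal Φ A ⊓ nucleusIdeal Φ A := by
  refine ⟨Submodule.smul_mem _ _ (bt_mem z Φ a b c d), ?_⟩
  have h9 : (9 * σ : Φ) = 3 * (3 * σ) := by ring
  refine mem_nucleusIdeal Φ ?_ ?_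
  · intro x y
    rw [as_smul1, h9, mul_smul, bt_as z σ h, smul_zero]
  · intro x s y
    have key := fl_two (P := fun u w => (3 * σ) • bt z u w c d) ?_ ?_ ?_ ?_ ?_ a b x s y
    · have h3 : (3 : ℤ) • ((3 * σ) • bt z a b c d * as x s y) =
          (3 : Φ) • ((3 * σ) • bt z a b c d * as x s y) := by
        rw [← Int.cast_smul_eq_zsmul Φ]
        norm_num
      rw [h9, mul_smul, smul_mul_assoc, ← h3]
      exact key
    · intro x y w
      show (3 * σ) • bt z (x * y) w c d = x * ((3 * σ) • bt z y w c d) + (3 * σ) • bt z x w c d * y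
      rw [bt_mul1, smul_add, mul_smul_comm, smul_mul_assoc]
    · intro x y
      show (3 * σ) • bt z y x c d = - ((3 * σ) • bt z x y c d)
      rw [bt_swap12, smul_neg]
    · intro x y w
      show (3 * σ) • bt z (x - y) w c d = _
      rw [bt_sub1, smul_sub]
    · intro x y w
      show w * ((3 * σ) • bt z x y c d) = (3 * σ) • bt z x y c d * w
      have h1 := h x y c d w
      have h2 : (3 * σ) • cm (bt z x y c d) w = 0 := by rw [mul_smul, h1, smul_zero]
      rw [cm, smul_sub, sub_eq_zero] at h2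
      rw [mul_smul_comm, smul_mul_assoc, h2]
    · intro x y u w
      show as ((3 * σ) • bt z x y c d) u w = 0
      rw [as_smul1, bt_as z σ h]

/-- `ν` lies in the associator ideal -/
theorem nu_mem (z a b c d : A) : nu z a b c d ∈ assocIdeal Φ A := by
  have hl : ∀ x y : A, y ∈ assocIdeal Φ A → x * y ∈ assocIdeal Φ A :=
    fun x y hy => (assocIdeal_mul Φ hy x).1
  have hr : ∀ x y : A, x ∈ assocIdeal Φ A → x * y ∈ assocIdeal Φ A :=
    fun x y hx => (assocIdeal_mul Φ hx y).2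
  have hcm1 : ∀ x y : A, y ∈ assocIdeal Φ A → cm x y ∈ assocIdeal Φ A := by
    intro x y hy
    rw [cm]
    exact Submodule.sub_mem _ (hl x y hy) (hr y x hy)
  have hj1 : ∀ x y : A, y ∈ assocIdeal Φ A → jd x y ∈ assocIdeal Φ A := by
    intro x y hy
    rw [jd]
    exact Submodule.add_mem _ (hl x y hy) (hr y x hy)
  have hj2 : ∀ x y : A, x ∈ assocIdeal Φ A → jd x y ∈ assocIdeal Φ A := by
    intro x y hx
    rw [jd]
    exact Submodule.add_mem _ (hr x y hx) (hl y x hx)
  have ha : ∀ x y w : A, as x y w ∈ assocIdeal Φ A := as_mem_assocIdeal Φ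
  rw [nu]
  refine Submodule.add_mem _ (Submodule.sub_mem _ (Submodule.add_mem _ (Submodule.sub_mem _
    (Submodule.add_mem _ ?_ ?_) ?_) ?_) ?_) ?_
  · exact hj1 _ _ (hcm1 _ _ (hcm1 _ _ (ha _ _ _)))
  · exact hj1 _ _ (hcm1 _ _ (hcm1 _ _ (ha _ _ _)))
  · exact hj2 _ _ (hcm1 _ _ (ha _ _ _))
  · exact hj2 _ _ (hcm1 _ _ (ha _ _ _))
  · exact hj2 _ _ (hcm1 _ _ (ha _ _ _))
  · exact hj2 _ _ (hcm1 _ _ (ha _ _ _))

end concl

/-! ### Quotients -/

section quot

variable {A : Type v} [NonUnitalNonAssocRing A] (c : RingCon A)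

lemma ev_quot (ρ : ℕ → A) (e : Ex) :
    ((e.ev ρ : A) : c.Quotient) = e.ev (fun i => ((ρ i : A) : c.Quotient)) :=
  Ex.ev_map (fun x : A => (x : c.Quotient)) (fun _ _ => rfl) (fun _ _ => rfl) (fun _ _ => rfl) ρ e

lemma quot_rep (a : c.Quotient) : ∃ x : A, (x : c.Quotient) = a := Quotient.exists_rep a

instance quot_alt [IsAlternative A] : IsAlternative c.Quotient where
  left_alt := by
    intro a b
    obtain ⟨a, rfl⟩ := quot_rep c a
    obtain ⟨b, rfl⟩ := quot_rep c b
    have h := congrArg (fun x : A => (x : c.Quotient)) (IsAlternative.left_alt a b)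
    rw [associator_apply] at h ⊢
    exact h
  right_alt := by
    intro a b
    obtain ⟨a, rfl⟩ := quot_rep c a
    obtain ⟨b, rfl⟩ := quot_rep c b
    have h := congrArg (fun x : A => (x : c.Quotient)) (IsAlternative.right_alt a b)
    rw [associator_apply] at h ⊢
    exact h

/-- the congruence of the `6`-power torsion -/
def con6 (A : Type v) [NonUnitalNonAssocRing A] : RingCon A where
  r x y := ∃ k : ℕ, ((6 : ℤ) ^ k) • x = ((6 : ℤ) ^ k) • y
  iseqv := by
    refine ⟨fun x => ⟨0, rfl⟩, fun ⟨k, hk⟩ => ⟨k, hk.symm⟩, ?_⟩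
    rintro x y w ⟨k, hk⟩ ⟨l, hl⟩
    refine ⟨k + l, ?_⟩
    calc ((6 : ℤ) ^ (k + l)) • x = ((6 : ℤ) ^ l) • (((6 : ℤ) ^ k) • x) := by
          rw [smul_smul, pow_add, mul_comm]
      _ = ((6 : ℤ) ^ k) • (((6 : ℤ) ^ l) • y) := by
          rw [hk, smul_smul, smul_smul, mul_comm]
      _ = ((6 : ℤ) ^ (k + l)) • w := by rw [hl, smul_smul, pow_add]
  add' := by
    rintro x y x' y' ⟨k, hk⟩ ⟨l, hl⟩
    refine ⟨k + l, ?_⟩
    have h1 : ((6 : ℤ) ^ (k + l)) • x = ((6 : ℤ) ^ (k + l)) • y := by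
      rw [add_comm, pow_add, ← smul_smul, hk, smul_smul]
    have h2 : ((6 : ℤ) ^ (k + l)) • x' = ((6 : ℤ) ^ (k + l)) • y' := by
      rw [pow_add, ← smul_smul, hl, smul_smul]
    rw [smul_add, smul_add, h1, h2]
  mul' := by
    rintro x y x' y' ⟨k, hk⟩ ⟨l, hl⟩
    refine ⟨k + l, ?_⟩
    have h1 : ((6 : ℤ) ^ (k + l)) • (x * x') = (((6 : ℤ) ^ k) • x) * (((6 : ℤ) ^ l) • x') := by
      rw [smul_mul_smul_comm, pow_add]
    have h2 : ((6 : ℤ) ^ (k + l)) • (y * y') = (((6 : ℤ) ^ k) • y) * (((6 : ℤ) ^ l) • y') := by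
      rw [smul_mul_smul_comm, pow_add]
    rw [h1, h2, hk, hl]

lemma con6_eq {A : Type v} [NonUnitalNonAssocRing A] {x : A}
    (h : (x : (con6 A).Quotient) = 0) : ∃ k : ℕ, ((6 : ℤ) ^ k) • x = 0 := by
  have h1 : con6 A x 0 := (RingCon.eq (con6 A)).1 h
  obtain ⟨k, hk⟩ := h1
  exact ⟨k, by rw [hk, smul_zero]⟩

lemma con6_tf {A : Type v} [NonUnitalNonAssocRing A] (m l : ℤ) (hm : m * l = 6)
    (x : (con6 A).Quotient) (hx : m • x = 0) : x = 0 := by
  induction x using Quotient.inductionOn' with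
  | h x =>
    have h1 : ((m • x : A) : (con6 A).Quotient) = 0 := hx
    obtain ⟨k, hk⟩ := con6_eq h1
    have h2 : con6 A x 0 := by
      refine ⟨k + 1, ?_⟩
      have : (6 : ℤ) ^ (k + 1) = l * ((6 : ℤ) ^ k * m) := by
        rw [pow_succ]
        linear_combination (-(6 : ℤ) ^ k) * hm
      rw [smul_zero, this, mul_smul, mul_smul, hk, smul_zero]
    exact (RingCon.eq (con6 A)).2 h2

theorem tors6 (E : Ex)
    (heng : ∀ (A : Type v) [NonUnitalNonAssocRing A] [IsAlternative A],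
      (∀ x : A, (2 : ℤ) • x = 0 → x = 0) → (∀ x : A, (3 : ℤ) • x = 0 → x = 0) →
      ∀ ρ : ℕ → A, E.ev ρ = 0)
    (A : Type v) [NonUnitalNonAssocRing A] [IsAlternative A] (ρ : ℕ → A) :
    ∃ k : ℕ, ((6 : ℤ) ^ k) • E.ev ρ = 0 := by
  have h := heng (con6 A).Quotient (con6_tf 2 3 (by norm_num)) (con6_tf 3 2 (by norm_num))
    (fun i => ((ρ i : A) : (con6 A).Quotient))
  rw [← ev_quot] at h
  exact con6_eq h

theorem tors6_unif (E : Ex)
    (heng : ∀ (A : Type) [NonUnitalNonAssocRing A] [IsAlternative A],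
      (∀ x : A, (2 : ℤ) • x = 0 → x = 0) → (∀ x : A, (3 : ℤ) • x = 0 → x = 0) →
      ∀ ρ : ℕ → A, E.ev ρ = 0) :
    ∃ k : ℕ, ∀ (A : Type v) [NonUnitalNonAssocRing A] [IsAlternative A] (ρ : ℕ → A),
      ((6 : ℤ) ^ k) • E.ev ρ = 0 := by
  obtain ⟨k, hk⟩ := tors6 E heng (FreeAlt ℤ ℕ) (FreeAlt.of ℤ ℕ)
  refine ⟨k, ?_⟩
  intro A _ _ ρ
  obtain ⟨f, hf1, hf2⟩ := FreeAlt.exists_lift ℤ ℕ ρ
  have h1 := Ex.ev_map (fun x => f x) hf1 (fun x y => map_add f x y) (fun x y => map_sub f x y)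
    (FreeAlt.of ℤ ℕ) E
  have h2 : (fun i => f (FreeAlt.of ℤ ℕ i)) = ρ := funext hf2
  rw [h2] at h1
  rw [← h1]
  show ((6 : ℤ) ^ k) • f (E.ev (FreeAlt.of ℤ ℕ)) = 0
  rw [← map_zsmul, hk, map_zero]

/-- the congruence `s x = s y` -/
def conS {Φ : Type u} [CommRing Φ] (A : Type v) [NonUnitalNonAssocRing A] [Module Φ A]
    [IsScalarTower Φ A A] [SMulCommClass Φ A A] (s : Φ) : RingCon A where
  r x y := s • x = s • y
  iseqv := ⟨fun x => rfl, fun h => h.symm, fun h1 h2 => h1.trans h2⟩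
  add' := by
    intro x y x' y' h1 h2
    show s • (x + x') = s • (y + y')
    rw [smul_add, smul_add, h1, h2]
  mul' := by
    intro x y x' y' h1 h2
    show s • (x * x') = s • (y * y')
    rw [← smul_mul_assoc, h1, smul_mul_assoc, ← mul_smul_comm, h2, mul_smul_comm]

theorem tors_s (E : Ex) (p : ℤ)
    (heng : ∀ (A : Type v) [NonUnitalNonAssocRing A] [IsAlternative A],
      (∀ x : A, p • x = 0) → ∀ ρ : ℕ → A, E.ev ρ = 0)
    {Φ : Type u} [CommRing Φ] (A : Type v) [NonUnitalNonAssocRing A] [IsAlternative A]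
    [Module Φ A] [IsScalarTower Φ A A] [SMulCommClass Φ A A] (s : Φ) (hs : (p : Φ) * s = 0)
    (ρ : ℕ → A) : s • E.ev ρ = 0 := by
  have h := heng (conS A s).Quotient ?_ (fun i => ((ρ i : A) : (conS A s).Quotient))
  · rw [← ev_quot] at h
    have h1 : conS A s (E.ev ρ) 0 := (RingCon.eq (conS A s)).1 h
    have h2 : s • E.ev ρ = s • (0 : A) := h1
    rw [h2, smul_zero]
  · intro x
    induction x using Quotient.inductionOn' with
    | h x =>
      have h1 : conS A s (p • x) 0 := by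
        show s • (p • x) = s • (0 : A)
        rw [smul_zero, ← Int.cast_smul_eq_zsmul Φ p x, smul_smul, mul_comm, hs, zero_smul]
      exact (RingCon.eq (conS A s)).2 h1

end quot

/-! ### The final theorem from the three engine statements -/

/-- the expression `[β, e]` -/
def cbE : Ex := Ex.cm btE (.v 5)

/-- the expression `(ν, y, w)` -/
def anE : Ex := Ex.as nuE (.v 5) (.v 6)

lemma cbE_ev {A : Type*} [NonUnitalNonAssocRing A] (ρ : ℕ → A) :
    cbE.ev ρ = cm (bt (ρ 0) (ρ 1) (ρ 2) (ρ 3) (ρ 4)) (ρ 5) := rfl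

lemma anE_ev {A : Type*} [NonUnitalNonAssocRing A] (ρ : ℕ → A) :
    anE.ev ρ = as (nu (ρ 0) (ρ 1) (ρ 2) (ρ 3) (ρ 4)) (ρ 5) (ρ 6) := rfl

/-- assignment of variables from a list -/
def asg {A : Type*} [Zero A] (l : List A) : ℕ → A := fun i => l.getD i 0

/-- transfer of an expression from the free algebra to a model -/
lemma free_ne {Φ : Type u} [CommRing Φ] (X : Type v) [Infinite X] (E : Ex) (k : ℤ)
    (hM : ∃ (M : Type u) (_ : NonUnitalNonAssocRing M) (_ : Module Φ M) (_ : IsScalarTower Φ M M)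
      (_ : SMulCommClass Φ M M) (_ : H8Alt.IsAlternative M) (ρ : ℕ → M) (φ : M →ₗ[Φ] Φ),
      φ (E.ev ρ) = (k : Φ)) (s : Φ) (hs : s * k ≠ 0) :
    s • E.ev (fun i => FreeAlt.of Φ X (Infinite.natEmbedding X i)) ≠ 0 := by
  obtain ⟨M, i1, i2, i3, i4, i5, ρ, φ, hφ⟩ := hM
  obtain ⟨f, hf1, hf2⟩ := FreeAlt.exists_lift Φ X
    (Function.extend (Infinite.natEmbedding X) ρ (fun _ => (0 : M)))
  intro h0
  have h1 := Ex.ev_map (fun x => f x) hf1 (fun x y => map_add f x y) (fun x y => map_sub f x y)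
    (fun i => FreeAlt.of Φ X (Infinite.natEmbedding X i)) E
  have h2 : (fun i => f (FreeAlt.of Φ X (Infinite.natEmbedding X i))) = ρ := by
    funext i
    rw [hf2, (Infinite.natEmbedding X).injective.extend_apply]
  rw [h2] at h1
  have h3 := congrArg (fun t => φ (f t)) h0
  simp only [map_smul, map_zero] at h3
  rw [show f (E.ev (fun i => FreeAlt.of Φ X (Infinite.natEmbedding X i))) = E.ev ρ from h1,
    hφ, smul_eq_mul] at h3
  exact hs h3

theorem final {Φ : Type u} [CommRing Φ] [Nontrivial Φ] (X : Type v) [Infinite X]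
    (hA : ∀ (A : Type (max u v)) [NonUnitalNonAssocRing A] [IsAlternative A],
      (∀ x : A, (2 : ℤ) • x = 0) → ∀ z a b c d e : A, cm (bt z a b c d) e = 0)
    (hB : ∀ (A : Type) [NonUnitalNonAssocRing A] [IsAlternative A],
      (∀ x : A, (2 : ℤ) • x = 0 → x = 0) → (∀ x : A, (3 : ℤ) • x = 0 → x = 0) →
      ∀ z a b c d e : A, cm (bt z a b c d) e = 0)
    (hC : ∀ (A : Type (max u v)) [NonUnitalNonAssocRing A] [IsAlternative A],
      (∀ x : A, (3 : ℤ) • x = 0) → ∀ z a b c d y w : A, as (nu z a b c d) y w = 0) :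
    ¬ IsSeparated Φ (FreeAlt Φ X) := by
  have hbm : ∃ (M : Type u) (_ : NonUnitalNonAssocRing M) (_ : Module Φ M)
      (_ : IsScalarTower Φ M M) (_ : SMulCommClass Φ M M) (_ : H8Alt.IsAlternative M) (ρ : ℕ → M)
      (φ : M →ₗ[Φ] Φ), φ (btE.ev ρ) = ((1 : ℤ) : Φ) :=
    model Φ B.hD B.superAlt 4 1 0 47 (by decide)
      (by decide) (by decide) (by decide +kernel) (by decide +kernel) btE 1 (by decide +kernel)
  have hnm : ∃ (M : Type u) (_ : NonUnitalNonAssocRing M) (_ : Module Φ M)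
      (_ : IsScalarTower Φ M M) (_ : SMulCommClass Φ M M) (_ : H8Alt.IsAlternative M) (ρ : ℕ → M)
      (φ : M →ₗ[Φ] Φ), φ ((Ex.cm nuE (.v 5)).ev ρ) = ((-176 : ℤ) : Φ) :=
    model Φ N.hD N.superAlt 5 1 0 82 (by decide)
      (by decide) (by decide) (by decide +kernel) (by decide +kernel) (Ex.cm nuE (.v 5)) (-176)
      (by decide +kernel)
  -- the generators
  set g : ℕ → FreeAlt Φ X := fun i => FreeAlt.of Φ X (Infinite.natEmbedding X i) with hg
  -- conclusion from β
  have concl : ∀ σ : Φ, (9 * σ ≠ 0) →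
      (∀ z a b c d e : FreeAlt Φ X, σ • cm (bt z a b c d) e = 0) → ¬ IsSeparated Φ (FreeAlt Φ X) := by
    intro σ hσ h hsep
    have h1 := bt_concl (g 0) σ (h (g 0)) (g 1) (g 2) (g 3) (g 4)
    rw [IsSeparated] at hsep
    rw [hsep, Submodule.mem_bot] at h1
    exact free_ne X btE 1 hbm (9 * σ) (by rw [Int.cast_one, mul_one]; exact hσ) h1
  by_cases h2 : ∃ s : Φ, s ≠ 0 ∧ (2 : Φ) * s = 0
  · obtain ⟨s, hs0, hs⟩ := h2
    refine concl s ?_ ?_
    · have : (9 * s : Φ) = s := by linear_combination 4 * hs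
      rw [this]; exact hs0
    · intro z a b c d e
      exact tors_s cbE 2 (fun A _ _ hx ρ => hA A hx _ _ _ _ _ _) (FreeAlt Φ X) s
        (by push_cast; exact hs) (asg [z, a, b, c, d, e])
  · by_cases h3 : ∃ s : Φ, s ≠ 0 ∧ (3 : Φ) * s = 0
    · obtain ⟨s, hs0, hs⟩ := h3
      have hnuc : ∀ y w : FreeAlt Φ X, as (s • nu (g 0) (g 1) (g 2) (g 3) (g 4)) y w = 0 := by
        intro y w
        rw [as_smul1]
        exact tors_s anE 3 (fun A _ _ hx ρ => hC A hx _ _ _ _ _ _ _) (FreeAlt Φ X) s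
          (by push_cast; exact hs) (asg [g 0, g 1, g 2, g 3, g 4, y, w])
      refine not_separated_of_nuclear Φ hnuc (Submodule.smul_mem _ _ (nu_mem _ _ _ _ _)) (g 5)
        ?_ ?_
      · rw [cm_smul1, ← Int.cast_smul_eq_zsmul Φ, smul_smul]
        push_cast
        rw [hs, zero_smul]
      · rw [cm_smul1]
        refine free_ne X (Ex.cm nuE (.v 5)) (-176) hnm s ?_
        intro h0
        push_cast at h0
        apply h2
        refine ⟨s, hs0, ?_⟩
        linear_combination -h0 - 58 * hs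
    · obtain ⟨k, hk⟩ := tors6_unif.{max u v} cbE (fun A _ _ h2 h3 ρ => hB A h2 h3 _ _ _ _ _ _)
      have hz2 : ∀ s : Φ, (2 : Φ) * s = 0 → s = 0 := by
        intro s hs
        by_contra hne
        exact h2 ⟨s, hne, hs⟩
      have hz3 : ∀ s : Φ, (3 : Φ) * s = 0 → s = 0 := by
        intro s hs
        by_contra hne
        exact h3 ⟨s, hne, hs⟩
      have h6 : ∀ k : ℕ, (6 : Φ) ^ k ≠ 0 := by
        intro k
        induction k with
        | zero => rw [pow_zero]; exact one_ne_zero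
        | succ k ih =>
          intro h0
          apply ih
          apply hz2
          apply hz3
          rw [pow_succ] at h0
          linear_combination h0
      refine concl ((6 : Φ) ^ k) ?_ ?_
      · intro h0
        apply h6 k
        apply hz3
        apply hz3
        linear_combination h0
      · intro z a b c d e
        have h := hk (FreeAlt Φ X) (asg [z, a, b, c, d, e])
        rw [← Int.cast_smul_eq_zsmul Φ] at h
        push_cast at h
        exact h

end Pool.Agent.H3.Alt
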