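import Mathlib.Algebra.Algebra.NonUnitalSubalgebra
import Mathlib.Algebra.BigOperators.Ring.Finset
import Mathlib.Data.Fintype.Prod
import Mathlib.Data.Fintype.Powerset
import Mathlib.Algebra.Ring.Associator
import Mathlib.Tactic
import Pool.Agent.H8.Alt.Defs

/-!
# Grassmann envelopes of alternative superalgebras given by structure constants
-/

set_option autoImplicit false
set_option linter.unusedSectionVars false
set_option linter.unusedVariables false

namespace Pool.Agent.H3.Alt

open Finset

universe u

/-! ### Algebras given by structure constants -/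

/-- the free module on `κ` with structure constants `C` -/
def SA (Φ : Type u) (κ : Type) (_ : κ → κ → κ → ℤ) : Type u := κ → Φ

section SA

variable (Φ : Type u) [CommRing Φ] (κ : Type) [Fintype κ] (C : κ → κ → κ → ℤ)

instance : AddCommGroup (SA Φ κ C) := inferInstanceAs (AddCommGroup (κ → Φ))
instance : Module Φ (SA Φ κ C) := inferInstanceAs (Module Φ (κ → Φ))

variable {Φ κ C}

lemma SA.add_apply (f g : SA Φ κ C) (w : κ) : (f + g) w = f w + g w := rfl
lemma SA.sub_apply (f g : SA Φ κ C) (w : κ) : (f - g) w = f w - g w := rfl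
lemma SA.zero_apply (w : κ) : (0 : SA Φ κ C) w = 0 := rfl
lemma SA.smul_apply (r : Φ) (f : SA Φ κ C) (w : κ) : (r • f) w = r * f w := rfl

instance : Mul (SA Φ κ C) :=
  ⟨fun f g w => ∑ u : κ, ∑ v : κ, (C u v w : Φ) * (f u * g v)⟩

lemma SA.mul_apply (f g : SA Φ κ C) (w : κ) :
    (f * g) w = ∑ u : κ, ∑ v : κ, (C u v w : Φ) * (f u * g v) := rfl

instance : NonUnitalNonAssocRing (SA Φ κ C) :=
  { (inferInstance : AddCommGroup (SA Φ κ C)), (inferInstance : Mul (SA Φ κ C)) with
    left_distrib := by
      intro f g h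
      funext w
      simp only [SA.mul_apply, SA.add_apply, mul_add, Finset.sum_add_distrib]
    right_distrib := by
      intro f g h
      funext w
      simp only [SA.mul_apply, SA.add_apply, mul_add, add_mul, Finset.sum_add_distrib]
    zero_mul := by
      intro f
      funext w
      simp [SA.mul_apply, SA.zero_apply]
    mul_zero := by
      intro f
      funext w
      simp [SA.mul_apply, SA.zero_apply] }

instance : IsScalarTower Φ (SA Φ κ C) (SA Φ κ C) :=
  ⟨by
    intro r f g
    funext w
    simp only [smul_eq_mul, SA.mul_apply, SA.smul_apply, Finset.mul_sum]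
    refine Finset.sum_congr rfl fun u _ => Finset.sum_congr rfl fun v _ => ?_
    ring⟩

instance : SMulCommClass Φ (SA Φ κ C) (SA Φ κ C) :=
  ⟨by
    intro r f g
    funext w
    simp only [smul_eq_mul, SA.mul_apply, SA.smul_apply, Finset.mul_sum]
    refine Finset.sum_congr rfl fun u _ => Finset.sum_congr rfl fun v _ => ?_
    ring⟩

variable (C) in
/-- structure constants of the associator -/
def As (u v w t : κ) : ℤ := ∑ r : κ, (C u v r * C r w t - C v w r * C u r t)

lemma SA.assoc_apply (f g h : SA Φ κ C) (t : κ) :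
    (associator f g h) t = ∑ u : κ, ∑ v : κ, ∑ w : κ, (As C u v w t : Φ) * (f u * (g v * h w)) := by
  rw [associator_apply, SA.sub_apply]
  have h1 : (f * g * h) t = ∑ u : κ, ∑ v : κ, ∑ w : κ,
      ((∑ r : κ, C u v r * C r w t : ℤ) : Φ) * (f u * (g v * h w)) := by
    simp only [SA.mul_apply, Finset.sum_mul, Finset.mul_sum, Int.cast_sum, Int.cast_mul]
    rw [Finset.sum_comm]
    conv_rhs => rw [Finset.sum_congr rfl (fun u _ => Finset.sum_comm)]
    conv_rhs => rw [Finset.sum_comm]
    refine Finset.sum_congr rfl fun w _ => ?_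
    rw [Finset.sum_comm]
    refine Finset.sum_congr rfl fun u _ => ?_
    rw [Finset.sum_comm]
    refine Finset.sum_congr rfl fun v _ => Finset.sum_congr rfl fun r _ => ?_
    ring
  have h2 : (f * (g * h)) t = ∑ u : κ, ∑ v : κ, ∑ w : κ,
      ((∑ r : κ, C v w r * C u r t : ℤ) : Φ) * (f u * (g v * h w)) := by
    simp only [SA.mul_apply, Finset.sum_mul, Finset.mul_sum, Int.cast_sum, Int.cast_mul]
    refine Finset.sum_congr rfl fun u _ => ?_
    rw [Finset.sum_comm]
    refine Finset.sum_congr rfl fun v _ => ?_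
    rw [Finset.sum_comm]
    refine Finset.sum_congr rfl fun w _ => Finset.sum_congr rfl fun r _ => ?_
    ring
  rw [h1, h2, ← Finset.sum_sub_distrib]
  refine Finset.sum_congr rfl fun u _ => ?_
  rw [← Finset.sum_sub_distrib]
  refine Finset.sum_congr rfl fun v _ => ?_
  rw [← Finset.sum_sub_distrib]
  refine Finset.sum_congr rfl fun w _ => ?_
  rw [← sub_mul, ← Int.cast_sub, ← Finset.sum_sub_distrib]
  rfl

lemma sum_alt (B : κ → κ → Φ) (f : κ → Φ) (good : κ → Prop) (hf : ∀ u, ¬ good u → f u = 0)
    (h1 : ∀ u v, good u → good v → B u v + B v u = 0) (h2 : ∀ u, good u → B u u = 0) :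
    ∑ u : κ, ∑ v : κ, B u v * (f u * f v) = 0 := by
  classical
  rw [← Finset.sum_product' (f := fun u v => B u v * (f u * f v))]
  refine Finset.sum_involution (fun a _ => (a.2, a.1)) ?_ ?_ ?_ ?_
  · rintro ⟨u, v⟩ _
    show B u v * (f u * f v) + B v u * (f v * f u) = 0
    by_cases hu : good u
    · by_cases hv : good v
      · rw [mul_comm (f v), ← add_mul, h1 u v hu hv, zero_mul]
      · rw [hf v hv]; ring
    · rw [hf u hu]; ring
  · rintro ⟨u, v⟩ _ hne heq
    have huv : v = u := congrArg Prod.fst heq
    subst huv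
    apply hne
    show B v v * (f v * f v) = 0
    by_cases hv : good v
    · rw [h2 v hv, zero_mul]
    · rw [hf v hv]; ring
  · intros
    exact Finset.mem_product.2 ⟨Finset.mem_univ _, Finset.mem_univ _⟩
  · intros
    rfl

end SA

/-! ### Signs -/

/-- inversions -/
def iv {m : ℕ} (S T : Finset (Fin m)) : ℕ := ∑ s ∈ S, (T.filter (fun t => t < s)).card

/-- the sign of the product of two monomials in the exterior algebra -/
def sg {m : ℕ} (S T : Finset (Fin m)) : ℤ := if Disjoint S T then (-1) ^ iv S T else 0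

lemma iv_union_left {m : ℕ} (S T U : Finset (Fin m)) (h : Disjoint S T) :
    iv (S ∪ T) U = iv S U + iv T U := by
  unfold iv
  rw [Finset.sum_union h]

lemma iv_union_right {m : ℕ} (S T U : Finset (Fin m)) (h : Disjoint T U) :
    iv S (T ∪ U) = iv S T + iv S U := by
  unfold iv
  rw [← Finset.sum_add_distrib]
  refine Finset.sum_congr rfl fun s _ => ?_
  rw [Finset.filter_union, Finset.card_union_of_disjoint]
  exact Finset.disjoint_filter_filter h

lemma iv_swap {m : ℕ} (S T : Finset (Fin m)) (h : Disjoint S T) :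
    iv S T + iv T S = S.card * T.card := by
  unfold iv
  have h1 : ∑ s ∈ S, (T.filter (fun t => t < s)).card = ((S ×ˢ T).filter (fun p => p.2 < p.1)).card := by
    rw [Finset.card_filter, Finset.sum_product]
    refine Finset.sum_congr rfl fun s _ => ?_
    rw [Finset.card_filter]
  have h2 : ∑ t ∈ T, (S.filter (fun s => s < t)).card = ((S ×ˢ T).filter (fun p => p.1 < p.2)).card := by
    rw [Finset.card_filter, Finset.sum_product_right]
    refine Finset.sum_congr rfl fun s _ => ?_
    rw [Finset.card_filter]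
  have h3 : (S ×ˢ T).filter (fun p => p.1 < p.2) = (S ×ˢ T).filter (fun p => ¬ p.2 < p.1) := by
    refine Finset.filter_congr fun p hp => ?_
    have hp' := Finset.mem_product.1 hp
    have hne : p.1 ≠ p.2 := fun he => (Finset.disjoint_left.1 h) hp'.1 (he ▸ hp'.2)
    constructor
    · intro hlt hlt'
      exact absurd (lt_trans hlt hlt') (lt_irrefl _)
    · intro hlt
      exact lt_of_le_of_ne (not_lt.1 hlt) hne
  rw [h1, h2, h3, Finset.card_filter_add_card_filter_not, Finset.card_product]

lemma sg_swap {m : ℕ} (S T : Finset (Fin m)) : sg T S = (-1) ^ (S.card * T.card) * sg S T := by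
  unfold sg
  by_cases h : Disjoint S T
  · rw [if_pos h, if_pos h.symm, ← iv_swap S T h, pow_add, mul_comm, ← mul_assoc,
      ← pow_add, ← two_mul, pow_mul]
    simp
  · rw [if_neg h, if_neg (fun h' => h h'.symm), mul_zero]

lemma sg_cocycle {m : ℕ} (S T U : Finset (Fin m)) :
    sg S T * sg (S ∪ T) U = sg T U * sg S (T ∪ U) := by
  unfold sg
  by_cases h1 : Disjoint S T
  · by_cases h2 : Disjoint S U
    · by_cases h3 : Disjoint T U
      · rw [if_pos h1, if_pos h3, if_pos (Finset.disjoint_union_left.2 ⟨h2, h3⟩),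
          if_pos (Finset.disjoint_union_right.2 ⟨h1, h2⟩), iv_union_left S T U h1,
          iv_union_right S T U h3]
        ring
      · rw [if_neg h3, if_neg (fun h => h3 (Finset.disjoint_union_left.1 h).2), mul_zero, zero_mul]
    · rw [if_neg (fun h : Disjoint (S ∪ T) U => h2 (Finset.disjoint_union_left.1 h).1),
        if_neg (fun h : Disjoint S (T ∪ U) => h2 (Finset.disjoint_union_right.1 h).2),
        mul_zero, mul_zero]
  · rw [if_neg h1, if_neg (fun h : Disjoint S (T ∪ U) => h1 (Finset.disjoint_union_right.1 h).1),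
      zero_mul, mul_zero]

lemma sg_self {m : ℕ} (S : Finset (Fin m)) (h : S ≠ ∅) : sg S S = 0 := by
  unfold sg
  rw [if_neg]
  intro h'
  exact h (Finset.disjoint_self_iff_empty S |>.1 h')

/-! ### The Grassmann envelope -/

section Env

variable {n m : ℕ} (c : Fin n → Fin n → Fin n → ℤ)

/-- structure constants of `A ⊗ Λ` -/
def CE (m : ℕ) (u v w : Fin n × Finset (Fin m)) : ℤ :=
  if w.2 = u.2 ∪ v.2 then c u.1 v.1 w.1 * sg u.2 v.2 else 0

/-- structure constants of the associator of `A` -/
def as3 (i j k l : Fin n) : ℤ := ∑ r : Fin n, (c i j r * c r k l - c j k r * c i r l)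

lemma As_CE (u v w t : Fin n × Finset (Fin m)) :
    As (CE c m) u v w t =
      if t.2 = u.2 ∪ v.2 ∪ w.2 then sg u.2 v.2 * sg (u.2 ∪ v.2) w.2 * as3 c u.1 v.1 w.1 t.1
      else 0 := by
  unfold As
  rw [Finset.sum_sub_distrib]
  have h1 : ∑ r : Fin n × Finset (Fin m), CE c m u v r * CE c m r w t =
      if t.2 = u.2 ∪ v.2 ∪ w.2 then sg u.2 v.2 * sg (u.2 ∪ v.2) w.2 *
        ∑ r : Fin n, c u.1 v.1 r * c r w.1 t.1 else 0 := by
    rw [Fintype.sum_prod_type]
    have : ∀ r : Fin n, ∑ R : Finset (Fin m), CE c m u v (r, R) * CE c m (r, R) w t =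
        if t.2 = u.2 ∪ v.2 ∪ w.2 then sg u.2 v.2 * sg (u.2 ∪ v.2) w.2 *
        (c u.1 v.1 r * c r w.1 t.1) else 0 := by
      intro r
      rw [Finset.sum_eq_single (u.2 ∪ v.2)]
      · unfold CE
        simp only [if_true]
        split_ifs
        · ring
        · ring
      · intro R _ hR
        unfold CE
        simp only
        rw [if_neg hR, zero_mul]
      · intro h
        exact absurd (Finset.mem_univ _) h
    rw [Finset.sum_congr rfl (fun r _ => this r)]
    split_ifs
    · rw [Finset.mul_sum]
    · exact Finset.sum_const_zero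
  have h2 : ∑ r : Fin n × Finset (Fin m), CE c m v w r * CE c m u r t =
      if t.2 = u.2 ∪ v.2 ∪ w.2 then sg u.2 v.2 * sg (u.2 ∪ v.2) w.2 *
        ∑ r : Fin n, c v.1 w.1 r * c u.1 r t.1 else 0 := by
    rw [Fintype.sum_prod_type]
    have : ∀ r : Fin n, ∑ R : Finset (Fin m), CE c m v w (r, R) * CE c m u (r, R) t =
        if t.2 = u.2 ∪ v.2 ∪ w.2 then sg u.2 v.2 * sg (u.2 ∪ v.2) w.2 *
        (c v.1 w.1 r * c u.1 r t.1) else 0 := by
      intro r
      rw [Finset.sum_eq_single (v.2 ∪ w.2)]
      · unfold CE
        simp only [if_true]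
        rw [sg_cocycle, Finset.union_assoc]
        split_ifs
        · ring
        · ring
      · intro R _ hR
        unfold CE
        simp only
        rw [if_neg hR, zero_mul]
      · intro h
        exact absurd (Finset.mem_univ _) h
    rw [Finset.sum_congr rfl (fun r _ => this r)]
    split_ifs
    · rw [Finset.mul_sum]
    · exact Finset.sum_const_zero
  rw [h1, h2]
  split_ifs
  · rw [← mul_sub, as3, Finset.sum_sub_distrib]
  · rw [sub_zero]

/-- the hypotheses on the superalgebra -/
structure SuperAlt (xd : Fin n → ℕ) : Prop where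
  deg : ∀ i j k, c i j k ≠ 0 → xd k = xd i + xd j
  left : ∀ i j k l, as3 c j i k l = - (-1) ^ (xd i * xd j) * as3 c i j k l
  right : ∀ i j k l, as3 c i k j l = - (-1) ^ (xd j * xd k) * as3 c i j k l
  left0 : ∀ i k l, xd i = 0 → as3 c i i k l = 0
  right0 : ∀ i k l, xd i = 0 → as3 c k i i l = 0

variable {c} {xd : Fin n → ℕ} (H : SuperAlt c xd) (Φ : Type u) [CommRing Φ] (m)

/-- the Grassmann envelope -/
def Env : NonUnitalSubalgebra Φ (SA Φ (Fin n × Finset (Fin m)) (CE c m)) where
  carrier := {f | ∀ u : Fin n × Finset (Fin m), u.2.card ≠ xd u.1 → f u = 0}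
  add_mem' := by
    intro f g hf hg u hu
    rw [SA.add_apply, hf u hu, hg u hu, add_zero]
  zero_mem' := fun u _ => rfl
  smul_mem' := by
    intro r f hf u hu
    rw [SA.smul_apply, hf u hu, mul_zero]
  mul_mem' := by
    intro f g hf hg w hw
    rw [SA.mul_apply]
    refine Finset.sum_eq_zero fun u _ => Finset.sum_eq_zero fun v _ => ?_
    by_cases hu : u.2.card = xd u.1
    · by_cases hv : v.2.card = xd v.1
      · have : CE c m u v w = 0 := by
          unfold CE
          split_ifs with h
          · by_cases hc : c u.1 v.1 w.1 = 0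
            · rw [hc, zero_mul]
            · have hd := H.deg _ _ _ hc
              unfold sg
              rw [if_neg, mul_zero]
              intro hdis
              apply hw
              rw [h, Finset.card_union_of_disjoint hdis, hu, hv, hd]
          · rfl
        rw [this, Int.cast_zero, zero_mul]
      · rw [hg v hv, mul_zero, mul_zero]
    · rw [hf u hu, zero_mul, mul_zero]

lemma Env.left_alt (f g : SA Φ (Fin n × Finset (Fin m)) (CE c m)) (hf : f ∈ Env m H Φ)
    (hg : g ∈ Env m H Φ) : associator f f g = 0 := by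
  funext t
  rw [SA.assoc_apply, SA.zero_apply]
  conv_lhs => rw [Finset.sum_congr rfl (fun u _ => Finset.sum_comm)]
  rw [Finset.sum_comm]
  refine Finset.sum_eq_zero fun w _ => ?_
  have h0 := sum_alt (fun u v => (As (CE c m) u v w t : Φ) * g w) f (fun u => u.2.card = xd u.1)
    (fun u hu => hf u hu) ?_ ?_
  · rw [← h0]
    refine Finset.sum_congr rfl fun u _ => Finset.sum_congr rfl fun v _ => ?_
    ring
  · intro u v hu hv
    have : As (CE c m) v u w t = - As (CE c m) u v w t := by
      rw [As_CE, As_CE, Finset.union_comm v.2 u.2]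
      split_ifs
      · rw [sg_swap, H.left u.1 v.1, hu, hv]
        have : ((-1 : ℤ) ^ (xd u.1 * xd v.1)) * (-1) ^ (xd u.1 * xd v.1) = 1 := by
          rw [← mul_pow]; simp
        linear_combination (-(sg u.2 v.2 * sg (u.2 ∪ v.2) w.2 * as3 c u.1 v.1 w.1 t.1)) * this
      · rw [neg_zero]
    simp only [this, Int.cast_neg]
    ring
  · intro u hu
    have : As (CE c m) u u w t = 0 := by
      rw [As_CE]
      split_ifs
      · by_cases he : u.2 = ∅
        · have hx : xd u.1 = 0 := by rw [← hu, he, Finset.card_empty]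
          rw [H.left0 _ _ _ hx, mul_zero]
        · rw [sg_self _ he]; ring
      · rfl
    simp only [this, Int.cast_zero, zero_mul]

lemma Env.right_alt (f g : SA Φ (Fin n × Finset (Fin m)) (CE c m)) (hf : f ∈ Env m H Φ)
    (hg : g ∈ Env m H Φ) : associator g f f = 0 := by
  funext t
  rw [SA.assoc_apply, SA.zero_apply]
  refine Finset.sum_eq_zero fun w _ => ?_
  have h0 := sum_alt (fun u v => (As (CE c m) w u v t : Φ) * g w) f (fun u => u.2.card = xd u.1)
    (fun u hu => hf u hu) ?_ ?_
  · rw [← h0]
    refine Finset.sum_congr rfl fun u _ => Finset.sum_congr rfl fun v _ => ?_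
    ring
  · intro u v hu hv
    have : As (CE c m) w v u t = - As (CE c m) w u v t := by
      rw [As_CE, As_CE, Finset.union_right_comm w.2 v.2 u.2]
      split_ifs
      · rw [sg_cocycle, sg_cocycle w.2 u.2 v.2, sg_swap u.2 v.2, Finset.union_comm v.2 u.2,
          H.right w.1 u.1 v.1, hu, hv]
        have : ((-1 : ℤ) ^ (xd u.1 * xd v.1)) * (-1) ^ (xd u.1 * xd v.1) = 1 := by
          rw [← mul_pow]; simp
        linear_combination (-(sg u.2 v.2 * sg w.2 (u.2 ∪ v.2) * as3 c w.1 u.1 v.1 t.1)) * this
      · rw [neg_zero]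
    simp only [this, Int.cast_neg]
    ring
  · intro u hu
    have : As (CE c m) w u u t = 0 := by
      rw [As_CE]
      split_ifs
      · by_cases he : u.2 = ∅
        · have hx : xd u.1 = 0 := by rw [← hu, he, Finset.card_empty]
          rw [H.right0 _ _ _ hx, mul_zero]
        · rw [sg_cocycle, sg_self _ he]; ring
      · rfl
    simp only [this, Int.cast_zero, zero_mul]

instance Env.isAlternative : H8Alt.IsAlternative (Env m H Φ) where
  left_alt := by
    intro a b
    apply Subtype.ext
    have := Env.left_alt m H Φ a.1 b.1 a.2 b.2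
    rw [associator_apply] at this ⊢
    exact this
  right_alt := by
    intro a b
    apply Subtype.ext
    have := Env.right_alt m H Φ a.1 b.1 a.2 b.2
    rw [associator_apply] at this ⊢
    exact this

end Env

end Pool.Agent.H3.Alt
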