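import Pool.Agent.H3.Alt.Ev

/-!
# Models
-/

set_option autoImplicit false
set_option linter.unusedSectionVars false
set_option linter.unusedVariables false

namespace Pool.Agent.H3.Alt

open Finset

universe u

/-- the generators -/
def rho (m zi xi : ℕ) : ℕ → List (ℕ × ℤ) × Finset (Fin m)
  | 0 => ([(zi, 1)], ∅)
  | i + 1 => if h : i < m then ([(xi, 1)], {⟨i, h⟩}) else ([], ∅)

lemma rho_zero (m zi xi : ℕ) : rho m zi xi 0 = ([(zi, 1)], ∅) := rfl

lemma rho_succ (m zi xi i : ℕ) : rho m zi xi (i + 1) =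
    if h : i < m then ([(xi, 1)], {⟨i, h⟩}) else ([], ∅) := rfl

lemma ten_apply (Φ : Type u) [CommRing Φ] {n m : ℕ} {T : Tr} (L : List (ℕ × ℤ))
    (S : Finset (Fin m)) (u : Fin n × Finset (Fin m)) :
    (ten Φ T L S : SA Φ (Fin n × Finset (Fin m)) (CE (cc n T) m)) u =
      if u.2 = S then ((cf L u.1 : ℤ) : Φ) else 0 := rfl

lemma rho_Vd (m zi xi n : ℕ) (hz : zi < n) (hx : xi < n) (i : ℕ) : Vd n (rho m zi xi i).1 := by
  rcases i with _ | i
  · intro p hp
    have : p = (zi, 1) := by simpa [rho] using hp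
    rw [this]; exact hz
  · rw [rho_succ]
    by_cases h : i < m
    · rw [dif_pos h]
      intro p hp
      have : p = (xi, 1) := by simpa using hp
      rw [this]; exact hx
    · rw [dif_neg h]
      intro p hp
      simp at hp

lemma cf_single (k l : ℕ) : cf [(k, 1)] l = if k = l then 1 else 0 := by
  rw [cf_cons]
  show _ + (0 : ℤ) = _
  rw [add_zero]

theorem model (Φ : Type u) [CommRing Φ] {n : ℕ} {T : Tr} {zd xd : ℕ → ℕ} {Z X : ℕ}
    (hD : ∀ i < n, ckD n T zd xd Z X i = true) (H : SuperAlt (cc n T) (fun i => xd i))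
    (m zi xi top : ℕ) (hz : zi < n) (hx : xi < n) (ht : top < n) (hz0 : xd zi = 0)
    (hx1 : xd xi = 1) (e : Ex) (k : ℤ)
    (he : (match e.comp n T (rho m zi xi) with
      | some r => decide (r.2 = Finset.univ) && decide (cf r.1 top = k)
      | none => false) = true) :
    ∃ (M : Type u) (_ : NonUnitalNonAssocRing M) (_ : Module Φ M) (_ : IsScalarTower Φ M M)
      (_ : SMulCommClass Φ M M) (_ : H8Alt.IsAlternative M) (ρ : ℕ → M) (φ : M →ₗ[Φ] Φ),
      φ (e.ev ρ) = (k : Φ) := by
  have hmem : ∀ i, (ten Φ T (rho m zi xi i).1 (rho m zi xi i).2 :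
      SA Φ (Fin n × Finset (Fin m)) (CE (cc n T) m)) ∈ Env m H Φ := by
    intro i u hu
    have hu' : u.2.card ≠ xd u.1 := hu
    rcases i with _ | i
    · rw [rho_zero, ten_apply]
      split_ifs with h
      · rw [cf_single, if_neg, Int.cast_zero]
        intro h1
        apply hu'
        rw [h, Finset.card_empty, ← h1, hz0]
      · rfl
    · rw [rho_succ]
      by_cases hi : i < m
      · rw [dif_pos hi, ten_apply]
        split_ifs with h
        · rw [cf_single, if_neg, Int.cast_zero]
          intro h1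
          apply hu'
          rw [h, Finset.card_singleton, ← h1, hx1]
        · rfl
      · rw [dif_neg hi, ten_apply]
        split_ifs
        · exact Int.cast_zero
        · rfl
  refine ⟨Env m H Φ, inferInstance, inferInstance, inferInstance, inferInstance,
    Env.isAlternative m H Φ, fun i => ⟨_, hmem i⟩,
    { toFun := fun f => f.1 (⟨top, ht⟩, Finset.univ)
      map_add' := fun f g => rfl
      map_smul' := fun r f => rfl }, ?_⟩
  rcases hr : e.comp n T (rho m zi xi) with _ | r
  · rw [hr] at he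
    exact absurd he Bool.false_ne_true
  · rw [hr] at he
    simp only [Bool.and_eq_true, decide_eq_true_eq] at he
    obtain ⟨h1, h2⟩ := he
    have hpr : ∀ i j, i < n → j < n → Vd n (pr n T i j) :=
      fun i j hi hj p hp => (ckD_spec hD i j hi hj p hp).1
    have h3 := (Ex.comp_spec Φ hpr (rho m zi xi) (rho_Vd m zi xi n hz hx) e r hr).2
    show (e.ev (fun i => (⟨_, hmem i⟩ : Env m H Φ))).1 (⟨top, ht⟩, Finset.univ) = (k : Φ)
    have h4 := Ex.ev_map (fun x : Env m H Φ => x.1) (fun x y => rfl) (fun x y => rfl)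
      (fun x y => rfl) (fun i => (⟨_, hmem i⟩ : Env m H Φ)) e
    rw [show (e.ev (fun i => (⟨_, hmem i⟩ : Env m H Φ))).1 = _ from h4]
    show (e.ev (fun i => (ten Φ T (rho m zi xi i).1 (rho m zi xi i).2 :
      SA Φ (Fin n × Finset (Fin m)) (CE (cc n T) m)))) (⟨top, ht⟩, Finset.univ) = (k : Φ)
    rw [h3, ten_apply, if_pos h1.symm, h2]

end Pool.Agent.H3.Alt
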