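import Pool.Agent.H3.Alt.NData

set_option autoImplicit false

namespace Pool.Agent.H3.Alt.N

open Pool.Agent.H3.Alt

theorem hD : ∀ i < 83, ckD 83 T zd xd 3 5 i = true :=
  allB_spec _ 83 (by decide +kernel)

theorem hL : ∀ i < 83, ckL zd xd D i = true :=
  allB_spec _ 83 (by decide +kernel)

theorem hI : ∀ i < 83, ckI 83 T zd xd 3 5 D i = true :=
  allB_spec _ 83 (by decide +kernel)

theorem superAlt : SuperAlt (cc 83 T) (fun i => xd i) := superAlt_of_check hD hL hI

end Pool.Agent.H3.Alt.N
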