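import Pool.Agent.H3.Alt.Chk

/-!
# Structure constants of the superalgebra `N`
-/

set_option autoImplicit false

namespace Pool.Agent.H3.Alt.N

open Pool.Agent.H3.Alt

/-- part of the table -/
def t0 : Tr := (Tr.nd (Tr.nd (Tr.nd (Tr.nd (Tr.nd Tr.nil (nat_lit 0) [(nat_lit 2, Int.ofNat (nat_lit 1))] Tr.nil) (nat_lit 1) [(nat_lit 4, Int.ofNat (nat_lit 1))] Tr.nil) (nat_lit 2) [(nat_lit 6, Int.ofNat (nat_lit 1))] (Tr.nd Tr.nil (nat_lit 3) [(nat_lit 9, Int.ofNat (nat_lit 1))] Tr.nil)) (nat_lit 4) [(nat_lit 10, Int.ofNat (nat_lit 1))] (Tr.nd (Tr.nd Tr.nil (nat_lit 5) [(nat_lit 14, Int.ofNat (nat_lit 1))] Tr.nil) (nat_lit 6) [(nat_lit 17, Int.negSucc (nat_lit 0)), (nat_lit 18, Int.ofNat (nat_lit 1))] (Tr.nd Tr.nil (nat_lit 7) [(nat_lit 16, Int.ofNat (nat_lit 1)), (nat_lit 17, Int.ofNat (nat_lit 1))] Tr.nil))) (nat_lit 8) [(nat_lit 22, Int.ofNat (nat_lit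 1)), (nat_lit 26, Int.negSucc (nat_lit 0))] (Tr.nd (Tr.nd (Tr.nd (Tr.nd Tr.nil (nat_lit 9) [(nat_lit 20, Int.negSucc (nat_lit 0)), (nat_lit 25, Int.ofNat (nat_lit 1))] Tr.nil) (nat_lit 10) [(nat_lit 19, Int.negSucc (nat_lit 0)), (nat_lit 20, Int.ofNat (nat_lit 1)), (nat_lit 21, Int.ofNat (nat_lit 1)), (nat_lit 22, Int.ofNat (nat_lit 1))] Tr.nil) (nat_lit 11) [(nat_lit 25, Int.ofNat (nat_lit 1))] (Tr.nd Tr.nil (nat_lit 12) [(nat_lit 30, Int.ofNat (nat_lit 1))] Tr.nil)) (nat_lit 13) [(nat_lit 32, Int.ofNat (nat_lit 1)), (nat_lit 33, Int.ofNat (nat_lit 1))] (Tr.nd (Tr.nd Tr.nil (nat_lit 14) [(nat_lit 31, Int.ofNat (nat_lit 1)), (nat_lit 34, Int.ofNat (nat_lit 1))] Tr.nil) (nat_lit 15) [(nat_lit 38, Int.ofNat (nat_lit 1))] (Tr.nd Tr.nil (nat_lit 16) [(nat_lit 39, Int.negSucc (nat_lit 6))] Tr.nil))))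

/-- part of the table -/
def t1 : Tr := (Tr.nd (Tr.nd (Tr.nd (Tr.nd (Tr.nd Tr.nil (nat_lit 18) [(nat_lit 39, Int.ofNat (nat_lit 23))] Tr.nil) (nat_lit 19) [(nat_lit 41, Int.ofNat (nat_lit 1)), (nat_lit 42, Int.ofNat (nat_lit 1)), (nat_lit 43, Int.negSucc (nat_lit 1)), (nat_lit 44, Int.negSucc (nat_lit 7)), (nat_lit 45, Int.negSucc (nat_lit 7)), (nat_lit 46, Int.ofNat (nat_lit 3))] Tr.nil) (nat_lit 20) [(nat_lit 42, Int.ofNat (nat_lit 1)), (nat_lit 43, Int.negSucc (nat_lit 0)), (nat_lit 44, Int.ofNat (nat_lit 4)), (nat_lit 45, Int.negSucc (nat_lit 19)), (nat_lit 46, Int.negSucc (nat_lit 3))] (Tr.nd Tr.nil (nat_lit 21) [(nat_lit 41, Int.ofNat (nat_lit 1)), (nat_lit 42, Int.negSucc (nat_lit 4)), (nat_lit 44, Int.negSucc (nat_lit 4)), (nat_lit 45, Int.ofNat (nat_lit 4)), (nat_lit 46, Int.negSucc (nat_lit 9))] Tr.nil)) (nat_lit 22) [(nat_lit 42, Int.ofNat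 (nat_lit 1)), (nat_lit 43, Int.ofNat (nat_lit 3)), (nat_lit 44, Int.ofNat (nat_lit 1)), (nat_lit 45, Int.negSucc (nat_lit 7)), (nat_lit 46, Int.ofNat (nat_lit 11))] (Tr.nd (Tr.nd Tr.nil (nat_lit 23) [(nat_lit 41, Int.ofNat (nat_lit 1)), (nat_lit 43, Int.negSucc (nat_lit 0)), (nat_lit 44, Int.ofNat (nat_lit 7)), (nat_lit 45, Int.negSucc (nat_lit 1)), (nat_lit 46, Int.ofNat (nat_lit 19))] Tr.nil) (nat_lit 24) [(nat_lit 41, Int.negSucc (nat_lit 0)), (nat_lit 42, Int.negSucc (nat_lit 6)), (nat_lit 43, Int.negSucc (nat_lit 0)), (nat_lit 44, Int.negSucc (nat_lit 3)), (nat_lit 45, Int.ofNat (nat_lit 2)), (nat_lit 46, Int.ofNat (nat_lit 12))] (Tr.nd Tr.nil (nat_lit 25) [(nat_lit 41, Int.ofNat (nat_lit 1)), (nat_lit 42, Int.negSucc (nat_lit 4)), (nat_lit 43, Int.negSucc (nat_lit 0)), (nat_lit 44, Int.ofNat (nat_lit 11)), (nat_lit 45, Int.negSucc (nat_lit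 1)), (nat_lit 46, Int.ofNat (nat_lit 11))] Tr.nil))) (nat_lit 26) [(nat_lit 42, Int.ofNat (nat_lit 3)), (nat_lit 43, Int.ofNat (nat_lit 2)), (nat_lit 44, Int.negSucc (nat_lit 6)), (nat_lit 46, Int.ofNat (nat_lit 3))] (Tr.nd (Tr.nd (Tr.nd (Tr.nd Tr.nil (nat_lit 27) [(nat_lit 50, Int.ofNat (nat_lit 3)), (nat_lit 51, Int.ofNat (nat_lit 2)), (nat_lit 52, Int.ofNat (nat_lit 2)), (nat_lit 53, Int.ofNat (nat_lit 5)), (nat_lit 54, Int.negSucc (nat_lit 0)), (nat_lit 55, Int.negSucc (nat_lit 3)), (nat_lit 56, Int.negSucc (nat_lit 0)), (nat_lit 58, Int.negSucc (nat_lit 2)), (nat_lit 59, Int.ofNat (nat_lit 1)), (nat_lit 60, Int.ofNat (nat_lit 2))] Tr.nil) (nat_lit 28) [(nat_lit 48, Int.ofNat (nat_lit 1)), (nat_lit 49, Int.ofNat (nat_lit 1)), (nat_lit 50, Int.negSucc (nat_lit 1)), (nat_lit 51, Int.negSucc (nat_lit 1)), (nat_lit 52, Int.negSucc (nat_lit 1)),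 (nat_lit 53, Int.ofNat (nat_lit 3)), (nat_lit 54, Int.negSucc (nat_lit 0)), (nat_lit 55, Int.ofNat (nat_lit 4)), (nat_lit 56, Int.negSucc (nat_lit 3)), (nat_lit 57, Int.negSucc (nat_lit 3)), (nat_lit 58, Int.negSucc (nat_lit 0)), (nat_lit 59, Int.ofNat (nat_lit 6)), (nat_lit 60, Int.ofNat (nat_lit 1))] Tr.nil) (nat_lit 29) [(nat_lit 51, Int.ofNat (nat_lit 2)), (nat_lit 52, Int.negSucc (nat_lit 1)), (nat_lit 53, Int.ofNat (nat_lit 3)), (nat_lit 54, Int.ofNat (nat_lit 2)), (nat_lit 55, Int.ofNat (nat_lit 3)), (nat_lit 56, Int.ofNat (nat_lit 1)), (nat_lit 57, Int.negSucc (nat_lit 1)), (nat_lit 58, Int.ofNat (nat_lit 3)), (nat_lit 59, Int.negSucc (nat_lit 2)), (nat_lit 60, Int.ofNat (nat_lit 2))] (Tr.nd Tr.nil (nat_lit 30) [(nat_lit 48, Int.ofNat (nat_lit 1)), (nat_lit 49, Int.ofNat (nat_lit 1)), (nat_lit 51, Int.ofNat (nat_lit 2)), (nat_lit 52, Int.negSucc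 (nat_lit 5)), (nat_lit 53, Int.negSucc (nat_lit 4)), (nat_lit 54, Int.ofNat (nat_lit 7)), (nat_lit 55, Int.negSucc (nat_lit 1)), (nat_lit 56, Int.negSucc (nat_lit 1)), (nat_lit 58, Int.negSucc (nat_lit 5)), (nat_lit 59, Int.ofNat (nat_lit 1)), (nat_lit 60, Int.negSucc (nat_lit 7))] Tr.nil)) (nat_lit 31) [(nat_lit 47, Int.ofNat (nat_lit 1)), (nat_lit 48, Int.ofNat (nat_lit 2)), (nat_lit 49, Int.ofNat (nat_lit 1)), (nat_lit 50, Int.ofNat (nat_lit 2)), (nat_lit 51, Int.ofNat (nat_lit 3)), (nat_lit 53, Int.ofNat (nat_lit 1)), (nat_lit 54, Int.ofNat (nat_lit 1)), (nat_lit 55, Int.ofNat (nat_lit 1)), (nat_lit 56, Int.ofNat (nat_lit 3)), (nat_lit 57, Int.negSucc (nat_lit 0)), (nat_lit 58, Int.ofNat (nat_lit 2)), (nat_lit 59, Int.negSucc (nat_lit 1)), (nat_lit 60, Int.negSucc (nat_lit 0))] (Tr.nd (Tr.nd Tr.nil (nat_lit 32) [(nat_lit 47, Int.ofNat (nat_lit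 1)), (nat_lit 48, Int.ofNat (nat_lit 1)), (nat_lit 50, Int.ofNat (nat_lit 1)), (nat_lit 53, Int.negSucc (nat_lit 0)), (nat_lit 54, Int.ofNat (nat_lit 6)), (nat_lit 55, Int.negSucc (nat_lit 2)), (nat_lit 56, Int.negSucc (nat_lit 7)), (nat_lit 58, Int.ofNat (nat_lit 2)), (nat_lit 59, Int.negSucc (nat_lit 1)), (nat_lit 60, Int.ofNat (nat_lit 3))] Tr.nil) (nat_lit 33) [(nat_lit 47, Int.negSucc (nat_lit 0)), (nat_lit 48, Int.negSucc (nat_lit 0)), (nat_lit 50, Int.ofNat (nat_lit 1)), (nat_lit 53, Int.ofNat (nat_lit 4)), (nat_lit 54, Int.negSucc (nat_lit 1)), (nat_lit 55, Int.ofNat (nat_lit 4)), (nat_lit 56, Int.ofNat (nat_lit 2)), (nat_lit 59, Int.ofNat (nat_lit 1)), (nat_lit 60, Int.ofNat (nat_lit 4))] (Tr.nd Tr.nil (nat_lit 34) [(nat_lit 47, Int.negSucc (nat_lit 0)), (nat_lit 48, Int.negSucc (nat_lit 0)), (nat_lit 50, Int.ofNat (nat_lit 3)), (nat_lit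 51, Int.negSucc (nat_lit 0)), (nat_lit 52, Int.ofNat (nat_lit 8)), (nat_lit 53, Int.ofNat (nat_lit 1)), (nat_lit 54, Int.ofNat (nat_lit 1)), (nat_lit 55, Int.ofNat (nat_lit 9)), (nat_lit 56, Int.ofNat (nat_lit 2)), (nat_lit 57, Int.ofNat (nat_lit 3)), (nat_lit 58, Int.ofNat (nat_lit 3)), (nat_lit 59, Int.negSucc (nat_lit 5)), (nat_lit 60, Int.negSucc (nat_lit 6))] Tr.nil))))

/-- part of the table -/
def t2 : Tr := Tr.nd t0 (nat_lit 17) [(nat_lit 39, Int.ofNat (nat_lit 15))] t1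

/-- part of the table -/
def t3 : Tr := (Tr.nd (Tr.nd (Tr.nd (Tr.nd (Tr.nd Tr.nil (nat_lit 36) [(nat_lit 62, Int.negSucc (nat_lit 0)), (nat_lit 63, Int.ofNat (nat_lit 2)), (nat_lit 64, Int.ofNat (nat_lit 2)), (nat_lit 65, Int.negSucc (nat_lit 3)), (nat_lit 66, Int.negSucc (nat_lit 12)), (nat_lit 67, Int.negSucc (nat_lit 4))] Tr.nil) (nat_lit 37) [(nat_lit 63, Int.ofNat (nat_lit 3)), (nat_lit 65, Int.negSucc (nat_lit 1)), (nat_lit 66, Int.negSucc (nat_lit 2)), (nat_lit 67, Int.negSucc (nat_lit 3)), (nat_lit 68, Int.ofNat (nat_lit 10))] Tr.nil) (nat_lit 38) [(nat_lit 62, Int.negSucc (nat_lit 2)), (nat_lit 63, Int.negSucc (nat_lit 2)), (nat_lit 64, Int.negSucc (nat_lit 10)), (nat_lit 65, Int.ofNat (nat_lit 9)), (nat_lit 66, Int.ofNat (nat_lit 1)), (nat_lit 67, Int.negSucc (nat_lit 2)), (nat_lit 68, Int.ofNat (nat_lit 4))] (Tr.nd Tr.nil (nat_lit 40)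 [(nat_lit 69, Int.ofNat (nat_lit 13))] Tr.nil)) (nat_lit 41) [(nat_lit 69, Int.ofNat (nat_lit 9))] (Tr.nd (Tr.nd Tr.nil (nat_lit 42) [(nat_lit 69, Int.negSucc (nat_lit 0))] Tr.nil) (nat_lit 43) [(nat_lit 69, Int.negSucc (nat_lit 1))] (Tr.nd Tr.nil (nat_lit 44) [(nat_lit 69, Int.negSucc (nat_lit 0))] Tr.nil))) (nat_lit 47) [(nat_lit 70, Int.ofNat (nat_lit 1)), (nat_lit 71, Int.ofNat (nat_lit 1)), (nat_lit 72, Int.ofNat (nat_lit 3)), (nat_lit 73, Int.ofNat (nat_lit 6)), (nat_lit 74, Int.ofNat (nat_lit 12))] (Tr.nd (Tr.nd (Tr.nd (Tr.nd Tr.nil (nat_lit 48) [(nat_lit 71, Int.ofNat (nat_lit 1)), (nat_lit 72, Int.negSucc (nat_lit 0)), (nat_lit 73, Int.ofNat (nat_lit 2)), (nat_lit 74, Int.negSucc (nat_lit 7))] Tr.nil) (nat_lit 49) [(nat_lit 72, Int.ofNat (nat_lit 2)), (nat_lit 73, Int.negSucc (nat_lit 0)), (nat_lit 74, Int.ofNat (nat_lit 3))] Tr.nil) (nat_lit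 50) [(nat_lit 71, Int.negSucc (nat_lit 0)), (nat_lit 72, Int.negSucc (nat_lit 0)), (nat_lit 73, Int.negSucc (nat_lit 0)), (nat_lit 74, Int.ofNat (nat_lit 5))] (Tr.nd Tr.nil (nat_lit 51) [(nat_lit 71, Int.ofNat (nat_lit 1)), (nat_lit 72, Int.negSucc (nat_lit 0)), (nat_lit 74, Int.ofNat (nat_lit 6))] Tr.nil)) (nat_lit 52) [(nat_lit 72, Int.negSucc (nat_lit 1)), (nat_lit 74, Int.ofNat (nat_lit 1))] (Tr.nd (Tr.nd Tr.nil (nat_lit 53) [(nat_lit 73, Int.ofNat (nat_lit 2)), (nat_lit 74, Int.ofNat (nat_lit 2))] Tr.nil) (nat_lit 54) [(nat_lit 72, Int.ofNat (nat_lit 1)), (nat_lit 73, Int.ofNat (nat_lit 1)), (nat_lit 74, Int.negSucc (nat_lit 1))] (Tr.nd Tr.nil (nat_lit 57) [(nat_lit 73, Int.ofNat (nat_lit 1))] Tr.nil))))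

/-- part of the table -/
def t4 : Tr := (Tr.nd (Tr.nd (Tr.nd (Tr.nd (Tr.nd Tr.nil (nat_lit 60) [(nat_lit 74, Int.negSucc (nat_lit 0))] Tr.nil) (nat_lit 61) [(nat_lit 75, Int.negSucc (nat_lit 1)), (nat_lit 76, Int.ofNat (nat_lit 1)), (nat_lit 77, Int.negSucc (nat_lit 3)), (nat_lit 78, Int.negSucc (nat_lit 1))] Tr.nil) (nat_lit 62) [(nat_lit 76, Int.ofNat (nat_lit 1)), (nat_lit 77, Int.negSucc (nat_lit 3)), (nat_lit 78, Int.ofNat (nat_lit 2))] (Tr.nd Tr.nil (nat_lit 63) [(nat_lit 76, Int.ofNat (nat_lit 2)), (nat_lit 77, Int.negSucc (nat_lit 0))] Tr.nil)) (nat_lit 64) [(nat_lit 76, Int.ofNat (nat_lit 1)), (nat_lit 77, Int.negSucc (nat_lit 1)), (nat_lit 78, Int.negSucc (nat_lit 1))] (Tr.nd (Tr.nd Tr.nil (nat_lit 65) [(nat_lit 78, Int.negSucc (nat_lit 0))] Tr.nil) (nat_lit 66) [(nat_lit 76, Int.ofNat (nat_lit 1)), (nat_lit 77, Int.negSucc (nat_lit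 0)), (nat_lit 78, Int.negSucc (nat_lit 0))] (Tr.nd Tr.nil (nat_lit 67) [(nat_lit 76, Int.negSucc (nat_lit 0)), (nat_lit 77, Int.ofNat (nat_lit 1))] Tr.nil))) (nat_lit 68) [(nat_lit 76, Int.negSucc (nat_lit 0)), (nat_lit 77, Int.ofNat (nat_lit 1)), (nat_lit 78, Int.ofNat (nat_lit 1))] (Tr.nd (Tr.nd (Tr.nd Tr.nil (nat_lit 70) [(nat_lit 79, Int.negSucc (nat_lit 5))] Tr.nil) (nat_lit 71) [(nat_lit 79, Int.negSucc (nat_lit 1))] (Tr.nd Tr.nil (nat_lit 73) [(nat_lit 79, Int.ofNat (nat_lit 1))] Tr.nil)) (nat_lit 75) [(nat_lit 80, Int.negSucc (nat_lit 0)), (nat_lit 81, Int.ofNat (nat_lit 2))] (Tr.nd (Tr.nd Tr.nil (nat_lit 76) [(nat_lit 81, Int.ofNat (nat_lit 2))] Tr.nil) (nat_lit 78) [(nat_lit 81, Int.ofNat (nat_lit 1))] (Tr.nd Tr.nil (nat_lit 80) [(nat_lit 82, Int.ofNat (nat_lit 2))] Tr.nil))))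

/-- part of the table -/
def t5 : Tr := Tr.nd t3 (nat_lit 58) [(nat_lit 74, Int.ofNat (nat_lit 2))] t4

/-- part of the table -/
def t6 : Tr := Tr.nd t2 (nat_lit 35) [(nat_lit 62, Int.ofNat (nat_lit 1)), (nat_lit 63, Int.negSucc (nat_lit 0)), (nat_lit 64, Int.ofNat (nat_lit 5)), (nat_lit 65, Int.ofNat (nat_lit 3)), (nat_lit 66, Int.ofNat (nat_lit 2)), (nat_lit 67, Int.negSucc (nat_lit 11)), (nat_lit 68, Int.ofNat (nat_lit 6))] t5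

/-- part of the table -/
def t7 : Tr := (Tr.nd (Tr.nd (Tr.nd (Tr.nd (Tr.nd Tr.nil (nat_lit 84) [(nat_lit 5, Int.ofNat (nat_lit 1))] Tr.nil) (nat_lit 85) [(nat_lit 8, Int.ofNat (nat_lit 1))] Tr.nil) (nat_lit 86) [(nat_lit 12, Int.ofNat (nat_lit 1))] (Tr.nd Tr.nil (nat_lit 87) [(nat_lit 13, Int.ofNat (nat_lit 1))] Tr.nil)) (nat_lit 88) [(nat_lit 15, Int.ofNat (nat_lit 1))] (Tr.nd (Tr.nd Tr.nil (nat_lit 89) [(nat_lit 23, Int.ofNat (nat_lit 1)), (nat_lit 24, Int.ofNat (nat_lit 1)), (nat_lit 26, Int.ofNat (nat_lit 1))] Tr.nil) (nat_lit 90) [(nat_lit 23, Int.ofNat (nat_lit 1)), (nat_lit 25, Int.negSucc (nat_lit 0))] (Tr.nd Tr.nil (nat_lit 91) [(nat_lit 27, Int.ofNat (nat_lit 1))] Tr.nil))) (nat_lit 92) [(nat_lit 28, Int.ofNat (nat_lit 1))] (Tr.nd (Tr.nd (Tr.nd (Tr.nd Tr.nil (nat_lit 93) [(nat_lit 29, Int.ofNat (nat_lit 1)), (nat_lit 33, Int.negSucc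 (nat_lit 0)), (nat_lit 34, Int.ofNat (nat_lit 1))] Tr.nil) (nat_lit 94) [(nat_lit 29, Int.ofNat (nat_lit 1))] Tr.nil) (nat_lit 95) [(nat_lit 35, Int.ofNat (nat_lit 1))] (Tr.nd Tr.nil (nat_lit 96) [(nat_lit 36, Int.ofNat (nat_lit 1))] Tr.nil)) (nat_lit 97) [(nat_lit 37, Int.ofNat (nat_lit 1))] (Tr.nd (Tr.nd Tr.nil (nat_lit 99) [(nat_lit 43, Int.negSucc (nat_lit 1)), (nat_lit 44, Int.ofNat (nat_lit 3)), (nat_lit 46, Int.ofNat (nat_lit 9))] Tr.nil) (nat_lit 100) [(nat_lit 44, Int.negSucc (nat_lit 2)), (nat_lit 46, Int.negSucc (nat_lit 2))] (Tr.nd Tr.nil (nat_lit 101) [(nat_lit 40, Int.ofNat (nat_lit 1)), (nat_lit 42, Int.ofNat (nat_lit 2)), (nat_lit 43, Int.negSucc (nat_lit 0)), (nat_lit 44, Int.ofNat (nat_lit 6)), (nat_lit 45, Int.ofNat (nat_lit 3)), (nat_lit 46, Int.ofNat (nat_lit 24))] Tr.nil))))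

/-- part of the table -/
def t8 : Tr := (Tr.nd (Tr.nd (Tr.nd (Tr.nd (Tr.nd Tr.nil (nat_lit 103) [(nat_lit 48, Int.negSucc (nat_lit 0)), (nat_lit 49, Int.negSucc (nat_lit 2)), (nat_lit 50, Int.ofNat (nat_lit 2)), (nat_lit 51, Int.ofNat (nat_lit 3)), (nat_lit 52, Int.negSucc (nat_lit 1)), (nat_lit 53, Int.ofNat (nat_lit 3)), (nat_lit 54, Int.negSucc (nat_lit 2)), (nat_lit 55, Int.ofNat (nat_lit 1)), (nat_lit 56, Int.ofNat (nat_lit 6)), (nat_lit 57, Int.negSucc (nat_lit 0)), (nat_lit 58, Int.negSucc (nat_lit 0)), (nat_lit 60, Int.ofNat (nat_lit 5))] Tr.nil) (nat_lit 104) [(nat_lit 49, Int.ofNat (nat_lit 2)), (nat_lit 50, Int.negSucc (nat_lit 1)), (nat_lit 51, Int.ofNat (nat_lit 2)), (nat_lit 52, Int.ofNat (nat_lit 2)), (nat_lit 53, Int.negSucc (nat_lit 3)), (nat_lit 54, Int.ofNat (nat_lit 1)), (nat_lit 55, Int.ofNat (nat_lit 1)), (nat_lit 56, Int.negSucc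 (nat_lit 2)), (nat_lit 57, Int.ofNat (nat_lit 2)), (nat_lit 58, Int.ofNat (nat_lit 1)), (nat_lit 59, Int.ofNat (nat_lit 4)), (nat_lit 60, Int.ofNat (nat_lit 9))] Tr.nil) (nat_lit 105) [(nat_lit 50, Int.ofNat (nat_lit 5)), (nat_lit 53, Int.ofNat (nat_lit 3)), (nat_lit 54, Int.negSucc (nat_lit 3)), (nat_lit 55, Int.negSucc (nat_lit 2)), (nat_lit 56, Int.ofNat (nat_lit 1)), (nat_lit 58, Int.negSucc (nat_lit 1)), (nat_lit 59, Int.ofNat (nat_lit 7)), (nat_lit 60, Int.negSucc (nat_lit 4))] (Tr.nd Tr.nil (nat_lit 106) [(nat_lit 48, Int.negSucc (nat_lit 1)), (nat_lit 49, Int.negSucc (nat_lit 0)), (nat_lit 51, Int.ofNat (nat_lit 4)), (nat_lit 52, Int.negSucc (nat_lit 0)), (nat_lit 53, Int.negSucc (nat_lit 0)), (nat_lit 54, Int.ofNat (nat_lit 4)), (nat_lit 55, Int.ofNat (nat_lit 4)), (nat_lit 57, Int.negSucc (nat_lit 0)), (nat_lit 58, Int.ofNat (nat_lit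 3)), (nat_lit 59, Int.ofNat (nat_lit 4)), (nat_lit 60, Int.ofNat (nat_lit 2))] Tr.nil)) (nat_lit 107) [(nat_lit 48, Int.ofNat (nat_lit 2)), (nat_lit 49, Int.ofNat (nat_lit 1)), (nat_lit 50, Int.ofNat (nat_lit 2)), (nat_lit 52, Int.ofNat (nat_lit 1)), (nat_lit 53, Int.negSucc (nat_lit 0)), (nat_lit 54, Int.negSucc (nat_lit 2)), (nat_lit 56, Int.ofNat (nat_lit 1)), (nat_lit 57, Int.ofNat (nat_lit 1)), (nat_lit 58, Int.negSucc (nat_lit 1)), (nat_lit 59, Int.negSucc (nat_lit 1)), (nat_lit 60, Int.negSucc (nat_lit 6))] (Tr.nd (Tr.nd Tr.nil (nat_lit 108) [(nat_lit 49, Int.negSucc (nat_lit 1)), (nat_lit 50, Int.ofNat (nat_lit 2)), (nat_lit 51, Int.ofNat (nat_lit 4)), (nat_lit 52, Int.negSucc (nat_lit 3)), (nat_lit 53, Int.negSucc (nat_lit 2)), (nat_lit 54, Int.ofNat (nat_lit 3)), (nat_lit 55, Int.ofNat (nat_lit 3)), (nat_lit 58, Int.ofNat (nat_lit 5)),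 (nat_lit 59, Int.ofNat (nat_lit 2)), (nat_lit 60, Int.negSucc (nat_lit 0))] Tr.nil) (nat_lit 109) [(nat_lit 50, Int.ofNat (nat_lit 2)), (nat_lit 54, Int.negSucc (nat_lit 0)), (nat_lit 56, Int.ofNat (nat_lit 1)), (nat_lit 58, Int.negSucc (nat_lit 2)), (nat_lit 60, Int.negSucc (nat_lit 0))] (Tr.nd Tr.nil (nat_lit 110) [(nat_lit 62, Int.negSucc (nat_lit 4)), (nat_lit 63, Int.negSucc (nat_lit 0)), (nat_lit 64, Int.ofNat (nat_lit 6)), (nat_lit 65, Int.negSucc (nat_lit 2)), (nat_lit 66, Int.negSucc (nat_lit 6)), (nat_lit 67, Int.negSucc (nat_lit 4)), (nat_lit 68, Int.negSucc (nat_lit 2))] Tr.nil))) (nat_lit 111) [(nat_lit 63, Int.ofNat (nat_lit 3)), (nat_lit 64, Int.negSucc (nat_lit 4)), (nat_lit 65, Int.negSucc (nat_lit 1)), (nat_lit 66, Int.ofNat (nat_lit 1)), (nat_lit 67, Int.negSucc (nat_lit 3)), (nat_lit 68, Int.negSucc (nat_lit 4))] (Tr.nd (Tr.nd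 (Tr.nd (Tr.nd Tr.nil (nat_lit 112) [(nat_lit 61, Int.ofNat (nat_lit 1)), (nat_lit 62, Int.negSucc (nat_lit 1)), (nat_lit 63, Int.negSucc (nat_lit 0)), (nat_lit 65, Int.negSucc (nat_lit 3)), (nat_lit 66, Int.ofNat (nat_lit 6)), (nat_lit 67, Int.ofNat (nat_lit 1)), (nat_lit 68, Int.ofNat (nat_lit 6))] Tr.nil) (nat_lit 113) [(nat_lit 62, Int.negSucc (nat_lit 0)), (nat_lit 63, Int.ofNat (nat_lit 2)), (nat_lit 64, Int.negSucc (nat_lit 2)), (nat_lit 65, Int.negSucc (nat_lit 3)), (nat_lit 66, Int.negSucc (nat_lit 4)), (nat_lit 67, Int.negSucc (nat_lit 4)), (nat_lit 68, Int.negSucc (nat_lit 10))] Tr.nil) (nat_lit 114) [(nat_lit 61, Int.ofNat (nat_lit 1)), (nat_lit 62, Int.negSucc (nat_lit 2)), (nat_lit 63, Int.negSucc (nat_lit 1)), (nat_lit 65, Int.negSucc (nat_lit 5)), (nat_lit 66, Int.ofNat (nat_lit 4)), (nat_lit 68, Int.ofNat (nat_lit 4))] (Tr.nd Tr.nil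 (nat_lit 115) [(nat_lit 64, Int.negSucc (nat_lit 1))] Tr.nil)) (nat_lit 116) [(nat_lit 62, Int.ofNat (nat_lit 1)), (nat_lit 63, Int.ofNat (nat_lit 1)), (nat_lit 65, Int.ofNat (nat_lit 2)), (nat_lit 66, Int.ofNat (nat_lit 6)), (nat_lit 67, Int.ofNat (nat_lit 1)), (nat_lit 68, Int.ofNat (nat_lit 6))] (Tr.nd (Tr.nd Tr.nil (nat_lit 117) [(nat_lit 61, Int.negSucc (nat_lit 0)), (nat_lit 62, Int.ofNat (nat_lit 1)), (nat_lit 63, Int.negSucc (nat_lit 2)), (nat_lit 64, Int.negSucc (nat_lit 3)), (nat_lit 65, Int.negSucc (nat_lit 0)), (nat_lit 67, Int.negSucc (nat_lit 1))] Tr.nil) (nat_lit 123) [(nat_lit 70, Int.ofNat (nat_lit 2)), (nat_lit 71, Int.negSucc (nat_lit 3)), (nat_lit 73, Int.negSucc (nat_lit 6)), (nat_lit 74, Int.negSucc (nat_lit 9))] (Tr.nd Tr.nil (nat_lit 124) [(nat_lit 71, Int.ofNat (nat_lit 2)), (nat_lit 73, Int.ofNat (nat_lit 1))] Tr.nil))))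

/-- part of the table -/
def t9 : Tr := Tr.nd t7 (nat_lit 102) [(nat_lit 48, Int.negSucc (nat_lit 0)), (nat_lit 49, Int.negSucc (nat_lit 0)), (nat_lit 50, Int.negSucc (nat_lit 1)), (nat_lit 51, Int.ofNat (nat_lit 3)), (nat_lit 53, Int.ofNat (nat_lit 1)), (nat_lit 54, Int.negSucc (nat_lit 6)), (nat_lit 55, Int.negSucc (nat_lit 0)), (nat_lit 56, Int.ofNat (nat_lit 6)), (nat_lit 57, Int.ofNat (nat_lit 1)), (nat_lit 58, Int.negSucc (nat_lit 3)), (nat_lit 59, Int.ofNat (nat_lit 3)), (nat_lit 60, Int.negSucc (nat_lit 7))] t8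

/-- part of the table -/
def t10 : Tr := (Tr.nd (Tr.nd (Tr.nd (Tr.nd (Tr.nd Tr.nil (nat_lit 127) [(nat_lit 73, Int.ofNat (nat_lit 1))] Tr.nil) (nat_lit 130) [(nat_lit 75, Int.negSucc (nat_lit 1)), (nat_lit 76, Int.ofNat (nat_lit 2)), (nat_lit 77, Int.negSucc (nat_lit 2)), (nat_lit 78, Int.negSucc (nat_lit 10))] Tr.nil) (nat_lit 131) [(nat_lit 75, Int.negSucc (nat_lit 1)), (nat_lit 76, Int.negSucc (nat_lit 1)), (nat_lit 77, Int.ofNat (nat_lit 3)), (nat_lit 78, Int.ofNat (nat_lit 6))] (Tr.nd Tr.nil (nat_lit 132) [(nat_lit 75, Int.ofNat (nat_lit 2)), (nat_lit 78, Int.negSucc (nat_lit 0))] Tr.nil)) (nat_lit 133) [(nat_lit 76, Int.negSucc (nat_lit 0)), (nat_lit 77, Int.ofNat (nat_lit 1)), (nat_lit 78, Int.ofNat (nat_lit 1))] (Tr.nd (Tr.nd Tr.nil (nat_lit 134) [(nat_lit 77, Int.ofNat (nat_lit 1)), (nat_lit 78, Int.negSucc (nat_lit 5))] Tr.nil) (nat_lit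 135) [(nat_lit 78, Int.negSucc (nat_lit 0))] (Tr.nd Tr.nil (nat_lit 136) [(nat_lit 78, Int.negSucc (nat_lit 1))] Tr.nil))) (nat_lit 137) [(nat_lit 77, Int.negSucc (nat_lit 0))] (Tr.nd (Tr.nd (Tr.nd (Tr.nd Tr.nil (nat_lit 142) [(nat_lit 78, Int.negSucc (nat_lit 1))] Tr.nil) (nat_lit 143) [(nat_lit 78, Int.ofNat (nat_lit 1))] Tr.nil) (nat_lit 153) [(nat_lit 80, Int.ofNat (nat_lit 2)), (nat_lit 81, Int.negSucc (nat_lit 5))] (Tr.nd Tr.nil (nat_lit 156) [(nat_lit 81, Int.ofNat (nat_lit 1))] Tr.nil)) (nat_lit 166) [(nat_lit 7, Int.ofNat (nat_lit 1))] (Tr.nd (Tr.nd Tr.nil (nat_lit 167) [(nat_lit 11, Int.ofNat (nat_lit 1))] Tr.nil) (nat_lit 168) [(nat_lit 18, Int.ofNat (nat_lit 1))] (Tr.nd Tr.nil (nat_lit 169) [(nat_lit 21, Int.ofNat (nat_lit 1)), (nat_lit 26, Int.ofNat (nat_lit 1))] Tr.nil))))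

/-- part of the table -/
def t11 : Tr := (Tr.nd (Tr.nd (Tr.nd (Tr.nd (Tr.nd Tr.nil (nat_lit 171) [(nat_lit 31, Int.ofNat (nat_lit 1))] Tr.nil) (nat_lit 172) [(nat_lit 39, Int.ofNat (nat_lit 11))] Tr.nil) (nat_lit 173) [(nat_lit 39, Int.negSucc (nat_lit 0))] (Tr.nd Tr.nil (nat_lit 174) [(nat_lit 42, Int.negSucc (nat_lit 3)), (nat_lit 43, Int.negSucc (nat_lit 1)), (nat_lit 44, Int.ofNat (nat_lit 2)), (nat_lit 45, Int.negSucc (nat_lit 10)), (nat_lit 46, Int.negSucc (nat_lit 6))] Tr.nil)) (nat_lit 175) [(nat_lit 40, Int.ofNat (nat_lit 1)), (nat_lit 41, Int.ofNat (nat_lit 1)), (nat_lit 42, Int.negSucc (nat_lit 2)), (nat_lit 43, Int.ofNat (nat_lit 2)), (nat_lit 45, Int.ofNat (nat_lit 4)), (nat_lit 46, Int.negSucc (nat_lit 3))] (Tr.nd (Tr.nd Tr.nil (nat_lit 176) [(nat_lit 41, Int.ofNat (nat_lit 1)), (nat_lit 42, Int.ofNat (nat_lit 4)), (nat_lit 43, Int.negSucc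 (nat_lit 6)), (nat_lit 44, Int.ofNat (nat_lit 2)), (nat_lit 45, Int.negSucc (nat_lit 1)), (nat_lit 46, Int.ofNat (nat_lit 8))] Tr.nil) (nat_lit 177) [(nat_lit 41, Int.ofNat (nat_lit 1)), (nat_lit 42, Int.negSucc (nat_lit 6)), (nat_lit 43, Int.negSucc (nat_lit 4)), (nat_lit 44, Int.ofNat (nat_lit 6)), (nat_lit 45, Int.negSucc (nat_lit 1)), (nat_lit 46, Int.ofNat (nat_lit 8))] (Tr.nd Tr.nil (nat_lit 178) [(nat_lit 47, Int.negSucc (nat_lit 0)), (nat_lit 48, Int.negSucc (nat_lit 0)), (nat_lit 49, Int.ofNat (nat_lit 1)), (nat_lit 51, Int.ofNat (nat_lit 5)), (nat_lit 52, Int.negSucc (nat_lit 6)), (nat_lit 53, Int.negSucc (nat_lit 3)), (nat_lit 54, Int.ofNat (nat_lit 3)), (nat_lit 57, Int.negSucc (nat_lit 0)), (nat_lit 58, Int.ofNat (nat_lit 3)), (nat_lit 59, Int.negSucc (nat_lit 4)), (nat_lit 60, Int.negSucc (nat_lit 6))] Tr.nil))) (nat_lit 179) [(nat_lit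 47, Int.ofNat (nat_lit 1)), (nat_lit 48, Int.negSucc (nat_lit 0)), (nat_lit 49, Int.negSucc (nat_lit 0)), (nat_lit 51, Int.ofNat (nat_lit 1)), (nat_lit 53, Int.negSucc (nat_lit 0)), (nat_lit 54, Int.ofNat (nat_lit 3)), (nat_lit 55, Int.ofNat (nat_lit 2)), (nat_lit 56, Int.negSucc (nat_lit 1)), (nat_lit 57, Int.negSucc (nat_lit 0)), (nat_lit 58, Int.negSucc (nat_lit 0)), (nat_lit 59, Int.negSucc (nat_lit 5))] (Tr.nd (Tr.nd (Tr.nd Tr.nil (nat_lit 180) [(nat_lit 47, Int.ofNat (nat_lit 1)), (nat_lit 49, Int.ofNat (nat_lit 2)), (nat_lit 50, Int.negSucc (nat_lit 1)), (nat_lit 51, Int.negSucc (nat_lit 0)), (nat_lit 53, Int.ofNat (nat_lit 3)), (nat_lit 54, Int.ofNat (nat_lit 1)), (nat_lit 55, Int.negSucc (nat_lit 0)), (nat_lit 56, Int.ofNat (nat_lit 2)), (nat_lit 57, Int.ofNat (nat_lit 1)), (nat_lit 58, Int.ofNat (nat_lit 3)), (nat_lit 59, Int.negSucc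 (nat_lit 0)), (nat_lit 60, Int.ofNat (nat_lit 2))] Tr.nil) (nat_lit 181) [(nat_lit 61, Int.ofNat (nat_lit 4)), (nat_lit 62, Int.negSucc (nat_lit 0)), (nat_lit 63, Int.negSucc (nat_lit 2)), (nat_lit 64, Int.negSucc (nat_lit 6)), (nat_lit 65, Int.ofNat (nat_lit 11)), (nat_lit 66, Int.ofNat (nat_lit 5)), (nat_lit 67, Int.negSucc (nat_lit 1)), (nat_lit 68, Int.ofNat (nat_lit 7))] (Tr.nd Tr.nil (nat_lit 185) [(nat_lit 69, Int.negSucc (nat_lit 14))] Tr.nil)) (nat_lit 186) [(nat_lit 69, Int.negSucc (nat_lit 13))] (Tr.nd (Tr.nd Tr.nil (nat_lit 187) [(nat_lit 69, Int.negSucc (nat_lit 1))] Tr.nil) (nat_lit 188) [(nat_lit 69, Int.ofNat (nat_lit 3))] (Tr.nd Tr.nil (nat_lit 189) [(nat_lit 69, Int.negSucc (nat_lit 5))] Tr.nil))))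

/-- part of the table -/
def t12 : Tr := Tr.nd t10 (nat_lit 170) [(nat_lit 24, Int.negSucc (nat_lit 0))] t11

/-- part of the table -/
def t13 : Tr := Tr.nd t9 (nat_lit 125) [(nat_lit 73, Int.ofNat (nat_lit 1))] t12

/-- part of the table -/
def t14 : Tr := Tr.nd t6 (nat_lit 83) [(nat_lit 3, Int.ofNat (nat_lit 1))] t13

/-- part of the table -/
def t15 : Tr := (Tr.nd (Tr.nd (Tr.nd (Tr.nd (Tr.nd Tr.nil (nat_lit 191) [(nat_lit 69, Int.ofNat (nat_lit 11))] Tr.nil) (nat_lit 193) [(nat_lit 71, Int.ofNat (nat_lit 2)), (nat_lit 72, Int.negSucc (nat_lit 14)), (nat_lit 73, Int.negSucc (nat_lit 1)), (nat_lit 74, Int.ofNat (nat_lit 29))] Tr.nil) (nat_lit 194) [(nat_lit 70, Int.ofNat (nat_lit 2)), (nat_lit 71, Int.negSucc (nat_lit 4)), (nat_lit 72, Int.negSucc (nat_lit 4)), (nat_lit 73, Int.negSucc (nat_lit 3)), (nat_lit 74, Int.ofNat (nat_lit 14))] (Tr.nd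 Tr.nil (nat_lit 195) [(nat_lit 71, Int.ofNat (nat_lit 2)), (nat_lit 72, Int.negSucc (nat_lit 3)), (nat_lit 74, Int.ofNat (nat_lit 22))] Tr.nil)) (nat_lit 196) [(nat_lit 70, Int.ofNat (nat_lit 1)), (nat_lit 72, Int.ofNat (nat_lit 6)), (nat_lit 73, Int.negSucc (nat_lit 10)), (nat_lit 74, Int.ofNat (nat_lit 2))] (Tr.nd (Tr.nd Tr.nil (nat_lit 197) [(nat_lit 70, Int.ofNat (nat_lit 1)), (nat_lit 71, Int.ofNat (nat_lit 8)), (nat_lit 72, Int.negSucc (nat_lit 2)), (nat_lit 73, Int.ofNat (nat_lit 2)), (nat_lit 74, Int.ofNat (nat_lit 24))] Tr.nil) (nat_lit 198) [(nat_lit 70, Int.ofNat (nat_lit 1)), (nat_lit 71, Int.ofNat (nat_lit 5)), (nat_lit 72, Int.negSucc (nat_lit 0)), (nat_lit 73, Int.negSucc (nat_lit 1)), (nat_lit 74, Int.negSucc (nat_lit 5))] (Tr.nd Tr.nil (nat_lit 199) [(nat_lit 71, Int.negSucc (nat_lit 0)), (nat_lit 72, Int.ofNat (nat_lit 5)), (nat_lit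 73, Int.ofNat (nat_lit 1))] Tr.nil))) (nat_lit 200) [(nat_lit 71, Int.ofNat (nat_lit 2)), (nat_lit 72, Int.ofNat (nat_lit 11)), (nat_lit 73, Int.ofNat (nat_lit 7)), (nat_lit 74, Int.negSucc (nat_lit 12))] (Tr.nd (Tr.nd (Tr.nd (Tr.nd Tr.nil (nat_lit 201) [(nat_lit 75, Int.ofNat (nat_lit 8)), (nat_lit 76, Int.negSucc (nat_lit 11)), (nat_lit 77, Int.negSucc (nat_lit 1)), (nat_lit 78, Int.negSucc (nat_lit 12))] Tr.nil) (nat_lit 202) [(nat_lit 75, Int.negSucc (nat_lit 0)), (nat_lit 76, Int.negSucc (nat_lit 4)), (nat_lit 77, Int.negSucc (nat_lit 10)), (nat_lit 78, Int.negSucc (nat_lit 4))] Tr.nil) (nat_lit 203) [(nat_lit 75, Int.negSucc (nat_lit 2)), (nat_lit 76, Int.negSucc (nat_lit 6)), (nat_lit 77, Int.negSucc (nat_lit 6)), (nat_lit 78, Int.negSucc (nat_lit 4))] (Tr.nd Tr.nil (nat_lit 204) [(nat_lit 75, Int.negSucc (nat_lit 1)), (nat_lit 76, Int.negSucc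 (nat_lit 7)), (nat_lit 77, Int.ofNat (nat_lit 1)), (nat_lit 78, Int.negSucc (nat_lit 1))] Tr.nil)) (nat_lit 214) [(nat_lit 79, Int.negSucc (nat_lit 7))] (Tr.nd (Tr.nd Tr.nil (nat_lit 217) [(nat_lit 79, Int.ofNat (nat_lit 1))] Tr.nil) (nat_lit 218) [(nat_lit 79, Int.ofNat (nat_lit 1))] (Tr.nd Tr.nil (nat_lit 219) [(nat_lit 79, Int.negSucc (nat_lit 0))] Tr.nil))))

/-- part of the table -/
def t16 : Tr := (Tr.nd (Tr.nd (Tr.nd (Tr.nd (Tr.nd Tr.nil (nat_lit 222) [(nat_lit 79, Int.ofNat (nat_lit 1))] Tr.nil) (nat_lit 223) [(nat_lit 79, Int.negSucc (nat_lit 0))] Tr.nil) (nat_lit 224) [(nat_lit 79, Int.ofNat (nat_lit 1))] (Tr.nd Tr.nil (nat_lit 225) [(nat_lit 79, Int.ofNat (nat_lit 1))] Tr.nil)) (nat_lit 227) [(nat_lit 81, Int.negSucc (nat_lit 5))] (Tr.nd (Tr.nd Tr.nil (nat_lit 228) [(nat_lit 81, Int.ofNat (nat_lit 6))] Tr.nil) (nat_lit 229) [(nat_lit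 80, Int.negSucc (nat_lit 0)), (nat_lit 81, Int.negSucc (nat_lit 2))] (Tr.nd Tr.nil (nat_lit 230) [(nat_lit 80, Int.negSucc (nat_lit 0)), (nat_lit 81, Int.ofNat (nat_lit 2))] Tr.nil))) (nat_lit 232) [(nat_lit 80, Int.negSucc (nat_lit 0)), (nat_lit 81, Int.negSucc (nat_lit 0))] (Tr.nd (Tr.nd (Tr.nd (Tr.nd Tr.nil (nat_lit 233) [(nat_lit 80, Int.ofNat (nat_lit 1)), (nat_lit 81, Int.ofNat (nat_lit 3))] Tr.nil) (nat_lit 234) [(nat_lit 80, Int.ofNat (nat_lit 1))] Tr.nil) (nat_lit 241) [(nat_lit 82, Int.negSucc (nat_lit 1))] (Tr.nd Tr.nil (nat_lit 244) [(nat_lit 82, Int.ofNat (nat_lit 1))] Tr.nil)) (nat_lit 249) [(nat_lit 8, Int.ofNat (nat_lit 1)), (nat_lit 10, Int.negSucc (nat_lit 0)), (nat_lit 11, Int.ofNat (nat_lit 1))] (Tr.nd (Tr.nd Tr.nil (nat_lit 250) [(nat_lit 13, Int.ofNat (nat_lit 1))] Tr.nil) (nat_lit 251) [(nat_lit 23, Int.ofNat (nat_lit 1)),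 (nat_lit 24, Int.ofNat (nat_lit 1))] (Tr.nd Tr.nil (nat_lit 252) [(nat_lit 28, Int.ofNat (nat_lit 1)), (nat_lit 33, Int.negSucc (nat_lit 0))] Tr.nil))))

/-- part of the table -/
def t17 : Tr := Tr.nd t15 (nat_lit 220) [(nat_lit 79, Int.negSucc (nat_lit 0))] t16

/-- part of the table -/
def t18 : Tr := (Tr.nd (Tr.nd (Tr.nd (Tr.nd (Tr.nd Tr.nil (nat_lit 254) [(nat_lit 37, Int.ofNat (nat_lit 1))] Tr.nil) (nat_lit 255) [(nat_lit 40, Int.ofNat (nat_lit 1)), (nat_lit 42, Int.negSucc (nat_lit 5)), (nat_lit 43, Int.ofNat (nat_lit 3)), (nat_lit 44, Int.ofNat (nat_lit 6)), (nat_lit 45, Int.ofNat (nat_lit 3)), (nat_lit 46, Int.ofNat (nat_lit 30))] Tr.nil) (nat_lit 256) [(nat_lit 42, Int.ofNat (nat_lit 1)), (nat_lit 43, Int.negSucc (nat_lit 3)), (nat_lit 44, Int.negSucc (nat_lit 8)), (nat_lit 46, Int.ofNat (nat_lit 9))] (Tr.nd Tr.nil (nat_lit 257) [(nat_lit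 50, Int.ofNat (nat_lit 3)), (nat_lit 52, Int.ofNat (nat_lit 3)), (nat_lit 53, Int.ofNat (nat_lit 5)), (nat_lit 54, Int.negSucc (nat_lit 2)), (nat_lit 55, Int.negSucc (nat_lit 3)), (nat_lit 57, Int.negSucc (nat_lit 2)), (nat_lit 58, Int.negSucc (nat_lit 2)), (nat_lit 59, Int.ofNat (nat_lit 6)), (nat_lit 60, Int.ofNat (nat_lit 1))] Tr.nil)) (nat_lit 258) [(nat_lit 47, Int.negSucc (nat_lit 0)), (nat_lit 48, Int.ofNat (nat_lit 1)), (nat_lit 49, Int.ofNat (nat_lit 1)), (nat_lit 50, Int.negSucc (nat_lit 2)), (nat_lit 51, Int.ofNat (nat_lit 3)), (nat_lit 52, Int.negSucc (nat_lit 1)), (nat_lit 53, Int.negSucc (nat_lit 3)), (nat_lit 54, Int.ofNat (nat_lit 3)), (nat_lit 55, Int.ofNat (nat_lit 3)), (nat_lit 56, Int.negSucc (nat_lit 3)), (nat_lit 57, Int.ofNat (nat_lit 3)), (nat_lit 58, Int.ofNat (nat_lit 4)), (nat_lit 59, Int.ofNat (nat_lit 3)), (nat_lit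 60, Int.negSucc (nat_lit 2))] (Tr.nd (Tr.nd Tr.nil (nat_lit 259) [(nat_lit 48, Int.negSucc (nat_lit 0)), (nat_lit 49, Int.negSucc (nat_lit 1)), (nat_lit 50, Int.ofNat (nat_lit 4)), (nat_lit 51, Int.ofNat (nat_lit 2)), (nat_lit 52, Int.negSucc (nat_lit 0)), (nat_lit 53, Int.ofNat (nat_lit 1)), (nat_lit 54, Int.ofNat (nat_lit 5)), (nat_lit 55, Int.ofNat (nat_lit 5)), (nat_lit 56, Int.negSucc (nat_lit 0)), (nat_lit 57, Int.negSucc (nat_lit 4)), (nat_lit 58, Int.ofNat (nat_lit 6)), (nat_lit 59, Int.ofNat (nat_lit 1)), (nat_lit 60, Int.ofNat (nat_lit 6))] Tr.nil) (nat_lit 260) [(nat_lit 49, Int.negSucc (nat_lit 1)), (nat_lit 51, Int.ofNat (nat_lit 4)), (nat_lit 52, Int.negSucc (nat_lit 3)), (nat_lit 53, Int.negSucc (nat_lit 2)), (nat_lit 54, Int.ofNat (nat_lit 4)), (nat_lit 55, Int.ofNat (nat_lit 3)), (nat_lit 56, Int.negSucc (nat_lit 0)), (nat_lit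 58, Int.ofNat (nat_lit 8)), (nat_lit 59, Int.ofNat (nat_lit 2))] (Tr.nd Tr.nil (nat_lit 261) [(nat_lit 61, Int.ofNat (nat_lit 3)), (nat_lit 62, Int.ofNat (nat_lit 2)), (nat_lit 63, Int.negSucc (nat_lit 0)), (nat_lit 64, Int.negSucc (nat_lit 2)), (nat_lit 65, Int.negSucc (nat_lit 2)), (nat_lit 66, Int.negSucc (nat_lit 0)), (nat_lit 67, Int.negSucc (nat_lit 5)), (nat_lit 68, Int.negSucc (nat_lit 7))] Tr.nil))) (nat_lit 262) [(nat_lit 64, Int.negSucc (nat_lit 1))] (Tr.nd (Tr.nd (Tr.nd (Tr.nd Tr.nil (nat_lit 263) [(nat_lit 61, Int.ofNat (nat_lit 1)), (nat_lit 62, Int.negSucc (nat_lit 1)), (nat_lit 63, Int.negSucc (nat_lit 0)), (nat_lit 65, Int.negSucc (nat_lit 3)), (nat_lit 66, Int.ofNat (nat_lit 10)), (nat_lit 67, Int.ofNat (nat_lit 1)), (nat_lit 68, Int.ofNat (nat_lit 10))] Tr.nil) (nat_lit 265) [(nat_lit 69, Int.negSucc (nat_lit 2))] Tr.nil) (nat_lit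 266) [(nat_lit 69, Int.ofNat (nat_lit 3))] (Tr.nd Tr.nil (nat_lit 267) [(nat_lit 69, Int.ofNat (nat_lit 3))] Tr.nil)) (nat_lit 268) [(nat_lit 70, Int.negSucc (nat_lit 0)), (nat_lit 71, Int.ofNat (nat_lit 6)), (nat_lit 72, Int.negSucc (nat_lit 2)), (nat_lit 73, Int.negSucc (nat_lit 7)), (nat_lit 74, Int.ofNat (nat_lit 20))] (Tr.nd (Tr.nd Tr.nil (nat_lit 269) [(nat_lit 70, Int.negSucc (nat_lit 0)), (nat_lit 72, Int.ofNat (nat_lit 1)), (nat_lit 73, Int.ofNat (nat_lit 4)), (nat_lit 74, Int.ofNat (nat_lit 7))] Tr.nil) (nat_lit 270) [(nat_lit 71, Int.ofNat (nat_lit 4)), (nat_lit 72, Int.negSucc (nat_lit 4)), (nat_lit 73, Int.negSucc (nat_lit 11)), (nat_lit 74, Int.negSucc (nat_lit 0))] (Tr.nd Tr.nil (nat_lit 271) [(nat_lit 71, Int.negSucc (nat_lit 4)), (nat_lit 72, Int.negSucc (nat_lit 2)), (nat_lit 73, Int.negSucc (nat_lit 3)), (nat_lit 74, Int.ofNat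 (nat_lit 26))] Tr.nil))))

/-- part of the table -/
def t19 : Tr := (Tr.nd (Tr.nd (Tr.nd (Tr.nd (Tr.nd Tr.nil (nat_lit 273) [(nat_lit 71, Int.negSucc (nat_lit 3)), (nat_lit 72, Int.negSucc (nat_lit 2)), (nat_lit 73, Int.negSucc (nat_lit 2)), (nat_lit 74, Int.ofNat (nat_lit 7))] Tr.nil) (nat_lit 274) [(nat_lit 72, Int.negSucc (nat_lit 2)), (nat_lit 73, Int.negSucc (nat_lit 2)), (nat_lit 74, Int.ofNat (nat_lit 7))] Tr.nil) (nat_lit 275) [(nat_lit 71, Int.negSucc (nat_lit 1)), (nat_lit 72, Int.negSucc (nat_lit 2)), (nat_lit 73, Int.negSucc (nat_lit 2)), (nat_lit 74, Int.ofNat (nat_lit 7))] (Tr.nd Tr.nil (nat_lit 276) [(nat_lit 76, Int.ofNat (nat_lit 3)), (nat_lit 77, Int.negSucc (nat_lit 3)), (nat_lit 78, Int.negSucc (nat_lit 19))] Tr.nil)) (nat_lit 277) [(nat_lit 75, Int.ofNat (nat_lit 1)), (nat_lit 76, Int.ofNat (nat_lit 8)), (nat_lit 77, Int.ofNat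 (nat_lit 11)), (nat_lit 78, Int.ofNat (nat_lit 7))] (Tr.nd (Tr.nd Tr.nil (nat_lit 278) [(nat_lit 78, Int.negSucc (nat_lit 7))] Tr.nil) (nat_lit 279) [(nat_lit 75, Int.ofNat (nat_lit 3)), (nat_lit 76, Int.ofNat (nat_lit 7)), (nat_lit 77, Int.ofNat (nat_lit 14)), (nat_lit 78, Int.negSucc (nat_lit 0))] (Tr.nd Tr.nil (nat_lit 280) [(nat_lit 75, Int.negSucc (nat_lit 3)), (nat_lit 76, Int.negSucc (nat_lit 1)), (nat_lit 77, Int.ofNat (nat_lit 4)), (nat_lit 78, Int.negSucc (nat_lit 15))] Tr.nil))) (nat_lit 281) [(nat_lit 75, Int.negSucc (nat_lit 1)), (nat_lit 78, Int.negSucc (nat_lit 1))] (Tr.nd (Tr.nd (Tr.nd Tr.nil (nat_lit 282) [(nat_lit 75, Int.ofNat (nat_lit 2)), (nat_lit 76, Int.ofNat (nat_lit 2)), (nat_lit 77, Int.negSucc (nat_lit 3)), (nat_lit 78, Int.negSucc (nat_lit 1))] Tr.nil) (nat_lit 283) [(nat_lit 75, Int.ofNat (nat_lit 3)), (nat_lit 76,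 Int.negSucc (nat_lit 2)), (nat_lit 77, Int.negSucc (nat_lit 6)), (nat_lit 78, Int.ofNat (nat_lit 3))] (Tr.nd Tr.nil (nat_lit 289) [(nat_lit 79, Int.negSucc (nat_lit 10))] Tr.nil)) (nat_lit 290) [(nat_lit 79, Int.ofNat (nat_lit 1))] (Tr.nd (Tr.nd Tr.nil (nat_lit 291) [(nat_lit 79, Int.ofNat (nat_lit 1))] Tr.nil) (nat_lit 293) [(nat_lit 79, Int.ofNat (nat_lit 1))] (Tr.nd Tr.nil (nat_lit 296) [(nat_lit 80, Int.ofNat (nat_lit 2)), (nat_lit 81, Int.negSucc (nat_lit 4))] Tr.nil))))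

/-- part of the table -/
def t20 : Tr := Tr.nd t18 (nat_lit 272) [(nat_lit 71, Int.ofNat (nat_lit 2)), (nat_lit 72, Int.negSucc (nat_lit 1)), (nat_lit 73, Int.negSucc (nat_lit 1)), (nat_lit 74, Int.ofNat (nat_lit 12))] t19

/-- part of the table -/
def t21 : Tr := Tr.nd t17 (nat_lit 253) [(nat_lit 29, Int.ofNat (nat_lit 1))] t20

/-- part of the table -/
def t22 : Tr := (Tr.nd (Tr.nd (Tr.nd (Tr.nd (Tr.nd Tr.nil (nat_lit 298) [(nat_lit 81, Int.negSucc (nat_lit 1))] Tr.nil) (nat_lit 299) [(nat_lit 80, Int.negSucc (nat_lit 0))] Tr.nil) (nat_lit 300) [(nat_lit 81, Int.negSucc (nat_lit 2))] (Tr.nd Tr.nil (nat_lit 302) [(nat_lit 81, Int.negSucc (nat_lit 0))] Tr.nil)) (nat_lit 305) [(nat_lit 81, Int.ofNat (nat_lit 1))] (Tr.nd (Tr.nd Tr.nil (nat_lit 307) [(nat_lit 81, Int.ofNat (nat_lit 1))] Tr.nil) (nat_lit 308) [(nat_lit 81, Int.negSucc (nat_lit 0))]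 (Tr.nd Tr.nil (nat_lit 309) [(nat_lit 81, Int.ofNat (nat_lit 1))] Tr.nil))) (nat_lit 319) [(nat_lit 82, Int.ofNat (nat_lit 2))] (Tr.nd (Tr.nd (Tr.nd (Tr.nd Tr.nil (nat_lit 322) [(nat_lit 82, Int.negSucc (nat_lit 0))] Tr.nil) (nat_lit 332) [(nat_lit 9, Int.ofNat (nat_lit 1)), (nat_lit 10, Int.ofNat (nat_lit 1)), (nat_lit 11, Int.negSucc (nat_lit 0))] Tr.nil) (nat_lit 333) [(nat_lit 14, Int.ofNat (nat_lit 1))] (Tr.nd Tr.nil (nat_lit 334) [(nat_lit 22, Int.ofNat (nat_lit 1))] Tr.nil)) (nat_lit 335) [(nat_lit 30, Int.ofNat (nat_lit 1)), (nat_lit 33, Int.ofNat (nat_lit 1))] (Tr.nd (Tr.nd Tr.nil (nat_lit 336) [(nat_lit 32, Int.ofNat (nat_lit 1)), (nat_lit 34, Int.ofNat (nat_lit 1))] Tr.nil) (nat_lit 337) [(nat_lit 38, Int.ofNat (nat_lit 1))] (Tr.nd Tr.nil (nat_lit 338) [(nat_lit 42, Int.ofNat (nat_lit 4)), (nat_lit 43, Int.negSucc (nat_lit 3)), (nat_lit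 44, Int.negSucc (nat_lit 0)), (nat_lit 46, Int.ofNat (nat_lit 31))] Tr.nil))))

/-- part of the table -/
def t23 : Tr := (Tr.nd (Tr.nd (Tr.nd (Tr.nd (Tr.nd Tr.nil (nat_lit 340) [(nat_lit 50, Int.ofNat (nat_lit 3)), (nat_lit 51, Int.ofNat (nat_lit 2)), (nat_lit 52, Int.negSucc (nat_lit 0)), (nat_lit 53, Int.ofNat (nat_lit 3)), (nat_lit 54, Int.negSucc (nat_lit 0)), (nat_lit 55, Int.negSucc (nat_lit 2)), (nat_lit 56, Int.negSucc (nat_lit 0)), (nat_lit 57, Int.ofNat (nat_lit 3)), (nat_lit 58, Int.ofNat (nat_lit 1)), (nat_lit 59, Int.ofNat (nat_lit 2)), (nat_lit 60, Int.negSucc (nat_lit 2))] Tr.nil) (nat_lit 341) [(nat_lit 47, Int.ofNat (nat_lit 1)), (nat_lit 48, Int.ofNat (nat_lit 1)), (nat_lit 49, Int.ofNat (nat_lit 1)), (nat_lit 50, Int.ofNat (nat_lit 1)), (nat_lit 51, Int.negSucc (nat_lit 3)), (nat_lit 52, Int.negSucc (nat_lit 1)), (nat_lit 53,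 Int.ofNat (nat_lit 1)), (nat_lit 54, Int.ofNat (nat_lit 2)), (nat_lit 55, Int.ofNat (nat_lit 3)), (nat_lit 56, Int.negSucc (nat_lit 5)), (nat_lit 57, Int.negSucc (nat_lit 5)), (nat_lit 58, Int.ofNat (nat_lit 1)), (nat_lit 59, Int.ofNat (nat_lit 5)), (nat_lit 60, Int.negSucc (nat_lit 1))] Tr.nil) (nat_lit 342) [(nat_lit 48, Int.ofNat (nat_lit 1)), (nat_lit 49, Int.ofNat (nat_lit 2)), (nat_lit 50, Int.ofNat (nat_lit 5)), (nat_lit 51, Int.ofNat (nat_lit 1)), (nat_lit 52, Int.ofNat (nat_lit 7)), (nat_lit 54, Int.ofNat (nat_lit 1)), (nat_lit 55, Int.ofNat (nat_lit 3)), (nat_lit 57, Int.ofNat (nat_lit 6)), (nat_lit 58, Int.ofNat (nat_lit 2)), (nat_lit 59, Int.negSucc (nat_lit 2)), (nat_lit 60, Int.ofNat (nat_lit 2))] (Tr.nd Tr.nil (nat_lit 343) [(nat_lit 50, Int.ofNat (nat_lit 2)), (nat_lit 51, Int.ofNat (nat_lit 2)), (nat_lit 52, Int.negSucc (nat_lit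 1)), (nat_lit 53, Int.ofNat (nat_lit 3)), (nat_lit 54, Int.ofNat (nat_lit 1)), (nat_lit 55, Int.ofNat (nat_lit 3)), (nat_lit 56, Int.ofNat (nat_lit 2)), (nat_lit 57, Int.negSucc (nat_lit 1)), (nat_lit 59, Int.negSucc (nat_lit 2)), (nat_lit 60, Int.ofNat (nat_lit 1))] Tr.nil)) (nat_lit 344) [(nat_lit 61, Int.negSucc (nat_lit 2)), (nat_lit 62, Int.negSucc (nat_lit 1)), (nat_lit 63, Int.ofNat (nat_lit 2)), (nat_lit 64, Int.ofNat (nat_lit 5)), (nat_lit 65, Int.ofNat (nat_lit 2)), (nat_lit 66, Int.negSucc (nat_lit 1)), (nat_lit 67, Int.negSucc (nat_lit 10)), (nat_lit 68, Int.ofNat (nat_lit 3))] (Tr.nd (Tr.nd Tr.nil (nat_lit 345) [(nat_lit 63, Int.ofNat (nat_lit 3)), (nat_lit 64, Int.ofNat (nat_lit 2)), (nat_lit 65, Int.negSucc (nat_lit 1)), (nat_lit 66, Int.negSucc (nat_lit 6)), (nat_lit 67, Int.negSucc (nat_lit 3)), (nat_lit 68, Int.ofNat (nat_lit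 6))] Tr.nil) (nat_lit 346) [(nat_lit 61, Int.negSucc (nat_lit 0)), (nat_lit 63, Int.negSucc (nat_lit 0)), (nat_lit 64, Int.negSucc (nat_lit 3)), (nat_lit 65, Int.negSucc (nat_lit 4)), (nat_lit 66, Int.negSucc (nat_lit 8)), (nat_lit 67, Int.negSucc (nat_lit 6)), (nat_lit 68, Int.ofNat (nat_lit 4))] (Tr.nd Tr.nil (nat_lit 348) [(nat_lit 69, Int.ofNat (nat_lit 4))] Tr.nil))) (nat_lit 350) [(nat_lit 69, Int.ofNat (nat_lit 4))] (Tr.nd (Tr.nd (Tr.nd (Tr.nd Tr.nil (nat_lit 351) [(nat_lit 70, Int.ofNat (nat_lit 1)), (nat_lit 72, Int.negSucc (nat_lit 5)), (nat_lit 73, Int.negSucc (nat_lit 0)), (nat_lit 74, Int.ofNat (nat_lit 9))] Tr.nil) (nat_lit 352) [(nat_lit 70, Int.ofNat (nat_lit 1)), (nat_lit 72, Int.negSucc (nat_lit 9)), (nat_lit 73, Int.ofNat (nat_lit 2)), (nat_lit 74, Int.ofNat (nat_lit 23))] Tr.nil) (nat_lit 353) [(nat_lit 71, Int.ofNat (nat_lit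 2)), (nat_lit 72, Int.ofNat (nat_lit 6)), (nat_lit 73, Int.negSucc (nat_lit 1)), (nat_lit 74, Int.negSucc (nat_lit 5))] (Tr.nd Tr.nil (nat_lit 354) [(nat_lit 72, Int.negSucc (nat_lit 5)), (nat_lit 73, Int.ofNat (nat_lit 3)), (nat_lit 74, Int.ofNat (nat_lit 14))] Tr.nil)) (nat_lit 355) [(nat_lit 71, Int.ofNat (nat_lit 2)), (nat_lit 72, Int.ofNat (nat_lit 4)), (nat_lit 73, Int.ofNat (nat_lit 8)), (nat_lit 74, Int.ofNat (nat_lit 18))] (Tr.nd (Tr.nd Tr.nil (nat_lit 356) [(nat_lit 71, Int.ofNat (nat_lit 2)), (nat_lit 72, Int.negSucc (nat_lit 3)), (nat_lit 73, Int.negSucc (nat_lit 11)), (nat_lit 74, Int.negSucc (nat_lit 1))] Tr.nil) (nat_lit 357) [(nat_lit 71, Int.ofNat (nat_lit 4)), (nat_lit 72, Int.ofNat (nat_lit 4)), (nat_lit 73, Int.ofNat (nat_lit 7)), (nat_lit 74, Int.ofNat (nat_lit 16))] (Tr.nd Tr.nil (nat_lit 358) [(nat_lit 73, Int.negSucc (nat_lit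 3))] Tr.nil))))

/-- part of the table -/
def t24 : Tr := Tr.nd t22 (nat_lit 339) [(nat_lit 42, Int.ofNat (nat_lit 4)), (nat_lit 43, Int.ofNat (nat_lit 2)), (nat_lit 44, Int.ofNat (nat_lit 5)), (nat_lit 46, Int.ofNat (nat_lit 5))] t23

/-- part of the table -/
def t25 : Tr := (Tr.nd (Tr.nd (Tr.nd (Tr.nd (Tr.nd Tr.nil (nat_lit 360) [(nat_lit 75, Int.negSucc (nat_lit 0)), (nat_lit 76, Int.ofNat (nat_lit 3)), (nat_lit 77, Int.negSucc (nat_lit 13)), (nat_lit 78, Int.negSucc (nat_lit 0))] Tr.nil) (nat_lit 361) [(nat_lit 75, Int.negSucc (nat_lit 1)), (nat_lit 76, Int.negSucc (nat_lit 3)), (nat_lit 77, Int.ofNat (nat_lit 6)), (nat_lit 78, Int.negSucc (nat_lit 1))] Tr.nil) (nat_lit 362) [(nat_lit 75, Int.negSucc (nat_lit 2)), (nat_lit 76, Int.ofNat (nat_lit 2)), (nat_lit 77, Int.negSucc (nat_lit 18)), (nat_lit 78, Int.ofNat (nat_lit 2))] (Tr.nd Tr.nil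 (nat_lit 363) [(nat_lit 75, Int.negSucc (nat_lit 1)), (nat_lit 76, Int.negSucc (nat_lit 7)), (nat_lit 77, Int.ofNat (nat_lit 13)), (nat_lit 78, Int.negSucc (nat_lit 0))] Tr.nil)) (nat_lit 364) [(nat_lit 75, Int.negSucc (nat_lit 1)), (nat_lit 76, Int.negSucc (nat_lit 2)), (nat_lit 77, Int.negSucc (nat_lit 0)), (nat_lit 78, Int.ofNat (nat_lit 11))] (Tr.nd (Tr.nd Tr.nil (nat_lit 365) [(nat_lit 75, Int.ofNat (nat_lit 2)), (nat_lit 76, Int.negSucc (nat_lit 0)), (nat_lit 77, Int.ofNat (nat_lit 3)), (nat_lit 78, Int.ofNat (nat_lit 2))] Tr.nil) (nat_lit 366) [(nat_lit 75, Int.ofNat (nat_lit 3)), (nat_lit 76, Int.negSucc (nat_lit 7)), (nat_lit 77, Int.ofNat (nat_lit 17)), (nat_lit 78, Int.ofNat (nat_lit 19))] (Tr.nd Tr.nil (nat_lit 373) [(nat_lit 79, Int.negSucc (nat_lit 3))] Tr.nil))) (nat_lit 379) [(nat_lit 80, Int.ofNat (nat_lit 2)), (nat_lit 81, Int.negSucc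 (nat_lit 5))] (Tr.nd (Tr.nd (Tr.nd (Tr.nd Tr.nil (nat_lit 380) [(nat_lit 80, Int.ofNat (nat_lit 2)), (nat_lit 81, Int.negSucc (nat_lit 1))] Tr.nil) (nat_lit 381) [(nat_lit 80, Int.negSucc (nat_lit 1)), (nat_lit 81, Int.ofNat (nat_lit 4))] Tr.nil) (nat_lit 382) [(nat_lit 80, Int.ofNat (nat_lit 1)), (nat_lit 81, Int.negSucc (nat_lit 1))] (Tr.nd Tr.nil (nat_lit 383) [(nat_lit 81, Int.negSucc (nat_lit 2))] Tr.nil)) (nat_lit 384) [(nat_lit 81, Int.negSucc (nat_lit 0))] (Tr.nd (Tr.nd Tr.nil (nat_lit 385) [(nat_lit 81, Int.ofNat (nat_lit 1))] Tr.nil) (nat_lit 386) [(nat_lit 81, Int.ofNat (nat_lit 1))] (Tr.nd Tr.nil (nat_lit 388) [(nat_lit 81, Int.negSucc (nat_lit 0))] Tr.nil))))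

/-- part of the table -/
def t26 : Tr := (Tr.nd (Tr.nd (Tr.nd (Tr.nd (Tr.nd Tr.nil (nat_lit 390) [(nat_lit 81, Int.negSucc (nat_lit 0))] Tr.nil) (nat_lit 391) [(nat_lit 81, Int.negSucc (nat_lit 0))] Tr.nil) (nat_lit 402) [(nat_lit 82, Int.ofNat (nat_lit 2))] (Tr.nd Tr.nil (nat_lit 405) [(nat_lit 82, Int.ofNat (nat_lit 1))] Tr.nil)) (nat_lit 415) [(nat_lit 12, Int.ofNat (nat_lit 1))] (Tr.nd (Tr.nd Tr.nil (nat_lit 416) [(nat_lit 15, Int.ofNat (nat_lit 1))] Tr.nil) (nat_lit 417) [(nat_lit 27, Int.ofNat (nat_lit 1))] (Tr.nd Tr.nil (nat_lit 418) [(nat_lit 35, Int.ofNat (nat_lit 1))] Tr.nil))) (nat_lit 419) [(nat_lit 36, Int.ofNat (nat_lit 1))] (Tr.nd (Tr.nd (Tr.nd Tr.nil (nat_lit 421) [(nat_lit 50, Int.ofNat (nat_lit 4)), (nat_lit 51, Int.ofNat (nat_lit 4)), (nat_lit 53, Int.negSucc (nat_lit 1)), (nat_lit 55, Int.ofNat (nat_lit 4)), (nat_lit 56, Int.ofNat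 (nat_lit 2)), (nat_lit 58, Int.negSucc (nat_lit 1)), (nat_lit 59, Int.ofNat (nat_lit 2)), (nat_lit 60, Int.negSucc (nat_lit 5))] Tr.nil) (nat_lit 422) [(nat_lit 48, Int.negSucc (nat_lit 1)), (nat_lit 49, Int.ofNat (nat_lit 1)), (nat_lit 50, Int.negSucc (nat_lit 1)), (nat_lit 52, Int.ofNat (nat_lit 3)), (nat_lit 53, Int.ofNat (nat_lit 2)), (nat_lit 54, Int.ofNat (nat_lit 1)), (nat_lit 55, Int.ofNat (nat_lit 1)), (nat_lit 57, Int.negSucc (nat_lit 0)), (nat_lit 58, Int.negSucc (nat_lit 1)), (nat_lit 59, Int.ofNat (nat_lit 2)), (nat_lit 60, Int.ofNat (nat_lit 3))] (Tr.nd Tr.nil (nat_lit 423) [(nat_lit 62, Int.negSucc (nat_lit 4)), (nat_lit 63, Int.negSucc (nat_lit 0)), (nat_lit 64, Int.ofNat (nat_lit 6)), (nat_lit 65, Int.negSucc (nat_lit 2)), (nat_lit 66, Int.negSucc (nat_lit 6)), (nat_lit 67, Int.negSucc (nat_lit 4)), (nat_lit 68, Int.negSucc (nat_lit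 2))] Tr.nil)) (nat_lit 424) [(nat_lit 63, Int.ofNat (nat_lit 3)), (nat_lit 64, Int.negSucc (nat_lit 4)), (nat_lit 65, Int.negSucc (nat_lit 1)), (nat_lit 66, Int.ofNat (nat_lit 1)), (nat_lit 67, Int.negSucc (nat_lit 3)), (nat_lit 68, Int.negSucc (nat_lit 4))] (Tr.nd (Tr.nd Tr.nil (nat_lit 425) [(nat_lit 62, Int.negSucc (nat_lit 1)), (nat_lit 63, Int.negSucc (nat_lit 4)), (nat_lit 64, Int.negSucc (nat_lit 3)), (nat_lit 65, Int.negSucc (nat_lit 6)), (nat_lit 67, Int.negSucc (nat_lit 1))] Tr.nil) (nat_lit 426) [(nat_lit 61, Int.ofNat (nat_lit 1)), (nat_lit 62, Int.negSucc (nat_lit 1)), (nat_lit 63, Int.negSucc (nat_lit 0)), (nat_lit 65, Int.negSucc (nat_lit 3)), (nat_lit 66, Int.ofNat (nat_lit 6)), (nat_lit 67, Int.ofNat (nat_lit 1)), (nat_lit 68, Int.ofNat (nat_lit 6))] (Tr.nd Tr.nil (nat_lit 431) [(nat_lit 73, Int.ofNat (nat_lit 3))] Tr.nil))))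

/-- part of the table -/
def t27 : Tr := Tr.nd t25 (nat_lit 389) [(nat_lit 81, Int.ofNat (nat_lit 1))] t26

/-- part of the table -/
def t28 : Tr := Tr.nd t24 (nat_lit 359) [(nat_lit 76, Int.negSucc (nat_lit 5)), (nat_lit 77, Int.ofNat (nat_lit 18)), (nat_lit 78, Int.negSucc (nat_lit 15))] t27

/-- part of the table -/
def t29 : Tr := Tr.nd t21 (nat_lit 297) [(nat_lit 81, Int.ofNat (nat_lit 2))] t28

/-- part of the table -/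
def t30 : Tr := Tr.nd t14 (nat_lit 190) [(nat_lit 69, Int.negSucc (nat_lit 1))] t29

/-- part of the table -/
def t31 : Tr := (Tr.nd (Tr.nd (Tr.nd (Tr.nd (Tr.nd Tr.nil (nat_lit 433) [(nat_lit 70, Int.ofNat (nat_lit 2)), (nat_lit 71, Int.negSucc (nat_lit 3)), (nat_lit 73, Int.ofNat (nat_lit 1)), (nat_lit 74, Int.negSucc (nat_lit 9))] Tr.nil) (nat_lit 434) [(nat_lit 76, Int.ofNat (nat_lit 4)), (nat_lit 77, Int.ofNat (nat_lit 5)), (nat_lit 78, Int.negSucc (nat_lit 40))] Tr.nil) (nat_lit 435) [(nat_lit 75, Int.negSucc (nat_lit 3)), (nat_lit 77, Int.ofNat (nat_lit 5)), (nat_lit 78, Int.negSucc (nat_lit 17))] (Tr.nd Tr.nil (nat_lit 436) [(nat_lit 75, Int.ofNat (nat_lit 4)), (nat_lit 76, Int.ofNat (nat_lit 2)), (nat_lit 77, Int.negSucc (nat_lit 0)), (nat_lit 78, Int.negSucc (nat_lit 8))] Tr.nil)) (nat_lit 437) [(nat_lit 76, Int.negSucc (nat_lit 4)), (nat_lit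 77, Int.ofNat (nat_lit 9)), (nat_lit 78, Int.negSucc (nat_lit 19))] (Tr.nd (Tr.nd Tr.nil (nat_lit 438) [(nat_lit 75, Int.ofNat (nat_lit 2)), (nat_lit 76, Int.ofNat (nat_lit 4)), (nat_lit 77, Int.negSucc (nat_lit 5)), (nat_lit 78, Int.negSucc (nat_lit 37))] Tr.nil) (nat_lit 439) [(nat_lit 75, Int.negSucc (nat_lit 1)), (nat_lit 76, Int.negSucc (nat_lit 5)), (nat_lit 77, Int.ofNat (nat_lit 11)), (nat_lit 78, Int.ofNat (nat_lit 11))] (Tr.nd Tr.nil (nat_lit 440) [(nat_lit 75, Int.negSucc (nat_lit 3)), (nat_lit 76, Int.negSucc (nat_lit 1)), (nat_lit 77, Int.ofNat (nat_lit 3)), (nat_lit 78, Int.negSucc (nat_lit 14))] Tr.nil))) (nat_lit 441) [(nat_lit 76, Int.negSucc (nat_lit 1)), (nat_lit 77, Int.ofNat (nat_lit 3)), (nat_lit 78, Int.ofNat (nat_lit 1))] (Tr.nd (Tr.nd (Tr.nd (Tr.nd Tr.nil (nat_lit 455) [(nat_lit 80, Int.ofNat (nat_lit 4)), (nat_lit 81,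 Int.negSucc (nat_lit 18))] Tr.nil) (nat_lit 456) [(nat_lit 81, Int.ofNat (nat_lit 1))] Tr.nil) (nat_lit 457) [(nat_lit 81, Int.ofNat (nat_lit 1))] (Tr.nd Tr.nil (nat_lit 459) [(nat_lit 81, Int.ofNat (nat_lit 1))] Tr.nil)) (nat_lit 498) [(nat_lit 16, Int.ofNat (nat_lit 1))] (Tr.nd (Tr.nd Tr.nil (nat_lit 499) [(nat_lit 25, Int.ofNat (nat_lit 1)), (nat_lit 26, Int.negSucc (nat_lit 0))] Tr.nil) (nat_lit 500) [(nat_lit 39, Int.ofNat (nat_lit 23))] (Tr.nd Tr.nil (nat_lit 501) [(nat_lit 41, Int.ofNat (nat_lit 1)), (nat_lit 42, Int.negSucc (nat_lit 7)), (nat_lit 43, Int.ofNat (nat_lit 9)), (nat_lit 44, Int.negSucc (nat_lit 8)), (nat_lit 45, Int.ofNat (nat_lit 7)), (nat_lit 46, Int.ofNat (nat_lit 11))] Tr.nil))))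

/-- part of the table -/
def t32 : Tr := (Tr.nd (Tr.nd (Tr.nd (Tr.nd (Tr.nd Tr.nil (nat_lit 503) [(nat_lit 47, Int.ofNat (nat_lit 1)), (nat_lit 48, Int.ofNat (nat_lit 2)), (nat_lit 49, Int.ofNat (nat_lit 1)), (nat_lit 51, Int.ofNat (nat_lit 3)), (nat_lit 52, Int.ofNat (nat_lit 3)), (nat_lit 53, Int.ofNat (nat_lit 3)), (nat_lit 54, Int.ofNat (nat_lit 2)), (nat_lit 56, Int.ofNat (nat_lit 2)), (nat_lit 57, Int.negSucc (nat_lit 3)), (nat_lit 58, Int.ofNat (nat_lit 1)), (nat_lit 59, Int.negSucc (nat_lit 2)), (nat_lit 60, Int.ofNat (nat_lit 5))] Tr.nil) (nat_lit 506) [(nat_lit 69, Int.ofNat (nat_lit 6))] Tr.nil) (nat_lit 507) [(nat_lit 69, Int.ofNat (nat_lit 29))] (Tr.nd Tr.nil (nat_lit 508) [(nat_lit 69, Int.ofNat (nat_lit 20))] Tr.nil)) (nat_lit 509) [(nat_lit 69, Int.ofNat (nat_lit 23))] (Tr.nd (Tr.nd Tr.nil (nat_lit 510) [(nat_lit 70, Int.negSucc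 (nat_lit 0)), (nat_lit 71, Int.negSucc (nat_lit 3)), (nat_lit 72, Int.ofNat (nat_lit 9)), (nat_lit 73, Int.negSucc (nat_lit 17)), (nat_lit 74, Int.ofNat (nat_lit 51))] Tr.nil) (nat_lit 511) [(nat_lit 70, Int.ofNat (nat_lit 1)), (nat_lit 71, Int.negSucc (nat_lit 1)), (nat_lit 72, Int.ofNat (nat_lit 4)), (nat_lit 73, Int.ofNat (nat_lit 2)), (nat_lit 74, Int.ofNat (nat_lit 32))] (Tr.nd Tr.nil (nat_lit 512) [(nat_lit 70, Int.ofNat (nat_lit 1)), (nat_lit 72, Int.ofNat (nat_lit 14)), (nat_lit 73, Int.ofNat (nat_lit 13)), (nat_lit 74, Int.ofNat (nat_lit 23))] Tr.nil))) (nat_lit 513) [(nat_lit 75, Int.negSucc (nat_lit 7)), (nat_lit 76, Int.negSucc (nat_lit 1)), (nat_lit 77, Int.negSucc (nat_lit 7)), (nat_lit 78, Int.negSucc (nat_lit 4))] (Tr.nd (Tr.nd (Tr.nd (Tr.nd Tr.nil (nat_lit 525) [(nat_lit 79, Int.negSucc (nat_lit 5))] Tr.nil) (nat_lit 526) [(nat_lit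 79, Int.negSucc (nat_lit 11))] Tr.nil) (nat_lit 527) [(nat_lit 79, Int.negSucc (nat_lit 5))] (Tr.nd Tr.nil (nat_lit 528) [(nat_lit 79, Int.negSucc (nat_lit 24))] Tr.nil)) (nat_lit 529) [(nat_lit 79, Int.negSucc (nat_lit 22))] (Tr.nd (Tr.nd Tr.nil (nat_lit 530) [(nat_lit 79, Int.negSucc (nat_lit 20))] Tr.nil) (nat_lit 531) [(nat_lit 79, Int.ofNat (nat_lit 3))] (Tr.nd Tr.nil (nat_lit 532) [(nat_lit 79, Int.ofNat (nat_lit 3))] Tr.nil))))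

/-- part of the table -/
def t33 : Tr := Tr.nd t31 (nat_lit 502) [(nat_lit 41, Int.ofNat (nat_lit 1)), (nat_lit 42, Int.ofNat (nat_lit 10)), (nat_lit 43, Int.ofNat (nat_lit 3)), (nat_lit 45, Int.negSucc (nat_lit 1)), (nat_lit 46, Int.negSucc (nat_lit 5))] t32

/-- part of the table -/
def t34 : Tr := (Tr.nd (Tr.nd (Tr.nd (Tr.nd (Tr.nd Tr.nil (nat_lit 534) [(nat_lit 80, Int.negSucc (nat_lit 1)), (nat_lit 81, Int.negSucc (nat_lit 32))] Tr.nil) (nat_lit 535) [(nat_lit 81, Int.negSucc (nat_lit 40))] Tr.nil) (nat_lit 536) [(nat_lit 80, Int.ofNat (nat_lit 2)), (nat_lit 81, Int.negSucc (nat_lit 34))] (Tr.nd Tr.nil (nat_lit 561) [(nat_lit 82, Int.negSucc (nat_lit 2))] Tr.nil)) (nat_lit 562) [(nat_lit 82, Int.negSucc (nat_lit 1))] (Tr.nd (Tr.nd Tr.nil (nat_lit 564) [(nat_lit 82, Int.negSucc (nat_lit 2))] Tr.nil) (nat_lit 565) [(nat_lit 82, Int.ofNat (nat_lit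 3))] (Tr.nd Tr.nil (nat_lit 566) [(nat_lit 82, Int.ofNat (nat_lit 3))] Tr.nil))) (nat_lit 581) [(nat_lit 17, Int.ofNat (nat_lit 1)), (nat_lit 18, Int.ofNat (nat_lit 1))] (Tr.nd (Tr.nd (Tr.nd (Tr.nd Tr.nil (nat_lit 582) [(nat_lit 24, Int.negSucc (nat_lit 0)), (nat_lit 26, Int.ofNat (nat_lit 1))] Tr.nil) (nat_lit 583) [(nat_lit 39, Int.ofNat (nat_lit 11))] Tr.nil) (nat_lit 584) [(nat_lit 40, Int.ofNat (nat_lit 1)), (nat_lit 41, Int.ofNat (nat_lit 1)), (nat_lit 42, Int.ofNat (nat_lit 3)), (nat_lit 43, Int.negSucc (nat_lit 4)), (nat_lit 44, Int.negSucc (nat_lit 2)), (nat_lit 45, Int.ofNat (nat_lit 1)), (nat_lit 46, Int.negSucc (nat_lit 21))] (Tr.nd Tr.nil (nat_lit 585) [(nat_lit 41, Int.ofNat (nat_lit 1)), (nat_lit 42, Int.ofNat (nat_lit 1)), (nat_lit 43, Int.negSucc (nat_lit 8)), (nat_lit 44, Int.ofNat (nat_lit 6)), (nat_lit 45, Int.negSucc (nat_lit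 1)), (nat_lit 46, Int.ofNat (nat_lit 2))] Tr.nil)) (nat_lit 586) [(nat_lit 47, Int.ofNat (nat_lit 1)), (nat_lit 49, Int.ofNat (nat_lit 2)), (nat_lit 51, Int.negSucc (nat_lit 0)), (nat_lit 52, Int.negSucc (nat_lit 2)), (nat_lit 53, Int.ofNat (nat_lit 1)), (nat_lit 56, Int.ofNat (nat_lit 3)), (nat_lit 57, Int.ofNat (nat_lit 4)), (nat_lit 58, Int.ofNat (nat_lit 4)), (nat_lit 60, Int.negSucc (nat_lit 3))] (Tr.nd (Tr.nd Tr.nil (nat_lit 589) [(nat_lit 69, Int.ofNat (nat_lit 3))] Tr.nil) (nat_lit 590) [(nat_lit 69, Int.ofNat (nat_lit 17))] (Tr.nd Tr.nil (nat_lit 591) [(nat_lit 69, Int.negSucc (nat_lit 0))] Tr.nil))))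

/-- part of the table -/
def t35 : Tr := (Tr.nd (Tr.nd (Tr.nd (Tr.nd (Tr.nd Tr.nil (nat_lit 593) [(nat_lit 70, Int.ofNat (nat_lit 1)), (nat_lit 71, Int.ofNat (nat_lit 7)), (nat_lit 72, Int.ofNat (nat_lit 9)), (nat_lit 73, Int.negSucc (nat_lit 7)), (nat_lit 74, Int.negSucc (nat_lit 27))] Tr.nil) (nat_lit 594) [(nat_lit 70, Int.ofNat (nat_lit 1)), (nat_lit 71, Int.ofNat (nat_lit 7)), (nat_lit 72, Int.ofNat (nat_lit 4)), (nat_lit 73, Int.ofNat (nat_lit 2)), (nat_lit 74, Int.negSucc (nat_lit 24))] Tr.nil) (nat_lit 595) [(nat_lit 70, Int.ofNat (nat_lit 1)), (nat_lit 71, Int.ofNat (nat_lit 12)), (nat_lit 72, Int.ofNat (nat_lit 5)), (nat_lit 73, Int.ofNat (nat_lit 10)), (nat_lit 74, Int.negSucc (nat_lit 1))] (Tr.nd Tr.nil (nat_lit 596) [(nat_lit 75, Int.negSucc (nat_lit 1)), (nat_lit 76, Int.negSucc (nat_lit 15)), (nat_lit 77, Int.ofNat (nat_lit 14)),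 (nat_lit 78, Int.negSucc (nat_lit 1))] Tr.nil)) (nat_lit 608) [(nat_lit 79, Int.negSucc (nat_lit 2))] (Tr.nd (Tr.nd Tr.nil (nat_lit 609) [(nat_lit 79, Int.negSucc (nat_lit 2))] Tr.nil) (nat_lit 611) [(nat_lit 79, Int.negSucc (nat_lit 12))] (Tr.nd Tr.nil (nat_lit 612) [(nat_lit 79, Int.negSucc (nat_lit 7))] Tr.nil))) (nat_lit 613) [(nat_lit 79, Int.negSucc (nat_lit 17))] (Tr.nd (Tr.nd (Tr.nd Tr.nil (nat_lit 614) [(nat_lit 79, Int.ofNat (nat_lit 9))] Tr.nil) (nat_lit 615) [(nat_lit 79, Int.ofNat (nat_lit 9))] (Tr.nd Tr.nil (nat_lit 616) [(nat_lit 80, Int.negSucc (nat_lit 13)), (nat_lit 81, Int.negSucc (nat_lit 5))] Tr.nil)) (nat_lit 617) [(nat_lit 80, Int.ofNat (nat_lit 7)), (nat_lit 81, Int.ofNat (nat_lit 6))] (Tr.nd (Tr.nd Tr.nil (nat_lit 618) [(nat_lit 80, Int.ofNat (nat_lit 9)), (nat_lit 81, Int.negSucc (nat_lit 1))] Tr.nil) (nat_lit 619) [(nat_lit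 80, Int.ofNat (nat_lit 14)), (nat_lit 81, Int.negSucc (nat_lit 27))] (Tr.nd Tr.nil (nat_lit 642) [(nat_lit 82, Int.ofNat (nat_lit 2))] Tr.nil))))

/-- part of the table -/
def t36 : Tr := Tr.nd t34 (nat_lit 592) [(nat_lit 69, Int.ofNat (nat_lit 8))] t35

/-- part of the table -/
def t37 : Tr := Tr.nd t33 (nat_lit 533) [(nat_lit 80, Int.negSucc (nat_lit 5)), (nat_lit 81, Int.negSucc (nat_lit 33))] t36

/-- part of the table -/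
def t38 : Tr := (Tr.nd (Tr.nd (Tr.nd (Tr.nd (Tr.nd Tr.nil (nat_lit 644) [(nat_lit 82, Int.ofNat (nat_lit 1))] Tr.nil) (nat_lit 645) [(nat_lit 82, Int.negSucc (nat_lit 1))] Tr.nil) (nat_lit 646) [(nat_lit 82, Int.negSucc (nat_lit 0))] (Tr.nd Tr.nil (nat_lit 648) [(nat_lit 82, Int.negSucc (nat_lit 0))] Tr.nil)) (nat_lit 664) [(nat_lit 23, Int.ofNat (nat_lit 1)), (nat_lit 25, Int.negSucc (nat_lit 0)), (nat_lit 26, Int.ofNat (nat_lit 1))] (Tr.nd (Tr.nd Tr.nil (nat_lit 665) [(nat_lit 29, Int.ofNat (nat_lit 1))] Tr.nil) (nat_lit 666) [(nat_lit 40, Int.ofNat (nat_lit 1)), (nat_lit 42, Int.ofNat (nat_lit 2)), (nat_lit 43, Int.negSucc (nat_lit 0)), (nat_lit 44, Int.ofNat (nat_lit 6)), (nat_lit 45, Int.ofNat (nat_lit 3)), (nat_lit 46, Int.ofNat (nat_lit 24))] (Tr.nd Tr.nil (nat_lit 667) [(nat_lit 49, Int.ofNat (nat_lit 2)), (nat_lit 51, Int.ofNat (nat_lit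 2)), (nat_lit 52, Int.negSucc (nat_lit 0)), (nat_lit 53, Int.negSucc (nat_lit 5)), (nat_lit 55, Int.ofNat (nat_lit 2)), (nat_lit 56, Int.negSucc (nat_lit 1)), (nat_lit 57, Int.ofNat (nat_lit 5)), (nat_lit 58, Int.ofNat (nat_lit 2)), (nat_lit 59, Int.ofNat (nat_lit 5)), (nat_lit 60, Int.ofNat (nat_lit 3))] Tr.nil))) (nat_lit 668) [(nat_lit 48, Int.negSucc (nat_lit 1)), (nat_lit 49, Int.negSucc (nat_lit 0)), (nat_lit 52, Int.negSucc (nat_lit 0)), (nat_lit 53, Int.ofNat (nat_lit 1)), (nat_lit 54, Int.ofNat (nat_lit 2)), (nat_lit 57, Int.negSucc (nat_lit 0)), (nat_lit 58, Int.negSucc (nat_lit 0)), (nat_lit 59, Int.ofNat (nat_lit 2)), (nat_lit 60, Int.ofNat (nat_lit 6))] (Tr.nd (Tr.nd (Tr.nd (Tr.nd Tr.nil (nat_lit 669) [(nat_lit 61, Int.ofNat (nat_lit 1)), (nat_lit 62, Int.negSucc (nat_lit 2)), (nat_lit 63, Int.negSucc (nat_lit 1)), (nat_lit 65, Int.negSucc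 (nat_lit 5)), (nat_lit 66, Int.ofNat (nat_lit 4)), (nat_lit 68, Int.ofNat (nat_lit 4))] Tr.nil) (nat_lit 671) [(nat_lit 69, Int.negSucc (nat_lit 2))] Tr.nil) (nat_lit 672) [(nat_lit 73, Int.negSucc (nat_lit 1))] (Tr.nd Tr.nil (nat_lit 673) [(nat_lit 70, Int.ofNat (nat_lit 2)), (nat_lit 71, Int.negSucc (nat_lit 4)), (nat_lit 73, Int.negSucc (nat_lit 4)), (nat_lit 74, Int.ofNat (nat_lit 9))] Tr.nil)) (nat_lit 674) [(nat_lit 71, Int.ofNat (nat_lit 5)), (nat_lit 72, Int.ofNat (nat_lit 6)), (nat_lit 73, Int.ofNat (nat_lit 6)), (nat_lit 74, Int.negSucc (nat_lit 12))] (Tr.nd (Tr.nd Tr.nil (nat_lit 675) [(nat_lit 71, Int.ofNat (nat_lit 2))] Tr.nil) (nat_lit 676) [(nat_lit 75, Int.ofNat (nat_lit 6)), (nat_lit 76, Int.negSucc (nat_lit 5)), (nat_lit 77, Int.ofNat (nat_lit 12)), (nat_lit 78, Int.negSucc (nat_lit 8))] (Tr.nd Tr.nil (nat_lit 677) [(nat_lit 75,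 Int.negSucc (nat_lit 1)), (nat_lit 76, Int.ofNat (nat_lit 4)), (nat_lit 77, Int.negSucc (nat_lit 7)), (nat_lit 78, Int.negSucc (nat_lit 7))] Tr.nil))))

/-- part of the table -/
def t39 : Tr := (Tr.nd (Tr.nd (Tr.nd (Tr.nd (Tr.nd Tr.nil (nat_lit 683) [(nat_lit 79, Int.ofNat (nat_lit 13))] Tr.nil) (nat_lit 684) [(nat_lit 79, Int.ofNat (nat_lit 5))] Tr.nil) (nat_lit 685) [(nat_lit 79, Int.ofNat (nat_lit 3))] (Tr.nd Tr.nil (nat_lit 686) [(nat_lit 79, Int.negSucc (nat_lit 0))] Tr.nil)) (nat_lit 687) [(nat_lit 79, Int.ofNat (nat_lit 2))] (Tr.nd (Tr.nd Tr.nil (nat_lit 688) [(nat_lit 79, Int.negSucc (nat_lit 0))] Tr.nil) (nat_lit 689) [(nat_lit 79, Int.negSucc (nat_lit 0))] (Tr.nd Tr.nil (nat_lit 690) [(nat_lit 79, Int.negSucc (nat_lit 0))] Tr.nil))) (nat_lit 691) [(nat_lit 81, Int.negSucc (nat_lit 1))] (Tr.nd (Tr.nd (Tr.nd (Tr.nd Tr.nil (nat_lit 692)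 [(nat_lit 80, Int.ofNat (nat_lit 1)), (nat_lit 81, Int.negSucc (nat_lit 28))] Tr.nil) (nat_lit 694) [(nat_lit 80, Int.negSucc (nat_lit 0)), (nat_lit 81, Int.negSucc (nat_lit 25))] Tr.nil) (nat_lit 695) [(nat_lit 80, Int.ofNat (nat_lit 2)), (nat_lit 81, Int.negSucc (nat_lit 3))] (Tr.nd Tr.nil (nat_lit 696) [(nat_lit 80, Int.ofNat (nat_lit 2)), (nat_lit 81, Int.negSucc (nat_lit 3))] Tr.nil)) (nat_lit 698) [(nat_lit 80, Int.ofNat (nat_lit 3)), (nat_lit 81, Int.ofNat (nat_lit 7))] (Tr.nd (Tr.nd Tr.nil (nat_lit 711) [(nat_lit 82, Int.negSucc (nat_lit 0))] Tr.nil) (nat_lit 712) [(nat_lit 82, Int.ofNat (nat_lit 1))] (Tr.nd Tr.nil (nat_lit 714) [(nat_lit 82, Int.ofNat (nat_lit 1))] Tr.nil))))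

/-- part of the table -/
def t40 : Tr := Tr.nd t38 (nat_lit 678) [(nat_lit 75, Int.ofNat (nat_lit 2)), (nat_lit 76, Int.ofNat (nat_lit 2)), (nat_lit 77, Int.negSucc (nat_lit 3)), (nat_lit 78, Int.negSucc (nat_lit 9))] t39

/-- part of the table -/
def t41 : Tr := (Tr.nd (Tr.nd (Tr.nd (Tr.nd (Tr.nd Tr.nil (nat_lit 718) [(nat_lit 82, Int.ofNat (nat_lit 1))] Tr.nil) (nat_lit 747) [(nat_lit 19, Int.ofNat (nat_lit 1))] Tr.nil) (nat_lit 748) [(nat_lit 32, Int.ofNat (nat_lit 1))] (Tr.nd Tr.nil (nat_lit 749) [(nat_lit 42, Int.negSucc (nat_lit 0)), (nat_lit 43, Int.negSucc (nat_lit 8)), (nat_lit 45, Int.negSucc (nat_lit 2)), (nat_lit 46, Int.ofNat (nat_lit 13))] Tr.nil)) (nat_lit 750) [(nat_lit 47, Int.ofNat (nat_lit 1)), (nat_lit 49, Int.ofNat (nat_lit 1)), (nat_lit 51, Int.negSucc (nat_lit 0)), (nat_lit 56, Int.negSucc (nat_lit 5)), (nat_lit 57, Int.negSucc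 (nat_lit 9)), (nat_lit 58, Int.ofNat (nat_lit 6)), (nat_lit 59, Int.negSucc (nat_lit 2))] (Tr.nd (Tr.nd Tr.nil (nat_lit 751) [(nat_lit 47, Int.ofNat (nat_lit 1)), (nat_lit 49, Int.ofNat (nat_lit 1)), (nat_lit 50, Int.negSucc (nat_lit 0)), (nat_lit 51, Int.ofNat (nat_lit 3)), (nat_lit 52, Int.negSucc (nat_lit 0)), (nat_lit 53, Int.negSucc (nat_lit 0)), (nat_lit 54, Int.negSucc (nat_lit 1)), (nat_lit 55, Int.negSucc (nat_lit 0)), (nat_lit 56, Int.ofNat (nat_lit 3)), (nat_lit 57, Int.ofNat (nat_lit 2)), (nat_lit 58, Int.negSucc (nat_lit 0)), (nat_lit 59, Int.negSucc (nat_lit 0)), (nat_lit 60, Int.ofNat (nat_lit 7))] Tr.nil) (nat_lit 752) [(nat_lit 61, Int.ofNat (nat_lit 3)), (nat_lit 62, Int.ofNat (nat_lit 2)), (nat_lit 63, Int.negSucc (nat_lit 0)), (nat_lit 65, Int.negSucc (nat_lit 2)), (nat_lit 66, Int.negSucc (nat_lit 4)), (nat_lit 67, Int.negSucc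 (nat_lit 5)), (nat_lit 68, Int.ofNat (nat_lit 7))] (Tr.nd Tr.nil (nat_lit 753) [(nat_lit 69, Int.negSucc (nat_lit 8))] Tr.nil))) (nat_lit 754) [(nat_lit 69, Int.ofNat (nat_lit 3))] (Tr.nd (Tr.nd (Tr.nd (Tr.nd Tr.nil (nat_lit 755) [(nat_lit 71, Int.ofNat (nat_lit 3)), (nat_lit 72, Int.negSucc (nat_lit 16)), (nat_lit 74, Int.ofNat (nat_lit 4))] Tr.nil) (nat_lit 756) [(nat_lit 71, Int.ofNat (nat_lit 5)), (nat_lit 72, Int.negSucc (nat_lit 3)), (nat_lit 73, Int.negSucc (nat_lit 6))] Tr.nil) (nat_lit 757) [(nat_lit 71, Int.ofNat (nat_lit 7)), (nat_lit 72, Int.ofNat (nat_lit 8)), (nat_lit 73, Int.ofNat (nat_lit 9)), (nat_lit 74, Int.ofNat (nat_lit 8))] (Tr.nd Tr.nil (nat_lit 758) [(nat_lit 71, Int.ofNat (nat_lit 6)), (nat_lit 72, Int.negSucc (nat_lit 0)), (nat_lit 73, Int.ofNat (nat_lit 4)), (nat_lit 74, Int.ofNat (nat_lit 15))] Tr.nil)) (nat_lit 759)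 [(nat_lit 75, Int.negSucc (nat_lit 0)), (nat_lit 76, Int.negSucc (nat_lit 13)), (nat_lit 77, Int.negSucc (nat_lit 32)), (nat_lit 78, Int.negSucc (nat_lit 4))] (Tr.nd (Tr.nd Tr.nil (nat_lit 760) [(nat_lit 75, Int.negSucc (nat_lit 0)), (nat_lit 76, Int.negSucc (nat_lit 7)), (nat_lit 77, Int.negSucc (nat_lit 10)), (nat_lit 78, Int.negSucc (nat_lit 2))] Tr.nil) (nat_lit 761) [(nat_lit 75, Int.negSucc (nat_lit 3)), (nat_lit 76, Int.negSucc (nat_lit 7)), (nat_lit 77, Int.ofNat (nat_lit 1)), (nat_lit 78, Int.negSucc (nat_lit 15))] (Tr.nd Tr.nil (nat_lit 766) [(nat_lit 79, Int.ofNat (nat_lit 11))] Tr.nil))))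

/-- part of the table -/
def t42 : Tr := (Tr.nd (Tr.nd (Tr.nd (Tr.nd (Tr.nd Tr.nil (nat_lit 768) [(nat_lit 79, Int.ofNat (nat_lit 6))] Tr.nil) (nat_lit 769) [(nat_lit 79, Int.ofNat (nat_lit 5))] Tr.nil) (nat_lit 770) [(nat_lit 79, Int.ofNat (nat_lit 14))] (Tr.nd Tr.nil (nat_lit 771) [(nat_lit 79, Int.ofNat (nat_lit 6))] Tr.nil)) (nat_lit 772) [(nat_lit 79, Int.ofNat (nat_lit 5))] (Tr.nd (Tr.nd Tr.nil (nat_lit 773) [(nat_lit 79, Int.ofNat (nat_lit 4))] Tr.nil) (nat_lit 774) [(nat_lit 80, Int.negSucc (nat_lit 2)), (nat_lit 81, Int.negSucc (nat_lit 1))] (Tr.nd Tr.nil (nat_lit 775) [(nat_lit 80, Int.negSucc (nat_lit 7)), (nat_lit 81, Int.negSucc (nat_lit 10))] Tr.nil))) (nat_lit 776) [(nat_lit 81, Int.negSucc (nat_lit 5))] (Tr.nd (Tr.nd (Tr.nd Tr.nil (nat_lit 777) [(nat_lit 80, Int.negSucc (nat_lit 9)), (nat_lit 81, Int.negSucc (nat_lit 7))] Tr.nil)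 (nat_lit 778) [(nat_lit 80, Int.ofNat (nat_lit 6)), (nat_lit 81, Int.negSucc (nat_lit 21))] (Tr.nd Tr.nil (nat_lit 779) [(nat_lit 80, Int.ofNat (nat_lit 5)), (nat_lit 81, Int.negSucc (nat_lit 5))] Tr.nil)) (nat_lit 780) [(nat_lit 80, Int.negSucc (nat_lit 0)), (nat_lit 81, Int.ofNat (nat_lit 2))] (Tr.nd (Tr.nd Tr.nil (nat_lit 781) [(nat_lit 80, Int.ofNat (nat_lit 4)), (nat_lit 81, Int.ofNat (nat_lit 1))] Tr.nil) (nat_lit 794) [(nat_lit 82, Int.negSucc (nat_lit 1))] (Tr.nd Tr.nil (nat_lit 795) [(nat_lit 82, Int.ofNat (nat_lit 7))] Tr.nil))))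

/-- part of the table -/
def t43 : Tr := Tr.nd t41 (nat_lit 767) [(nat_lit 79, Int.ofNat (nat_lit 14))] t42

/-- part of the table -/
def t44 : Tr := Tr.nd t40 (nat_lit 715) [(nat_lit 82, Int.negSucc (nat_lit 0))] t43

/-- part of the table -/
def t45 : Tr := Tr.nd t37 (nat_lit 643) [(nat_lit 82, Int.ofNat (nat_lit 2))] t44

/-- part of the table -/
def t46 : Tr := (Tr.nd (Tr.nd (Tr.nd (Tr.nd (Tr.nd Tr.nil (nat_lit 797) [(nat_lit 82, Int.negSucc (nat_lit 2))] Tr.nil) (nat_lit 798) [(nat_lit 82, Int.negSucc (nat_lit 4))] Tr.nil) (nat_lit 799) [(nat_lit 82, Int.negSucc (nat_lit 0))] (Tr.nd Tr.nil (nat_lit 804) [(nat_lit 82, Int.ofNat (nat_lit 1))] Tr.nil)) (nat_lit 806) [(nat_lit 82, Int.negSucc (nat_lit 1))] (Tr.nd (Tr.nd Tr.nil (nat_lit 807) [(nat_lit 82, Int.ofNat (nat_lit 1))] Tr.nil) (nat_lit 830) [(nat_lit 20, Int.negSucc (nat_lit 0)), (nat_lit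 24, Int.negSucc (nat_lit 0))] (Tr.nd Tr.nil (nat_lit 831) [(nat_lit 31, Int.ofNat (nat_lit 1)), (nat_lit 33, Int.ofNat (nat_lit 1))] Tr.nil))) (nat_lit 832) [(nat_lit 42, Int.negSucc (nat_lit 1)), (nat_lit 43, Int.ofNat (nat_lit 1)), (nat_lit 44, Int.ofNat (nat_lit 5)), (nat_lit 45, Int.negSucc (nat_lit 7)), (nat_lit 46, Int.ofNat (nat_lit 5))] (Tr.nd (Tr.nd (Tr.nd (Tr.nd Tr.nil (nat_lit 833) [(nat_lit 49, Int.ofNat (nat_lit 2)), (nat_lit 51, Int.ofNat (nat_lit 3)), (nat_lit 52, Int.negSucc (nat_lit 4)), (nat_lit 53, Int.negSucc (nat_lit 4)), (nat_lit 54, Int.ofNat (nat_lit 1)), (nat_lit 55, Int.negSucc (nat_lit 1)), (nat_lit 56, Int.ofNat (nat_lit 2)), (nat_lit 57, Int.ofNat (nat_lit 4)), (nat_lit 58, Int.negSucc (nat_lit 9)), (nat_lit 59, Int.ofNat (nat_lit 4)), (nat_lit 60, Int.ofNat (nat_lit 1))] Tr.nil) (nat_lit 834) [(nat_lit 48, Int.negSucc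 (nat_lit 1)), (nat_lit 49, Int.negSucc (nat_lit 0)), (nat_lit 50, Int.negSucc (nat_lit 4)), (nat_lit 51, Int.negSucc (nat_lit 1)), (nat_lit 52, Int.negSucc (nat_lit 0)), (nat_lit 53, Int.ofNat (nat_lit 3)), (nat_lit 54, Int.ofNat (nat_lit 5)), (nat_lit 55, Int.ofNat (nat_lit 1)), (nat_lit 56, Int.negSucc (nat_lit 3)), (nat_lit 57, Int.negSucc (nat_lit 0)), (nat_lit 58, Int.negSucc (nat_lit 0)), (nat_lit 59, Int.negSucc (nat_lit 6)), (nat_lit 60, Int.negSucc (nat_lit 3))] Tr.nil) (nat_lit 835) [(nat_lit 61, Int.ofNat (nat_lit 1)), (nat_lit 62, Int.negSucc (nat_lit 3)), (nat_lit 64, Int.negSucc (nat_lit 6)), (nat_lit 65, Int.ofNat (nat_lit 10)), (nat_lit 66, Int.ofNat (nat_lit 1)), (nat_lit 67, Int.negSucc (nat_lit 0)), (nat_lit 68, Int.ofNat (nat_lit 4))] (Tr.nd Tr.nil (nat_lit 836) [(nat_lit 69, Int.ofNat (nat_lit 8))] Tr.nil)) (nat_lit 837) [(nat_lit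 69, Int.negSucc (nat_lit 3))] (Tr.nd (Tr.nd Tr.nil (nat_lit 838) [(nat_lit 71, Int.negSucc (nat_lit 0)), (nat_lit 72, Int.negSucc (nat_lit 9)), (nat_lit 73, Int.negSucc (nat_lit 1)), (nat_lit 74, Int.ofNat (nat_lit 33))] Tr.nil) (nat_lit 839) [(nat_lit 70, Int.ofNat (nat_lit 2)), (nat_lit 71, Int.negSucc (nat_lit 5)), (nat_lit 72, Int.ofNat (nat_lit 8)), (nat_lit 73, Int.negSucc (nat_lit 2)), (nat_lit 74, Int.negSucc (nat_lit 14))] (Tr.nd Tr.nil (nat_lit 840) [(nat_lit 71, Int.ofNat (nat_lit 4)), (nat_lit 72, Int.negSucc (nat_lit 3)), (nat_lit 73, Int.ofNat (nat_lit 6)), (nat_lit 74, Int.ofNat (nat_lit 20))] Tr.nil))))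

/-- part of the table -/
def t47 : Tr := (Tr.nd (Tr.nd (Tr.nd (Tr.nd (Tr.nd Tr.nil (nat_lit 842) [(nat_lit 75, Int.ofNat (nat_lit 6)), (nat_lit 76, Int.ofNat (nat_lit 8)), (nat_lit 77, Int.negSucc (nat_lit 6)), (nat_lit 78, Int.negSucc (nat_lit 14))] Tr.nil) (nat_lit 843) [(nat_lit 75, Int.negSucc (nat_lit 1)), (nat_lit 76, Int.ofNat (nat_lit 3)), (nat_lit 78, Int.negSucc (nat_lit 1))] Tr.nil) (nat_lit 844) [(nat_lit 75, Int.ofNat (nat_lit 2)), (nat_lit 76, Int.ofNat (nat_lit 6)), (nat_lit 77, Int.negSucc (nat_lit 5)), (nat_lit 78, Int.ofNat (nat_lit 11))] (Tr.nd Tr.nil (nat_lit 849) [(nat_lit 79, Int.ofNat (nat_lit 2))] Tr.nil)) (nat_lit 850) [(nat_lit 79, Int.ofNat (nat_lit 6))] (Tr.nd (Tr.nd Tr.nil (nat_lit 851) [(nat_lit 79, Int.negSucc (nat_lit 9))] Tr.nil) (nat_lit 852) [(nat_lit 79, Int.ofNat (nat_lit 6))] (Tr.nd Tr.nil (nat_lit 853) [(nat_lit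 79, Int.negSucc (nat_lit 3))] Tr.nil))) (nat_lit 854) [(nat_lit 79, Int.negSucc (nat_lit 3))] (Tr.nd (Tr.nd (Tr.nd (Tr.nd Tr.nil (nat_lit 855) [(nat_lit 79, Int.negSucc (nat_lit 7))] Tr.nil) (nat_lit 857) [(nat_lit 81, Int.negSucc (nat_lit 22))] Tr.nil) (nat_lit 858) [(nat_lit 80, Int.ofNat (nat_lit 1)), (nat_lit 81, Int.negSucc (nat_lit 4))] (Tr.nd Tr.nil (nat_lit 859) [(nat_lit 80, Int.ofNat (nat_lit 2)), (nat_lit 81, Int.negSucc (nat_lit 19))] Tr.nil)) (nat_lit 860) [(nat_lit 80, Int.negSucc (nat_lit 0))] (Tr.nd (Tr.nd Tr.nil (nat_lit 861) [(nat_lit 80, Int.ofNat (nat_lit 2)), (nat_lit 81, Int.negSucc (nat_lit 24))] Tr.nil) (nat_lit 862) [(nat_lit 81, Int.negSucc (nat_lit 8))] (Tr.nd Tr.nil (nat_lit 863) [(nat_lit 80, Int.ofNat (nat_lit 2)), (nat_lit 81, Int.ofNat (nat_lit 1))] Tr.nil))))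

/-- part of the table -/
def t48 : Tr := Tr.nd t46 (nat_lit 841) [(nat_lit 71, Int.ofNat (nat_lit 2)), (nat_lit 72, Int.ofNat (nat_lit 4)), (nat_lit 73, Int.negSucc (nat_lit 0)), (nat_lit 74, Int.ofNat (nat_lit 16))] t47

/-- part of the table -/
def t49 : Tr := (Tr.nd (Tr.nd (Tr.nd (Tr.nd (Tr.nd Tr.nil (nat_lit 877) [(nat_lit 82, Int.ofNat (nat_lit 3))] Tr.nil) (nat_lit 878) [(nat_lit 82, Int.ofNat (nat_lit 5))] Tr.nil) (nat_lit 879) [(nat_lit 82, Int.negSucc (nat_lit 3))] (Tr.nd Tr.nil (nat_lit 880) [(nat_lit 82, Int.ofNat (nat_lit 1))] Tr.nil)) (nat_lit 881) [(nat_lit 82, Int.negSucc (nat_lit 0))] (Tr.nd (Tr.nd Tr.nil (nat_lit 884) [(nat_lit 82, Int.ofNat (nat_lit 1))] Tr.nil) (nat_lit 913) [(nat_lit 21, Int.ofNat (nat_lit 1))] (Tr.nd Tr.nil (nat_lit 914) [(nat_lit 31, Int.ofNat (nat_lit 1))] Tr.nil))) (nat_lit 915) [(nat_lit 42, Int.negSucc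 (nat_lit 3)), (nat_lit 43, Int.negSucc (nat_lit 1)), (nat_lit 44, Int.ofNat (nat_lit 2)), (nat_lit 45, Int.negSucc (nat_lit 10)), (nat_lit 46, Int.negSucc (nat_lit 6))] (Tr.nd (Tr.nd (Tr.nd (Tr.nd Tr.nil (nat_lit 916) [(nat_lit 47, Int.negSucc (nat_lit 0)), (nat_lit 48, Int.negSucc (nat_lit 0)), (nat_lit 49, Int.ofNat (nat_lit 1)), (nat_lit 51, Int.ofNat (nat_lit 5)), (nat_lit 52, Int.negSucc (nat_lit 3)), (nat_lit 53, Int.negSucc (nat_lit 1)), (nat_lit 54, Int.ofNat (nat_lit 3)), (nat_lit 55, Int.negSucc (nat_lit 0)), (nat_lit 57, Int.negSucc (nat_lit 3)), (nat_lit 58, Int.negSucc (nat_lit 0)), (nat_lit 59, Int.negSucc (nat_lit 5)), (nat_lit 60, Int.negSucc (nat_lit 1))] Tr.nil) (nat_lit 917) [(nat_lit 47, Int.ofNat (nat_lit 1)), (nat_lit 48, Int.negSucc (nat_lit 0)), (nat_lit 49, Int.negSucc (nat_lit 0)), (nat_lit 50, Int.negSucc (nat_lit 1)),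 (nat_lit 51, Int.ofNat (nat_lit 1)), (nat_lit 53, Int.negSucc (nat_lit 0)), (nat_lit 54, Int.ofNat (nat_lit 4)), (nat_lit 55, Int.ofNat (nat_lit 2)), (nat_lit 56, Int.negSucc (nat_lit 2)), (nat_lit 57, Int.negSucc (nat_lit 0)), (nat_lit 58, Int.ofNat (nat_lit 2)), (nat_lit 59, Int.negSucc (nat_lit 5)), (nat_lit 60, Int.ofNat (nat_lit 1))] Tr.nil) (nat_lit 918) [(nat_lit 61, Int.ofNat (nat_lit 4)), (nat_lit 62, Int.negSucc (nat_lit 0)), (nat_lit 63, Int.negSucc (nat_lit 2)), (nat_lit 64, Int.negSucc (nat_lit 6)), (nat_lit 65, Int.ofNat (nat_lit 11)), (nat_lit 66, Int.ofNat (nat_lit 5)), (nat_lit 67, Int.negSucc (nat_lit 1)), (nat_lit 68, Int.ofNat (nat_lit 7))] (Tr.nd Tr.nil (nat_lit 919) [(nat_lit 69, Int.negSucc (nat_lit 7))] Tr.nil)) (nat_lit 920) [(nat_lit 69, Int.negSucc (nat_lit 13))] (Tr.nd (Tr.nd Tr.nil (nat_lit 921) [(nat_lit 71, Int.ofNat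 (nat_lit 2)), (nat_lit 72, Int.negSucc (nat_lit 14)), (nat_lit 73, Int.negSucc (nat_lit 1)), (nat_lit 74, Int.ofNat (nat_lit 29))] Tr.nil) (nat_lit 922) [(nat_lit 70, Int.ofNat (nat_lit 2)), (nat_lit 71, Int.negSucc (nat_lit 1)), (nat_lit 72, Int.negSucc (nat_lit 4)), (nat_lit 73, Int.negSucc (nat_lit 7)), (nat_lit 74, Int.negSucc (nat_lit 4))] (Tr.nd Tr.nil (nat_lit 923) [(nat_lit 71, Int.ofNat (nat_lit 2)), (nat_lit 72, Int.negSucc (nat_lit 3)), (nat_lit 73, Int.ofNat (nat_lit 7)), (nat_lit 74, Int.ofNat (nat_lit 22))] Tr.nil))))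

/-- part of the table -/
def t50 : Tr := (Tr.nd (Tr.nd (Tr.nd (Tr.nd (Tr.nd Tr.nil (nat_lit 925) [(nat_lit 75, Int.ofNat (nat_lit 8)), (nat_lit 76, Int.negSucc (nat_lit 5)), (nat_lit 77, Int.negSucc (nat_lit 11)), (nat_lit 78, Int.negSucc (nat_lit 11))] Tr.nil) (nat_lit 926) [(nat_lit 75, Int.negSucc (nat_lit 0)), (nat_lit 76, Int.negSucc (nat_lit 4)), (nat_lit 77, Int.negSucc (nat_lit 10)), (nat_lit 78, Int.negSucc (nat_lit 4))] Tr.nil) (nat_lit 927) [(nat_lit 75, Int.negSucc (nat_lit 2)), (nat_lit 76, Int.negSucc (nat_lit 4)), (nat_lit 77, Int.negSucc (nat_lit 9)), (nat_lit 78, Int.negSucc (nat_lit 5))] (Tr.nd Tr.nil (nat_lit 932) [(nat_lit 79, Int.ofNat (nat_lit 8))] Tr.nil)) (nat_lit 933) [(nat_lit 79, Int.ofNat (nat_lit 10))] (Tr.nd (Tr.nd Tr.nil (nat_lit 934) [(nat_lit 79, Int.ofNat (nat_lit 4))] Tr.nil) (nat_lit 935) [(nat_lit 79, Int.ofNat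 (nat_lit 8))] (Tr.nd Tr.nil (nat_lit 936) [(nat_lit 79, Int.ofNat (nat_lit 22))] Tr.nil))) (nat_lit 937) [(nat_lit 79, Int.negSucc (nat_lit 13))] (Tr.nd (Tr.nd (Tr.nd Tr.nil (nat_lit 938) [(nat_lit 79, Int.ofNat (nat_lit 8))] Tr.nil) (nat_lit 940) [(nat_lit 80, Int.negSucc (nat_lit 5)), (nat_lit 81, Int.negSucc (nat_lit 22))] (Tr.nd Tr.nil (nat_lit 941) [(nat_lit 80, Int.negSucc (nat_lit 4)), (nat_lit 81, Int.negSucc (nat_lit 18))] Tr.nil)) (nat_lit 942) [(nat_lit 80, Int.ofNat (nat_lit 2)), (nat_lit 81, Int.negSucc (nat_lit 17))] (Tr.nd (Tr.nd Tr.nil (nat_lit 943) [(nat_lit 80, Int.negSucc (nat_lit 6)), (nat_lit 81, Int.negSucc (nat_lit 18))] Tr.nil) (nat_lit 944) [(nat_lit 80, Int.ofNat (nat_lit 2)), (nat_lit 81, Int.negSucc (nat_lit 21))] (Tr.nd Tr.nil (nat_lit 945) [(nat_lit 80, Int.ofNat (nat_lit 2)), (nat_lit 81, Int.negSucc (nat_lit 7))]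 Tr.nil))))

/-- part of the table -/
def t51 : Tr := Tr.nd t49 (nat_lit 924) [(nat_lit 71, Int.ofNat (nat_lit 2)), (nat_lit 72, Int.negSucc (nat_lit 3)), (nat_lit 74, Int.ofNat (nat_lit 22))] t50

/-- part of the table -/
def t52 : Tr := Tr.nd t48 (nat_lit 864) [(nat_lit 80, Int.ofNat (nat_lit 3)), (nat_lit 81, Int.ofNat (nat_lit 7))] t51

/-- part of the table -/
def t53 : Tr := (Tr.nd (Tr.nd (Tr.nd (Tr.nd (Tr.nd Tr.nil (nat_lit 947) [(nat_lit 80, Int.ofNat (nat_lit 2)), (nat_lit 81, Int.ofNat (nat_lit 7))] Tr.nil) (nat_lit 960) [(nat_lit 82, Int.negSucc (nat_lit 5))] Tr.nil) (nat_lit 961) [(nat_lit 82, Int.ofNat (nat_lit 9))] (Tr.nd Tr.nil (nat_lit 962) [(nat_lit 82, Int.negSucc (nat_lit 4))] Tr.nil)) (nat_lit 964) [(nat_lit 82, Int.negSucc (nat_lit 4))] (Tr.nd (Tr.nd Tr.nil (nat_lit 965) [(nat_lit 82, Int.negSucc (nat_lit 0))] Tr.nil) (nat_lit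 966) [(nat_lit 82, Int.negSucc (nat_lit 1))] (Tr.nd Tr.nil (nat_lit 967) [(nat_lit 82, Int.negSucc (nat_lit 0))] Tr.nil))) (nat_lit 972) [(nat_lit 82, Int.negSucc (nat_lit 1))] (Tr.nd (Tr.nd (Tr.nd (Tr.nd Tr.nil (nat_lit 973) [(nat_lit 82, Int.ofNat (nat_lit 1))] Tr.nil) (nat_lit 996) [(nat_lit 27, Int.ofNat (nat_lit 1)), (nat_lit 34, Int.negSucc (nat_lit 0))] Tr.nil) (nat_lit 997) [(nat_lit 36, Int.ofNat (nat_lit 1))] (Tr.nd Tr.nil (nat_lit 998) [(nat_lit 50, Int.ofNat (nat_lit 2)), (nat_lit 51, Int.ofNat (nat_lit 4)), (nat_lit 52, Int.ofNat (nat_lit 3)), (nat_lit 54, Int.ofNat (nat_lit 1)), (nat_lit 55, Int.ofNat (nat_lit 3)), (nat_lit 56, Int.ofNat (nat_lit 1)), (nat_lit 57, Int.negSucc (nat_lit 2)), (nat_lit 58, Int.negSucc (nat_lit 2)), (nat_lit 59, Int.ofNat (nat_lit 1))] Tr.nil)) (nat_lit 999) [(nat_lit 61, Int.ofNat (nat_lit 3)), (nat_lit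 62, Int.ofNat (nat_lit 2)), (nat_lit 63, Int.negSucc (nat_lit 0)), (nat_lit 64, Int.negSucc (nat_lit 4)), (nat_lit 65, Int.negSucc (nat_lit 2)), (nat_lit 66, Int.negSucc (nat_lit 0)), (nat_lit 67, Int.negSucc (nat_lit 5)), (nat_lit 68, Int.negSucc (nat_lit 7))] (Tr.nd (Tr.nd Tr.nil (nat_lit 1000) [(nat_lit 61, Int.ofNat (nat_lit 1)), (nat_lit 62, Int.negSucc (nat_lit 2)), (nat_lit 63, Int.negSucc (nat_lit 1)), (nat_lit 65, Int.negSucc (nat_lit 5))] Tr.nil) (nat_lit 1002) [(nat_lit 70, Int.ofNat (nat_lit 2)), (nat_lit 71, Int.negSucc (nat_lit 7)), (nat_lit 72, Int.negSucc (nat_lit 7)), (nat_lit 73, Int.negSucc (nat_lit 6)), (nat_lit 74, Int.ofNat (nat_lit 16))] (Tr.nd Tr.nil (nat_lit 1003) [(nat_lit 71, Int.ofNat (nat_lit 2)), (nat_lit 72, Int.ofNat (nat_lit 1)), (nat_lit 73, Int.negSucc (nat_lit 7)), (nat_lit 74, Int.ofNat (nat_lit 5))] Tr.nil))))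

/-- part of the table -/
def t54 : Tr := (Tr.nd (Tr.nd (Tr.nd (Tr.nd (Tr.nd Tr.nil (nat_lit 1005) [(nat_lit 75, Int.ofNat (nat_lit 3)), (nat_lit 76, Int.ofNat (nat_lit 7)), (nat_lit 77, Int.ofNat (nat_lit 14)), (nat_lit 78, Int.ofNat (nat_lit 3))] Tr.nil) (nat_lit 1006) [(nat_lit 75, Int.negSucc (nat_lit 0)), (nat_lit 76, Int.negSucc (nat_lit 4)), (nat_lit 77, Int.negSucc (nat_lit 2)), (nat_lit 78, Int.negSucc (nat_lit 12))] Tr.nil) (nat_lit 1007) [(nat_lit 75, Int.negSucc (nat_lit 3)), (nat_lit 78, Int.negSucc (nat_lit 15))] (Tr.nd Tr.nil (nat_lit 1012) [(nat_lit 79, Int.ofNat (nat_lit 3))] Tr.nil)) (nat_lit 1013) [(nat_lit 79, Int.negSucc (nat_lit 2))] (Tr.nd (Tr.nd Tr.nil (nat_lit 1014) [(nat_lit 79, Int.negSucc (nat_lit 2))] Tr.nil) (nat_lit 1015) [(nat_lit 81, Int.negSucc (nat_lit 17))] (Tr.nd Tr.nil (nat_lit 1016) [(nat_lit 80, Int.negSucc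 (nat_lit 3)), (nat_lit 81, Int.ofNat (nat_lit 11))] Tr.nil))) (nat_lit 1017) [(nat_lit 80, Int.ofNat (nat_lit 2)), (nat_lit 81, Int.negSucc (nat_lit 9))] (Tr.nd (Tr.nd (Tr.nd Tr.nil (nat_lit 1018) [(nat_lit 80, Int.negSucc (nat_lit 4)), (nat_lit 81, Int.negSucc (nat_lit 16))] Tr.nil) (nat_lit 1019) [(nat_lit 81, Int.negSucc (nat_lit 11))] (Tr.nd Tr.nil (nat_lit 1020) [(nat_lit 80, Int.negSucc (nat_lit 1)), (nat_lit 81, Int.negSucc (nat_lit 2))] Tr.nil)) (nat_lit 1021) [(nat_lit 80, Int.negSucc (nat_lit 1)), (nat_lit 81, Int.negSucc (nat_lit 2))] (Tr.nd (Tr.nd Tr.nil (nat_lit 1022) [(nat_lit 80, Int.negSucc (nat_lit 1)), (nat_lit 81, Int.negSucc (nat_lit 2))] Tr.nil) (nat_lit 1036) [(nat_lit 82, Int.ofNat (nat_lit 11))] (Tr.nd Tr.nil (nat_lit 1037) [(nat_lit 82, Int.negSucc (nat_lit 0))] Tr.nil))))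

/-- part of the table -/
def t55 : Tr := Tr.nd t53 (nat_lit 1004) [(nat_lit 76, Int.ofNat (nat_lit 3)), (nat_lit 77, Int.negSucc (nat_lit 3)), (nat_lit 78, Int.negSucc (nat_lit 19))] t54

/-- part of the table -/
def t56 : Tr := (Tr.nd (Tr.nd (Tr.nd (Tr.nd (Tr.nd Tr.nil (nat_lit 1040) [(nat_lit 82, Int.negSucc (nat_lit 0))] Tr.nil) (nat_lit 1079) [(nat_lit 28, Int.ofNat (nat_lit 1))] Tr.nil) (nat_lit 1080) [(nat_lit 37, Int.ofNat (nat_lit 1))] (Tr.nd Tr.nil (nat_lit 1081) [(nat_lit 50, Int.ofNat (nat_lit 3)), (nat_lit 53, Int.ofNat (nat_lit 3)), (nat_lit 54, Int.negSucc (nat_lit 2)), (nat_lit 55, Int.negSucc (nat_lit 2)), (nat_lit 58, Int.ofNat (nat_lit 1)), (nat_lit 59, Int.ofNat (nat_lit 7)), (nat_lit 60, Int.negSucc (nat_lit 3))] Tr.nil)) (nat_lit 1082) [(nat_lit 62, Int.negSucc (nat_lit 0)), (nat_lit 63, Int.ofNat (nat_lit 2)), (nat_lit 64,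 Int.negSucc (nat_lit 2)), (nat_lit 65, Int.negSucc (nat_lit 3)), (nat_lit 66, Int.negSucc (nat_lit 4)), (nat_lit 67, Int.negSucc (nat_lit 4)), (nat_lit 68, Int.negSucc (nat_lit 10))] (Tr.nd (Tr.nd Tr.nil (nat_lit 1083) [(nat_lit 62, Int.ofNat (nat_lit 1)), (nat_lit 63, Int.ofNat (nat_lit 1)), (nat_lit 64, Int.negSucc (nat_lit 1)), (nat_lit 65, Int.ofNat (nat_lit 2)), (nat_lit 66, Int.ofNat (nat_lit 6)), (nat_lit 67, Int.ofNat (nat_lit 1)), (nat_lit 68, Int.ofNat (nat_lit 6))] Tr.nil) (nat_lit 1085) [(nat_lit 73, Int.negSucc (nat_lit 7))] (Tr.nd Tr.nil (nat_lit 1086) [(nat_lit 73, Int.ofNat (nat_lit 1))] Tr.nil))) (nat_lit 1087) [(nat_lit 76, Int.negSucc (nat_lit 2)), (nat_lit 77, Int.ofNat (nat_lit 6)), (nat_lit 78, Int.negSucc (nat_lit 20))] (Tr.nd (Tr.nd (Tr.nd (Tr.nd Tr.nil (nat_lit 1089) [(nat_lit 76, Int.negSucc (nat_lit 1)), (nat_lit 77,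 Int.negSucc (nat_lit 1)), (nat_lit 78, Int.ofNat (nat_lit 1))] Tr.nil) (nat_lit 1090) [(nat_lit 78, Int.negSucc (nat_lit 7))] Tr.nil) (nat_lit 1098) [(nat_lit 81, Int.negSucc (nat_lit 2))] (Tr.nd Tr.nil (nat_lit 1099) [(nat_lit 81, Int.ofNat (nat_lit 1))] Tr.nil)) (nat_lit 1100) [(nat_lit 81, Int.negSucc (nat_lit 4))] (Tr.nd (Tr.nd Tr.nil (nat_lit 1101) [(nat_lit 81, Int.negSucc (nat_lit 2))] Tr.nil) (nat_lit 1102) [(nat_lit 81, Int.negSucc (nat_lit 1))] (Tr.nd Tr.nil (nat_lit 1103) [(nat_lit 81, Int.negSucc (nat_lit 2))] Tr.nil))))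

/-- part of the table -/
def t57 : Tr := (Tr.nd (Tr.nd (Tr.nd (Tr.nd (Tr.nd Tr.nil (nat_lit 1105) [(nat_lit 81, Int.negSucc (nat_lit 2))] Tr.nil) (nat_lit 1162) [(nat_lit 30, Int.ofNat (nat_lit 1)), (nat_lit 34, Int.ofNat (nat_lit 1))] Tr.nil) (nat_lit 1163) [(nat_lit 38, Int.ofNat (nat_lit 1))] (Tr.nd Tr.nil (nat_lit 1164) [(nat_lit 50, Int.ofNat (nat_lit 5)), (nat_lit 51, Int.ofNat (nat_lit 2)), (nat_lit 52, Int.negSucc (nat_lit 0)), (nat_lit 53, Int.ofNat (nat_lit 3)), (nat_lit 54, Int.negSucc (nat_lit 1)), (nat_lit 55, Int.negSucc (nat_lit 2)), (nat_lit 57, Int.ofNat (nat_lit 3)), (nat_lit 58, Int.negSucc (nat_lit 1)), (nat_lit 59, Int.ofNat (nat_lit 2)), (nat_lit 60, Int.negSucc (nat_lit 3))] Tr.nil)) (nat_lit 1165) [(nat_lit 61, Int.negSucc (nat_lit 2)), (nat_lit 62, Int.negSucc (nat_lit 0)), (nat_lit 63, Int.ofNat (nat_lit 3)), (nat_lit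 64, Int.ofNat (nat_lit 5)), (nat_lit 65, Int.ofNat (nat_lit 4)), (nat_lit 66, Int.ofNat (nat_lit 4)), (nat_lit 67, Int.negSucc (nat_lit 9)), (nat_lit 68, Int.ofNat (nat_lit 9))] (Tr.nd (Tr.nd Tr.nil (nat_lit 1166) [(nat_lit 61, Int.negSucc (nat_lit 0)), (nat_lit 63, Int.negSucc (nat_lit 0)), (nat_lit 64, Int.negSucc (nat_lit 1)), (nat_lit 65, Int.negSucc (nat_lit 4)), (nat_lit 66, Int.negSucc (nat_lit 12)), (nat_lit 67, Int.negSucc (nat_lit 6))] Tr.nil) (nat_lit 1168) [(nat_lit 71, Int.ofNat (nat_lit 4)), (nat_lit 73, Int.ofNat (nat_lit 3)), (nat_lit 74, Int.ofNat (nat_lit 16))] (Tr.nd Tr.nil (nat_lit 1169) [(nat_lit 71, Int.negSucc (nat_lit 1)), (nat_lit 73, Int.ofNat (nat_lit 9)), (nat_lit 74, Int.ofNat (nat_lit 2))] Tr.nil))) (nat_lit 1170) [(nat_lit 76, Int.negSucc (nat_lit 5)), (nat_lit 77, Int.ofNat (nat_lit 18)), (nat_lit 78, Int.negSucc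 (nat_lit 15))] (Tr.nd (Tr.nd (Tr.nd Tr.nil (nat_lit 1171) [(nat_lit 75, Int.negSucc (nat_lit 2)), (nat_lit 76, Int.ofNat (nat_lit 2)), (nat_lit 77, Int.negSucc (nat_lit 18)), (nat_lit 78, Int.ofNat (nat_lit 6))] Tr.nil) (nat_lit 1172) [(nat_lit 75, Int.ofNat (nat_lit 1)), (nat_lit 76, Int.negSucc (nat_lit 15)), (nat_lit 77, Int.ofNat (nat_lit 30)), (nat_lit 78, Int.ofNat (nat_lit 18))] (Tr.nd Tr.nil (nat_lit 1173) [(nat_lit 75, Int.negSucc (nat_lit 1)), (nat_lit 76, Int.negSucc (nat_lit 5)), (nat_lit 77, Int.ofNat (nat_lit 9)), (nat_lit 78, Int.negSucc (nat_lit 0))] Tr.nil)) (nat_lit 1181) [(nat_lit 81, Int.negSucc (nat_lit 20))] (Tr.nd (Tr.nd Tr.nil (nat_lit 1182) [(nat_lit 80, Int.ofNat (nat_lit 8)), (nat_lit 81, Int.negSucc (nat_lit 31))] Tr.nil) (nat_lit 1183) [(nat_lit 80, Int.negSucc (nat_lit 5)), (nat_lit 81, Int.ofNat (nat_lit 4))] (Tr.nd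 Tr.nil (nat_lit 1184) [(nat_lit 80, Int.ofNat (nat_lit 5)), (nat_lit 81, Int.negSucc (nat_lit 10))] Tr.nil))))

/-- part of the table -/
def t58 : Tr := Tr.nd t56 (nat_lit 1104) [(nat_lit 81, Int.negSucc (nat_lit 2))] t57

/-- part of the table -/
def t59 : Tr := Tr.nd t55 (nat_lit 1038) [(nat_lit 82, Int.negSucc (nat_lit 0))] t58

/-- part of the table -/
def t60 : Tr := Tr.nd t52 (nat_lit 946) [(nat_lit 81, Int.ofNat (nat_lit 1))] t59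

/-- part of the table -/
def t61 : Tr := Tr.nd t45 (nat_lit 796) [(nat_lit 82, Int.negSucc (nat_lit 1))] t60

/-- part of the table -/
def t62 : Tr := Tr.nd t30 (nat_lit 432) [(nat_lit 73, Int.negSucc (nat_lit 2))] t61

/-- part of the table -/
def t63 : Tr := (Tr.nd (Tr.nd (Tr.nd (Tr.nd (Tr.nd Tr.nil (nat_lit 1186) [(nat_lit 80, Int.ofNat (nat_lit 4)), (nat_lit 81, Int.negSucc (nat_lit 13))] Tr.nil) (nat_lit 1187) [(nat_lit 80, Int.ofNat (nat_lit 6)), (nat_lit 81, Int.negSucc (nat_lit 16))] Tr.nil) (nat_lit 1188) [(nat_lit 80, Int.ofNat (nat_lit 2)), (nat_lit 81, Int.negSucc (nat_lit 3))] (Tr.nd Tr.nil (nat_lit 1202) [(nat_lit 82, Int.negSucc (nat_lit 2))] Tr.nil)) (nat_lit 1203) [(nat_lit 82, Int.ofNat (nat_lit 1))] (Tr.nd (Tr.nd Tr.nil (nat_lit 1204) [(nat_lit 82, Int.ofNat (nat_lit 1))] Tr.nil) (nat_lit 1206) [(nat_lit 82, Int.ofNat (nat_lit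 1))] (Tr.nd Tr.nil (nat_lit 1245) [(nat_lit 35, Int.ofNat (nat_lit 1))] Tr.nil))) (nat_lit 1247) [(nat_lit 62, Int.negSucc (nat_lit 4)), (nat_lit 63, Int.negSucc (nat_lit 0)), (nat_lit 64, Int.ofNat (nat_lit 6)), (nat_lit 65, Int.negSucc (nat_lit 2)), (nat_lit 66, Int.negSucc (nat_lit 6)), (nat_lit 67, Int.negSucc (nat_lit 4)), (nat_lit 68, Int.negSucc (nat_lit 2))] (Tr.nd (Tr.nd (Tr.nd (Tr.nd Tr.nil (nat_lit 1251) [(nat_lit 76, Int.negSucc (nat_lit 3)), (nat_lit 77, Int.ofNat (nat_lit 8)), (nat_lit 78, Int.negSucc (nat_lit 25))] Tr.nil) (nat_lit 1252) [(nat_lit 75, Int.ofNat (nat_lit 6)), (nat_lit 76, Int.ofNat (nat_lit 6)), (nat_lit 77, Int.negSucc (nat_lit 8)), (nat_lit 78, Int.negSucc (nat_lit 22))] Tr.nil) (nat_lit 1261) [(nat_lit 81, Int.ofNat (nat_lit 3))] (Tr.nd Tr.nil (nat_lit 1262) [(nat_lit 81, Int.negSucc (nat_lit 2))] Tr.nil)) (nat_lit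 1263) [(nat_lit 80, Int.ofNat (nat_lit 4)), (nat_lit 81, Int.negSucc (nat_lit 10))] (Tr.nd (Tr.nd Tr.nil (nat_lit 1328) [(nat_lit 39, Int.ofNat (nat_lit 26))] Tr.nil) (nat_lit 1329) [(nat_lit 41, Int.ofNat (nat_lit 1)), (nat_lit 42, Int.ofNat (nat_lit 2)), (nat_lit 43, Int.ofNat (nat_lit 7)), (nat_lit 44, Int.negSucc (nat_lit 2)), (nat_lit 45, Int.negSucc (nat_lit 1)), (nat_lit 46, Int.negSucc (nat_lit 2))] (Tr.nd Tr.nil (nat_lit 1331) [(nat_lit 69, Int.ofNat (nat_lit 13))] Tr.nil))))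

/-- part of the table -/
def t64 : Tr := (Tr.nd (Tr.nd (Tr.nd (Tr.nd (Tr.nd Tr.nil (nat_lit 1333) [(nat_lit 70, Int.ofNat (nat_lit 1)), (nat_lit 71, Int.negSucc (nat_lit 3)), (nat_lit 72, Int.ofNat (nat_lit 6)), (nat_lit 73, Int.ofNat (nat_lit 2)), (nat_lit 74, Int.ofNat (nat_lit 49))] Tr.nil) (nat_lit 1340) [(nat_lit 79, Int.negSucc (nat_lit 8))] Tr.nil) (nat_lit 1341) [(nat_lit 79, Int.negSucc (nat_lit 9))] (Tr.nd Tr.nil (nat_lit 1342) [(nat_lit 79, Int.negSucc (nat_lit 22))] Tr.nil)) (nat_lit 1343) [(nat_lit 80, Int.negSucc (nat_lit 1)), (nat_lit 81, Int.negSucc (nat_lit 55))] (Tr.nd (Tr.nd Tr.nil (nat_lit 1363) [(nat_lit 82, Int.negSucc (nat_lit 56))] Tr.nil) (nat_lit 1364) [(nat_lit 82, Int.ofNat (nat_lit 6))] (Tr.nd Tr.nil (nat_lit 1365) [(nat_lit 82, Int.ofNat (nat_lit 10))] Tr.nil))) (nat_lit 1366) [(nat_lit 82, Int.ofNat (nat_lit 23))]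 (Tr.nd (Tr.nd (Tr.nd (Tr.nd Tr.nil (nat_lit 1411) [(nat_lit 39, Int.ofNat (nat_lit 3))] Tr.nil) (nat_lit 1412) [(nat_lit 42, Int.ofNat (nat_lit 9)), (nat_lit 43, Int.negSucc (nat_lit 5)), (nat_lit 44, Int.negSucc (nat_lit 8)), (nat_lit 46, Int.negSucc (nat_lit 2))] Tr.nil) (nat_lit 1414) [(nat_lit 69, Int.ofNat (nat_lit 6))] (Tr.nd Tr.nil (nat_lit 1415) [(nat_lit 69, Int.ofNat (nat_lit 6))] Tr.nil)) (nat_lit 1416) [(nat_lit 71, Int.ofNat (nat_lit 6)), (nat_lit 72, Int.ofNat (nat_lit 9)), (nat_lit 74, Int.negSucc (nat_lit 20))] (Tr.nd (Tr.nd Tr.nil (nat_lit 1423) [(nat_lit 79, Int.negSucc (nat_lit 5))] Tr.nil) (nat_lit 1424) [(nat_lit 79, Int.negSucc (nat_lit 8))] (Tr.nd Tr.nil (nat_lit 1425) [(nat_lit 79, Int.negSucc (nat_lit 5))] Tr.nil))))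

/-- part of the table -/
def t65 : Tr := Tr.nd t63 (nat_lit 1332) [(nat_lit 69, Int.ofNat (nat_lit 23))] t64

/-- part of the table -/
def t66 : Tr := (Tr.nd (Tr.nd (Tr.nd (Tr.nd (Tr.nd Tr.nil (nat_lit 1446) [(nat_lit 82, Int.ofNat (nat_lit 9))] Tr.nil) (nat_lit 1447) [(nat_lit 82, Int.ofNat (nat_lit 9))] Tr.nil) (nat_lit 1448) [(nat_lit 82, Int.ofNat (nat_lit 9))] (Tr.nd Tr.nil (nat_lit 1449) [(nat_lit 82, Int.ofNat (nat_lit 6))] Tr.nil)) (nat_lit 1494) [(nat_lit 39, Int.negSucc (nat_lit 0))] (Tr.nd (Tr.nd Tr.nil (nat_lit 1495) [(nat_lit 41, Int.ofNat (nat_lit 1)), (nat_lit 42, Int.negSucc (nat_lit 6)), (nat_lit 43, Int.negSucc (nat_lit 4)), (nat_lit 44, Int.ofNat (nat_lit 6)), (nat_lit 45, Int.negSucc (nat_lit 1)), (nat_lit 46, Int.ofNat (nat_lit 8))] Tr.nil) (nat_lit 1497) [(nat_lit 69, Int.negSucc (nat_lit 1))] (Tr.nd Tr.nil (nat_lit 1498)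 [(nat_lit 69, Int.ofNat (nat_lit 2))] Tr.nil))) (nat_lit 1499) [(nat_lit 70, Int.ofNat (nat_lit 1)), (nat_lit 71, Int.ofNat (nat_lit 8)), (nat_lit 72, Int.negSucc (nat_lit 2)), (nat_lit 73, Int.ofNat (nat_lit 2)), (nat_lit 74, Int.ofNat (nat_lit 24))] (Tr.nd (Tr.nd (Tr.nd (Tr.nd Tr.nil (nat_lit 1506) [(nat_lit 79, Int.ofNat (nat_lit 6))] Tr.nil) (nat_lit 1507) [(nat_lit 79, Int.negSucc (nat_lit 0))] Tr.nil) (nat_lit 1508) [(nat_lit 79, Int.negSucc (nat_lit 1))] (Tr.nd Tr.nil (nat_lit 1509) [(nat_lit 80, Int.ofNat (nat_lit 10)), (nat_lit 81, Int.negSucc (nat_lit 45))] Tr.nil)) (nat_lit 1529) [(nat_lit 82, Int.negSucc (nat_lit 28))] (Tr.nd (Tr.nd Tr.nil (nat_lit 1530) [(nat_lit 82, Int.negSucc (nat_lit 2))] Tr.nil) (nat_lit 1531) [(nat_lit 82, Int.ofNat (nat_lit 1))] (Tr.nd Tr.nil (nat_lit 1532) [(nat_lit 82, Int.ofNat (nat_lit 2))] Tr.nil))))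

/-- part of the table -/
def t67 : Tr := (Tr.nd (Tr.nd (Tr.nd (Tr.nd (Tr.nd Tr.nil (nat_lit 1578) [(nat_lit 47, Int.ofNat (nat_lit 2)), (nat_lit 49, Int.ofNat (nat_lit 1)), (nat_lit 50, Int.ofNat (nat_lit 2)), (nat_lit 51, Int.ofNat (nat_lit 1)), (nat_lit 52, Int.negSucc (nat_lit 0)), (nat_lit 53, Int.negSucc (nat_lit 2)), (nat_lit 54, Int.ofNat (nat_lit 1)), (nat_lit 55, Int.negSucc (nat_lit 1)), (nat_lit 56, Int.ofNat (nat_lit 1)), (nat_lit 58, Int.ofNat (nat_lit 1)), (nat_lit 59, Int.negSucc (nat_lit 1)), (nat_lit 60, Int.ofNat (nat_lit 4))] Tr.nil) (nat_lit 1579) [(nat_lit 69, Int.negSucc (nat_lit 0))] Tr.nil) (nat_lit 1580) [(nat_lit 70, Int.ofNat (nat_lit 1)), (nat_lit 71, Int.ofNat (nat_lit 4)), (nat_lit 72, Int.negSucc (nat_lit 12)), (nat_lit 73, Int.negSucc (nat_lit 9)), (nat_lit 74, Int.ofNat (nat_lit 19))] (Tr.nd Tr.nil (nat_lit 1581)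 [(nat_lit 70, Int.ofNat (nat_lit 1)), (nat_lit 71, Int.ofNat (nat_lit 4)), (nat_lit 72, Int.ofNat (nat_lit 3)), (nat_lit 73, Int.ofNat (nat_lit 2)), (nat_lit 74, Int.ofNat (nat_lit 5))] Tr.nil)) (nat_lit 1582) [(nat_lit 75, Int.negSucc (nat_lit 6)), (nat_lit 76, Int.negSucc (nat_lit 16)), (nat_lit 77, Int.negSucc (nat_lit 14)), (nat_lit 78, Int.negSucc (nat_lit 15))] (Tr.nd (Tr.nd Tr.nil (nat_lit 1585) [(nat_lit 79, Int.negSucc (nat_lit 2))] Tr.nil) (nat_lit 1586) [(nat_lit 79, Int.negSucc (nat_lit 8))] (Tr.nd Tr.nil (nat_lit 1587) [(nat_lit 79, Int.ofNat (nat_lit 11))] Tr.nil))) (nat_lit 1588) [(nat_lit 79, Int.ofNat (nat_lit 14))] (Tr.nd (Tr.nd (Tr.nd Tr.nil (nat_lit 1589) [(nat_lit 80, Int.negSucc (nat_lit 16)), (nat_lit 81, Int.negSucc (nat_lit 42))] Tr.nil) (nat_lit 1590) [(nat_lit 80, Int.ofNat (nat_lit 4)), (nat_lit 81, Int.negSucc (nat_lit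 6))] (Tr.nd Tr.nil (nat_lit 1591) [(nat_lit 80, Int.ofNat (nat_lit 8)), (nat_lit 81, Int.negSucc (nat_lit 28))] Tr.nil)) (nat_lit 1604) [(nat_lit 82, Int.negSucc (nat_lit 35))] (Tr.nd (Tr.nd Tr.nil (nat_lit 1605) [(nat_lit 82, Int.ofNat (nat_lit 4))] Tr.nil) (nat_lit 1606) [(nat_lit 82, Int.negSucc (nat_lit 9))] (Tr.nd Tr.nil (nat_lit 1607) [(nat_lit 82, Int.negSucc (nat_lit 6))] Tr.nil))))

/-- part of the table -/
def t68 : Tr := Tr.nd t66 (nat_lit 1577) [(nat_lit 40, Int.ofNat (nat_lit 1)), (nat_lit 42, Int.ofNat (nat_lit 2)), (nat_lit 43, Int.negSucc (nat_lit 6)), (nat_lit 44, Int.negSucc (nat_lit 6)), (nat_lit 45, Int.negSucc (nat_lit 16)), (nat_lit 46, Int.negSucc (nat_lit 5))] t67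

/-- part of the table -/
def t69 : Tr := Tr.nd t65 (nat_lit 1426) [(nat_lit 80, Int.ofNat (nat_lit 6))] t68

/-- part of the table -/
def t70 : Tr := (Tr.nd (Tr.nd (Tr.nd (Tr.nd (Tr.nd Tr.nil (nat_lit 1609) [(nat_lit 82, Int.ofNat (nat_lit 6))] Tr.nil) (nat_lit 1610) [(nat_lit 82, Int.negSucc (nat_lit 2))] Tr.nil) (nat_lit 1611) [(nat_lit 82, Int.ofNat (nat_lit 7))] (Tr.nd Tr.nil (nat_lit 1660) [(nat_lit 40, Int.ofNat (nat_lit 1)), (nat_lit 42, Int.negSucc (nat_lit 0)), (nat_lit 43, Int.ofNat (nat_lit 8)), (nat_lit 44, Int.ofNat (nat_lit 1)), (nat_lit 45, Int.negSucc (nat_lit 1)), (nat_lit 46, Int.negSucc (nat_lit 28))] Tr.nil)) (nat_lit 1661) [(nat_lit 47, Int.ofNat (nat_lit 1)), (nat_lit 48, Int.ofNat (nat_lit 1)), (nat_lit 49, Int.ofNat (nat_lit 1)), (nat_lit 50, Int.ofNat (nat_lit 2)), (nat_lit 51, Int.ofNat (nat_lit 1)), (nat_lit 54, Int.negSucc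 (nat_lit 0)), (nat_lit 55, Int.ofNat (nat_lit 3)), (nat_lit 56, Int.ofNat (nat_lit 8)), (nat_lit 57, Int.negSucc (nat_lit 2)), (nat_lit 58, Int.ofNat (nat_lit 5)), (nat_lit 59, Int.negSucc (nat_lit 0)), (nat_lit 60, Int.negSucc (nat_lit 5))] (Tr.nd (Tr.nd Tr.nil (nat_lit 1662) [(nat_lit 69, Int.negSucc (nat_lit 7))] Tr.nil) (nat_lit 1663) [(nat_lit 70, Int.negSucc (nat_lit 0)), (nat_lit 72, Int.negSucc (nat_lit 3)), (nat_lit 73, Int.negSucc (nat_lit 15)), (nat_lit 74, Int.ofNat (nat_lit 14))] (Tr.nd Tr.nil (nat_lit 1664) [(nat_lit 70, Int.ofNat (nat_lit 1)), (nat_lit 71, Int.negSucc (nat_lit 6)), (nat_lit 72, Int.negSucc (nat_lit 3)), (nat_lit 73, Int.ofNat (nat_lit 1)), (nat_lit 74, Int.negSucc (nat_lit 9))] Tr.nil))) (nat_lit 1665) [(nat_lit 75, Int.negSucc (nat_lit 4)), (nat_lit 76, Int.negSucc (nat_lit 13)), (nat_lit 77, Int.negSucc (nat_lit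 0)), (nat_lit 78, Int.negSucc (nat_lit 18))] (Tr.nd (Tr.nd (Tr.nd (Tr.nd Tr.nil (nat_lit 1668) [(nat_lit 79, Int.negSucc (nat_lit 0))] Tr.nil) (nat_lit 1669) [(nat_lit 79, Int.ofNat (nat_lit 10))] Tr.nil) (nat_lit 1670) [(nat_lit 79, Int.negSucc (nat_lit 1))] (Tr.nd Tr.nil (nat_lit 1671) [(nat_lit 79, Int.ofNat (nat_lit 13))] Tr.nil)) (nat_lit 1672) [(nat_lit 80, Int.negSucc (nat_lit 17)), (nat_lit 81, Int.negSucc (nat_lit 13))] (Tr.nd (Tr.nd Tr.nil (nat_lit 1673) [(nat_lit 81, Int.negSucc (nat_lit 1))] Tr.nil) (nat_lit 1674) [(nat_lit 80, Int.negSucc (nat_lit 2)), (nat_lit 81, Int.ofNat (nat_lit 14))] (Tr.nd Tr.nil (nat_lit 1687) [(nat_lit 82, Int.negSucc (nat_lit 23))] Tr.nil))))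

/-- part of the table -/
def t71 : Tr := (Tr.nd (Tr.nd (Tr.nd (Tr.nd (Tr.nd Tr.nil (nat_lit 1689) [(nat_lit 82, Int.negSucc (nat_lit 3))] Tr.nil) (nat_lit 1690) [(nat_lit 82, Int.ofNat (nat_lit 3))] Tr.nil) (nat_lit 1691) [(nat_lit 82, Int.negSucc (nat_lit 12))] (Tr.nd Tr.nil (nat_lit 1692) [(nat_lit 82, Int.negSucc (nat_lit 8))] Tr.nil)) (nat_lit 1693) [(nat_lit 82, Int.ofNat (nat_lit 5))] (Tr.nd (Tr.nd Tr.nil (nat_lit 1694) [(nat_lit 82, Int.ofNat (nat_lit 18))] Tr.nil) (nat_lit 1743) [(nat_lit 42, Int.negSucc (nat_lit 5)), (nat_lit 43, Int.negSucc (nat_lit 5)), (nat_lit 44, Int.negSucc (nat_lit 2)), (nat_lit 45, Int.negSucc (nat_lit 10)), (nat_lit 46, Int.negSucc (nat_lit 9))] (Tr.nd Tr.nil (nat_lit 1744) [(nat_lit 47, Int.ofNat (nat_lit 1)), (nat_lit 48, Int.negSucc (nat_lit 0)), (nat_lit 49, Int.negSucc (nat_lit 0)), (nat_lit 51, Int.ofNat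 (nat_lit 1)), (nat_lit 53, Int.negSucc (nat_lit 0)), (nat_lit 54, Int.ofNat (nat_lit 3)), (nat_lit 55, Int.ofNat (nat_lit 2)), (nat_lit 56, Int.negSucc (nat_lit 1)), (nat_lit 57, Int.negSucc (nat_lit 0)), (nat_lit 58, Int.negSucc (nat_lit 0)), (nat_lit 59, Int.negSucc (nat_lit 5))] Tr.nil))) (nat_lit 1745) [(nat_lit 69, Int.negSucc (nat_lit 4))] (Tr.nd (Tr.nd (Tr.nd (Tr.nd Tr.nil (nat_lit 1746) [(nat_lit 70, Int.ofNat (nat_lit 2)), (nat_lit 72, Int.negSucc (nat_lit 9)), (nat_lit 73, Int.negSucc (nat_lit 3)), (nat_lit 74, Int.negSucc (nat_lit 5))] Tr.nil) (nat_lit 1747) [(nat_lit 71, Int.ofNat (nat_lit 4)), (nat_lit 72, Int.negSucc (nat_lit 0)), (nat_lit 73, Int.ofNat (nat_lit 3)), (nat_lit 74, Int.ofNat (nat_lit 15))] Tr.nil) (nat_lit 1748) [(nat_lit 75, Int.negSucc (nat_lit 2)), (nat_lit 76, Int.negSucc (nat_lit 6)), (nat_lit 77, Int.negSucc (nat_lit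 6)), (nat_lit 78, Int.negSucc (nat_lit 4))] (Tr.nd Tr.nil (nat_lit 1751) [(nat_lit 79, Int.ofNat (nat_lit 5))] Tr.nil)) (nat_lit 1752) [(nat_lit 79, Int.negSucc (nat_lit 10))] (Tr.nd (Tr.nd Tr.nil (nat_lit 1753) [(nat_lit 79, Int.ofNat (nat_lit 21))] Tr.nil) (nat_lit 1754) [(nat_lit 79, Int.ofNat (nat_lit 8))] (Tr.nd Tr.nil (nat_lit 1755) [(nat_lit 80, Int.negSucc (nat_lit 4)), (nat_lit 81, Int.negSucc (nat_lit 12))] Tr.nil))))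

/-- part of the table -/
def t72 : Tr := Tr.nd t70 (nat_lit 1688) [(nat_lit 82, Int.negSucc (nat_lit 2))] t71

/-- part of the table -/
def t73 : Tr := (Tr.nd (Tr.nd (Tr.nd (Tr.nd (Tr.nd Tr.nil (nat_lit 1757) [(nat_lit 80, Int.ofNat (nat_lit 4)), (nat_lit 81, Int.negSucc (nat_lit 18))] Tr.nil) (nat_lit 1770) [(nat_lit 82, Int.negSucc (nat_lit 17))] Tr.nil) (nat_lit 1771) [(nat_lit 82, Int.ofNat (nat_lit 5))] (Tr.nd Tr.nil (nat_lit 1772) [(nat_lit 82, Int.negSucc (nat_lit 7))] Tr.nil)) (nat_lit 1773) [(nat_lit 82, Int.negSucc (nat_lit 1))] (Tr.nd (Tr.nd Tr.nil (nat_lit 1774) [(nat_lit 82, Int.negSucc (nat_lit 7))] Tr.nil) (nat_lit 1775) [(nat_lit 82, Int.ofNat (nat_lit 6))] (Tr.nd Tr.nil (nat_lit 1776) [(nat_lit 82, Int.negSucc (nat_lit 6))] Tr.nil))) (nat_lit 1777) [(nat_lit 82, Int.negSucc (nat_lit 9))] (Tr.nd (Tr.nd (Tr.nd (Tr.nd Tr.nil (nat_lit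 1826) [(nat_lit 42, Int.ofNat (nat_lit 7)), (nat_lit 43, Int.ofNat (nat_lit 4)), (nat_lit 44, Int.ofNat (nat_lit 1)), (nat_lit 46, Int.ofNat (nat_lit 11))] Tr.nil) (nat_lit 1827) [(nat_lit 51, Int.ofNat (nat_lit 2)), (nat_lit 52, Int.negSucc (nat_lit 1)), (nat_lit 53, Int.ofNat (nat_lit 3)), (nat_lit 54, Int.ofNat (nat_lit 2)), (nat_lit 55, Int.ofNat (nat_lit 3)), (nat_lit 56, Int.ofNat (nat_lit 1)), (nat_lit 57, Int.negSucc (nat_lit 1)), (nat_lit 58, Int.ofNat (nat_lit 3)), (nat_lit 59, Int.negSucc (nat_lit 2)), (nat_lit 60, Int.ofNat (nat_lit 2))] Tr.nil) (nat_lit 1828) [(nat_lit 69, Int.ofNat (nat_lit 4))] (Tr.nd Tr.nil (nat_lit 1829) [(nat_lit 71, Int.negSucc (nat_lit 2)), (nat_lit 72, Int.ofNat (nat_lit 3)), (nat_lit 73, Int.negSucc (nat_lit 7)), (nat_lit 74, Int.ofNat (nat_lit 20))] Tr.nil)) (nat_lit 1830) [(nat_lit 71, Int.ofNat (nat_lit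 1)), (nat_lit 72, Int.ofNat (nat_lit 10)), (nat_lit 73, Int.ofNat (nat_lit 6)), (nat_lit 74, Int.negSucc (nat_lit 10))] (Tr.nd (Tr.nd Tr.nil (nat_lit 1831) [(nat_lit 75, Int.negSucc (nat_lit 1)), (nat_lit 76, Int.negSucc (nat_lit 5)), (nat_lit 77, Int.ofNat (nat_lit 10)), (nat_lit 78, Int.negSucc (nat_lit 1))] Tr.nil) (nat_lit 1834) [(nat_lit 79, Int.ofNat (nat_lit 1))] (Tr.nd Tr.nil (nat_lit 1835) [(nat_lit 79, Int.negSucc (nat_lit 13))] Tr.nil))))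

/-- part of the table -/
def t74 : Tr := (Tr.nd (Tr.nd (Tr.nd (Tr.nd (Tr.nd Tr.nil (nat_lit 1837) [(nat_lit 79, Int.negSucc (nat_lit 4))] Tr.nil) (nat_lit 1838) [(nat_lit 80, Int.negSucc (nat_lit 10)), (nat_lit 81, Int.negSucc (nat_lit 10))] Tr.nil) (nat_lit 1839) [(nat_lit 80, Int.ofNat (nat_lit 2)), (nat_lit 81, Int.negSucc (nat_lit 3))] (Tr.nd Tr.nil (nat_lit 1840) [(nat_lit 80, Int.ofNat (nat_lit 1)), (nat_lit 81, Int.ofNat (nat_lit 5))] Tr.nil)) (nat_lit 1853) [(nat_lit 82, Int.negSucc (nat_lit 2))] (Tr.nd (Tr.nd Tr.nil (nat_lit 1854) [(nat_lit 82, Int.ofNat (nat_lit 3))] Tr.nil) (nat_lit 1856) [(nat_lit 82, Int.ofNat (nat_lit 5))] (Tr.nd Tr.nil (nat_lit 1857) [(nat_lit 82, Int.ofNat (nat_lit 5))] Tr.nil))) (nat_lit 1858) [(nat_lit 82, Int.ofNat (nat_lit 11))] (Tr.nd (Tr.nd (Tr.nd Tr.nil (nat_lit 1859) [(nat_lit 82, Int.negSucc (nat_lit 0))]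 Tr.nil) (nat_lit 1860) [(nat_lit 82, Int.ofNat (nat_lit 11))] (Tr.nd Tr.nil (nat_lit 1909) [(nat_lit 40, Int.ofNat (nat_lit 1)), (nat_lit 41, Int.ofNat (nat_lit 1)), (nat_lit 43, Int.ofNat (nat_lit 1)), (nat_lit 44, Int.negSucc (nat_lit 5)), (nat_lit 45, Int.ofNat (nat_lit 7)), (nat_lit 46, Int.ofNat (nat_lit 17))] Tr.nil)) (nat_lit 1910) [(nat_lit 47, Int.ofNat (nat_lit 1)), (nat_lit 51, Int.ofNat (nat_lit 3)), (nat_lit 52, Int.negSucc (nat_lit 0)), (nat_lit 53, Int.ofNat (nat_lit 2)), (nat_lit 54, Int.ofNat (nat_lit 4)), (nat_lit 55, Int.ofNat (nat_lit 1)), (nat_lit 56, Int.ofNat (nat_lit 2)), (nat_lit 57, Int.negSucc (nat_lit 1)), (nat_lit 58, Int.ofNat (nat_lit 4)), (nat_lit 60, Int.ofNat (nat_lit 6))] (Tr.nd (Tr.nd Tr.nil (nat_lit 1911) [(nat_lit 69, Int.ofNat (nat_lit 6))] Tr.nil) (nat_lit 1912) [(nat_lit 70, Int.ofNat (nat_lit 1)), (nat_lit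 71, Int.ofNat (nat_lit 1)), (nat_lit 72, Int.ofNat (nat_lit 12)), (nat_lit 73, Int.negSucc (nat_lit 23)), (nat_lit 74, Int.ofNat (nat_lit 11))] (Tr.nd Tr.nil (nat_lit 1913) [(nat_lit 70, Int.ofNat (nat_lit 1)), (nat_lit 71, Int.ofNat (nat_lit 3)), (nat_lit 72, Int.ofNat (nat_lit 4)), (nat_lit 73, Int.ofNat (nat_lit 12)), (nat_lit 74, Int.ofNat (nat_lit 13))] Tr.nil))))

/-- part of the table -/
def t75 : Tr := Tr.nd t73 (nat_lit 1836) [(nat_lit 79, Int.negSucc (nat_lit 9))] t74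

/-- part of the table -/
def t76 : Tr := Tr.nd t72 (nat_lit 1756) [(nat_lit 80, Int.ofNat (nat_lit 2)), (nat_lit 81, Int.negSucc (nat_lit 3))] t75

/-- part of the table -/
def t77 : Tr := Tr.nd t69 (nat_lit 1608) [(nat_lit 82, Int.negSucc (nat_lit 13))] t76

/-- part of the table -/
def t78 : Tr := (Tr.nd (Tr.nd (Tr.nd (Tr.nd (Tr.nd Tr.nil (nat_lit 1917) [(nat_lit 79, Int.negSucc (nat_lit 5))] Tr.nil) (nat_lit 1918) [(nat_lit 79, Int.negSucc (nat_lit 5))] Tr.nil) (nat_lit 1919) [(nat_lit 79, Int.negSucc (nat_lit 3))] (Tr.nd Tr.nil (nat_lit 1920) [(nat_lit 79, Int.negSucc (nat_lit 3))] Tr.nil)) (nat_lit 1921) [(nat_lit 80, Int.negSucc (nat_lit 5)), (nat_lit 81, Int.negSucc (nat_lit 37))] (Tr.nd (Tr.nd Tr.nil (nat_lit 1922) [(nat_lit 80, Int.ofNat (nat_lit 3)), (nat_lit 81, Int.negSucc (nat_lit 23))] Tr.nil) (nat_lit 1923) [(nat_lit 80, Int.ofNat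 (nat_lit 5)), (nat_lit 81, Int.negSucc (nat_lit 21))] (Tr.nd Tr.nil (nat_lit 1936) [(nat_lit 82, Int.negSucc (nat_lit 11))] Tr.nil))) (nat_lit 1937) [(nat_lit 82, Int.negSucc (nat_lit 15))] (Tr.nd (Tr.nd (Tr.nd (Tr.nd Tr.nil (nat_lit 1938) [(nat_lit 82, Int.ofNat (nat_lit 4))] Tr.nil) (nat_lit 1939) [(nat_lit 82, Int.negSucc (nat_lit 19))] Tr.nil) (nat_lit 1940) [(nat_lit 82, Int.ofNat (nat_lit 4))] (Tr.nd Tr.nil (nat_lit 1941) [(nat_lit 82, Int.ofNat (nat_lit 4))] Tr.nil)) (nat_lit 1943) [(nat_lit 82, Int.ofNat (nat_lit 10))] (Tr.nd (Tr.nd Tr.nil (nat_lit 1992) [(nat_lit 40, Int.negSucc (nat_lit 0)), (nat_lit 41, Int.negSucc (nat_lit 0)), (nat_lit 42, Int.negSucc (nat_lit 4)), (nat_lit 43, Int.ofNat (nat_lit 2)), (nat_lit 45, Int.negSucc (nat_lit 3)), (nat_lit 46, Int.ofNat (nat_lit 10))] Tr.nil) (nat_lit 1993) [(nat_lit 47, Int.negSucc (nat_lit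 0)), (nat_lit 49, Int.negSucc (nat_lit 1)), (nat_lit 51, Int.ofNat (nat_lit 1)), (nat_lit 53, Int.negSucc (nat_lit 2)), (nat_lit 55, Int.ofNat (nat_lit 1)), (nat_lit 56, Int.negSucc (nat_lit 2)), (nat_lit 57, Int.negSucc (nat_lit 0)), (nat_lit 59, Int.ofNat (nat_lit 1)), (nat_lit 60, Int.negSucc (nat_lit 0))] (Tr.nd Tr.nil (nat_lit 1994) [(nat_lit 69, Int.negSucc (nat_lit 2))] Tr.nil))))

/-- part of the table -/
def t79 : Tr := (Tr.nd (Tr.nd (Tr.nd (Tr.nd (Tr.nd Tr.nil (nat_lit 1996) [(nat_lit 70, Int.negSucc (nat_lit 0)), (nat_lit 71, Int.negSucc (nat_lit 3)), (nat_lit 72, Int.negSucc (nat_lit 3)), (nat_lit 73, Int.negSucc (nat_lit 10)), (nat_lit 74, Int.ofNat (nat_lit 6))] Tr.nil) (nat_lit 1997) [(nat_lit 75, Int.ofNat (nat_lit 2)), (nat_lit 76, Int.ofNat (nat_lit 10)), (nat_lit 77, Int.negSucc (nat_lit 3)), (nat_lit 78, Int.ofNat (nat_lit 1))]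 Tr.nil) (nat_lit 2000) [(nat_lit 79, Int.ofNat (nat_lit 3))] (Tr.nd Tr.nil (nat_lit 2001) [(nat_lit 79, Int.ofNat (nat_lit 1))] Tr.nil)) (nat_lit 2002) [(nat_lit 79, Int.ofNat (nat_lit 2))] (Tr.nd (Tr.nd Tr.nil (nat_lit 2003) [(nat_lit 79, Int.ofNat (nat_lit 2))] Tr.nil) (nat_lit 2004) [(nat_lit 80, Int.ofNat (nat_lit 8)), (nat_lit 81, Int.ofNat (nat_lit 6))] (Tr.nd Tr.nil (nat_lit 2005) [(nat_lit 80, Int.negSucc (nat_lit 3)), (nat_lit 81, Int.ofNat (nat_lit 7))] Tr.nil))) (nat_lit 2006) [(nat_lit 80, Int.negSucc (nat_lit 5)), (nat_lit 81, Int.ofNat (nat_lit 6))] (Tr.nd (Tr.nd (Tr.nd (Tr.nd Tr.nil (nat_lit 2019) [(nat_lit 82, Int.ofNat (nat_lit 15))] Tr.nil) (nat_lit 2020) [(nat_lit 82, Int.ofNat (nat_lit 2))] Tr.nil) (nat_lit 2021) [(nat_lit 82, Int.negSucc (nat_lit 1))] (Tr.nd Tr.nil (nat_lit 2022) [(nat_lit 82, Int.ofNat (nat_lit 6))] Tr.nil))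 (nat_lit 2023) [(nat_lit 82, Int.negSucc (nat_lit 1))] (Tr.nd (Tr.nd Tr.nil (nat_lit 2024) [(nat_lit 82, Int.negSucc (nat_lit 3))] Tr.nil) (nat_lit 2026) [(nat_lit 82, Int.negSucc (nat_lit 8))] (Tr.nd Tr.nil (nat_lit 2075) [(nat_lit 41, Int.ofNat (nat_lit 1)), (nat_lit 42, Int.negSucc (nat_lit 2)), (nat_lit 43, Int.ofNat (nat_lit 4)), (nat_lit 45, Int.ofNat (nat_lit 4)), (nat_lit 46, Int.negSucc (nat_lit 6))] Tr.nil))))

/-- part of the table -/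
def t80 : Tr := Tr.nd t78 (nat_lit 1995) [(nat_lit 70, Int.negSucc (nat_lit 0)), (nat_lit 71, Int.negSucc (nat_lit 3)), (nat_lit 72, Int.negSucc (nat_lit 13)), (nat_lit 73, Int.ofNat (nat_lit 8)), (nat_lit 74, Int.ofNat (nat_lit 24))] t79

/-- part of the table -/
def t81 : Tr := (Tr.nd (Tr.nd (Tr.nd (Tr.nd (Tr.nd Tr.nil (nat_lit 2077) [(nat_lit 69, Int.ofNat (nat_lit 3))] Tr.nil) (nat_lit 2078) [(nat_lit 70, Int.negSucc (nat_lit 0)), (nat_lit 71, Int.ofNat (nat_lit 1)), (nat_lit 72, Int.ofNat (nat_lit 11)), (nat_lit 73, Int.negSucc (nat_lit 17)), (nat_lit 74, Int.ofNat (nat_lit 16))] Tr.nil) (nat_lit 2079) [(nat_lit 70, Int.ofNat (nat_lit 1)), (nat_lit 71, Int.ofNat (nat_lit 1)), (nat_lit 72, Int.ofNat (nat_lit 4)), (nat_lit 73, Int.ofNat (nat_lit 12)), (nat_lit 74, Int.ofNat (nat_lit 13))] (Tr.nd Tr.nil (nat_lit 2080) [(nat_lit 75, Int.negSucc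 (nat_lit 7)), (nat_lit 76, Int.negSucc (nat_lit 7)), (nat_lit 77, Int.ofNat (nat_lit 2)), (nat_lit 78, Int.negSucc (nat_lit 5))] Tr.nil)) (nat_lit 2083) [(nat_lit 79, Int.negSucc (nat_lit 2))] (Tr.nd (Tr.nd Tr.nil (nat_lit 2084) [(nat_lit 79, Int.negSucc (nat_lit 6))] Tr.nil) (nat_lit 2085) [(nat_lit 79, Int.negSucc (nat_lit 3))] (Tr.nd Tr.nil (nat_lit 2086) [(nat_lit 79, Int.negSucc (nat_lit 3))] Tr.nil))) (nat_lit 2087) [(nat_lit 80, Int.negSucc (nat_lit 9)), (nat_lit 81, Int.negSucc (nat_lit 13))] (Tr.nd (Tr.nd (Tr.nd (Tr.nd Tr.nil (nat_lit 2088) [(nat_lit 80, Int.ofNat (nat_lit 1)), (nat_lit 81, Int.negSucc (nat_lit 19))] Tr.nil) (nat_lit 2089) [(nat_lit 80, Int.ofNat (nat_lit 3)), (nat_lit 81, Int.negSucc (nat_lit 17))] Tr.nil) (nat_lit 2102) [(nat_lit 82, Int.negSucc (nat_lit 14))] (Tr.nd Tr.nil (nat_lit 2103) [(nat_lit 82, Int.negSucc (nat_lit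 14))] Tr.nil)) (nat_lit 2104) [(nat_lit 82, Int.ofNat (nat_lit 4))] (Tr.nd (Tr.nd Tr.nil (nat_lit 2105) [(nat_lit 82, Int.negSucc (nat_lit 18))] Tr.nil) (nat_lit 2106) [(nat_lit 82, Int.ofNat (nat_lit 4))] (Tr.nd Tr.nil (nat_lit 2107) [(nat_lit 82, Int.ofNat (nat_lit 4))] Tr.nil))))

/-- part of the table -/
def t82 : Tr := (Tr.nd (Tr.nd (Tr.nd (Tr.nd (Tr.nd Tr.nil (nat_lit 2158) [(nat_lit 42, Int.negSucc (nat_lit 2)), (nat_lit 43, Int.negSucc (nat_lit 0)), (nat_lit 44, Int.ofNat (nat_lit 6)), (nat_lit 45, Int.negSucc (nat_lit 2)), (nat_lit 46, Int.negSucc (nat_lit 14))] Tr.nil) (nat_lit 2159) [(nat_lit 52, Int.negSucc (nat_lit 2)), (nat_lit 53, Int.negSucc (nat_lit 1)), (nat_lit 55, Int.ofNat (nat_lit 1)), (nat_lit 57, Int.ofNat (nat_lit 3)), (nat_lit 58, Int.ofNat (nat_lit 4)), (nat_lit 59, Int.ofNat (nat_lit 1)), (nat_lit 60, Int.negSucc (nat_lit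 4))] Tr.nil) (nat_lit 2160) [(nat_lit 69, Int.negSucc (nat_lit 2))] (Tr.nd Tr.nil (nat_lit 2161) [(nat_lit 71, Int.ofNat (nat_lit 1)), (nat_lit 72, Int.negSucc (nat_lit 5)), (nat_lit 74, Int.negSucc (nat_lit 8))] Tr.nil)) (nat_lit 2162) [(nat_lit 71, Int.ofNat (nat_lit 3)), (nat_lit 73, Int.negSucc (nat_lit 0)), (nat_lit 74, Int.negSucc (nat_lit 18))] (Tr.nd (Tr.nd Tr.nil (nat_lit 2163) [(nat_lit 76, Int.negSucc (nat_lit 5)), (nat_lit 77, Int.ofNat (nat_lit 10)), (nat_lit 78, Int.negSucc (nat_lit 0))] Tr.nil) (nat_lit 2166) [(nat_lit 79, Int.ofNat (nat_lit 3))] (Tr.nd Tr.nil (nat_lit 2167) [(nat_lit 79, Int.negSucc (nat_lit 2))] Tr.nil))) (nat_lit 2168) [(nat_lit 79, Int.ofNat (nat_lit 2))] (Tr.nd (Tr.nd (Tr.nd Tr.nil (nat_lit 2169) [(nat_lit 79, Int.ofNat (nat_lit 2))] Tr.nil) (nat_lit 2170) [(nat_lit 80, Int.negSucc (nat_lit 7)), (nat_lit 81,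 Int.ofNat (nat_lit 10))] (Tr.nd Tr.nil (nat_lit 2171) [(nat_lit 80, Int.ofNat (nat_lit 3)), (nat_lit 81, Int.ofNat (nat_lit 13))] Tr.nil)) (nat_lit 2172) [(nat_lit 80, Int.ofNat (nat_lit 3)), (nat_lit 81, Int.ofNat (nat_lit 12))] (Tr.nd (Tr.nd Tr.nil (nat_lit 2185) [(nat_lit 82, Int.negSucc (nat_lit 2))] Tr.nil) (nat_lit 2186) [(nat_lit 82, Int.ofNat (nat_lit 22))] (Tr.nd Tr.nil (nat_lit 2187) [(nat_lit 82, Int.negSucc (nat_lit 1))] Tr.nil))))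

/-- part of the table -/
def t83 : Tr := Tr.nd t81 (nat_lit 2109) [(nat_lit 82, Int.ofNat (nat_lit 10))] t82

/-- part of the table -/
def t84 : Tr := Tr.nd t80 (nat_lit 2076) [(nat_lit 47, Int.ofNat (nat_lit 1)), (nat_lit 48, Int.ofNat (nat_lit 2)), (nat_lit 49, Int.ofNat (nat_lit 1)), (nat_lit 51, Int.ofNat (nat_lit 3)), (nat_lit 53, Int.ofNat (nat_lit 1)), (nat_lit 54, Int.ofNat (nat_lit 2)), (nat_lit 55, Int.ofNat (nat_lit 1)), (nat_lit 56, Int.ofNat (nat_lit 2)), (nat_lit 57, Int.negSucc (nat_lit 0)), (nat_lit 58, Int.ofNat (nat_lit 5)), (nat_lit 59, Int.negSucc (nat_lit 1))] t83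

/-- part of the table -/
def t85 : Tr := (Tr.nd (Tr.nd (Tr.nd (Tr.nd (Tr.nd Tr.nil (nat_lit 2189) [(nat_lit 82, Int.negSucc (nat_lit 1))] Tr.nil) (nat_lit 2192) [(nat_lit 82, Int.negSucc (nat_lit 0))] Tr.nil) (nat_lit 2241) [(nat_lit 48, Int.negSucc (nat_lit 1)), (nat_lit 49, Int.ofNat (nat_lit 1)), (nat_lit 55, Int.ofNat (nat_lit 2)), (nat_lit 56, Int.ofNat (nat_lit 1)), (nat_lit 57, Int.ofNat (nat_lit 2)), (nat_lit 58, Int.negSucc (nat_lit 0)), (nat_lit 59, Int.ofNat (nat_lit 3)), (nat_lit 60, Int.negSucc (nat_lit 2))] (Tr.nd Tr.nil (nat_lit 2242) [(nat_lit 61, Int.ofNat (nat_lit 1)), (nat_lit 62, Int.negSucc (nat_lit 1)), (nat_lit 63, Int.negSucc (nat_lit 0)), (nat_lit 65, Int.negSucc (nat_lit 3)), (nat_lit 66, Int.ofNat (nat_lit 6)), (nat_lit 67, Int.ofNat (nat_lit 1)), (nat_lit 68, Int.ofNat (nat_lit 6))] Tr.nil)) (nat_lit 2243) [(nat_lit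 70, Int.ofNat (nat_lit 2)), (nat_lit 71, Int.negSucc (nat_lit 3)), (nat_lit 73, Int.ofNat (nat_lit 1)), (nat_lit 74, Int.negSucc (nat_lit 9))] (Tr.nd (Tr.nd Tr.nil (nat_lit 2244) [(nat_lit 75, Int.ofNat (nat_lit 4)), (nat_lit 76, Int.negSucc (nat_lit 5)), (nat_lit 77, Int.ofNat (nat_lit 12)), (nat_lit 78, Int.negSucc (nat_lit 8))] Tr.nil) (nat_lit 2245) [(nat_lit 75, Int.ofNat (nat_lit 2)), (nat_lit 76, Int.ofNat (nat_lit 4)), (nat_lit 77, Int.negSucc (nat_lit 7)), (nat_lit 78, Int.negSucc (nat_lit 9))] (Tr.nd Tr.nil (nat_lit 2248) [(nat_lit 79, Int.ofNat (nat_lit 3))] Tr.nil))) (nat_lit 2249) [(nat_lit 81, Int.negSucc (nat_lit 1))] (Tr.nd (Tr.nd (Tr.nd (Tr.nd Tr.nil (nat_lit 2250) [(nat_lit 80, Int.ofNat (nat_lit 1)), (nat_lit 81, Int.negSucc (nat_lit 29))] Tr.nil) (nat_lit 2251) [(nat_lit 80, Int.ofNat (nat_lit 3)), (nat_lit 81, Int.ofNat (nat_lit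 7))] Tr.nil) (nat_lit 2260) [(nat_lit 82, Int.negSucc (nat_lit 12))] (Tr.nd Tr.nil (nat_lit 2261) [(nat_lit 82, Int.negSucc (nat_lit 4))] Tr.nil)) (nat_lit 2262) [(nat_lit 82, Int.negSucc (nat_lit 2))] (Tr.nd (Tr.nd Tr.nil (nat_lit 2263) [(nat_lit 82, Int.ofNat (nat_lit 1))] Tr.nil) (nat_lit 2264) [(nat_lit 82, Int.negSucc (nat_lit 1))] (Tr.nd Tr.nil (nat_lit 2265) [(nat_lit 82, Int.ofNat (nat_lit 1))] Tr.nil))))

/-- part of the table -/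
def t86 : Tr := (Tr.nd (Tr.nd (Tr.nd (Tr.nd (Tr.nd Tr.nil (nat_lit 2267) [(nat_lit 82, Int.ofNat (nat_lit 1))] Tr.nil) (nat_lit 2324) [(nat_lit 47, Int.ofNat (nat_lit 1)), (nat_lit 48, Int.negSucc (nat_lit 0)), (nat_lit 49, Int.negSucc (nat_lit 0)), (nat_lit 50, Int.ofNat (nat_lit 1)), (nat_lit 51, Int.ofNat (nat_lit 1)), (nat_lit 53, Int.negSucc (nat_lit 0)), (nat_lit 54, Int.negSucc (nat_lit 3)), (nat_lit 55, Int.negSucc (nat_lit 1)), (nat_lit 56, Int.ofNat (nat_lit 4)), (nat_lit 57, Int.negSucc (nat_lit 0)), (nat_lit 58, Int.negSucc (nat_lit 1)), (nat_lit 59, Int.ofNat (nat_lit 2)), (nat_lit 60, Int.negSucc (nat_lit 10))] Tr.nil) (nat_lit 2325) [(nat_lit 64, Int.negSucc (nat_lit 1))] (Tr.nd Tr.nil (nat_lit 2326) [(nat_lit 71, Int.ofNat (nat_lit 3)), (nat_lit 73, Int.negSucc (nat_lit 4)), (nat_lit 74, Int.negSucc (nat_lit 18))] Tr.nil)) (nat_lit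 2327) [(nat_lit 75, Int.negSucc (nat_lit 0)), (nat_lit 76, Int.negSucc (nat_lit 5)), (nat_lit 77, Int.negSucc (nat_lit 14)), (nat_lit 78, Int.negSucc (nat_lit 6))] (Tr.nd (Tr.nd Tr.nil (nat_lit 2328) [(nat_lit 75, Int.negSucc (nat_lit 1)), (nat_lit 76, Int.ofNat (nat_lit 2)), (nat_lit 77, Int.negSucc (nat_lit 3)), (nat_lit 78, Int.negSucc (nat_lit 11))] Tr.nil) (nat_lit 2330) [(nat_lit 79, Int.ofNat (nat_lit 8))] (Tr.nd Tr.nil (nat_lit 2331) [(nat_lit 79, Int.negSucc (nat_lit 0))] Tr.nil))) (nat_lit 2332) [(nat_lit 80, Int.ofNat (nat_lit 3)), (nat_lit 81, Int.ofNat (nat_lit 13))] (Tr.nd (Tr.nd (Tr.nd (Tr.nd Tr.nil (nat_lit 2333) [(nat_lit 81, Int.negSucc (nat_lit 6))] Tr.nil) (nat_lit 2334) [(nat_lit 80, Int.ofNat (nat_lit 2)), (nat_lit 81, Int.negSucc (nat_lit 0))] Tr.nil) (nat_lit 2343) [(nat_lit 82, Int.negSucc (nat_lit 2))] (Tr.nd Tr.nil (nat_lit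 2344) [(nat_lit 82, Int.ofNat (nat_lit 1))] Tr.nil)) (nat_lit 2345) [(nat_lit 82, Int.negSucc (nat_lit 4))] (Tr.nd (Tr.nd Tr.nil (nat_lit 2346) [(nat_lit 82, Int.negSucc (nat_lit 2))] Tr.nil) (nat_lit 2347) [(nat_lit 82, Int.negSucc (nat_lit 1))] (Tr.nd Tr.nil (nat_lit 2348) [(nat_lit 82, Int.negSucc (nat_lit 2))] Tr.nil))))

/-- part of the table -/
def t87 : Tr := Tr.nd t85 (nat_lit 2266) [(nat_lit 82, Int.ofNat (nat_lit 1))] t86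

/-- part of the table -/
def t88 : Tr := (Tr.nd (Tr.nd (Tr.nd (Tr.nd (Tr.nd Tr.nil (nat_lit 2350) [(nat_lit 82, Int.negSucc (nat_lit 2))] Tr.nil) (nat_lit 2407) [(nat_lit 49, Int.ofNat (nat_lit 2)), (nat_lit 51, Int.ofNat (nat_lit 2)), (nat_lit 52, Int.ofNat (nat_lit 2)), (nat_lit 53, Int.negSucc (nat_lit 3)), (nat_lit 55, Int.ofNat (nat_lit 1)), (nat_lit 56, Int.negSucc (nat_lit 1)), (nat_lit 57, Int.ofNat (nat_lit 2)), (nat_lit 58, Int.negSucc (nat_lit 1)), (nat_lit 59, Int.ofNat (nat_lit 4)), (nat_lit 60, Int.ofNat (nat_lit 8))] Tr.nil) (nat_lit 2408) [(nat_lit 61, Int.ofNat (nat_lit 1)), (nat_lit 62, Int.negSucc (nat_lit 2)), (nat_lit 63, Int.negSucc (nat_lit 1)), (nat_lit 65, Int.negSucc (nat_lit 5)), (nat_lit 66, Int.ofNat (nat_lit 4)), (nat_lit 68, Int.ofNat (nat_lit 4))] (Tr.nd Tr.nil (nat_lit 2409) [(nat_lit 73, Int.negSucc (nat_lit 1))]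 Tr.nil)) (nat_lit 2410) [(nat_lit 75, Int.ofNat (nat_lit 6)), (nat_lit 77, Int.ofNat (nat_lit 2)), (nat_lit 78, Int.negSucc (nat_lit 7))] (Tr.nd (Tr.nd Tr.nil (nat_lit 2411) [(nat_lit 75, Int.negSucc (nat_lit 1)), (nat_lit 76, Int.ofNat (nat_lit 4)), (nat_lit 77, Int.negSucc (nat_lit 7)), (nat_lit 78, Int.negSucc (nat_lit 7))] Tr.nil) (nat_lit 2415) [(nat_lit 81, Int.negSucc (nat_lit 1))] (Tr.nd Tr.nil (nat_lit 2416) [(nat_lit 80, Int.ofNat (nat_lit 4)), (nat_lit 81, Int.negSucc (nat_lit 15))] Tr.nil))) (nat_lit 2417) [(nat_lit 81, Int.ofNat (nat_lit 6))] (Tr.nd (Tr.nd (Tr.nd (Tr.nd Tr.nil (nat_lit 2490) [(nat_lit 48, Int.negSucc (nat_lit 0)), (nat_lit 51, Int.ofNat (nat_lit 6)), (nat_lit 52, Int.negSucc (nat_lit 6)), (nat_lit 53, Int.ofNat (nat_lit 5)), (nat_lit 54, Int.negSucc (nat_lit 5)), (nat_lit 55, Int.negSucc (nat_lit 10)), (nat_lit 56,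 Int.negSucc (nat_lit 0)), (nat_lit 57, Int.negSucc (nat_lit 3)), (nat_lit 58, Int.ofNat (nat_lit 3)), (nat_lit 59, Int.ofNat (nat_lit 1)), (nat_lit 60, Int.ofNat (nat_lit 10))] Tr.nil) (nat_lit 2491) [(nat_lit 61, Int.ofNat (nat_lit 3)), (nat_lit 62, Int.ofNat (nat_lit 2)), (nat_lit 63, Int.negSucc (nat_lit 0)), (nat_lit 64, Int.ofNat (nat_lit 2)), (nat_lit 65, Int.negSucc (nat_lit 2)), (nat_lit 66, Int.negSucc (nat_lit 8)), (nat_lit 67, Int.negSucc (nat_lit 5)), (nat_lit 68, Int.ofNat (nat_lit 3))] Tr.nil) (nat_lit 2492) [(nat_lit 71, Int.ofNat (nat_lit 9)), (nat_lit 72, Int.negSucc (nat_lit 7)), (nat_lit 73, Int.negSucc (nat_lit 0)), (nat_lit 74, Int.negSucc (nat_lit 0))] (Tr.nd Tr.nil (nat_lit 2493) [(nat_lit 75, Int.negSucc (nat_lit 0)), (nat_lit 76, Int.negSucc (nat_lit 15)), (nat_lit 77, Int.negSucc (nat_lit 28)), (nat_lit 78, Int.negSucc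 (nat_lit 0))] Tr.nil)) (nat_lit 2494) [(nat_lit 75, Int.negSucc (nat_lit 1)), (nat_lit 76, Int.negSucc (nat_lit 7)), (nat_lit 77, Int.ofNat (nat_lit 1)), (nat_lit 78, Int.negSucc (nat_lit 11))] (Tr.nd (Tr.nd Tr.nil (nat_lit 2496) [(nat_lit 79, Int.ofNat (nat_lit 13))] Tr.nil) (nat_lit 2497) [(nat_lit 79, Int.ofNat (nat_lit 1))] (Tr.nd Tr.nil (nat_lit 2498) [(nat_lit 80, Int.negSucc (nat_lit 2)), (nat_lit 81, Int.negSucc (nat_lit 1))] Tr.nil))))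

/-- part of the table -/
def t89 : Tr := (Tr.nd (Tr.nd (Tr.nd (Tr.nd (Tr.nd Tr.nil (nat_lit 2500) [(nat_lit 80, Int.ofNat (nat_lit 12)), (nat_lit 81, Int.negSucc (nat_lit 16))] Tr.nil) (nat_lit 2501) [(nat_lit 80, Int.ofNat (nat_lit 6)), (nat_lit 81, Int.negSucc (nat_lit 17))] Tr.nil) (nat_lit 2509) [(nat_lit 82, Int.negSucc (nat_lit 33))] (Tr.nd Tr.nil (nat_lit 2510) [(nat_lit 82, Int.negSucc (nat_lit 15))] Tr.nil)) (nat_lit 2511) [(nat_lit 82, Int.negSucc (nat_lit 10))] (Tr.nd (Tr.nd Tr.nil (nat_lit 2512) [(nat_lit 82, Int.negSucc (nat_lit 28))] Tr.nil) (nat_lit 2513) [(nat_lit 82, Int.negSucc (nat_lit 27))] (Tr.nd Tr.nil (nat_lit 2514) [(nat_lit 82, Int.negSucc (nat_lit 5))] Tr.nil))) (nat_lit 2515) [(nat_lit 82, Int.negSucc (nat_lit 12))] (Tr.nd (Tr.nd (Tr.nd Tr.nil (nat_lit 2516) [(nat_lit 82, Int.negSucc (nat_lit 7))] Tr.nil) (nat_lit 2573)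 [(nat_lit 47, Int.negSucc (nat_lit 0)), (nat_lit 48, Int.negSucc (nat_lit 0)), (nat_lit 49, Int.ofNat (nat_lit 1)), (nat_lit 50, Int.negSucc (nat_lit 1)), (nat_lit 51, Int.ofNat (nat_lit 5)), (nat_lit 52, Int.negSucc (nat_lit 3)), (nat_lit 53, Int.negSucc (nat_lit 1)), (nat_lit 54, Int.ofNat (nat_lit 4)), (nat_lit 55, Int.negSucc (nat_lit 0)), (nat_lit 56, Int.negSucc (nat_lit 0)), (nat_lit 57, Int.negSucc (nat_lit 3)), (nat_lit 58, Int.ofNat (nat_lit 2)), (nat_lit 59, Int.negSucc (nat_lit 5)), (nat_lit 60, Int.negSucc (nat_lit 0))] (Tr.nd Tr.nil (nat_lit 2574) [(nat_lit 61, Int.ofNat (nat_lit 4)), (nat_lit 62, Int.negSucc (nat_lit 0)), (nat_lit 63, Int.negSucc (nat_lit 2)), (nat_lit 64, Int.negSucc (nat_lit 6)), (nat_lit 65, Int.ofNat (nat_lit 11)), (nat_lit 66, Int.ofNat (nat_lit 5)), (nat_lit 67, Int.negSucc (nat_lit 1)), (nat_lit 68, Int.ofNat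 (nat_lit 7))] Tr.nil)) (nat_lit 2575) [(nat_lit 71, Int.ofNat (nat_lit 2)), (nat_lit 72, Int.negSucc (nat_lit 14)), (nat_lit 73, Int.negSucc (nat_lit 1)), (nat_lit 74, Int.ofNat (nat_lit 29))] (Tr.nd (Tr.nd Tr.nil (nat_lit 2576) [(nat_lit 75, Int.ofNat (nat_lit 8)), (nat_lit 76, Int.negSucc (nat_lit 5)), (nat_lit 77, Int.negSucc (nat_lit 11)), (nat_lit 78, Int.negSucc (nat_lit 11))] Tr.nil) (nat_lit 2577) [(nat_lit 75, Int.negSucc (nat_lit 0)), (nat_lit 76, Int.negSucc (nat_lit 2)), (nat_lit 77, Int.negSucc (nat_lit 13)), (nat_lit 78, Int.negSucc (nat_lit 5))] (Tr.nd Tr.nil (nat_lit 2579) [(nat_lit 79, Int.ofNat (nat_lit 8))] Tr.nil))))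

/-- part of the table -/
def t90 : Tr := Tr.nd t88 (nat_lit 2499) [(nat_lit 80, Int.negSucc (nat_lit 9)), (nat_lit 81, Int.negSucc (nat_lit 11))] t89

/-- part of the table -/
def t91 : Tr := Tr.nd t87 (nat_lit 2349) [(nat_lit 82, Int.negSucc (nat_lit 2))] t90

/-- part of the table -/
def t92 : Tr := Tr.nd t84 (nat_lit 2188) [(nat_lit 82, Int.ofNat (nat_lit 22))] t91

/-- part of the table -/
def t93 : Tr := Tr.nd t77 (nat_lit 1914) [(nat_lit 75, Int.negSucc (nat_lit 5)), (nat_lit 76, Int.negSucc (nat_lit 5)), (nat_lit 77, Int.negSucc (nat_lit 1)), (nat_lit 78, Int.negSucc (nat_lit 15))] t92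

/-- part of the table -/
def t94 : Tr := (Tr.nd (Tr.nd (Tr.nd (Tr.nd (Tr.nd Tr.nil (nat_lit 2581) [(nat_lit 80, Int.negSucc (nat_lit 5)), (nat_lit 81, Int.negSucc (nat_lit 22))] Tr.nil) (nat_lit 2582) [(nat_lit 80, Int.negSucc (nat_lit 4)), (nat_lit 81, Int.negSucc (nat_lit 22))] Tr.nil) (nat_lit 2583) [(nat_lit 80, Int.ofNat (nat_lit 4)), (nat_lit 81, Int.negSucc (nat_lit 10))] (Tr.nd Tr.nil (nat_lit 2584) [(nat_lit 80, Int.ofNat (nat_lit 2)), (nat_lit 81, Int.negSucc (nat_lit 17))] Tr.nil)) (nat_lit 2592) [(nat_lit 82, Int.negSucc (nat_lit 27))] (Tr.nd (Tr.nd Tr.nil (nat_lit 2593) [(nat_lit 82, Int.negSucc (nat_lit 4))] Tr.nil) (nat_lit 2594) [(nat_lit 82, Int.negSucc (nat_lit 13))] (Tr.nd Tr.nil (nat_lit 2595) [(nat_lit 82, Int.negSucc (nat_lit 20))] Tr.nil))) (nat_lit 2596) [(nat_lit 82, Int.negSucc (nat_lit 39))] (Tr.nd (Tr.nd (Tr.nd (Tr.nd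 Tr.nil (nat_lit 2597) [(nat_lit 82, Int.ofNat (nat_lit 14))] Tr.nil) (nat_lit 2598) [(nat_lit 82, Int.negSucc (nat_lit 7))] Tr.nil) (nat_lit 2656) [(nat_lit 49, Int.ofNat (nat_lit 1)), (nat_lit 50, Int.negSucc (nat_lit 2)), (nat_lit 51, Int.ofNat (nat_lit 1)), (nat_lit 53, Int.ofNat (nat_lit 2)), (nat_lit 54, Int.negSucc (nat_lit 2)), (nat_lit 55, Int.ofNat (nat_lit 1)), (nat_lit 56, Int.negSucc (nat_lit 3)), (nat_lit 57, Int.negSucc (nat_lit 7)), (nat_lit 58, Int.ofNat (nat_lit 4)), (nat_lit 59, Int.negSucc (nat_lit 1)), (nat_lit 60, Int.ofNat (nat_lit 3))] (Tr.nd Tr.nil (nat_lit 2657) [(nat_lit 61, Int.ofNat (nat_lit 3)), (nat_lit 62, Int.ofNat (nat_lit 2)), (nat_lit 63, Int.negSucc (nat_lit 0)), (nat_lit 65, Int.negSucc (nat_lit 2)), (nat_lit 66, Int.negSucc (nat_lit 4)), (nat_lit 67, Int.negSucc (nat_lit 5)), (nat_lit 68, Int.ofNat (nat_lit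 7))] Tr.nil)) (nat_lit 2658) [(nat_lit 72, Int.negSucc (nat_lit 16)), (nat_lit 73, Int.ofNat (nat_lit 4)), (nat_lit 74, Int.ofNat (nat_lit 23))] (Tr.nd (Tr.nd Tr.nil (nat_lit 2659) [(nat_lit 76, Int.negSucc (nat_lit 5)), (nat_lit 77, Int.negSucc (nat_lit 21)), (nat_lit 78, Int.ofNat (nat_lit 2))] Tr.nil) (nat_lit 2660) [(nat_lit 75, Int.ofNat (nat_lit 1)), (nat_lit 76, Int.negSucc (nat_lit 6)), (nat_lit 77, Int.negSucc (nat_lit 5)), (nat_lit 78, Int.negSucc (nat_lit 9))] (Tr.nd Tr.nil (nat_lit 2662) [(nat_lit 79, Int.ofNat (nat_lit 16))] Tr.nil))))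

/-- part of the table -/
def t95 : Tr := (Tr.nd (Tr.nd (Tr.nd (Tr.nd (Tr.nd Tr.nil (nat_lit 2664) [(nat_lit 80, Int.negSucc (nat_lit 5)), (nat_lit 81, Int.negSucc (nat_lit 14))] Tr.nil) (nat_lit 2665) [(nat_lit 80, Int.negSucc (nat_lit 7)), (nat_lit 81, Int.negSucc (nat_lit 10))] Tr.nil) (nat_lit 2666) [(nat_lit 80, Int.ofNat (nat_lit 3)), (nat_lit 81, Int.ofNat (nat_lit 3))] (Tr.nd Tr.nil (nat_lit 2667) [(nat_lit 81, Int.negSucc (nat_lit 1))] Tr.nil)) (nat_lit 2675) [(nat_lit 82, Int.negSucc (nat_lit 23))] (Tr.nd (Tr.nd Tr.nil (nat_lit 2676) [(nat_lit 82, Int.negSucc (nat_lit 16))] Tr.nil) (nat_lit 2677) [(nat_lit 82, Int.negSucc (nat_lit 1))] (Tr.nd Tr.nil (nat_lit 2678) [(nat_lit 82, Int.negSucc (nat_lit 30))] Tr.nil))) (nat_lit 2679) [(nat_lit 82, Int.negSucc (nat_lit 35))] (Tr.nd (Tr.nd (Tr.nd (Tr.nd Tr.nil (nat_lit 2680) [(nat_lit 82, Int.ofNat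 (nat_lit 6))] Tr.nil) (nat_lit 2681) [(nat_lit 82, Int.negSucc (nat_lit 19))] Tr.nil) (nat_lit 2682) [(nat_lit 82, Int.negSucc (nat_lit 3))] (Tr.nd Tr.nil (nat_lit 2739) [(nat_lit 47, Int.ofNat (nat_lit 1)), (nat_lit 49, Int.negSucc (nat_lit 0)), (nat_lit 50, Int.negSucc (nat_lit 0)), (nat_lit 51, Int.negSucc (nat_lit 1)), (nat_lit 52, Int.negSucc (nat_lit 1)), (nat_lit 53, Int.negSucc (nat_lit 2)), (nat_lit 54, Int.ofNat (nat_lit 1)), (nat_lit 55, Int.ofNat (nat_lit 4)), (nat_lit 56, Int.ofNat (nat_lit 4)), (nat_lit 57, Int.ofNat (nat_lit 3)), (nat_lit 58, Int.negSucc (nat_lit 7)), (nat_lit 59, Int.ofNat (nat_lit 3)), (nat_lit 60, Int.negSucc (nat_lit 8))] Tr.nil)) (nat_lit 2740) [(nat_lit 61, Int.negSucc (nat_lit 2)), (nat_lit 62, Int.negSucc (nat_lit 2)), (nat_lit 63, Int.ofNat (nat_lit 3)), (nat_lit 65, Int.negSucc (nat_lit 0)), (nat_lit 66,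 Int.negSucc (nat_lit 3)), (nat_lit 67, Int.ofNat (nat_lit 1)), (nat_lit 68, Int.negSucc (nat_lit 2))] (Tr.nd (Tr.nd Tr.nil (nat_lit 2741) [(nat_lit 72, Int.ofNat (nat_lit 11)), (nat_lit 73, Int.negSucc (nat_lit 0)), (nat_lit 74, Int.negSucc (nat_lit 8))] Tr.nil) (nat_lit 2742) [(nat_lit 75, Int.negSucc (nat_lit 0)), (nat_lit 76, Int.ofNat (nat_lit 11)), (nat_lit 77, Int.ofNat (nat_lit 4)), (nat_lit 78, Int.negSucc (nat_lit 6))] (Tr.nd Tr.nil (nat_lit 2743) [(nat_lit 75, Int.negSucc (nat_lit 2)), (nat_lit 76, Int.ofNat (nat_lit 11)), (nat_lit 77, Int.ofNat (nat_lit 4)), (nat_lit 78, Int.ofNat (nat_lit 1))] Tr.nil))))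

/-- part of the table -/
def t96 : Tr := Tr.nd t94 (nat_lit 2663) [(nat_lit 79, Int.ofNat (nat_lit 10))] t95

/-- part of the table -/
def t97 : Tr := (Tr.nd (Tr.nd (Tr.nd (Tr.nd (Tr.nd Tr.nil (nat_lit 2746) [(nat_lit 79, Int.negSucc (nat_lit 9))] Tr.nil) (nat_lit 2747) [(nat_lit 80, Int.ofNat (nat_lit 9)), (nat_lit 81, Int.ofNat (nat_lit 1))] Tr.nil) (nat_lit 2748) [(nat_lit 80, Int.ofNat (nat_lit 8)), (nat_lit 81, Int.ofNat (nat_lit 8))] (Tr.nd Tr.nil (nat_lit 2749) [(nat_lit 80, Int.negSucc (nat_lit 0)), (nat_lit 81, Int.negSucc (nat_lit 2))] Tr.nil)) (nat_lit 2750) [(nat_lit 81, Int.negSucc (nat_lit 2))] (Tr.nd (Tr.nd Tr.nil (nat_lit 2758) [(nat_lit 82, Int.ofNat (nat_lit 21))] Tr.nil) (nat_lit 2759) [(nat_lit 82, Int.ofNat (nat_lit 18))] (Tr.nd Tr.nil (nat_lit 2760) [(nat_lit 82, Int.negSucc (nat_lit 2))] Tr.nil))) (nat_lit 2761) [(nat_lit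 82, Int.ofNat (nat_lit 28))] (Tr.nd (Tr.nd (Tr.nd (Tr.nd Tr.nil (nat_lit 2762) [(nat_lit 82, Int.ofNat (nat_lit 34))] Tr.nil) (nat_lit 2763) [(nat_lit 82, Int.negSucc (nat_lit 8))] Tr.nil) (nat_lit 2764) [(nat_lit 82, Int.ofNat (nat_lit 17))] (Tr.nd Tr.nil (nat_lit 2765) [(nat_lit 82, Int.ofNat (nat_lit 1))] Tr.nil)) (nat_lit 2822) [(nat_lit 47, Int.ofNat (nat_lit 1)), (nat_lit 49, Int.ofNat (nat_lit 1)), (nat_lit 50, Int.negSucc (nat_lit 1)), (nat_lit 51, Int.negSucc (nat_lit 6)), (nat_lit 52, Int.negSucc (nat_lit 1)), (nat_lit 53, Int.negSucc (nat_lit 0)), (nat_lit 54, Int.ofNat (nat_lit 3)), (nat_lit 55, Int.negSucc (nat_lit 2)), (nat_lit 56, Int.negSucc (nat_lit 1)), (nat_lit 57, Int.ofNat (nat_lit 6)), (nat_lit 58, Int.negSucc (nat_lit 6)), (nat_lit 59, Int.ofNat (nat_lit 8)), (nat_lit 60, Int.negSucc (nat_lit 3))] (Tr.nd (Tr.nd Tr.nil (nat_lit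 2823) [(nat_lit 61, Int.negSucc (nat_lit 2)), (nat_lit 62, Int.negSucc (nat_lit 1)), (nat_lit 63, Int.ofNat (nat_lit 4)), (nat_lit 65, Int.ofNat (nat_lit 1)), (nat_lit 66, Int.ofNat (nat_lit 2)), (nat_lit 67, Int.ofNat (nat_lit 2)), (nat_lit 68, Int.ofNat (nat_lit 3))] Tr.nil) (nat_lit 2824) [(nat_lit 71, Int.negSucc (nat_lit 2)), (nat_lit 72, Int.ofNat (nat_lit 5)), (nat_lit 73, Int.ofNat (nat_lit 5)), (nat_lit 74, Int.ofNat (nat_lit 4))] (Tr.nd Tr.nil (nat_lit 2825) [(nat_lit 75, Int.negSucc (nat_lit 3)), (nat_lit 76, Int.ofNat (nat_lit 14)), (nat_lit 77, Int.ofNat (nat_lit 5)), (nat_lit 78, Int.negSucc (nat_lit 6))] Tr.nil))))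

/-- part of the table -/
def t98 : Tr := (Tr.nd (Tr.nd (Tr.nd (Tr.nd (Tr.nd Tr.nil (nat_lit 2828) [(nat_lit 79, Int.negSucc (nat_lit 15))] Tr.nil) (nat_lit 2829) [(nat_lit 79, Int.negSucc (nat_lit 9))] Tr.nil) (nat_lit 2830) [(nat_lit 80, Int.ofNat (nat_lit 6))] (Tr.nd Tr.nil (nat_lit 2831) [(nat_lit 80, Int.ofNat (nat_lit 6)), (nat_lit 81, Int.ofNat (nat_lit 19))] Tr.nil)) (nat_lit 2832) [(nat_lit 80, Int.negSucc (nat_lit 0)), (nat_lit 81, Int.negSucc (nat_lit 2))] (Tr.nd (Tr.nd Tr.nil (nat_lit 2833) [(nat_lit 81, Int.negSucc (nat_lit 2))] Tr.nil) (nat_lit 2841) [(nat_lit 82, Int.ofNat (nat_lit 15))] (Tr.nd Tr.nil (nat_lit 2842) [(nat_lit 82, Int.ofNat (nat_lit 8))] Tr.nil))) (nat_lit 2843) [(nat_lit 82, Int.ofNat (nat_lit 3))] (Tr.nd (Tr.nd (Tr.nd Tr.nil (nat_lit 2844) [(nat_lit 82, Int.ofNat (nat_lit 22))] Tr.nil) (nat_lit 2845) [(nat_lit 82,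 Int.ofNat (nat_lit 34))] (Tr.nd Tr.nil (nat_lit 2846) [(nat_lit 82, Int.negSucc (nat_lit 8))] Tr.nil)) (nat_lit 2847) [(nat_lit 82, Int.ofNat (nat_lit 17))] (Tr.nd (Tr.nd Tr.nil (nat_lit 2848) [(nat_lit 82, Int.ofNat (nat_lit 1))] Tr.nil) (nat_lit 2905) [(nat_lit 61, Int.ofNat (nat_lit 4)), (nat_lit 62, Int.negSucc (nat_lit 2)), (nat_lit 63, Int.negSucc (nat_lit 0)), (nat_lit 64, Int.ofNat (nat_lit 10)), (nat_lit 65, Int.negSucc (nat_lit 0)), (nat_lit 66, Int.negSucc (nat_lit 2)), (nat_lit 67, Int.negSucc (nat_lit 3))] (Tr.nd Tr.nil (nat_lit 2907) [(nat_lit 76, Int.ofNat (nat_lit 4)), (nat_lit 77, Int.negSucc (nat_lit 4)), (nat_lit 78, Int.negSucc (nat_lit 25))] Tr.nil))))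

/-- part of the table -/
def t99 : Tr := Tr.nd t97 (nat_lit 2826) [(nat_lit 75, Int.ofNat (nat_lit 3)), (nat_lit 76, Int.ofNat (nat_lit 11)), (nat_lit 77, Int.ofNat (nat_lit 4)), (nat_lit 78, Int.ofNat (nat_lit 13))] t98

/-- part of the table -/
def t100 : Tr := Tr.nd t96 (nat_lit 2745) [(nat_lit 79, Int.negSucc (nat_lit 15))] t99

/-- part of the table -/
def t101 : Tr := (Tr.nd (Tr.nd (Tr.nd (Tr.nd (Tr.nd Tr.nil (nat_lit 2912) [(nat_lit 80, Int.ofNat (nat_lit 2)), (nat_lit 81, Int.negSucc (nat_lit 17))] Tr.nil) (nat_lit 2921) [(nat_lit 82, Int.negSucc (nat_lit 2))] Tr.nil) (nat_lit 2922) [(nat_lit 82, Int.ofNat (nat_lit 3))] (Tr.nd Tr.nil (nat_lit 2923) [(nat_lit 82, Int.ofNat (nat_lit 3))] Tr.nil)) (nat_lit 2988) [(nat_lit 62, Int.negSucc (nat_lit 0)), (nat_lit 63, Int.ofNat (nat_lit 2)), (nat_lit 64, Int.negSucc (nat_lit 4)), (nat_lit 65,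 Int.negSucc (nat_lit 3)), (nat_lit 66, Int.negSucc (nat_lit 4)), (nat_lit 67, Int.negSucc (nat_lit 4)), (nat_lit 68, Int.negSucc (nat_lit 10))] (Tr.nd (Tr.nd Tr.nil (nat_lit 2990) [(nat_lit 76, Int.negSucc (nat_lit 2)), (nat_lit 77, Int.ofNat (nat_lit 6)), (nat_lit 78, Int.negSucc (nat_lit 20))] Tr.nil) (nat_lit 2994) [(nat_lit 81, Int.negSucc (nat_lit 7))] (Tr.nd Tr.nil (nat_lit 2995) [(nat_lit 81, Int.ofNat (nat_lit 1))] Tr.nil))) (nat_lit 3071) [(nat_lit 63, Int.ofNat (nat_lit 3)), (nat_lit 64, Int.negSucc (nat_lit 2)), (nat_lit 65, Int.negSucc (nat_lit 1)), (nat_lit 66, Int.ofNat (nat_lit 1)), (nat_lit 67, Int.negSucc (nat_lit 3)), (nat_lit 68, Int.negSucc (nat_lit 4))] (Tr.nd (Tr.nd (Tr.nd (Tr.nd Tr.nil (nat_lit 3073) [(nat_lit 76, Int.negSucc (nat_lit 2)), (nat_lit 77, Int.ofNat (nat_lit 6)), (nat_lit 78, Int.negSucc (nat_lit 20))] Tr.nil)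 (nat_lit 3077) [(nat_lit 81, Int.negSucc (nat_lit 7))] Tr.nil) (nat_lit 3078) [(nat_lit 81, Int.ofNat (nat_lit 1))] (Tr.nd Tr.nil (nat_lit 3154) [(nat_lit 61, Int.negSucc (nat_lit 3)), (nat_lit 62, Int.negSucc (nat_lit 0)), (nat_lit 63, Int.negSucc (nat_lit 0)), (nat_lit 64, Int.ofNat (nat_lit 1)), (nat_lit 65, Int.ofNat (nat_lit 1)), (nat_lit 66, Int.negSucc (nat_lit 1)), (nat_lit 67, Int.negSucc (nat_lit 12)), (nat_lit 68, Int.ofNat (nat_lit 3))] Tr.nil)) (nat_lit 3156) [(nat_lit 76, Int.negSucc (nat_lit 7)), (nat_lit 77, Int.ofNat (nat_lit 21)), (nat_lit 78, Int.negSucc (nat_lit 14))] (Tr.nd (Tr.nd Tr.nil (nat_lit 3160) [(nat_lit 80, Int.ofNat (nat_lit 4)), (nat_lit 81, Int.negSucc (nat_lit 12))] Tr.nil) (nat_lit 3161) [(nat_lit 80, Int.negSucc (nat_lit 7)), (nat_lit 81, Int.ofNat (nat_lit 19))] (Tr.nd Tr.nil (nat_lit 3170) [(nat_lit 82, Int.ofNat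 (nat_lit 3))] Tr.nil))))

/-- part of the table -/
def t102 : Tr := (Tr.nd (Tr.nd (Tr.nd (Tr.nd (Tr.nd Tr.nil (nat_lit 3172) [(nat_lit 82, Int.ofNat (nat_lit 5))] Tr.nil) (nat_lit 3238) [(nat_lit 69, Int.ofNat (nat_lit 1))] Tr.nil) (nat_lit 3242) [(nat_lit 79, Int.negSucc (nat_lit 0))] (Tr.nd Tr.nil (nat_lit 3252) [(nat_lit 82, Int.ofNat (nat_lit 1))] Tr.nil)) (nat_lit 3320) [(nat_lit 69, Int.negSucc (nat_lit 15))] (Tr.nd (Tr.nd Tr.nil (nat_lit 3321) [(nat_lit 71, Int.ofNat (nat_lit 1)), (nat_lit 72, Int.negSucc (nat_lit 1)), (nat_lit 74, Int.negSucc (nat_lit 3))] Tr.nil) (nat_lit 3323) [(nat_lit 79, Int.ofNat (nat_lit 13))] (Tr.nd Tr.nil (nat_lit 3324) [(nat_lit 79, Int.ofNat (nat_lit 5))] Tr.nil))) (nat_lit 3325) [(nat_lit 80, Int.ofNat (nat_lit 1)), (nat_lit 81, Int.ofNat (nat_lit 4))] (Tr.nd (Tr.nd (Tr.nd (Tr.nd Tr.nil (nat_lit 3332) [(nat_lit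 82, Int.negSucc (nat_lit 4))] Tr.nil) (nat_lit 3333) [(nat_lit 82, Int.negSucc (nat_lit 1))] Tr.nil) (nat_lit 3334) [(nat_lit 82, Int.negSucc (nat_lit 4))] (Tr.nd Tr.nil (nat_lit 3403) [(nat_lit 69, Int.ofNat (nat_lit 11))] Tr.nil)) (nat_lit 3404) [(nat_lit 70, Int.ofNat (nat_lit 1)), (nat_lit 71, Int.ofNat (nat_lit 3)), (nat_lit 72, Int.ofNat (nat_lit 4)), (nat_lit 73, Int.ofNat (nat_lit 2)), (nat_lit 74, Int.ofNat (nat_lit 24))] (Tr.nd (Tr.nd Tr.nil (nat_lit 3406) [(nat_lit 79, Int.negSucc (nat_lit 4))] Tr.nil) (nat_lit 3407) [(nat_lit 79, Int.negSucc (nat_lit 9))] (Tr.nd Tr.nil (nat_lit 3408) [(nat_lit 80, Int.ofNat (nat_lit 5)), (nat_lit 81, Int.negSucc (nat_lit 42))] Tr.nil))))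

/-- part of the table -/
def t103 : Tr := Tr.nd t101 (nat_lit 3171) [(nat_lit 82, Int.negSucc (nat_lit 2))] t102

/-- part of the table -/
def t104 : Tr := (Tr.nd (Tr.nd (Tr.nd (Tr.nd (Tr.nd Tr.nil (nat_lit 3416) [(nat_lit 82, Int.ofNat (nat_lit 4))] Tr.nil) (nat_lit 3417) [(nat_lit 82, Int.ofNat (nat_lit 10))] Tr.nil) (nat_lit 3486) [(nat_lit 69, Int.ofNat (nat_lit 2))] (Tr.nd Tr.nil (nat_lit 3487) [(nat_lit 72, Int.ofNat (nat_lit 1)), (nat_lit 74, Int.negSucc (nat_lit 0))] Tr.nil)) (nat_lit 3489) [(nat_lit 79, Int.negSucc (nat_lit 1))] (Tr.nd (Tr.nd Tr.nil (nat_lit 3490) [(nat_lit 79, Int.negSucc (nat_lit 0))] Tr.nil) (nat_lit 3498) [(nat_lit 82, Int.ofNat (nat_lit 1))] (Tr.nd Tr.nil (nat_lit 3499) [(nat_lit 82, Int.ofNat (nat_lit 1))] Tr.nil))) (nat_lit 3500) [(nat_lit 82, Int.ofNat (nat_lit 1))] (Tr.nd (Tr.nd (Tr.nd (Tr.nd Tr.nil (nat_lit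 3570) [(nat_lit 71, Int.negSucc (nat_lit 0)), (nat_lit 74, Int.ofNat (nat_lit 3))] Tr.nil) (nat_lit 3574) [(nat_lit 80, Int.negSucc (nat_lit 0)), (nat_lit 81, Int.negSucc (nat_lit 0))] Tr.nil) (nat_lit 3581) [(nat_lit 82, Int.negSucc (nat_lit 2))] (Tr.nd Tr.nil (nat_lit 3652) [(nat_lit 69, Int.ofNat (nat_lit 1))] Tr.nil)) (nat_lit 3653) [(nat_lit 74, Int.negSucc (nat_lit 0))] (Tr.nd (Tr.nd Tr.nil (nat_lit 3655) [(nat_lit 79, Int.negSucc (nat_lit 0))] Tr.nil) (nat_lit 3657) [(nat_lit 81, Int.ofNat (nat_lit 1))] (Tr.nd Tr.nil (nat_lit 3664) [(nat_lit 82, Int.ofNat (nat_lit 2))] Tr.nil))))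

/-- part of the table -/
def t105 : Tr := (Tr.nd (Tr.nd (Tr.nd (Tr.nd (Tr.nd Tr.nil (nat_lit 3736) [(nat_lit 74, Int.negSucc (nat_lit 2))] Tr.nil) (nat_lit 3739) [(nat_lit 79, Int.negSucc (nat_lit 0))] Tr.nil) (nat_lit 3740) [(nat_lit 81, Int.ofNat (nat_lit 3))] (Tr.nd Tr.nil (nat_lit 3747) [(nat_lit 82, Int.ofNat (nat_lit 3))] Tr.nil)) (nat_lit 3749) [(nat_lit 82, Int.ofNat (nat_lit 1))] (Tr.nd (Tr.nd Tr.nil (nat_lit 3819) [(nat_lit 74, Int.ofNat (nat_lit 1))] Tr.nil) (nat_lit 3823) [(nat_lit 81, Int.negSucc (nat_lit 0))] (Tr.nd Tr.nil (nat_lit 3830) [(nat_lit 82, Int.negSucc (nat_lit 0))] Tr.nil))) (nat_lit 3901) [(nat_lit 70, Int.ofNat (nat_lit 1)), (nat_lit 72, Int.ofNat (nat_lit 2)), (nat_lit 73, Int.negSucc (nat_lit 2)), (nat_lit 74, Int.negSucc (nat_lit 2))] (Tr.nd (Tr.nd (Tr.nd Tr.nil (nat_lit 3902) [(nat_lit 75, Int.negSucc (nat_lit 2)),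 (nat_lit 76, Int.negSucc (nat_lit 4)), (nat_lit 77, Int.negSucc (nat_lit 2)), (nat_lit 78, Int.negSucc (nat_lit 4))] Tr.nil) (nat_lit 3903) [(nat_lit 79, Int.ofNat (nat_lit 1))] (Tr.nd Tr.nil (nat_lit 3904) [(nat_lit 80, Int.negSucc (nat_lit 4)), (nat_lit 81, Int.negSucc (nat_lit 12))] Tr.nil)) (nat_lit 3905) [(nat_lit 80, Int.ofNat (nat_lit 2)), (nat_lit 81, Int.negSucc (nat_lit 2))] (Tr.nd (Tr.nd Tr.nil (nat_lit 3909) [(nat_lit 82, Int.negSucc (nat_lit 11))] Tr.nil) (nat_lit 3910) [(nat_lit 82, Int.negSucc (nat_lit 2))] (Tr.nd Tr.nil (nat_lit 3911) [(nat_lit 82, Int.ofNat (nat_lit 3))] Tr.nil))))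

/-- part of the table -/
def t106 : Tr := Tr.nd t104 (nat_lit 3735) [(nat_lit 69, Int.ofNat (nat_lit 1))] t105

/-- part of the table -/
def t107 : Tr := Tr.nd t103 (nat_lit 3415) [(nat_lit 82, Int.negSucc (nat_lit 31))] t106

/-- part of the table -/
def t108 : Tr := Tr.nd t100 (nat_lit 2911) [(nat_lit 81, Int.negSucc (nat_lit 28))] t107

/-- part of the table -/
def t109 : Tr := (Tr.nd (Tr.nd (Tr.nd (Tr.nd (Tr.nd Tr.nil (nat_lit 3984) [(nat_lit 70, Int.negSucc (nat_lit 0)), (nat_lit 71, Int.ofNat (nat_lit 1)), (nat_lit 72, Int.ofNat (nat_lit 6)), (nat_lit 73, Int.ofNat (nat_lit 3)), (nat_lit 74, Int.ofNat (nat_lit 4))] Tr.nil) (nat_lit 3985) [(nat_lit 75, Int.negSucc (nat_lit 0)), (nat_lit 76, Int.ofNat (nat_lit 2)), (nat_lit 77, Int.ofNat (nat_lit 3)), (nat_lit 78, Int.ofNat (nat_lit 5))] Tr.nil) (nat_lit 3986) [(nat_lit 79, Int.negSucc (nat_lit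 2))] (Tr.nd Tr.nil (nat_lit 3987) [(nat_lit 80, Int.ofNat (nat_lit 2)), (nat_lit 81, Int.ofNat (nat_lit 8))] Tr.nil)) (nat_lit 3988) [(nat_lit 80, Int.negSucc (nat_lit 0)), (nat_lit 81, Int.negSucc (nat_lit 2))] (Tr.nd (Tr.nd Tr.nil (nat_lit 3992) [(nat_lit 82, Int.ofNat (nat_lit 6))] Tr.nil) (nat_lit 3993) [(nat_lit 82, Int.negSucc (nat_lit 6))] (Tr.nd Tr.nil (nat_lit 3994) [(nat_lit 82, Int.ofNat (nat_lit 5))] Tr.nil))) (nat_lit 3995) [(nat_lit 82, Int.ofNat (nat_lit 4))] (Tr.nd (Tr.nd (Tr.nd (Tr.nd Tr.nil (nat_lit 4067) [(nat_lit 71, Int.ofNat (nat_lit 1)), (nat_lit 72, Int.negSucc (nat_lit 1))] Tr.nil) (nat_lit 4068) [(nat_lit 76, Int.negSucc (nat_lit 1))] Tr.nil) (nat_lit 4069) [(nat_lit 79, Int.ofNat (nat_lit 1))] (Tr.nd Tr.nil (nat_lit 4070) [(nat_lit 80, Int.negSucc (nat_lit 1)), (nat_lit 81, Int.negSucc (nat_lit 0))] Tr.nil)) (nat_lit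 4071) [(nat_lit 80, Int.ofNat (nat_lit 1)), (nat_lit 81, Int.ofNat (nat_lit 1))] (Tr.nd (Tr.nd Tr.nil (nat_lit 4075) [(nat_lit 82, Int.negSucc (nat_lit 3))] Tr.nil) (nat_lit 4076) [(nat_lit 82, Int.ofNat (nat_lit 4))] (Tr.nd Tr.nil (nat_lit 4077) [(nat_lit 82, Int.negSucc (nat_lit 1))] Tr.nil))))

/-- part of the table -/
def t110 : Tr := (Tr.nd (Tr.nd (Tr.nd (Tr.nd (Tr.nd Tr.nil (nat_lit 4150) [(nat_lit 71, Int.negSucc (nat_lit 0)), (nat_lit 72, Int.negSucc (nat_lit 1)), (nat_lit 73, Int.ofNat (nat_lit 1)), (nat_lit 74, Int.ofNat (nat_lit 2))] Tr.nil) (nat_lit 4151) [(nat_lit 76, Int.negSucc (nat_lit 0)), (nat_lit 78, Int.negSucc (nat_lit 0))] Tr.nil) (nat_lit 4152) [(nat_lit 79, Int.ofNat (nat_lit 2))] (Tr.nd Tr.nil (nat_lit 4153) [(nat_lit 80, Int.negSucc (nat_lit 1))] Tr.nil)) (nat_lit 4154) [(nat_lit 81, Int.ofNat (nat_lit 1))] (Tr.nd (Tr.nd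 Tr.nil (nat_lit 4158) [(nat_lit 82, Int.negSucc (nat_lit 2))] Tr.nil) (nat_lit 4159) [(nat_lit 82, Int.ofNat (nat_lit 2))] (Tr.nd Tr.nil (nat_lit 4160) [(nat_lit 82, Int.negSucc (nat_lit 0))] Tr.nil))) (nat_lit 4161) [(nat_lit 82, Int.negSucc (nat_lit 0))] (Tr.nd (Tr.nd (Tr.nd (Tr.nd Tr.nil (nat_lit 4233) [(nat_lit 73, Int.negSucc (nat_lit 1)), (nat_lit 74, Int.ofNat (nat_lit 4))] Tr.nil) (nat_lit 4234) [(nat_lit 75, Int.negSucc (nat_lit 0)), (nat_lit 77, Int.negSucc (nat_lit 0)), (nat_lit 78, Int.negSucc (nat_lit 1))] Tr.nil) (nat_lit 4235) [(nat_lit 79, Int.negSucc (nat_lit 0))] (Tr.nd Tr.nil (nat_lit 4236) [(nat_lit 81, Int.negSucc (nat_lit 5))] Tr.nil)) (nat_lit 4237) [(nat_lit 81, Int.negSucc (nat_lit 0))] (Tr.nd (Tr.nd Tr.nil (nat_lit 4242) [(nat_lit 82, Int.negSucc (nat_lit 0))] Tr.nil) (nat_lit 4243) [(nat_lit 82, Int.ofNat (nat_lit 1))]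 (Tr.nd Tr.nil (nat_lit 4316) [(nat_lit 71, Int.negSucc (nat_lit 0)), (nat_lit 73, Int.negSucc (nat_lit 0)), (nat_lit 74, Int.ofNat (nat_lit 2))] Tr.nil))))

/-- part of the table -/
def t111 : Tr := Tr.nd t109 (nat_lit 4078) [(nat_lit 82, Int.negSucc (nat_lit 0))] t110

/-- part of the table -/
def t112 : Tr := (Tr.nd (Tr.nd (Tr.nd (Tr.nd (Tr.nd Tr.nil (nat_lit 4319) [(nat_lit 80, Int.ofNat (nat_lit 1)), (nat_lit 81, Int.negSucc (nat_lit 2))] Tr.nil) (nat_lit 4320) [(nat_lit 80, Int.negSucc (nat_lit 0))] Tr.nil) (nat_lit 4325) [(nat_lit 82, Int.negSucc (nat_lit 1))] (Tr.nd Tr.nil (nat_lit 4399) [(nat_lit 72, Int.ofNat (nat_lit 3)), (nat_lit 73, Int.ofNat (nat_lit 1)), (nat_lit 74, Int.negSucc (nat_lit 0))] Tr.nil)) (nat_lit 4400) [(nat_lit 77, Int.ofNat (nat_lit 2)), (nat_lit 78, Int.ofNat (nat_lit 1))] (Tr.nd (Tr.nd Tr.nil (nat_lit 4401) [(nat_lit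 79, Int.negSucc (nat_lit 0))] Tr.nil) (nat_lit 4403) [(nat_lit 81, Int.ofNat (nat_lit 1))] (Tr.nd Tr.nil (nat_lit 4407) [(nat_lit 82, Int.ofNat (nat_lit 2))] Tr.nil))) (nat_lit 4408) [(nat_lit 82, Int.negSucc (nat_lit 0))] (Tr.nd (Tr.nd (Tr.nd (Tr.nd Tr.nil (nat_lit 4409) [(nat_lit 82, Int.ofNat (nat_lit 3))] Tr.nil) (nat_lit 4410) [(nat_lit 82, Int.ofNat (nat_lit 1))] Tr.nil) (nat_lit 4482) [(nat_lit 72, Int.ofNat (nat_lit 3))] (Tr.nd Tr.nil (nat_lit 4483) [(nat_lit 76, Int.ofNat (nat_lit 1))] Tr.nil)) (nat_lit 4484) [(nat_lit 79, Int.negSucc (nat_lit 0))] (Tr.nd (Tr.nd Tr.nil (nat_lit 4485) [(nat_lit 80, Int.ofNat (nat_lit 1)), (nat_lit 81, Int.negSucc (nat_lit 0))] Tr.nil) (nat_lit 4486) [(nat_lit 81, Int.negSucc (nat_lit 1))] (Tr.nd Tr.nil (nat_lit 4490) [(nat_lit 82, Int.ofNat (nat_lit 1))] Tr.nil))))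

/-- part of the table -/
def t113 : Tr := (Tr.nd (Tr.nd (Tr.nd (Tr.nd (Tr.nd Tr.nil (nat_lit 4492) [(nat_lit 82, Int.ofNat (nat_lit 2))] Tr.nil) (nat_lit 4493) [(nat_lit 82, Int.ofNat (nat_lit 2))] Tr.nil) (nat_lit 4565) [(nat_lit 74, Int.negSucc (nat_lit 1))] (Tr.nd Tr.nil (nat_lit 4566) [(nat_lit 77, Int.ofNat (nat_lit 2))] Tr.nil)) (nat_lit 4568) [(nat_lit 81, Int.ofNat (nat_lit 2))] (Tr.nd (Tr.nd Tr.nil (nat_lit 4569) [(nat_lit 81, Int.ofNat (nat_lit 2))] Tr.nil) (nat_lit 4573) [(nat_lit 82, Int.ofNat (nat_lit 2))] (Tr.nd Tr.nil (nat_lit 4574) [(nat_lit 82, Int.ofNat (nat_lit 2))] Tr.nil))) (nat_lit 4648) [(nat_lit 72, Int.ofNat (nat_lit 1)), (nat_lit 73, Int.negSucc (nat_lit 0)), (nat_lit 74, Int.negSucc (nat_lit 0))] (Tr.nd (Tr.nd (Tr.nd Tr.nil (nat_lit 4649) [(nat_lit 78, Int.negSucc (nat_lit 0))] Tr.nil) (nat_lit 4650) [(nat_lit 79, Int.negSucc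 (nat_lit 0))] (Tr.nd Tr.nil (nat_lit 4652) [(nat_lit 81, Int.negSucc (nat_lit 0))] Tr.nil)) (nat_lit 4657) [(nat_lit 82, Int.negSucc (nat_lit 0))] (Tr.nd (Tr.nd Tr.nil (nat_lit 4658) [(nat_lit 82, Int.ofNat (nat_lit 1))] Tr.nil) (nat_lit 4659) [(nat_lit 82, Int.ofNat (nat_lit 1))] (Tr.nd Tr.nil (nat_lit 4731) [(nat_lit 72, Int.ofNat (nat_lit 2)), (nat_lit 73, Int.ofNat (nat_lit 1)), (nat_lit 74, Int.negSucc (nat_lit 3))] Tr.nil))))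

/-- part of the table -/
def t114 : Tr := Tr.nd t112 (nat_lit 4491) [(nat_lit 82, Int.negSucc (nat_lit 2))] t113

/-- part of the table -/
def t115 : Tr := Tr.nd t111 (nat_lit 4317) [(nat_lit 76, Int.ofNat (nat_lit 1)), (nat_lit 77, Int.negSucc (nat_lit 1)), (nat_lit 78, Int.negSucc (nat_lit 0))] t114

/-- part of the table -/
def t116 : Tr := (Tr.nd (Tr.nd (Tr.nd (Tr.nd (Tr.nd Tr.nil (nat_lit 4733) [(nat_lit 79, Int.negSucc (nat_lit 0))] Tr.nil) (nat_lit 4734) [(nat_lit 81, Int.ofNat (nat_lit 2))] Tr.nil) (nat_lit 4735) [(nat_lit 81, Int.ofNat (nat_lit 3))] (Tr.nd Tr.nil (nat_lit 4739) [(nat_lit 82, Int.ofNat (nat_lit 2))] Tr.nil)) (nat_lit 4740) [(nat_lit 82, Int.ofNat (nat_lit 2))] (Tr.nd (Tr.nd Tr.nil (nat_lit 4741) [(nat_lit 82, Int.ofNat (nat_lit 2))] Tr.nil) (nat_lit 4742) [(nat_lit 82, Int.ofNat (nat_lit 1))] (Tr.nd Tr.nil (nat_lit 4814)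 [(nat_lit 72, Int.negSucc (nat_lit 0)), (nat_lit 73, Int.negSucc (nat_lit 0)), (nat_lit 74, Int.negSucc (nat_lit 0))] Tr.nil))) (nat_lit 4815) [(nat_lit 76, Int.negSucc (nat_lit 0)), (nat_lit 78, Int.negSucc (nat_lit 0))] (Tr.nd (Tr.nd (Tr.nd (Tr.nd Tr.nil (nat_lit 4816) [(nat_lit 79, Int.ofNat (nat_lit 1))] Tr.nil) (nat_lit 4817) [(nat_lit 80, Int.negSucc (nat_lit 0))] Tr.nil) (nat_lit 4818) [(nat_lit 81, Int.ofNat (nat_lit 1))] (Tr.nd Tr.nil (nat_lit 4822) [(nat_lit 82, Int.negSucc (nat_lit 1))] Tr.nil)) (nat_lit 4823) [(nat_lit 82, Int.ofNat (nat_lit 1))] (Tr.nd (Tr.nd Tr.nil (nat_lit 4824) [(nat_lit 82, Int.negSucc (nat_lit 0))] Tr.nil) (nat_lit 4825) [(nat_lit 82, Int.negSucc (nat_lit 0))] (Tr.nd Tr.nil (nat_lit 4897) [(nat_lit 72, Int.ofNat (nat_lit 1)), (nat_lit 73, Int.negSucc (nat_lit 0)), (nat_lit 74, Int.ofNat (nat_lit 1))] Tr.nil))))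

/-- part of the table -/
def t117 : Tr := (Tr.nd (Tr.nd (Tr.nd (Tr.nd (Tr.nd Tr.nil (nat_lit 4899) [(nat_lit 79, Int.negSucc (nat_lit 0))] Tr.nil) (nat_lit 4900) [(nat_lit 80, Int.ofNat (nat_lit 1)), (nat_lit 81, Int.negSucc (nat_lit 1))] Tr.nil) (nat_lit 4901) [(nat_lit 81, Int.negSucc (nat_lit 0))] (Tr.nd Tr.nil (nat_lit 4905) [(nat_lit 82, Int.ofNat (nat_lit 2))] Tr.nil)) (nat_lit 4906) [(nat_lit 82, Int.negSucc (nat_lit 0))] (Tr.nd (Tr.nd Tr.nil (nat_lit 4907) [(nat_lit 82, Int.ofNat (nat_lit 1))] Tr.nil) (nat_lit 4908) [(nat_lit 82, Int.ofNat (nat_lit 1))] (Tr.nd Tr.nil (nat_lit 4980) [(nat_lit 74, Int.negSucc (nat_lit 0))] Tr.nil))) (nat_lit 4983) [(nat_lit 81, Int.ofNat (nat_lit 1))] (Tr.nd (Tr.nd (Tr.nd Tr.nil (nat_lit 5063) [(nat_lit 75, Int.ofNat (nat_lit 1)), (nat_lit 76, Int.negSucc (nat_lit 2)), (nat_lit 78, Int.negSucc (nat_lit 3))]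 Tr.nil) (nat_lit 5065) [(nat_lit 80, Int.negSucc (nat_lit 0)), (nat_lit 81, Int.negSucc (nat_lit 1))] (Tr.nd Tr.nil (nat_lit 5069) [(nat_lit 82, Int.negSucc (nat_lit 5))] Tr.nil)) (nat_lit 5070) [(nat_lit 82, Int.negSucc (nat_lit 3))] (Tr.nd (Tr.nd Tr.nil (nat_lit 5146) [(nat_lit 75, Int.negSucc (nat_lit 0)), (nat_lit 76, Int.negSucc (nat_lit 0)), (nat_lit 78, Int.ofNat (nat_lit 4))] Tr.nil) (nat_lit 5148) [(nat_lit 80, Int.negSucc (nat_lit 0)), (nat_lit 81, Int.ofNat (nat_lit 2))] (Tr.nd Tr.nil (nat_lit 5152) [(nat_lit 82, Int.negSucc (nat_lit 1))] Tr.nil))))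

/-- part of the table -/
def t118 : Tr := Tr.nd t116 (nat_lit 4898) [(nat_lit 76, Int.ofNat (nat_lit 1)), (nat_lit 78, Int.negSucc (nat_lit 0))] t117

/-- part of the table -/
def t119 : Tr := (Tr.nd (Tr.nd (Tr.nd (Tr.nd (Tr.nd Tr.nil (nat_lit 5231) [(nat_lit 80, Int.ofNat (nat_lit 1))] Tr.nil) (nat_lit 5236) [(nat_lit 82, Int.ofNat (nat_lit 1))] Tr.nil) (nat_lit 5312) [(nat_lit 76, Int.negSucc (nat_lit 0)), (nat_lit 77, Int.ofNat (nat_lit 2))] (Tr.nd Tr.nil (nat_lit 5397) [(nat_lit 81, Int.negSucc (nat_lit 0))] Tr.nil)) (nat_lit 5402) [(nat_lit 82, Int.negSucc (nat_lit 0))] (Tr.nd (Tr.nd Tr.nil (nat_lit 5478) [(nat_lit 76, Int.negSucc (nat_lit 0)), (nat_lit 77, Int.ofNat (nat_lit 1)), (nat_lit 78, Int.negSucc (nat_lit 1))] Tr.nil) (nat_lit 5480) [(nat_lit 81, Int.ofNat (nat_lit 1))] (Tr.nd Tr.nil (nat_lit 5561) [(nat_lit 76, Int.ofNat (nat_lit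 1)), (nat_lit 77, Int.ofNat (nat_lit 1)), (nat_lit 78, Int.ofNat (nat_lit 4))] Tr.nil))) (nat_lit 5567) [(nat_lit 82, Int.ofNat (nat_lit 2))] (Tr.nd (Tr.nd (Tr.nd (Tr.nd Tr.nil (nat_lit 5568) [(nat_lit 82, Int.ofNat (nat_lit 1))] Tr.nil) (nat_lit 5644) [(nat_lit 76, Int.ofNat (nat_lit 1)), (nat_lit 77, Int.negSucc (nat_lit 0)), (nat_lit 78, Int.ofNat (nat_lit 1))] Tr.nil) (nat_lit 5646) [(nat_lit 81, Int.negSucc (nat_lit 0))] (Tr.nd Tr.nil (nat_lit 5728) [(nat_lit 79, Int.negSucc (nat_lit 0))] Tr.nil)) (nat_lit 5732) [(nat_lit 82, Int.ofNat (nat_lit 1))] (Tr.nd (Tr.nd Tr.nil (nat_lit 5810) [(nat_lit 79, Int.ofNat (nat_lit 2))] Tr.nil) (nat_lit 5811) [(nat_lit 80, Int.ofNat (nat_lit 2)), (nat_lit 81, Int.negSucc (nat_lit 8))] (Tr.nd Tr.nil (nat_lit 5813) [(nat_lit 82, Int.negSucc (nat_lit 6))] Tr.nil))))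

/-- part of the table -/
def t120 : Tr := (Tr.nd (Tr.nd (Tr.nd (Tr.nd (Tr.nd Tr.nil (nat_lit 5976) [(nat_lit 79, Int.negSucc (nat_lit 0))] Tr.nil) (nat_lit 5977) [(nat_lit 81, Int.negSucc (nat_lit 0))] Tr.nil) (nat_lit 5979) [(nat_lit 82, Int.negSucc (nat_lit 0))] (Tr.nd Tr.nil (nat_lit 5980) [(nat_lit 82, Int.ofNat (nat_lit 1))] Tr.nil)) (nat_lit 6059) [(nat_lit 79, Int.negSucc (nat_lit 0))] (Tr.nd (Tr.nd Tr.nil (nat_lit 6062) [(nat_lit 82, Int.ofNat (nat_lit 1))] Tr.nil) (nat_lit 6143) [(nat_lit 81, Int.negSucc (nat_lit 0))] (Tr.nd Tr.nil (nat_lit 6145) [(nat_lit 82, Int.negSucc (nat_lit 0))] Tr.nil))) (nat_lit 6308) [(nat_lit 80, Int.ofNat (nat_lit 1))] (Tr.nd (Tr.nd (Tr.nd Tr.nil (nat_lit 6310) [(nat_lit 82, Int.ofNat (nat_lit 2))] Tr.nil) (nat_lit 6391) [(nat_lit 81, Int.ofNat (nat_lit 1))] (Tr.nd Tr.nil (nat_lit 6393) [(nat_lit 82, Int.ofNat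 (nat_lit 1))] Tr.nil)) (nat_lit 6474) [(nat_lit 81, Int.ofNat (nat_lit 1))] (Tr.nd (Tr.nd Tr.nil (nat_lit 6558) [(nat_lit 82, Int.negSucc (nat_lit 0))] Tr.nil) (nat_lit 6640) [(nat_lit 82, Int.ofNat (nat_lit 2))] (Tr.nd Tr.nil (nat_lit 6723) [(nat_lit 82, Int.ofNat (nat_lit 1))] Tr.nil))))

/-- part of the table -/
def t121 : Tr := Tr.nd t119 (nat_lit 5894) [(nat_lit 80, Int.ofNat (nat_lit 1)), (nat_lit 81, Int.negSucc (nat_lit 1))] t120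

/-- part of the table -/
def t122 : Tr := Tr.nd t118 (nat_lit 5229) [(nat_lit 75, Int.negSucc (nat_lit 0)), (nat_lit 77, Int.negSucc (nat_lit 0)), (nat_lit 78, Int.negSucc (nat_lit 5))] t121

/-- part of the table -/
def t123 : Tr := Tr.nd t115 (nat_lit 4732) [(nat_lit 77, Int.ofNat (nat_lit 2)), (nat_lit 78, Int.ofNat (nat_lit 1))] t122

/-- part of the table -/
def t124 : Tr := Tr.nd t108 (nat_lit 3912) [(nat_lit 82, Int.negSucc (nat_lit 1))] t123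

/-- part of the table -/
def t125 : Tr := Tr.nd t93 (nat_lit 2580) [(nat_lit 79, Int.ofNat (nat_lit 14))] t124

/-- part of the table -/
def t126 : Tr := Tr.nd t62 (nat_lit 1185) [(nat_lit 80, Int.negSucc (nat_lit 1)), (nat_lit 81, Int.negSucc (nat_lit 5))] t125

/-- the table -/
def T : Tr := t126

/-- the `z`-degree -/
def zd (i : ℕ) : ℕ := Nat.mod (Nat.shiftRight (nat_lit 387475863770969968745718445376485212460377065204410899013805473721451876872) (Nat.mul (nat_lit 3) i)) (nat_lit 8)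

/-- the `x`-degree -/
def xd (i : ℕ) : ℕ := Nat.mod (Nat.shiftRight (nat_lit 630196494700907549935566191773884104661615908281701991030370747420869661313) (Nat.mul (nat_lit 3) i)) (nat_lit 8)

/-- basis elements of given degree -/
def TD : Tr := (Tr.nd (Tr.nd (Tr.nd (Tr.nd (Tr.nd Tr.nil (nat_lit 1) [(nat_lit 0, Int.ofNat (nat_lit 0))] Tr.nil) (nat_lit 2) [(nat_lit 2, Int.ofNat (nat_lit 0))] Tr.nil) (nat_lit 3) [(nat_lit 6, Int.ofNat (nat_lit 0)), (nat_lit 7, Int.ofNat (nat_lit 0))] (Tr.nd (Tr.nd Tr.nil (nat_lit 4) [(nat_lit 16, Int.ofNat (nat_lit 0)), (nat_lit 17, Int.ofNat (nat_lit 0)), (nat_lit 18, Int.ofNat (nat_lit 0))] Tr.nil) (nat_lit 5) [(nat_lit 39, Int.ofNat (nat_lit 0))] Tr.nil)) (nat_lit 8) [(nat_lit 1, Int.ofNat (nat_lit 0))] (Tr.nd (Tr.nd (Tr.nd Tr.nil (nat_lit 9) [(nat_lit 3, Int.ofNat (nat_lit 0)), (nat_lit 4, Int.ofNat (nat_lit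 0))] Tr.nil) (nat_lit 10) [(nat_lit 8, Int.ofNat (nat_lit 0)), (nat_lit 9, Int.ofNat (nat_lit 0)), (nat_lit 10, Int.ofNat (nat_lit 0)), (nat_lit 11, Int.ofNat (nat_lit 0))] Tr.nil) (nat_lit 11) [(nat_lit 19, Int.ofNat (nat_lit 0)), (nat_lit 20, Int.ofNat (nat_lit 0)), (nat_lit 21, Int.ofNat (nat_lit 0)), (nat_lit 22, Int.ofNat (nat_lit 0)), (nat_lit 23, Int.ofNat (nat_lit 0)), (nat_lit 24, Int.ofNat (nat_lit 0)), (nat_lit 25, Int.ofNat (nat_lit 0)), (nat_lit 26, Int.ofNat (nat_lit 0))] (Tr.nd (Tr.nd Tr.nil (nat_lit 12) [(nat_lit 40, Int.ofNat (nat_lit 0)), (nat_lit 41, Int.ofNat (nat_lit 0)), (nat_lit 42, Int.ofNat (nat_lit 0)), (nat_lit 43, Int.ofNat (nat_lit 0)), (nat_lit 44, Int.ofNat (nat_lit 0)), (nat_lit 45, Int.ofNat (nat_lit 0)), (nat_lit 46, Int.ofNat (nat_lit 0))] Tr.nil) (nat_lit 13) [(nat_lit 69, Int.ofNat (nat_lit 0))] Tr.nil))) (nat_lit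 16) [(nat_lit 5, Int.ofNat (nat_lit 0))] (Tr.nd (Tr.nd (Tr.nd (Tr.nd Tr.nil (nat_lit 17) [(nat_lit 12, Int.ofNat (nat_lit 0)), (nat_lit 13, Int.ofNat (nat_lit 0)), (nat_lit 14, Int.ofNat (nat_lit 0))] Tr.nil) (nat_lit 18) [(nat_lit 27, Int.ofNat (nat_lit 0)), (nat_lit 28, Int.ofNat (nat_lit 0)), (nat_lit 29, Int.ofNat (nat_lit 0)), (nat_lit 30, Int.ofNat (nat_lit 0)), (nat_lit 31, Int.ofNat (nat_lit 0)), (nat_lit 32, Int.ofNat (nat_lit 0)), (nat_lit 33, Int.ofNat (nat_lit 0)), (nat_lit 34, Int.ofNat (nat_lit 0))] Tr.nil) (nat_lit 19) [(nat_lit 47, Int.ofNat (nat_lit 0)), (nat_lit 48, Int.ofNat (nat_lit 0)), (nat_lit 49, Int.ofNat (nat_lit 0)), (nat_lit 50, Int.ofNat (nat_lit 0)), (nat_lit 51, Int.ofNat (nat_lit 0)), (nat_lit 52, Int.ofNat (nat_lit 0)), (nat_lit 53, Int.ofNat (nat_lit 0)), (nat_lit 54, Int.ofNat (nat_lit 0)), (nat_lit 55, Int.ofNat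 (nat_lit 0)), (nat_lit 56, Int.ofNat (nat_lit 0)), (nat_lit 57, Int.ofNat (nat_lit 0)), (nat_lit 58, Int.ofNat (nat_lit 0)), (nat_lit 59, Int.ofNat (nat_lit 0)), (nat_lit 60, Int.ofNat (nat_lit 0))] (Tr.nd (Tr.nd Tr.nil (nat_lit 20) [(nat_lit 70, Int.ofNat (nat_lit 0)), (nat_lit 71, Int.ofNat (nat_lit 0)), (nat_lit 72, Int.ofNat (nat_lit 0)), (nat_lit 73, Int.ofNat (nat_lit 0)), (nat_lit 74, Int.ofNat (nat_lit 0))] Tr.nil) (nat_lit 21) [(nat_lit 79, Int.ofNat (nat_lit 0))] Tr.nil)) (nat_lit 24) [(nat_lit 15, Int.ofNat (nat_lit 0))] (Tr.nd (Tr.nd (Tr.nd Tr.nil (nat_lit 25) [(nat_lit 35, Int.ofNat (nat_lit 0)), (nat_lit 36, Int.ofNat (nat_lit 0)), (nat_lit 37, Int.ofNat (nat_lit 0)), (nat_lit 38, Int.ofNat (nat_lit 0))] Tr.nil) (nat_lit 26) [(nat_lit 61, Int.ofNat (nat_lit 0)), (nat_lit 62, Int.ofNat (nat_lit 0)), (nat_lit 63, Int.ofNat (nat_lit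 0)), (nat_lit 64, Int.ofNat (nat_lit 0)), (nat_lit 65, Int.ofNat (nat_lit 0)), (nat_lit 66, Int.ofNat (nat_lit 0)), (nat_lit 67, Int.ofNat (nat_lit 0)), (nat_lit 68, Int.ofNat (nat_lit 0))] Tr.nil) (nat_lit 27) [(nat_lit 75, Int.ofNat (nat_lit 0)), (nat_lit 76, Int.ofNat (nat_lit 0)), (nat_lit 77, Int.ofNat (nat_lit 0)), (nat_lit 78, Int.ofNat (nat_lit 0))] (Tr.nd (Tr.nd Tr.nil (nat_lit 28) [(nat_lit 80, Int.ofNat (nat_lit 0)), (nat_lit 81, Int.ofNat (nat_lit 0))] Tr.nil) (nat_lit 29) [(nat_lit 82, Int.ofNat (nat_lit 0))] Tr.nil))))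

/-- basis elements of given degree -/
def D (q : ℕ) : List ℕ := (TD.get q).map Prod.fst

end Pool.Agent.H3.Alt.N
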