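import Pool.Agent.H3.Alt.Model
import Pool.Agent.H3.Alt.NChk

/-!
# A model in which `[ν, e]` has a coefficient prime to three
-/

set_option autoImplicit false

namespace Pool.Agent.H3.Alt

universe u

theorem nu_model (Φ : Type u) [CommRing Φ] : ∃ (M : Type u) (_ : NonUnitalNonAssocRing M)
    (_ : Module Φ M) (_ : IsScalarTower Φ M M) (_ : SMulCommClass Φ M M)
    (_ : H8Alt.IsAlternative M) (z a b c d e : M) (φ : M →ₗ[Φ] Φ),
    φ (H8Alt.cm (H8Alt.nu z a b c d) e) = ((-176 : ℤ) : Φ) := by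
  obtain ⟨M, i1, i2, i3, i4, i5, ρ, φ, h⟩ := model Φ N.hD N.superAlt 5 1 0 82 (by decide)
    (by decide) (by decide) (by decide +kernel) (by decide +kernel) (Ex.cm nuE (.v 5)) (-176)
    (by decide +kernel)
  refine ⟨M, i1, i2, i3, i4, i5, ρ 0, ρ 1, ρ 2, ρ 3, ρ 4, ρ 5, φ, ?_⟩
  rw [cmnuE_ev] at h
  exact h

end Pool.Agent.H3.Alt
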